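import Pool.Agent.ThriftyBP.Nodes

/-!
# Deterministic thrifty programs need `k ^ (n + 1)` states (Cook, McKenzie, Wehr, Braverman,
Santhanam); a proof with inputs whose tables are constant
-/

namespace Pool.Agent.ThriftyBP

open Finset

section

variable {k n : ℕ} {R : Type}

/-- The node queried by a state. -/
def nd (B : NBP (TVar k n) (Fin k) R) (q : B.Q) : Nd n := node n (B.var q)

/-- Two computations of a deterministic program agree as long as the answers do. -/
theorem det_follow (B : NBP (TVar k n) (Fin k) R) (hdet : B.Deterministic)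
    (I I' : TVar k n → Fin k) (l₁ l₂ : List B.Q) (s : B.Q ⊕ R) (r : R)
    (h : B.Path I s (l₁ ++ l₂) r) (hI : ∀ q ∈ l₁, I (B.var q) = I' (B.var q))
    (l' : List B.Q) (r' : R) (h' : B.Path I' s l' r') :
    ∃ t l₂', l' = l₁ ++ l₂' ∧ B.Path I t l₂ r ∧ B.Path I' t l₂' r' := by
  induction l₁ generalizing s l' with
  | nil => exact ⟨s, l', rfl, h, h'⟩
  | cons q l₁ ih =>
    obtain ⟨rfl, t, h1, h2⟩ := NBP.path_cons.1 h
    cases l' with
    | nil => exact nomatch NBP.path_nil.1 h'
    | cons q' l' =>
      obtain ⟨h0, t', h3, h4⟩ := NBP.path_cons.1 h'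
      obtain rfl := Sum.inl.inj h0
      rw [← hI q List.mem_cons_self] at h3
      obtain rfl := (hdet q (I (B.var q))).unique h1 h3
      obtain ⟨u, l₂', rfl, h5, h6⟩ := ih t h2 (fun q hq => hI q (List.mem_cons_of_mem _ hq)) l' h4
      exact ⟨u, l₂', rfl, h5, h6⟩

variable (B : NBP (TVar k n) (Fin k) R) (g : Fin k → R)

/-- At the start no node is pebbled. -/
theorem peb_start (hk : 2 ≤ k) (hdet : B.Deterministic) (hcomp : B.Computes (fun I => g (val n I)))
    (hthr : Thrifty B) (v : Nd n → Fin k) (l : List B.Q) (r : R)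
    (h : B.Path (inp v) B.start l r) : Peb (l.map (nd B)) = ∅ := by
  classical
  by_contra hne
  obtain ⟨j, hj⟩ := Set.nonempty_iff_ne_empty.2 hne
  obtain ⟨A, p, C, h1, h2, h3⟩ := exists_split_of_mem_peb hj
  obtain ⟨l₁, l₂, rfl, rfl, h5⟩ := List.map_eq_append_iff.1 h1
  obtain ⟨q, l₃, rfl, rfl, rfl⟩ := List.map_eq_cons_iff.1 h5
  obtain ⟨a, ha⟩ : ∃ a : Fin k, a ≠ v j := by
    have : Nontrivial (Fin k) := Fin.nontrivial_iff_two_le.2 hk
    exact exists_ne _
  set v' := Function.update v j a with hv'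
  obtain ⟨l', hl'⟩ := (hcomp (inp v')).1
  have hag : ∀ q' ∈ l₁, inp v (B.var q') = inp v' (B.var q') := by
    intro q' hq'
    have hne : nd B q' ≠ j := by
      rintro rfl
      exact h3 (List.mem_map_of_mem hq')
    change v (nd B q') = v' (nd B q')
    rw [hv', Function.update_of_ne hne]
  obtain ⟨t, l₂', rfl, h6, h7⟩ := det_follow B hdet _ _ l₁ (q :: l₃) B.start r h hag l' _ hl'
  obtain ⟨rfl, _⟩ := NBP.path_cons.1 h6
  cases l₂' with
  | nil => exact nomatch NBP.path_nil.1 h7
  | cons q' l₂' =>
    obtain ⟨h8, _⟩ := NBP.path_cons.1 h7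
    obtain rfl := Sum.inl.inj h8
    have t1 := hthr (inp v) _ r h q (by simp)
    have t2 := hthr (inp v') _ _ hl' q (by simp)
    have := thrifty_child n v v' (B.var q) t1 t2 j h2
    rw [hv', Function.update_self] at this
    exact ha this.symm

/-- The root is queried. -/
theorem root_mem (hg : ∃ a b, g a ≠ g b) (hdet : B.Deterministic)
    (hcomp : B.Computes (fun I => g (val n I)))
    (v : Nd n → Fin k) (l : List B.Q) (r : R)
    (h : B.Path (inp v) B.start l r) : Nd.root n ∈ l.map (nd B) := by
  classical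
  by_contra hne
  obtain ⟨a, ha⟩ : ∃ a : Fin k, g a ≠ g (v (Nd.root n)) := by
    obtain ⟨a, b, hab⟩ := hg
    by_cases h1 : g a = g (v (Nd.root n))
    · exact ⟨b, fun h2 => hab (h1.trans h2.symm)⟩
    · exact ⟨a, h1⟩
  set v' := Function.update v (Nd.root n) a with hv'
  obtain ⟨l', hl'⟩ := (hcomp (inp v')).1
  have hag : ∀ q' ∈ l, inp v (B.var q') = inp v' (B.var q') := by
    intro q' hq'
    have hne : nd B q' ≠ Nd.root n := by
      intro h
      exact hne (h ▸ List.mem_map_of_mem hq')
    change v (nd B q') = v' (nd B q')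
    rw [hv', Function.update_of_ne hne]
  obtain ⟨t, l₂', rfl, h6, h7⟩ := det_follow B hdet _ _ l [] B.start r (by simpa using h) hag l' _ hl'
  have h8 := NBP.path_nil.1 h6
  subst h8
  cases l₂' with
  | cons q' l₂' => exact nomatch (NBP.path_cons.1 h7).1
  | nil =>
    have h9 := Sum.inr.inj (NBP.path_nil.1 h7)
    have h10 := (hcomp (inp v)).2 _ _ h
    rw [h9] at h10
    simp only [val_inp] at h10
    rw [hv', Function.update_self] at h10
    exact ha h10

end

/-- The critical state of a labelling. -/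
theorem exists_critical {k n : ℕ} {R : Type} (hn : 1 ≤ n) (B : NBP (TVar k n) (Fin k) R)
    (g : Fin k → R) (hk : 2 ≤ k) (hg : ∃ a b, g a ≠ g b) (hdet : B.Deterministic)
    (hcomp : B.Computes (fun I => g (val n I))) (hthr : Thrifty B) (v : Nd n → Fin k) :
    ∃ (q : B.Q) (l : List B.Q) (r : R), B.Path (inp v) (Sum.inl q) (q :: l) r ∧
      (∀ q' ∈ q :: l, IsThrifty n (inp v) (B.var q')) ∧
      n + 1 ≤ (Peb ((q :: l).map (nd B))).ncard := by
  obtain ⟨m, rfl⟩ : ∃ m, n = m + 1 := ⟨n - 1, by omega⟩
  obtain ⟨l, hl⟩ := (hcomp (inp v)).1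
  have h0 := peb_start B g hk hdet hcomp hthr v l _ hl
  have h1 := root_mem B g hg hdet hcomp v l _ hl
  set L := l.map (nd B) with hL
  obtain ⟨A, C, hAC⟩ := List.append_of_mem h1
  have hb : ∀ j, Nd.Child (m + 1) (Nd.root (m + 1)) j → j ∈ Peb (L.drop A.length) := by
    intro j hj
    rw [hAC, List.drop_left]
    exact Or.inl hj
  obtain ⟨i, _, hi, h3⟩ := pebble_children m (fun i => Peb (L.drop i)) 0 A.length (Nat.zero_le _)
    h0 hb (by
      intro i _ hi
      have hlen : i < L.length := by
        rw [hAC, List.length_append, List.length_cons]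
        omega
      change Move (Peb (L.drop i)) (Peb (L.drop (i + 1)))
      rw [List.drop_eq_getElem_cons hlen]
      exact move_peb _ _)
  have hlen : i < l.length := by
    have : L.length = l.length := by rw [hL, List.length_map]
    rw [← this, hAC, List.length_append, List.length_cons]
    omega
  have hsplit : l = l.take i ++ l[i] :: l.drop (i + 1) := by
    rw [← List.drop_eq_getElem_cons hlen, List.take_append_drop]
  have hp : B.Path (inp v) B.start (l.take i ++ l[i] :: l.drop (i + 1)) (g (val (m + 1) (inp v))) := by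
    rw [← hsplit]
    exact hl
  obtain ⟨t, l₂', h4, h5, _⟩ := det_follow B hdet (inp v) (inp v) _ _ _ _ hp (fun _ _ => rfl) _ _ hp
  obtain ⟨rfl, h6⟩ := NBP.path_cons.1 h5
  refine ⟨l[i], l.drop (i + 1), _, h5, ?_, ?_⟩
  · intro q' hq'
    refine hthr (inp v) l _ hl q' ?_
    rw [hsplit]
    exact List.mem_append_right _ hq'
  · rw [← List.drop_eq_getElem_cons hlen, List.map_drop]
    exact h3

/-- From a common state two labellings that agree with a third one off their pebbled nodes are
equal. -/
theorem eq_of_common {k n : ℕ} {R : Type} (B : NBP (TVar k n) (Fin k) R) (hdet : B.Deterministic)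
    (v v' J : Nd n → Fin k) (s₀ l₀ l₀' : List B.Q)
    (hv : ∀ j, j ∉ Peb (l₀.map (nd B)) → J j = v j)
    (hv' : ∀ j, j ∉ Peb (l₀'.map (nd B)) → J j = v' j)
    (ht : ∀ q ∈ l₀, IsThrifty n (inp v) (B.var q))
    (ht' : ∀ q ∈ l₀', IsThrifty n (inp v') (B.var q))
    (l l' : List B.Q) (s : B.Q ⊕ R) (r r' : R)
    (h : B.Path (inp v) s l r) (h' : B.Path (inp v') s l' r')
    (hl : l₀ = s₀ ++ l) (hl' : l₀' = s₀ ++ l') : v = v' := by
  induction l generalizing s₀ l' s with
  | nil =>
    have h1 := NBP.path_nil.1 h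
    subst h1
    cases l' with
    | cons q' l' => exact nomatch (NBP.path_cons.1 h').1
    | nil =>
      have hll : l₀' = l₀ := by rw [hl, hl']
      rw [hll] at hv' ht'
      funext j
      by_cases hj : j ∈ Peb (l₀.map (nd B))
      · obtain ⟨p, hp, hpj⟩ := exists_parent_of_mem_peb hj
        obtain ⟨q, hq, rfl⟩ := List.mem_map.1 hp
        exact thrifty_child n v v' (B.var q) (ht q hq) (ht' q hq) j hpj
      · rw [← hv j hj, hv' j hj]
  | cons q l ih =>
    obtain ⟨rfl, t, h1, h2⟩ := NBP.path_cons.1 h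
    cases l' with
    | nil => exact nomatch NBP.path_nil.1 h'
    | cons q' l' =>
      obtain ⟨h0, t', h3, h4⟩ := NBP.path_cons.1 h'
      obtain rfl := Sum.inl.inj h0
      have key : v (nd B q) = v' (nd B q) := by
        by_cases hj : nd B q ∈ Peb (l₀.map (nd B))
        · rw [hl, List.map_append, List.map_cons] at hj
          obtain ⟨p, hp, hpj⟩ := exists_parent_before hj
          obtain ⟨q₁, hq₁, rfl⟩ := List.mem_map.1 hp
          refine thrifty_child n v v' (B.var q₁) (ht q₁ ?_) (ht' q₁ ?_) _ hpj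
          · rw [hl]
            exact List.mem_append_left _ hq₁
          · rw [hl']
            exact List.mem_append_left _ hq₁
        · by_cases hj' : nd B q ∈ Peb (l₀'.map (nd B))
          · rw [hl', List.map_append, List.map_cons] at hj'
            obtain ⟨p, hp, hpj⟩ := exists_parent_before hj'
            obtain ⟨q₁, hq₁, rfl⟩ := List.mem_map.1 hp
            refine thrifty_child n v v' (B.var q₁) (ht q₁ ?_) (ht' q₁ ?_) _ hpj
            · rw [hl]
              exact List.mem_append_left _ hq₁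
            · rw [hl']
              exact List.mem_append_left _ hq₁
          · rw [← hv _ hj, hv' _ hj']
      have hI : inp v (B.var q) = inp v' (B.var q) := key
      rw [← hI] at h3
      obtain rfl := (hdet q (inp v (B.var q))).unique h1 h3
      exact ih (s₀ ++ [q]) l' t h2 h4 (by rw [hl]; simp) (by rw [hl']; simp)

/-- The lower bound for deterministic thrifty programs. -/
theorem det_lower {k n : ℕ} {R : Type} [Fintype R] (hn : 1 ≤ n) (B : NBP (TVar k n) (Fin k) R)
    (g : Fin k → R) (hg : ∃ a b, g a ≠ g b) (hdet : B.Deterministic)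
    (hcomp : B.Computes (fun I => g (val n I))) (hthr : Thrifty B) :
    k ^ (n + 1) ≤ B.size := by
  classical
  let _ := B.finQ
  have hk : 2 ≤ k := by
    obtain ⟨a, b, hab⟩ := hg
    have : a ≠ b := fun h => hab (h ▸ rfl)
    have ha := a.isLt
    have hb := b.isLt
    have : (a : ℕ) ≠ b := fun h => this (Fin.ext h)
    omega
  choose q l r hp ht hc using exists_critical hn B g hk hg hdet hcomp hthr
  have hS : ∀ v : Nd n → Fin k, ∃ S : Finset (Nd n),
      (S : Set (Nd n)) ⊆ Peb ((q v :: l v).map (nd B)) ∧ S.card = n + 1 := by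
    intro v
    have hfin : (Peb ((q v :: l v).map (nd B))).Finite := Set.toFinite _
    have h1 : n + 1 ≤ hfin.toFinset.card := by
      rw [← Set.ncard_eq_toFinset_card _ hfin]
      exact hc v
    obtain ⟨S, hS1, hS2⟩ := Finset.exists_subset_card_eq h1
    exact ⟨S, fun j hj => hfin.mem_toFinset.1 (hS1 hj), hS2⟩
  choose S hS1 hS2 using hS
  let T : (Nd n → Fin k) → Finset (Nd n → Fin k) := fun v =>
    Fintype.piFinset fun j => if j ∈ S v then Finset.univ else {v j}
  have hT : ∀ v, (T v).card = k ^ (n + 1) := by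
    intro v
    rw [Fintype.card_piFinset]
    have : ∀ j, (if j ∈ S v then (Finset.univ : Finset (Fin k)) else {v j}).card =
        if j ∈ S v then k else 1 := by
      intro j
      split_ifs <;> simp
    rw [Finset.prod_congr rfl (fun j _ => this j), Finset.prod_ite, Finset.prod_const,
      Finset.prod_const_one, mul_one, Finset.filter_univ_mem, hS2 v]
  have hTm : ∀ v J, J ∈ T v → ∀ j, j ∉ Peb ((q v :: l v).map (nd B)) → J j = v j := by
    intro v J hJ j hj
    have := Fintype.mem_piFinset.1 hJ j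
    rw [if_neg (fun h : j ∈ S v => hj (hS1 v h))] at this
    exact Finset.mem_singleton.1 this
  have hinj : Set.InjOn (fun p : (Σ _ : Nd n → Fin k, (Nd n → Fin k)) => (q p.1, p.2))
      ((Finset.univ : Finset (Nd n → Fin k)).sigma T) := by
    rintro ⟨v, J⟩ hvJ ⟨v', J'⟩ hvJ' heq
    simp only [Finset.coe_sigma, Set.mem_sigma_iff, Finset.coe_univ, Set.mem_univ, true_and,
      Finset.mem_coe] at hvJ hvJ'
    simp only [Prod.mk.injEq] at heq
    obtain ⟨hq, rfl⟩ := heq
    have hp' := hp v'
    rw [← hq] at hp'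
    obtain rfl := eq_of_common B hdet v v' J [] (q v :: l v) (q v :: l v') (hTm v J hvJ)
      (by rw [hq]; exact hTm v' J hvJ') (ht v) (by rw [hq]; exact ht v') _ _ _ _ _ (hp v) hp'
      rfl rfl
    rfl
  have hcard := Finset.card_le_card_of_injOn _ (t := (Finset.univ : Finset (B.Q × (Nd n → Fin k))))
    (fun _ _ => Finset.mem_coe.2 (Finset.mem_univ _)) hinj
  rw [Finset.card_sigma, Finset.sum_congr rfl (fun v _ => hT v), Finset.sum_const,
    Finset.card_univ, Finset.card_univ, Fintype.card_prod, smul_eq_mul] at hcard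
  have hpos : 0 < Fintype.card (Nd n → Fin k) :=
    Fintype.card_pos_iff.2 ⟨fun _ => ⟨0, by omega⟩⟩
  have h2 : k ^ (n + 1) ≤ Fintype.card B.Q := by
    rw [mul_comm] at hcard
    exact Nat.le_of_mul_le_mul_right hcard hpos
  exact h2.trans (Nat.le_add_right _ _)

end Pool.Agent.ThriftyBP
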