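import Pool.Agent.ThriftyBP.WordsCount
import Pool.Agent.ThriftyBP.DetLower

/-!
# Time and size of nondeterministic thrifty programs for tree evaluation
-/

namespace Pool.Agent.ThriftyBP

/-- The address of a node. -/
def addr : (n : ℕ) → Nd n → List Bool
  | 0, _ => []
  | _ + 1, none => []
  | n + 1, some (b, i) => b :: addr n i

theorem length_addr (n : ℕ) (i : Nd n) : (addr n i).length ≤ n := by
  induction n with
  | zero => exact le_rfl
  | succ n ih =>
    rcases i with _ | ⟨b, i⟩
    · exact Nat.zero_le _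
    · have := ih i
      change (b :: addr n i).length ≤ n + 1
      simp only [List.length_cons]
      omega

theorem addr_root (n : ℕ) : addr n (Nd.root n) = [] := by
  cases n <;> rfl

theorem addr_injective (n : ℕ) : Function.Injective (addr n) := by
  induction n with
  | zero => intro i j _; rfl
  | succ n ih =>
    intro i j h
    rcases i with _ | ⟨b, i⟩
    · rcases j with _ | ⟨c, j⟩
      · rfl
      · have h' : ([] : List Bool) = c :: addr n j := h
        exact nomatch h'
    · rcases j with _ | ⟨c, j⟩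
      · have h' : b :: addr n i = [] := h
        exact nomatch h'
      · have h' : b :: addr n i = c :: addr n j := h
        simp only [List.cons.injEq] at h'
        obtain ⟨rfl, h'⟩ := h'
        rw [ih h']

theorem exists_addr (n : ℕ) (j : List Bool) (hj : j.length ≤ n) : ∃ i : Nd n, addr n i = j := by
  induction n generalizing j with
  | zero =>
    have : j = [] := List.length_eq_zero_iff.1 (by omega)
    exact ⟨(), this.symm⟩
  | succ n ih =>
    cases j with
    | nil => exact ⟨none, rfl⟩
    | cons b j =>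
      simp only [List.length_cons] at hj
      obtain ⟨i, hi⟩ := ih j (by omega)
      exact ⟨some (b, i), by change b :: addr n i = b :: j; rw [hi]⟩

theorem child_of_addr (n : ℕ) (p i : Nd n) (b : Bool) (h : addr n i = addr n p ++ [b]) :
    Nd.Child n p i := by
  induction n with
  | zero =>
    have := congrArg List.length h
    simp [addr] at this
  | succ n ih =>
    rcases i with _ | ⟨c, i⟩
    · have := congrArg List.length h
      simp [addr] at this
    · rcases p with _ | ⟨d, p⟩
      · have h' : c :: addr n i = [b] := h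
        simp only [List.cons.injEq] at h'
        exact addr_injective n (h'.2.trans (addr_root n).symm)
      · have h' : c :: addr n i = d :: (addr n p ++ [b]) := h
        simp only [List.cons.injEq] at h'
        exact ⟨h'.1.symm, ih p i h'.2⟩

theorem card_nd (n : ℕ) : Fintype.card (Nd n) + 1 = 2 ^ (n + 1) := by
  induction n with
  | zero => rfl
  | succ n ih =>
    have h : Fintype.card (Nd (n + 1)) = Fintype.card (Option (Bool × Nd n)) := rfl
    rw [h, Fintype.card_option, Fintype.card_prod, Fintype.card_bool, pow_succ, ← ih]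
    ring

namespace NBP

variable {X V R : Type}

/-- A computation from a state to a state. -/
def Walk (B : NBP X V R) (I : X → V) : List B.Q → B.Q ⊕ R → B.Q ⊕ R → Prop
  | [], s, t => s = t
  | q :: l, s, t => s = Sum.inl q ∧ ∃ s', B.edge q (I (B.var q)) s' ∧ Walk B I l s' t

theorem path_append {B : NBP X V R} {I : X → V} {s : B.Q ⊕ R} {l l' : List B.Q} {z : R} :
    B.Path I s (l ++ l') z ↔ ∃ t, B.Walk I l s t ∧ B.Path I t l' z := by
  induction l generalizing s with
  | nil => simp [Walk]
  | cons q l ih =>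
    rw [List.cons_append, path_cons]
    constructor
    · rintro ⟨h1, u, h2, h3⟩
      obtain ⟨t, h4, h5⟩ := ih.1 h3
      exact ⟨t, ⟨h1, u, h2, h4⟩, h5⟩
    · rintro ⟨t, ⟨h1, u, h2, h4⟩, h5⟩
      exact ⟨h1, u, h2, ih.2 ⟨t, h4, h5⟩⟩

theorem walk_congr {B : NBP X V R} {I I' : X → V} {s t : B.Q ⊕ R} {l : List B.Q}
    (h : B.Walk I l s t) (hI : ∀ q ∈ l, I (B.var q) = I' (B.var q)) : B.Walk I' l s t := by
  induction l generalizing s with
  | nil => exact h
  | cons q l ih =>
    obtain ⟨h1, u, h2, h3⟩ := h
    rw [hI q List.mem_cons_self] at h2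
    exact ⟨h1, u, h2, ih h3 fun q' hq' => hI q' (List.mem_cons_of_mem _ hq')⟩

theorem path_congr {B : NBP X V R} {I I' : X → V} {s : B.Q ⊕ R} {l : List B.Q} {z : R}
    (h : B.Path I s l z) (hI : ∀ q ∈ l, I (B.var q) = I' (B.var q)) : B.Path I' s l z := by
  induction l generalizing s with
  | nil =>
    rw [path_nil] at h ⊢
    exact h
  | cons q l ih =>
    rw [path_cons] at h ⊢
    obtain ⟨h1, u, h2, h3⟩ := h
    rw [hI q List.mem_cons_self] at h2
    exact ⟨h1, u, h2, ih h3 fun q' hq' => hI q' (List.mem_cons_of_mem _ hq')⟩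

end NBP

section

variable {k n : ℕ} {R : Type} (B : NBP (TVar k n) (Fin k) R) (g : Fin k → R)

/-- The word of the addresses of the nodes queried on a computation. -/
def word (l : List B.Q) : List (List Bool) := l.map fun q => addr n (nd B q)

theorem full_word (hk : 2 ≤ k) (hg : ∃ a b, g a ≠ g b)
    (hcomp : B.Computes (fun I => g (val n I)))
    (hthr : Thrifty B) (v : Nd n → Fin k) (l : List B.Q) (r : R)
    (h : B.Path (inp v) B.start l r) : Words.Full n [] (word B l) := by
  classical
  have hupd : ∀ (i : Nd n) (a : Fin k), i ∉ l.map (nd B) →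
      B.Path (inp (Function.update v i a)) B.start l r := by
    intro i a hi
    refine NBP.path_congr h fun q hq => ?_
    have hne : nd B q ≠ i := by
      rintro rfl
      exact hi (List.mem_map_of_mem hq)
    change v (nd B q) = Function.update v i a (nd B q)
    rw [Function.update_of_ne hne]
  have key : ∀ j : List Bool, j.length ≤ n → j ∈ word B l := by
    intro j
    induction j using List.reverseRecOn with
    | nil =>
      intro _
      have : Nd.root n ∈ l.map (nd B) := by
        by_contra hne
        obtain ⟨a, ha⟩ : ∃ a : Fin k, g a ≠ g (v (Nd.root n)) := by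
          obtain ⟨a, b, hab⟩ := hg
          by_cases h1 : g a = g (v (Nd.root n))
          · exact ⟨b, fun h2 => hab (h1.trans h2.symm)⟩
          · exact ⟨a, h1⟩
        have h1 := (hcomp _).2 _ _ (hupd _ a hne)
        have h2 := (hcomp _).2 _ _ h
        rw [h2] at h1
        simp only [val_inp, Function.update_self] at h1
        exact ha h1.symm
      obtain ⟨q, hq, hq'⟩ := List.mem_map.1 this
      refine List.mem_map.2 ⟨q, hq, ?_⟩
      rw [hq', addr_root]
    | append_singleton p b ih =>
      intro hlen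
      simp only [List.length_append, List.length_cons, List.length_nil] at hlen
      obtain ⟨q, hq, hq'⟩ := List.mem_map.1 (ih (by omega))
      obtain ⟨i, hi⟩ := exists_addr n (p ++ [b]) (by simpa using hlen)
      have hc : Nd.Child n (nd B q) i := child_of_addr n _ _ b (by rw [hi, hq'])
      have : i ∈ l.map (nd B) := by
        by_contra hne
        obtain ⟨a, ha⟩ : ∃ a : Fin k, a ≠ v i := by
          have : Nontrivial (Fin k) := Fin.nontrivial_iff_two_le.2 hk
          exact exists_ne _
        have t1 := hthr _ _ _ h q hq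
        have t2 := hthr _ _ _ (hupd i a hne) q hq
        have := thrifty_child n _ _ _ t1 t2 i hc
        rw [Function.update_self] at this
        exact ha this.symm
      obtain ⟨q', hq1, hq2⟩ := List.mem_map.1 this
      refine List.mem_map.2 ⟨q', hq1, ?_⟩
      rw [hq2, hi]
  intro j hj
  exact key _ hj

/-- The critical window of a labelling. -/
theorem exists_window (hk : 2 ≤ k) (hg : ∃ a b, g a ≠ g b)
    (hcomp : B.Computes (fun I => g (val n I))) (hthr : Thrifty B) {T t w : ℕ} (hw : 1 ≤ w)
    (hn : 10 * w * t ≤ n) (hT : 4 ^ t * T < 7 ^ t * 2 ^ n)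
    (htime : ∀ I, ∃ l z, B.Path I B.start l z ∧ l.length ≤ T) (v : Nd n → Fin k) :
    ∃ (A V C : List B.Q) (z : R) (S : Finset (Nd n)), B.Path (inp v) B.start (A ++ V ++ C) z ∧
      S.card = w ∧ ∀ i ∈ S, i ∉ V.map (nd B) ∧ ∃ q ∈ V, Nd.Child n (nd B q) i := by
  classical
  obtain ⟨l, z, hl, hlen⟩ := htime (inp v)
  have hfull := full_word B g hk hg hcomp hthr v l _ hl
  have hex : ∃ A V C, word B l = A ++ V ++ C ∧ w ≤ (Words.viol n [] V).ncard := by
    by_contra hcon
    push Not at hcon
    have h1 := Words.long_word hw hfull hcon t hn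
    have h2 : (word B l).length = l.length := by simp [word]
    rw [h2] at h1
    have h3 := Nat.mul_le_mul_left (4 ^ t) hlen
    omega
  obtain ⟨A', V', C', h1, h2⟩ := hex
  obtain ⟨AV, C, h3, h4, rfl⟩ := List.map_eq_append_iff.1 h1
  obtain ⟨A, V, rfl, rfl, rfl⟩ := List.map_eq_append_iff.1 h4
  have h5 : Words.viol n [] (V.map fun q => addr n (nd B q)) =
      addr n '' (addr n ⁻¹' Words.viol n [] (V.map fun q => addr n (nd B q))) := by
    rw [Set.image_preimage_eq_of_subset]
    intro j hj
    exact exists_addr n j hj.1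
  rw [h5, Set.ncard_image_of_injective _ (addr_injective n)] at h2
  have hfin : (addr n ⁻¹' Words.viol n [] (V.map fun q => addr n (nd B q))).Finite :=
    Set.toFinite _
  rw [Set.ncard_eq_toFinset_card _ hfin] at h2
  obtain ⟨S, hS1, hS2⟩ := Finset.exists_subset_card_eq h2
  refine ⟨A, V, C, _, S, h3 ▸ hl, hS2, fun i hi => ?_⟩
  have h6 := hfin.mem_toFinset.1 (hS1 hi)
  obtain ⟨_, h7, p, b, _, h8, h9, _⟩ := h6
  refine ⟨fun h => h7 ?_, ?_⟩
  · obtain ⟨q, hq, rfl⟩ := List.mem_map.1 h
    exact List.mem_map.2 ⟨q, hq, rfl⟩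
  · obtain ⟨q, hq, rfl⟩ := List.mem_map.1 h9
    exact ⟨q, hq, child_of_addr n _ _ b h8⟩

end

/-- The lower bound for the size of nondeterministic thrifty programs with short computations. -/
theorem time_lower {k n : ℕ} {R : Type} [Fintype R] (B : NBP (TVar k n) (Fin k) R)
    (g : Fin k → R) (hg : ∃ a b, g a ≠ g b)
    (hcomp : B.Computes (fun I => g (val n I))) (hthr : Thrifty B) {T t w : ℕ} (hw : 1 ≤ w)
    (hn : 10 * w * t ≤ n) (hT : 4 ^ t * T < 7 ^ t * 2 ^ n)
    (htime : ∀ I, ∃ l z, B.Path I B.start l z ∧ l.length ≤ T) :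
    k ^ w ≤ 2 ^ ((n + 1) * w) * B.size ^ 2 := by
  classical
  let _ := B.finQ
  have hk : 2 ≤ k := by
    obtain ⟨a, b, hab⟩ := hg
    have : a ≠ b := fun h => hab (h ▸ rfl)
    have ha := a.isLt
    have hb := b.isLt
    have : (a : ℕ) ≠ b := fun h => this (Fin.ext h)
    omega
  choose A V C z S hp hS hc using exists_window B g hk hg hcomp hthr hw hn hT htime
  have hst : ∀ v, ∃ s₁ s₂, B.Walk (inp v) (A v) B.start s₁ ∧ B.Walk (inp v) (V v) s₁ s₂ ∧
      B.Path (inp v) s₂ (C v) (z v) := by
    intro v
    have h := hp v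
    rw [List.append_assoc] at h
    obtain ⟨s₁, h1, h2⟩ := NBP.path_append.1 h
    obtain ⟨s₂, h3, h4⟩ := NBP.path_append.1 h2
    exact ⟨s₁, s₂, h1, h3, h4⟩
  choose s₁ s₂ w1 w2 w3 using hst
  -- the splicing argument
  have key : ∀ v v' : Nd n → Fin k, s₁ v = s₁ v' → s₂ v = s₂ v' → S v = S v' →
      (∀ i, i ∉ S v → v i = v' i) → v = v' := by
    intro v v' e1 e2 e3 e4
    have hV : ∀ q ∈ V v', inp v' (B.var q) = inp v (B.var q) := by
      intro q hq
      have : nd B q ∉ S v := by
        intro hmem
        rw [e3] at hmem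
        exact (hc v' _ hmem).1 (List.mem_map_of_mem hq)
      exact (e4 _ this).symm
    have hpath : B.Path (inp v) B.start (A v ++ (V v' ++ C v)) (z v) := by
      refine NBP.path_append.2 ⟨s₁ v, w1 v, NBP.path_append.2 ⟨s₂ v, ?_, w3 v⟩⟩
      have := NBP.walk_congr (w2 v') hV
      rw [e1, e2]
      exact this
    funext i
    by_cases hi : i ∈ S v
    · rw [e3] at hi
      obtain ⟨q, hq, hqi⟩ := (hc v' i hi).2
      refine thrifty_child n v v' (B.var q) (hthr _ _ _ hpath q (by simp [hq]))
        (hthr _ _ _ (hp v') q (by simp [hq])) i hqi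
    · exact e4 i hi
  let f : (Nd n → Fin k) → (B.Q ⊕ R) × (B.Q ⊕ R) × Finset (Nd n) := fun v => (s₁ v, s₂ v, S v)
  have hwN : ∀ v, w ≤ Fintype.card (Nd n) := fun v => by
    rw [← hS v]
    exact Finset.card_le_univ _
  have hfib : ∀ a ∈ (Finset.univ : Finset (Nd n → Fin k)).image f,
      (Finset.univ.filter fun v => f v = a).card ≤ k ^ (Fintype.card (Nd n) - w) := by
    intro a ha
    obtain ⟨v₀, _, rfl⟩ := Finset.mem_image.1 ha
    have hcard : (Finset.univ : Finset ({i : Nd n // i ∉ S v₀} → Fin k)).card =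
        k ^ (Fintype.card (Nd n) - w) := by
      rw [Finset.card_univ, Fintype.card_fun, Fintype.card_fin, Fintype.card_subtype_compl,
        Fintype.card_coe, hS]
    rw [← hcard]
    refine Finset.card_le_card_of_injOn (fun v i => v i.1) (fun _ _ => Finset.mem_univ _) ?_
    intro v hv v' hv' he
    simp only [Finset.coe_filter, Finset.mem_univ, true_and, Set.mem_ofPred_eq, f,
      Prod.mk.injEq] at hv hv'
    refine key v v' (hv.1.trans hv'.1.symm) (hv.2.1.trans hv'.2.1.symm)
      (hv.2.2.trans hv'.2.2.symm) fun i hi => ?_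
    exact congrFun he ⟨i, fun h => hi (by rw [hv.2.2]; exact h)⟩
  have h1 := Finset.card_le_mul_card_image Finset.univ _ hfib
  have h2 : (Finset.univ.image f).card ≤ B.size * (B.size * Fintype.card (Nd n) ^ w) := by
    have hsub : Finset.univ.image f ⊆ (Finset.univ : Finset (B.Q ⊕ R)) ×ˢ
        ((Finset.univ : Finset (B.Q ⊕ R)) ×ˢ Finset.powersetCard w (Finset.univ : Finset (Nd n))) := by
      intro a ha
      obtain ⟨v₀, _, rfl⟩ := Finset.mem_image.1 ha
      simp only [Finset.mem_product, Finset.mem_univ, true_and, Finset.mem_powersetCard,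
        Finset.subset_univ, f]
      exact hS v₀
    refine (Finset.card_le_card hsub).trans ?_
    rw [Finset.card_product, Finset.card_product, Finset.card_powersetCard, Finset.card_univ,
      Finset.card_univ, Fintype.card_sum]
    exact Nat.mul_le_mul_left _ (Nat.mul_le_mul_left _ (Nat.choose_le_pow _ _))
  have h3 : (Finset.univ : Finset (Nd n → Fin k)).card = k ^ Fintype.card (Nd n) := by
    rw [Finset.card_univ, Fintype.card_fun, Fintype.card_fin]
  rw [h3] at h1
  have hwN' := hwN fun _ => ⟨0, by omega⟩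
  have h4 : k ^ Fintype.card (Nd n) = k ^ (Fintype.card (Nd n) - w) * k ^ w := by
    rw [← pow_add]
    congr 1
    omega
  rw [h4] at h1
  have h5 := Nat.le_of_mul_le_mul_left h1 (by positivity)
  calc k ^ w ≤ _ := h5
    _ ≤ B.size * (B.size * Fintype.card (Nd n) ^ w) := h2
    _ = Fintype.card (Nd n) ^ w * B.size ^ 2 := by ring
    _ ≤ 2 ^ ((n + 1) * w) * B.size ^ 2 := by
        rw [pow_mul]
        refine Nat.mul_le_mul_right _ (Nat.pow_le_pow_left ?_ w)
        rw [← card_nd]
        omega

end Pool.Agent.ThriftyBP
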