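import Mathlib

/-!
# Branching programs and the tree evaluation problem

Definitions only: nondeterministic `k`-way branching programs, the tree evaluation problem
`FT_2^h(k)` of Cook, McKenzie, Wehr, Braverman and Santhanam, and thrifty programs.
-/

namespace Pool.Agent.ThriftyBP

/-- A nondeterministic branching program over input variables `X` with values in `V`
(for `V = Fin k` this is a `k`-way program), computing a function with finite range `R`.
Its states are the non-final states `Q`, each labelled with the variable `var q` it queries, and
one final state for each element of `R`.  `edge q v s` says that there is an edge from the
non-final state `q` to the state `s` labelled with the value `v`. -/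
structure NBP (X V R : Type) where
  /-- the non-final states -/
  Q : Type
  /-- there are finitely many of them -/
  finQ : Fintype Q
  /-- the variable that a non-final state queries -/
  var : Q → X
  /-- the start state -/
  start : Q ⊕ R
  /-- the labelled edges -/
  edge : Q → V → Q ⊕ R → Prop

namespace NBP

variable {X V R : Type}

/-- The number of states, final ones included. -/
noncomputable def size [Fintype R] (B : NBP X V R) : ℕ :=
  letI := B.finQ
  Fintype.card B.Q + Fintype.card R

/-- `B.Path I s l r`: on input `I` there is a computation from the state `s` to the final state
`r` whose non-final states are, in this order, those of the list `l`. -/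
inductive Path (B : NBP X V R) (I : X → V) : B.Q ⊕ R → List B.Q → R → Prop
  | final (r : R) : Path B I (Sum.inr r) [] r
  | step {q : B.Q} {s : B.Q ⊕ R} {l : List B.Q} {r : R} :
      B.edge q (I (B.var q)) s → Path B I s l r → Path B I (Sum.inl q) (q :: l) r

/-- `B` computes `f`: on every input some computation ends in a final state, and every
computation that ends in a final state ends in the one labelled with the value of `f`. -/
def Computes (B : NBP X V R) (f : (X → V) → R) : Prop :=
  ∀ I : X → V, (∃ l, B.Path I B.start l (f I)) ∧ ∀ l r, B.Path I B.start l r → r = f I

/-- `B` is deterministic: each non-final state has exactly one edge for each value. -/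
def Deterministic (B : NBP X V R) : Prop :=
  ∀ (q : B.Q) (v : V), ∃! s, B.edge q v s

/-- `B` is unambiguous: on every input at most one computation ends in a final state. -/
def Unambiguous (B : NBP X V R) : Prop :=
  ∀ (I : X → V) (l l' : List B.Q) (r r' : R),
    B.Path I B.start l r → B.Path I B.start l' r' → l = l'

end NBP

/-- The input variables of tree evaluation over the complete binary tree with `n + 1` levels:
a single leaf has one variable; a tree of `n + 2` levels has one variable for each entry
`(a, b)` of the table of the function at the root, and the variables of its left subtree
(`false`) and of its right subtree (`true`). -/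
def TVar (k : ℕ) : ℕ → Type
  | 0 => Unit
  | n + 1 => (Fin k × Fin k) ⊕ (Bool × TVar k n)

/-- The part of an input that belongs to the left (`false`) or right (`true`) subtree. -/
def sub {k n : ℕ} (I : TVar k (n + 1) → Fin k) (b : Bool) : TVar k n → Fin k :=
  fun x => I (Sum.inr (b, x))

/-- The value of the root: a leaf has its input value, an inner node has the entry of its table
at the pair of values of its two children. -/
def val {k : ℕ} : (n : ℕ) → (TVar k n → Fin k) → Fin k
  | 0, I => I ()
  | n + 1, I => I (Sum.inl (val n (sub I false), val n (sub I true)))

/-- The variable `x` is thrifty for the input `I`: it is a leaf variable, or it is the entry of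
the table of an inner node at the pair of the true values, on `I`, of its two children. -/
def IsThrifty {k : ℕ} : (n : ℕ) → (TVar k n → Fin k) → TVar k n → Prop
  | 0, _, _ => True
  | n + 1, I, Sum.inl (a, b) => a = val n (sub I false) ∧ b = val n (sub I true)
  | n + 1, I, Sum.inr (c, x) => IsThrifty n (sub I c) x

/-- A branching program over the variables of tree evaluation is thrifty: on every input, each
computation that ends in a final state queries only variables that are thrifty for this input. -/
def Thrifty {k n : ℕ} {R : Type} (B : NBP (TVar k n) (Fin k) R) : Prop :=
  ∀ (I : TVar k n → Fin k) (l : List B.Q) (r : R), B.Path I B.start l r →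
    ∀ q ∈ l, IsThrifty n I (B.var q)

end Pool.Agent.ThriftyBP
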