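import Pool.Agent.ThriftyBP.Upper

/-!
# A gadget from a colouring of `(ZMod (2 * M)) ^ d` without monochromatic three term progressions
-/

namespace Pool.Agent.ThriftyBP

open Finset

namespace APFree

variable {M : ℕ}

/-- The low part of a digit. -/
def lo (M : ℕ) (a : ZMod (2 * M)) : ℕ := if M ≤ a.val then a.val - M else a.val

/-- The high bit of a digit. -/
def hi (M : ℕ) (a : ZMod (2 * M)) : Bool := decide (M ≤ a.val)

theorem val_eq (a : ZMod (2 * M)) : a.val = lo M a + (if hi M a = true then M else 0) := by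
  unfold lo hi
  by_cases h : M ≤ a.val
  · simp [h]
  · simp [h]

theorem lo_lt [NeZero (2 * M)] (a : ZMod (2 * M)) : lo M a < M := by
  have h := ZMod.val_lt a
  unfold lo
  split_ifs with h1
  · omega
  · omega

theorem lo_add [NeZero (2 * M)] {a b c : ZMod (2 * M)} (h : a + c = b + b)
    (h1 : hi M b = hi M a) (h2 : hi M c = hi M a) : lo M a + lo M c = 2 * lo M b := by
  have e := congrArg ZMod.val h
  rw [ZMod.val_add, ZMod.val_add, val_eq a, val_eq b, val_eq c, h1, h2] at e
  have ha := lo_lt a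
  have hb := lo_lt b
  have hc := lo_lt c
  have e' : (lo M a + lo M c) ≡ (2 * lo M b) [MOD (2 * M)] := by
    have e1 : (lo M a + (if hi M a = true then M else 0)) + (lo M c + (if hi M a = true then M else 0))
      ≡ (lo M b + (if hi M a = true then M else 0)) + (lo M b + (if hi M a = true then M else 0))
        [MOD (2 * M)] := e
    generalize (if hi M a = true then M else 0) = t at e1
    have e2 : (lo M a + lo M c) + (t + t) ≡ (2 * lo M b) + (t + t) [MOD (2 * M)] := by
      have x1 : (lo M a + lo M c) + (t + t) = (lo M a + t) + (lo M c + t) := by ring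
      have x2 : (2 * lo M b) + (t + t) = (lo M b + t) + (lo M b + t) := by ring
      rw [x1, x2]
      exact e1
    exact Nat.ModEq.add_right_cancel' _ e2
  unfold Nat.ModEq at e'
  rwa [Nat.mod_eq_of_lt (by omega), Nat.mod_eq_of_lt (by omega)] at e'

/-- The squared length of the vector of low parts. -/
def nrm {d : ℕ} (M : ℕ) (u : Fin d → ZMod (2 * M)) : ℕ := ∑ i, lo M (u i) ^ 2

theorem nrm_lt [NeZero (2 * M)] {d : ℕ} (u : Fin d → ZMod (2 * M)) :
    nrm M u < d * M ^ 2 + 1 := by
  have : nrm M u ≤ ∑ _i : Fin d, M ^ 2 :=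
    Finset.sum_le_sum fun i _ => Nat.pow_le_pow_left (lo_lt (u i)).le 2
  simp at this
  omega

theorem key [NeZero (2 * M)] {d : ℕ} (u δ : Fin d → ZMod (2 * M))
    (h1 : ∀ i, hi M ((u + δ) i) = hi M (u i)) (h2 : ∀ i, hi M ((u + δ + δ) i) = hi M (u i))
    (n1 : nrm M (u + δ) = nrm M u) (n2 : nrm M (u + δ + δ) = nrm M u) : δ = 0 := by
  have e : ∀ i, lo M (u i) + lo M ((u + δ + δ) i) = 2 * lo M ((u + δ) i) := by
    intro i
    refine lo_add ?_ (h1 i) (h2 i)
    simp only [Pi.add_apply]
    ring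
  have s : ∑ i, ((lo M (u i) : ℤ) - lo M ((u + δ + δ) i)) ^ 2 = 0 := by
    have n1' : ∑ i, (lo M ((u + δ) i) : ℤ) ^ 2 = ∑ i, (lo M (u i) : ℤ) ^ 2 := by
      exact_mod_cast n1
    have n2' : ∑ i, (lo M ((u + δ + δ) i) : ℤ) ^ 2 = ∑ i, (lo M (u i) : ℤ) ^ 2 := by
      exact_mod_cast n2
    have : ∀ i, ((lo M (u i) : ℤ) - lo M ((u + δ + δ) i)) ^ 2 =
        2 * (lo M (u i) : ℤ) ^ 2 + 2 * (lo M ((u + δ + δ) i) : ℤ) ^ 2 -
          4 * (lo M ((u + δ) i) : ℤ) ^ 2 := by
      intro i
      have := e i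
      have e' : (lo M ((u + δ + δ) i) : ℤ) = 2 * lo M ((u + δ) i) - lo M (u i) := by
        have : ((lo M (u i) + lo M ((u + δ + δ) i) : ℕ) : ℤ) = ((2 * lo M ((u + δ) i) : ℕ) : ℤ) := by
          rw [this]
        push_cast at this
        linarith
      rw [e']
      ring
    rw [Finset.sum_congr rfl fun i _ => this i, Finset.sum_sub_distrib, Finset.sum_add_distrib,
      ← Finset.mul_sum, ← Finset.mul_sum, ← Finset.mul_sum, n1', n2']
    ring
  have z : ∀ i, lo M (u i) = lo M ((u + δ + δ) i) := by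
    intro i
    have := (Finset.sum_eq_zero_iff_of_nonneg (fun i _ => sq_nonneg _)).1 s i (Finset.mem_univ i)
    have := pow_eq_zero_iff (two_ne_zero) |>.1 this
    have := sub_eq_zero.1 this
    exact_mod_cast this
  funext i
  have h3 : lo M (u i) = lo M ((u + δ) i) := by
    have := e i
    have := z i
    omega
  have h4 : (u i).val = ((u + δ) i).val := by
    rw [val_eq, val_eq, h1 i, h3]
  have h5 := ZMod.val_injective _ h4
  simp only [Pi.add_apply] at h5
  simpa using h5.symm

end APFree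

/-- The gadget: `k` values, `(2 * M) ^ d` group elements, `2 ^ d * (d * M ^ 2 + 1)` colours. -/
theorem exists_gadget (k d M : ℕ) (hM : 1 ≤ M) (hk : k ≤ (2 * M) ^ d) :
    ∃ G : Gadget k, Fintype.card G.H = (2 * M) ^ d ∧
      Fintype.card G.C = 2 ^ d * (d * M ^ 2 + 1) := by
  have : NeZero (2 * M) := ⟨by omega⟩
  obtain ⟨e⟩ : Nonempty (Fin k ↪ (Fin d → ZMod (2 * M))) := by
    apply Function.Embedding.nonempty_of_card_le
    simpa [ZMod.card] using hk
  refine ⟨⟨Fin d → ZMod (2 * M), inferInstance, inferInstance,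
    (Fin d → Bool) × Fin (d * M ^ 2 + 1), inferInstance, e, e.injective,
    fun _ u => (fun i => APFree.hi M (u i), ⟨APFree.nrm M u, APFree.nrm_lt u⟩), ?_⟩, ?_, ?_⟩
  · intro x x' u h1 h2
    simp only [Prod.mk.injEq, Fin.mk.injEq] at h1 h2
    have := APFree.key u (e x - e x') (fun i => congrFun h1.1 i) (fun i => congrFun h2.1 i)
      h1.2 h2.2
    exact e.injective (sub_eq_zero.1 this)
  · change Fintype.card (Fin d → ZMod (2 * M)) = _
    simp [ZMod.card]
  · change Fintype.card ((Fin d → Bool) × Fin (d * M ^ 2 + 1)) = _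
    simp

end Pool.Agent.ThriftyBP
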