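import Mathlib

/-!
# Codes with large distance (greedy construction)
-/

namespace Pool.Agent.ThriftyBP

open Finset

/-- Hamming balls of radius `m` in `(Fin M) ^ (4 m)` have at most `(16 M) ^ m` elements. -/
theorem card_ball_le {M m : ℕ} (hM : 1 ≤ M) (v : Fin (4 * m) → Fin M) :
    (univ.filter fun w : Fin (4 * m) → Fin M => hammingDist w v ≤ m).card ≤ (16 * M) ^ m := by
  classical
  let S : Finset (Finset (Fin (4 * m))) := univ.filter fun s => s.card ≤ m
  let f : Finset (Fin (4 * m)) → Finset (Fin (4 * m) → Fin M) := fun s =>
    Fintype.piFinset fun i => if i ∈ s then univ else {v i}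
  have h1 : (univ.filter fun w : Fin (4 * m) → Fin M => hammingDist w v ≤ m) ⊆ S.biUnion f := by
    intro w hw
    rw [mem_filter] at hw
    rw [mem_biUnion]
    refine ⟨univ.filter fun i => w i ≠ v i, ?_, ?_⟩
    · rw [mem_filter]
      exact ⟨mem_univ _, hw.2⟩
    · rw [Fintype.mem_piFinset]
      intro i
      by_cases hi : w i = v i
      · simp [hi]
      · simp [hi]
  have h2 : ∀ s ∈ S, (f s).card ≤ M ^ m := by
    intro s hs
    rw [mem_filter] at hs
    have : (f s).card = M ^ s.card := by
      rw [Fintype.card_piFinset]
      have : ∀ j, (if j ∈ s then (univ : Finset (Fin M)) else {v j}).card =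
          if j ∈ s then M else 1 := by
        intro j
        split_ifs <;> simp
      rw [prod_congr rfl (fun j _ => this j), prod_ite, prod_const, prod_const_one, mul_one,
        filter_univ_mem]
    rw [this]
    exact Nat.pow_le_pow_right hM hs.2
  calc _ ≤ (S.biUnion f).card := card_le_card h1
    _ ≤ S.card * M ^ m := card_biUnion_le_card_mul _ _ _ h2
    _ ≤ 2 ^ (4 * m) * M ^ m := by
        refine Nat.mul_le_mul_right _ ((card_le_univ _).trans ?_)
        rw [Fintype.card_finset, Fintype.card_fin]
    _ = (16 * M) ^ m := by
        rw [pow_mul, mul_pow]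
        norm_num

/-- Codes with `k` words in `(Fin M) ^ (4 m)` at distance greater than `m`. -/
theorem exists_code {M m : ℕ} (hM : 1 ≤ M) (k : ℕ) (hk : k * (16 * M) ^ m ≤ M ^ (4 * m)) :
    ∃ w : Fin k → (Fin (4 * m) → Fin M), ∀ i j, i ≠ j → m < hammingDist (w i) (w j) := by
  classical
  induction k with
  | zero => exact ⟨fun i => i.elim0, fun i => i.elim0⟩
  | succ k ih =>
    have hpos : 0 < (16 * M) ^ m := by positivity
    have hlt : k * (16 * M) ^ m < M ^ (4 * m) := by
      have : (k + 1) * (16 * M) ^ m = k * (16 * M) ^ m + (16 * M) ^ m := by ring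
      omega
    obtain ⟨w, hw⟩ := ih hlt.le
    have hex : ∃ v, v ∉ (univ : Finset (Fin k)).biUnion fun i =>
        univ.filter fun u : Fin (4 * m) → Fin M => hammingDist u (w i) ≤ m := by
      by_contra hcon
      push Not at hcon
      have h1 : (univ : Finset (Fin (4 * m) → Fin M)) ⊆ (univ : Finset (Fin k)).biUnion fun i =>
        univ.filter fun u : Fin (4 * m) → Fin M => hammingDist u (w i) ≤ m := fun v _ => hcon v
      have h2 := card_le_card h1
      have h3 := card_biUnion_le_card_mul (univ : Finset (Fin k)) (fun i =>
        univ.filter fun u : Fin (4 * m) → Fin M => hammingDist u (w i) ≤ m) ((16 * M) ^ m)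
        (fun i _ => card_ball_le hM (w i))
      rw [card_univ, Fintype.card_fun, Fintype.card_fin, Fintype.card_fin] at h2
      rw [card_univ, Fintype.card_fin] at h3
      omega
    obtain ⟨v, hv⟩ := hex
    simp only [mem_biUnion, mem_filter, mem_univ, true_and, not_exists, not_le] at hv
    refine ⟨Fin.cons v w, ?_⟩
    intro i j hij
    induction i using Fin.cases with
    | zero =>
      induction j using Fin.cases with
      | zero => exact (hij rfl).elim
      | succ j => simpa using hv j
    | succ i =>
      induction j using Fin.cases with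
      | zero =>
        rw [hammingDist_comm]
        simpa using hv i
      | succ j =>
        simpa using hw i j (fun h => hij (by rw [h]))

end Pool.Agent.ThriftyBP
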