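import Pool.Agent.ThriftyBP.Tree

/-!
# Cuts of words over the nodes of a tree
-/

namespace Pool.Agent.ThriftyBP

/-- A window: the reads are, backwards in time, those of `pass`, those of `act`, and `g`. -/
structure Win (Q N : Type) where
  pass : List Q
  act : List Q
  g : Q
  R : Finset N

namespace Win

variable {Q N : Type} [DecidableEq N]

/-- The active nodes of a list of windows. -/
def all : List (Win Q N) → Finset N
  | [] => ∅
  | w :: L => w.R ∪ all L

end Win

namespace Tr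

variable {N : Type} [DecidableEq N] {n : ℕ} (T : Tr N n) {Q : Type} (ν : Q → N)

/-- The conditions on a window; `S` is the set of the nodes that are active before. -/
structure Ok (w : Win Q N) (S : Finset N) : Prop where
  g_int : T.dep (ν w.g) < n
  g_R : ν w.g ∉ w.R ∪ S
  g_ch : ν w.g ∉ T.chS (w.R ∪ S)
  pass_ch : ∀ q ∈ w.pass, ν q ∈ T.chS (w.R ∪ S) → ν q ∈ w.R ∪ S
  act_R : ∀ q ∈ w.act, T.dep (ν q) < n → ν q ∈ w.R ∪ S
  R_act : ∀ z ∈ w.R, ∃ q ∈ w.act, ν q = z
  disj : Disjoint w.R S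
  ne : w.R.Nonempty
  card_le : w.R.card ≤ 3
  par : ∀ z ∈ w.R, z = T.root ∨ ∃ p ∈ w.R ∪ S, z ∈ T.ch p

/-- The word `x` (backwards in time) has the windows `L` (backwards in time). -/
def Str : List Q → List (Win Q N) → Prop
  | _, [] => True
  | x, w :: L => ∃ x', x = w.pass ++ (w.act ++ w.g :: x') ∧ T.Ok ν w (Win.all L) ∧ Str x' L

variable {T ν}

theorem Str.card_le {x : List Q} {L : List (Win Q N)} (h : T.Str ν x L) :
    (Win.all L).card ≤ 3 * L.length := by
  induction L generalizing x with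
  | nil => exact Nat.zero_le _
  | cons w L ih =>
    obtain ⟨x', -, h1, h2⟩ := h
    have := ih h2
    have h3 := Finset.card_union_le w.R (Win.all L)
    have h4 := h1.card_le
    change (w.R ∪ Win.all L).card ≤ _
    rw [List.length_cons]
    omega

theorem Str.closed {x : List Q} {L : List (Win Q N)} (h : T.Str ν x L) :
    T.Closed (Win.all L) := by
  induction L generalizing x with
  | nil =>
    intro z hz
    exact absurd hz (Finset.notMem_empty z)
  | cons w L ih =>
    obtain ⟨x', -, h1, h2⟩ := h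
    intro z hz
    change z ∈ w.R ∪ Win.all L at hz
    rcases Finset.mem_union.1 hz with hz | hz
    · exact h1.par z hz
    · rcases ih h2 z hz with h3 | ⟨p, hp, hpz⟩
      · exact Or.inl h3
      · exact Or.inr ⟨p, Finset.mem_union_right _ hp, hpz⟩

variable (T ν)

/-- A far window: `y` is a word backwards in time. -/
def Far (y : List Q) : Prop :=
  ∃ (act x' : List Q) (F P : Finset N), y = act ++ x' ∧ (∀ f ∈ F, ∃ p ∈ P, f ∈ T.ch p) ∧
    (∀ p ∈ P, ∃ q ∈ act, ν q = p) ∧ Disjoint F P ∧ (∀ f ∈ F, T.dep f < n) ∧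
    (∀ q ∈ act, ν q ∉ F) ∧
    ((x' = [] ∧ 2 ≤ F.card) ∨
      ∃ g x'', x' = g :: x'' ∧ T.dep (ν g) < n ∧ ν g ∉ P ∧ ν g ∉ F ∧ 4 ≤ F.card)

/-- The conditions on the part that is to be absorbed. -/
structure Part (act : List Q) (S S' : Finset N) : Prop where
  act_R : ∀ q ∈ act, T.dep (ν q) < n → ν q ∈ S ∪ S'
  R_act : ∀ z ∈ S, ∃ q ∈ act, ν q = z
  disj : Disjoint S S'
  ne : S.Nonempty
  par : ∀ z ∈ S, z = T.root ∨ ∃ p ∈ S ∪ S', z ∈ T.ch p

variable {T ν}

theorem exists_split_first {α : Type} (p : α → Prop) (l : List α) :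
    ∃ l₁ l₂, l = l₁ ++ l₂ ∧ (∀ a ∈ l₁, ¬ p a) ∧ (l₂ = [] ∨ ∃ a l₃, l₂ = a :: l₃ ∧ p a) := by
  classical
  induction l with
  | nil => exact ⟨[], [], rfl, by simp, Or.inl rfl⟩
  | cons a l ih =>
    by_cases ha : p a
    · exact ⟨[], a :: l, rfl, by simp, Or.inr ⟨a, l, rfl, ha⟩⟩
    · obtain ⟨l₁, l₂, rfl, h1, h2⟩ := ih
      refine ⟨a :: l₁, l₂, rfl, ?_, h2⟩
      intro b hb
      rcases List.mem_cons.1 hb with rfl | hb
      · exact ha
      · exact h1 b hb

theorem Part.closed {act : List Q} {S S' : Finset N} (h : T.Part ν act S S') (h' : T.Closed S') :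
    T.Closed (S ∪ S') := by
  intro z hz
  rcases Finset.mem_union.1 hz with hz | hz
  · exact h.par z hz
  · rcases h' z hz with h3 | ⟨p, hp, hpz⟩
    · exact Or.inl h3
    · exact Or.inr ⟨p, Finset.mem_union_right _ hp, hpz⟩

theorem Part.dep_lt {act : List Q} {S S' : Finset N} (h : T.Part ν act S S')
    (h' : T.Closed S') (hn : S.card + S'.card ≤ n) : ∀ z ∈ S ∪ S', T.dep z < n := by
  intro z hz
  have h1 := (h.closed h').dep_lt hz
  have h2 := Finset.card_union_le S S'
  omega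

/-- No child of `S` is active before. -/
theorem Part.chS_disj {act : List Q} {S S' : Finset N} (h : T.Part ν act S S')
    (h' : T.Closed S') (hroot : T.root ∉ T.chS S) : Disjoint (T.chS S) S' := by
  rw [Finset.disjoint_left]
  intro x hx hx'
  rcases h' x hx' with rfl | ⟨p, hp, hpx⟩
  · exact hroot hx
  · obtain ⟨p', hp', hpx'⟩ := T.mem_chS.1 hx
    rw [T.uniq hpx hpx'] at hp
    exact Finset.disjoint_left.1 h.disj hp' hp

theorem root_notMem_chS (T : Tr N n) (S : Finset N) : T.root ∉ T.chS S := by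
  intro h
  obtain ⟨p, _, hp⟩ := T.mem_chS.1 h
  have := T.dep_ch hp
  rw [T.dep_root] at this
  omega

theorem Part.far {act : List Q} {S S' : Finset N} {x : List Q} (h : T.Part ν act S S')
    (h' : T.Closed S') (hn : S.card + S'.card + 1 ≤ n)
    (hcase : S' = ∅ ∧ x = [] ∨ 4 ≤ S.card) : T.Far ν (act ++ x) := by
  classical
  have hdep : ∀ z ∈ S, T.dep z < n := fun z hz =>
    h.dep_lt h' (by omega) z (Finset.mem_union_left _ hz)
  have hdep' : ∀ f ∈ T.chS S, T.dep f < n := by
    intro f hf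
    obtain ⟨p, hp, hpf⟩ := T.mem_chS.1 hf
    have h1 := (h.closed h').dep_lt (Finset.mem_union_left _ hp)
    have h2 := Finset.card_union_le S S'
    have := T.dep_ch hpf
    omega
  have hfront := T.card_front h.ne hdep
  have hpos : 0 < S.card := Finset.card_pos.2 h.ne
  have hdisj := h.chS_disj h' (root_notMem_chS T S)
  obtain ⟨x₁, x₂, rfl, h1, h2⟩ := exists_split_first
    (fun q => T.dep (ν q) < n ∧ ν q ∉ S ∪ S') x
  have hact : ∀ q ∈ act ++ x₁, ν q ∉ T.chS S \ S := by
    intro q hq hq'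
    rw [Finset.mem_sdiff] at hq'
    have hd := hdep' _ hq'.1
    have hmem : ν q ∈ S ∪ S' := by
      rcases List.mem_append.1 hq with hq | hq
      · exact h.act_R q hq hd
      · by_contra hcon
        exact h1 q hq ⟨hd, hcon⟩
    rcases Finset.mem_union.1 hmem with h3 | h3
    · exact hq'.2 h3
    · exact Finset.disjoint_left.1 hdisj hq'.1 h3
  have hread : ∀ p ∈ S, ∃ q ∈ act ++ x₁, ν q = p := by
    intro p hp
    obtain ⟨q, hq, hqp⟩ := h.R_act p hp
    exact ⟨q, List.mem_append_left _ hq, hqp⟩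
  rcases h2 with rfl | ⟨g, x₃, rfl, hg1, hg2⟩
  · refine ⟨act ++ x₁, [], T.chS S \ S, S, by simp, ?_, hread, Finset.sdiff_disjoint, ?_, hact,
      Or.inl ⟨rfl, by omega⟩⟩
    · intro f hf
      obtain ⟨p, hp, hpf⟩ := T.mem_chS.1 (Finset.mem_sdiff.1 hf).1
      exact ⟨p, hp, hpf⟩
    · exact fun f hf => hdep' f (Finset.mem_sdiff.1 hf).1
  · have hcard : 4 ≤ S.card := by
      rcases hcase with ⟨_, h3⟩ | h3
      · simp at h3
      · exact h3
    have hcard' := Finset.pred_card_le_card_erase (s := T.chS S \ S) (a := ν g)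
    refine ⟨act ++ x₁, g :: x₃, (T.chS S \ S).erase (ν g), S, by simp, ?_, hread, ?_, ?_, ?_,
      Or.inr ⟨g, x₃, rfl, hg1, fun h3 => hg2 (Finset.mem_union_left _ h3),
        Finset.notMem_erase _ _, by omega⟩⟩
    · intro f hf
      obtain ⟨p, hp, hpf⟩ := T.mem_chS.1 (Finset.mem_sdiff.1 (Finset.mem_of_mem_erase hf)).1
      exact ⟨p, hp, hpf⟩
    · exact Finset.disjoint_of_subset_left (Finset.erase_subset _ _) Finset.sdiff_disjoint
    · exact fun f hf => hdep' f (Finset.mem_sdiff.1 (Finset.mem_of_mem_erase hf)).1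
    · exact fun q hq hq' => hact q hq (Finset.mem_of_mem_erase hq')

end Tr

end Pool.Agent.ThriftyBP
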