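import Pool.Agent.ThriftyBP.Cuts

/-!
# Absorbing the windows that are touched
-/

namespace Pool.Agent.ThriftyBP

namespace Tr

variable {N : Type} [DecidableEq N] {n : ℕ} (T : Tr N n) {Q : Type} (ν : Q → N)

/-- What can be found from an active part `act`, `S` and the word `x` before it. -/
def Out (act x : List Q) (S : Finset N) (L : List (Win Q N)) : Prop :=
  T.Far ν (act ++ x) ∨ ∃ (x' : List Q) (L' : List (Win Q N)) (act' : List Q) (g : Q)
    (S' : Finset N), act ++ x = act' ++ g :: x' ∧ T.Str ν x' L' ∧
      T.Ok ν ⟨[], act', g, S'⟩ (Win.all L') ∧ S ∪ Win.all L ⊆ S' ∪ Win.all L' ∧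
      L'.length ≤ L.length

variable {T ν}

theorem Out.mono {act x act₁ x₁ : List Q} {S S₁ : Finset N} {L L₁ : List (Win Q N)}
    (h : T.Out ν act₁ x₁ S₁ L₁) (h1 : act ++ x = act₁ ++ x₁)
    (h2 : S ∪ Win.all L ⊆ S₁ ∪ Win.all L₁) (h3 : L₁.length ≤ L.length) : T.Out ν act x S L := by
  rcases h with h | ⟨x', L', act', g, S', h4, h5, h6, h7, h8⟩
  · exact Or.inl (h1 ▸ h)
  · exact Or.inr ⟨x', L', act', g, S', h1.trans h4, h5, h6, h2.trans h7, h8.trans h3⟩

theorem Part.snoc_old {act : List Q} {S S' : Finset N} {q : Q} (h : T.Part ν act S S')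
    (hq : T.dep (ν q) < n → ν q ∈ S ∪ S') : T.Part ν (act ++ [q]) S S' where
  act_R := by
    intro q' hq' hd
    rcases List.mem_append.1 hq' with h1 | h1
    · exact h.act_R q' h1 hd
    · rw [List.mem_singleton] at h1
      subst h1
      exact hq hd
  R_act := by
    intro z hz
    obtain ⟨q', h1, h2⟩ := h.R_act z hz
    exact ⟨q', List.mem_append_left _ h1, h2⟩
  disj := h.disj
  ne := h.ne
  par := h.par

theorem Part.snoc_new {act : List Q} {S S' : Finset N} {q : Q} (h : T.Part ν act S S')
    (hq : ν q ∉ S ∪ S') (hc : ν q ∈ T.chS S) : T.Part ν (act ++ [q]) (insert (ν q) S) S' where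
  act_R := by
    intro q' hq' hd
    rcases List.mem_append.1 hq' with h1 | h1
    · rw [Finset.insert_union]
      exact Finset.mem_insert_of_mem (h.act_R q' h1 hd)
    · rw [List.mem_singleton] at h1
      subst h1
      exact Finset.mem_union_left _ (Finset.mem_insert_self _ _)
  R_act := by
    intro z hz
    rcases Finset.mem_insert.1 hz with rfl | hz
    · exact ⟨q, by simp, rfl⟩
    · obtain ⟨q', h1, h2⟩ := h.R_act z hz
      exact ⟨q', List.mem_append_left _ h1, h2⟩
  disj := by
    rw [Finset.disjoint_insert_left]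
    exact ⟨fun h1 => hq (Finset.mem_union_right _ h1), h.disj⟩
  ne := Finset.insert_nonempty _ _
  par := by
    intro z hz
    rw [Finset.insert_union]
    rcases Finset.mem_insert.1 hz with rfl | hz
    · obtain ⟨p, hp, hpq⟩ := T.mem_chS.1 hc
      exact Or.inr ⟨p, Finset.mem_insert_of_mem (Finset.mem_union_left _ hp), hpq⟩
    · rcases h.par z hz with h1 | ⟨p, hp, hpz⟩
      · exact Or.inl h1
      · exact Or.inr ⟨p, Finset.mem_insert_of_mem hp, hpz⟩

theorem Part.stop {act : List Q} {S S' : Finset N} {q : Q} (h : T.Part ν act S S')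
    (hS : S.card ≤ 3) (hd : T.dep (ν q) < n) (hq : ν q ∉ S ∪ S')
    (hc : ν q ∉ T.chS (S ∪ S')) : T.Ok ν ⟨[], act, q, S⟩ S' where
  g_int := hd
  g_R := hq
  g_ch := hc
  pass_ch := fun _ h1 => absurd h1 List.not_mem_nil
  act_R := h.act_R
  R_act := h.R_act
  disj := h.disj
  ne := h.ne
  card_le := hS
  par := h.par

theorem Part.merge {act : List Q} {S S' : Finset N} {w : Win Q N}
    (h : T.Part ν act S (w.R ∪ S')) (hw : T.Ok ν w S') :
    T.Part ν (act ++ w.act) (S ∪ w.R) S' where
  act_R := by
    intro q hq hd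
    rw [Finset.union_assoc]
    rcases List.mem_append.1 hq with h1 | h1
    · exact h.act_R q h1 hd
    · exact Finset.mem_union_right _ (hw.act_R q h1 hd)
  R_act := by
    intro z hz
    rcases Finset.mem_union.1 hz with hz | hz
    · obtain ⟨q', h1, h2⟩ := h.R_act z hz
      exact ⟨q', List.mem_append_left _ h1, h2⟩
    · obtain ⟨q', h1, h2⟩ := hw.R_act z hz
      exact ⟨q', List.mem_append_right _ h1, h2⟩
  disj := by
    rw [Finset.disjoint_union_left]
    exact ⟨(Finset.disjoint_union_right.1 h.disj).2, hw.disj⟩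
  ne := h.ne.mono Finset.subset_union_left
  par := by
    intro z hz
    rw [Finset.union_assoc]
    rcases Finset.mem_union.1 hz with hz | hz
    · exact h.par z hz
    · rcases hw.par z hz with h1 | ⟨p, hp, hpz⟩
      · exact Or.inl h1
      · exact Or.inr ⟨p, Finset.mem_union_right _ hp, hpz⟩

theorem absorb_step {x act : List Q} {S : Finset N} {L : List (Win Q N)} {q : Q}
    (hP : T.Part ν act S (Win.all L)) (hS : S.card ≤ 3) (hx : T.Str ν x L)
    (hch : ν q ∈ T.chS (Win.all L) → ν q ∈ Win.all L)
    (ih : ∀ (act' : List Q) (S' : Finset N), T.Part ν act' S' (Win.all L) → S'.card ≤ 6 →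
      T.Out ν act' x S' L) : T.Out ν act (q :: x) S L := by
  by_cases h1 : T.dep (ν q) < n → ν q ∈ S ∪ Win.all L
  · exact (ih (act ++ [q]) S (hP.snoc_old h1) (by omega)).mono (by simp) subset_rfl le_rfl
  · push Not at h1
    obtain ⟨h1, h2⟩ := h1
    by_cases h3 : ν q ∈ T.chS S
    · refine (ih (act ++ [q]) (insert (ν q) S) (hP.snoc_new h2 h3) ?_).mono (by simp)
        (Finset.union_subset_union_left (Finset.subset_insert _ _)) le_rfl
      have := Finset.card_insert_le (ν q) S
      omega
    · refine Or.inr ⟨x, L, act, q, S, rfl, hx, hP.stop hS h1 h2 ?_, subset_rfl, le_rfl⟩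
      rw [T.chS_union, Finset.mem_union]
      rintro (h4 | h4)
      · exact h3 h4
      · exact h2 (Finset.mem_union_right _ (hch h4))

theorem absorb (len : ℕ) : ∀ (x act : List Q) (S : Finset N) (L : List (Win Q N)),
    x.length ≤ len → T.Str ν x L → T.Part ν act S (Win.all L) → S.card ≤ 6 →
    3 * L.length + 7 ≤ n → T.Out ν act x S L := by
  induction len with
  | zero =>
    intro x act S L hlen hx hP hS hn
    have hx0 : x = [] := List.length_eq_zero_iff.1 (by omega)
    subst hx0
    cases L with
    | nil =>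
      exact Or.inl (hP.far hx.closed (by
        have := hx.card_le
        simp only [List.length_nil] at this hn
        omega) (Or.inl ⟨rfl, rfl⟩))
    | cons w L =>
      obtain ⟨x', h1, -⟩ := hx
      simp at h1
  | succ len ih =>
    intro x act S L hlen hx hP hS hn
    by_cases hS4 : 4 ≤ S.card
    · exact Or.inl (hP.far hx.closed (by have := hx.card_le; omega) (Or.inr hS4))
    have hS3 : S.card ≤ 3 := by omega
    cases L with
    | nil =>
      cases x with
      | nil =>
        exact Or.inl (hP.far hx.closed (by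
          have := hx.card_le
          simp only [List.length_nil] at this hn
          omega) (Or.inl ⟨rfl, rfl⟩))
      | cons q x =>
        refine absorb_step hP hS3 trivial ?_ fun act' S' h1 h2 =>
          ih x act' S' [] (by simpa using hlen) trivial h1 h2 hn
        intro h
        obtain ⟨z, hz, -⟩ := T.mem_chS.1 h
        exact absurd hz (Finset.notMem_empty z)
    | cons w L =>
      obtain ⟨x₁, rfl, hw, hx₁⟩ := hx
      rcases w with ⟨pass, wact, g, R⟩
      cases pass with
      | cons q pass =>
        have hw' : T.Ok ν ⟨pass, wact, g, R⟩ (Win.all L) :=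
          { hw with pass_ch := fun q' hq' => hw.pass_ch q' (List.mem_cons_of_mem _ hq') }
        refine (absorb_step (x := pass ++ (wact ++ g :: x₁)) (L := ⟨pass, wact, g, R⟩ :: L)
          (q := q) hP hS3 ⟨x₁, rfl, hw', hx₁⟩ (hw.pass_ch q List.mem_cons_self)
          fun act' S' h1 h2 => ?_).mono rfl subset_rfl le_rfl
        exact ih _ act' S' _ (by simpa using hlen) ⟨x₁, rfl, hw', hx₁⟩ h1 h2 hn
      | nil =>
        have hP' : T.Part ν (act ++ wact) (S ∪ R) (Win.all L) := hP.merge hw
        simp only [List.nil_append] at hlen ⊢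
        simp only [List.length_cons] at hn
        have hc := Finset.card_union_le S R
        have hR := hw.card_le
        change R.card ≤ 3 at hR
        by_cases h4 : 4 ≤ (S ∪ R).card
        · refine Or.inl ?_
          rw [← List.append_assoc]
          exact hP'.far hx₁.closed (by have := hx₁.card_le; omega) (Or.inr h4)
        · refine (absorb_step (x := x₁) (act := act ++ wact) (S := S ∪ R) (L := L) (q := g) hP'
            (by omega) hx₁ ?_ fun act' S' h1 h2 => ?_).mono (by simp) ?_ ?_
          · intro h
            refine absurd ?_ hw.g_ch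
            exact T.chS_mono Finset.subset_union_right h
          · exact ih x₁ act' S' L (by simp at hlen; omega) hx₁ h1 h2 (by omega)
          · change S ∪ (R ∪ Win.all L) ⊆ S ∪ R ∪ Win.all L
            rw [Finset.union_assoc]
          · simp

end Tr

end Pool.Agent.ThriftyBP
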