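import Pool.Agent.ThriftyBP.Tree

/-!
# Decoding labellings from the states at the ends of the windows
-/

namespace Pool.Agent.ThriftyBP

namespace Tr

variable {N : Type} [DecidableEq N] {n : ℕ} (T : Tr N n)

/-- The active nodes of the windows `j, …, M - 1`. -/
def Un (M : ℕ) (R : ℕ → Finset N) (j : ℕ) : Finset N := (Finset.Ico j M).biUnion R

/-- The active nodes of a window whose values are needed to decode it. -/
def Pn (R : ℕ → Finset N) (j : ℕ) : Finset N := if (R j).card = 1 then ∅ else R j

/-- The nodes whose values are unknown when the window `j` is decoded. -/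
def An (M : ℕ) (R : ℕ → Finset N) (j : ℕ) : Finset N := T.chS (Un M R j) \ Pn R j

/-- The nodes whose values are decoded with the window `j`. -/
def Fn (R : ℕ → Finset N) (j : ℕ) : Finset N := T.chS (R j) \ R j

variable {T}

theorem mem_Un {M : ℕ} {R : ℕ → Finset N} {j : ℕ} {z : N} :
    z ∈ Un M R j ↔ ∃ i, j ≤ i ∧ i < M ∧ z ∈ R i := by
  simp [Un, and_assoc]

theorem Un_succ {M : ℕ} {R : ℕ → Finset N} {j : ℕ} (hj : j < M) :
    Un M R j = R j ∪ Un M R (j + 1) := by
  ext z
  rw [Finset.mem_union, mem_Un, mem_Un]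
  constructor
  · rintro ⟨i, h1, h2, h3⟩
    rcases Nat.eq_or_lt_of_le h1 with rfl | h1
    · exact Or.inl h3
    · exact Or.inr ⟨i, h1, h2, h3⟩
  · rintro (h | ⟨i, h1, h2, h3⟩)
    · exact ⟨j, le_rfl, hj, h⟩
    · exact ⟨i, by omega, h2, h3⟩

/-- The children of the nodes at the ends of a window are not unknown. -/
theorem Plan.ch_notMem {M : ℕ} {R D : ℕ → Finset N} {u : ℕ → N} (h : T.Plan M R D u) {j i : ℕ}
    (hij : i = j ∨ i = j + 1) {c : N} (hc : c ∈ T.ch (u i)) : c ∉ T.chS (Un M R j) := by
  intro hc'
  obtain ⟨z, hz, hcz⟩ := T.mem_chS.1 hc'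
  obtain ⟨i', h1, h2, h3⟩ := mem_Un.1 hz
  rw [T.uniq hcz hc] at h3
  exact h.u_R i' h2 i (by omega) h3

theorem notMem_ch_self {z : N} : z ∉ T.ch z := by
  intro h
  have := T.dep_ch h
  omega

theorem card_removed {M : ℕ} {R D : ℕ → Finset N} {u : ℕ → N} (h : T.Plan M R D u) :
    2 * M ≤ (T.chS (Un M R 0) \ (Finset.range M).biUnion (Pn R)).card := by
  have h1 : (Un M R 0).card = ∑ j ∈ Finset.range M, (R j).card := by
    unfold Un
    rw [Finset.card_biUnion, Nat.Ico_zero_eq_range]
    intro i hi j hj hij
    simp only [Finset.coe_Ico, Set.mem_Ico] at hi hj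
    exact h.disj i hi.2 j hj.2 hij
  have h2 : (T.chS (Un M R 0)).card = 2 * (Un M R 0).card := by
    refine T.card_chS fun z hz => ?_
    obtain ⟨i, _, h3, h4⟩ := mem_Un.1 hz
    exact h.dep i h3 z h4
  have h3 : ((Finset.range M).biUnion (Pn R)).card ≤ ∑ j ∈ Finset.range M, (Pn R j).card :=
    Finset.card_biUnion_le
  have h4 : ∑ j ∈ Finset.range M, (Pn R j).card + 2 * M ≤ 2 * ∑ j ∈ Finset.range M, (R j).card := by
    have h5 : ∑ j ∈ Finset.range M, ((Pn R j).card + 2) ≤ ∑ j ∈ Finset.range M, 2 * (R j).card := by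
      refine Finset.sum_le_sum fun j hj => ?_
      have h6 := Finset.card_pos.2 (h.ne j (Finset.mem_range.1 hj))
      unfold Pn
      split_ifs with h7
      · rw [Finset.card_empty, h7]
      · omega
    rw [Finset.sum_add_distrib, Finset.sum_const, Finset.card_range, smul_eq_mul,
      ← Finset.mul_sum] at h5
    omega
  have h5 := Finset.le_card_sdiff ((Finset.range M).biUnion (Pn R)) (T.chS (Un M R 0))
  omega

/-- The labellings for which all windows can be decoded. -/
theorem good_card [Fintype N] {M : ℕ} {R D : ℕ → Finset N} {u : ℕ → N} (h : T.Plan M R D u)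
    {k b : ℕ} {Q : Type} (st : ℕ → (N → Fin k) → Q) (code : Q → ℕ) (K : Finset (N → Fin k))
    (hb : ∀ v ∈ K, ∀ j ≤ M, code (st j v) < b)
    (hc : ∀ v ∈ K, ∀ v' ∈ K, ∀ j ≤ M, (∀ c ∈ T.ch (u j), v c = v' c) →
      code (st j v) = code (st j v') → st j v = st j v')
    (hgood : ∀ v ∈ K, ∀ v' ∈ K, ∀ j < M, st j v = st j v' → st (j + 1) v = st (j + 1) v' →
      (∀ x, x ∉ T.An M R j → v x = v' x) → ∀ f ∈ T.Fn R j, v f = v' f) :
    K.card * k ^ (2 * M) ≤ b ^ (M + 1) * k ^ Fintype.card N := by
  rcases K.eq_empty_or_nonempty with rfl | ⟨v₀, -⟩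
  · simp
  have hk : 0 < k := (v₀ T.root).pos
  set E : Finset N := T.chS (Un M R 0) \ (Finset.range M).biUnion (Pn R) with hE
  have hEcard : 2 * M ≤ E.card := card_removed h
  let key : (N → Fin k) → ({i : N // i ∉ E} → Fin k) × (Fin (M + 1) → ℕ) := fun v =>
    (fun i => v i.1, fun j => code (st j v))
  have hinj : Set.InjOn key K := by
    intro v hv v' hv' he
    have hv := Finset.mem_coe.1 hv
    have hv' := Finset.mem_coe.1 hv'
    simp only [key, Prod.mk.injEq] at he
    obtain ⟨e1, e2⟩ := he
    have hout : ∀ i, i ∉ E → v i = v' i := fun i hi => congrFun e1 ⟨i, hi⟩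
    have hcode : ∀ j ≤ M, code (st j v) = code (st j v') := fun j hj =>
      congrFun e2 ⟨j, by omega⟩
    have main : ∀ j ≤ M, ∀ x, x ∉ T.chS (Un M R j) → v x = v' x := by
      intro j
      induction j with
      | zero =>
        intro _ x hx
        refine hout x fun hxE => hx ?_
        exact (Finset.mem_sdiff.1 hxE).1
      | succ j ih =>
        intro hj x hx
        have ih := ih (by omega)
        have s1 : st j v = st j v' := by
          refine hc v hv v' hv' j (by omega) (fun c hcc => ih c ?_) (hcode j (by omega))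
          exact h.ch_notMem (Or.inl rfl) hcc
        have s2 : st (j + 1) v = st (j + 1) v' := by
          refine hc v hv v' hv' (j + 1) hj (fun c hcc => ih c ?_) (hcode _ hj)
          exact h.ch_notMem (Or.inr rfl) hcc
        have hPn : ∀ x ∈ Pn R j, v x = v' x := by
          intro x hx
          refine hout x fun hxE => (Finset.mem_sdiff.1 hxE).2 ?_
          exact Finset.mem_biUnion.2 ⟨j, Finset.mem_range.2 (by omega), hx⟩
        have hF := hgood v hv v' hv' j (by omega) s1 s2 (by
          intro x hx
          by_cases h1 : x ∈ Pn R j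
          · exact hPn x h1
          · exact ih x fun h2 => hx (Finset.mem_sdiff.2 ⟨h2, h1⟩))
        by_cases h1 : x ∈ T.chS (Un M R j)
        · rw [Un_succ (by omega), T.chS_union, Finset.mem_union] at h1
          rcases h1 with h1 | h1
          · by_cases h2 : x ∈ R j
            · refine hPn x ?_
              unfold Pn
              rw [if_neg]
              · exact h2
              · intro h3
                obtain ⟨z, hz⟩ := Finset.card_eq_one.1 h3
                rw [hz, Finset.mem_singleton] at h2
                subst h2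
                obtain ⟨p, hp, hpx⟩ := T.mem_chS.1 h1
                rw [hz, Finset.mem_singleton] at hp
                subst hp
                exact notMem_ch_self hpx
            · exact hF x (Finset.mem_sdiff.2 ⟨h1, h2⟩)
          · exact absurd h1 hx
        · exact ih x h1
    funext x
    refine main M le_rfl x fun hx => ?_
    obtain ⟨z, hz, -⟩ := T.mem_chS.1 hx
    obtain ⟨i, h1, h2, -⟩ := mem_Un.1 hz
    omega
  have hmaps : Set.MapsTo key K ((Finset.univ ×ˢ Fintype.piFinset fun _ => Finset.range b :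
      Finset (({i : N // i ∉ E} → Fin k) × (Fin (M + 1) → ℕ))) :
        Set (({i : N // i ∉ E} → Fin k) × (Fin (M + 1) → ℕ))) := by
    intro v hv
    have hv := Finset.mem_coe.1 hv
    rw [Finset.mem_coe, Finset.mem_product, Fintype.mem_piFinset]
    exact ⟨Finset.mem_univ _, fun j => Finset.mem_range.2 (hb v hv j (by omega))⟩
  have h1 := Finset.card_le_card_of_injOn key hmaps hinj
  rw [Finset.card_product, Fintype.card_piFinset_const, Finset.card_range,
    Finset.card_univ, Fintype.card_fun, Fintype.card_fin, Fintype.card_subtype_compl,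
    Fintype.card_coe] at h1
  have hle := Finset.card_le_univ E
  calc K.card * k ^ (2 * M)
      ≤ k ^ (Fintype.card N - E.card) * b ^ (M + 1) * k ^ (2 * M) := Nat.mul_le_mul_right _ h1
    _ = b ^ (M + 1) * k ^ (Fintype.card N - E.card + 2 * M) := by
        rw [pow_add]
        ring
    _ ≤ _ := Nat.mul_le_mul_left _ (Nat.pow_le_pow_right hk (by omega))

end Tr

end Pool.Agent.ThriftyBP
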