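import Pool.Agent.ThriftyBP.CutsMask
import Pool.Agent.ThriftyBP.CutsGood

/-!
# Counting the labellings with many windows
-/

namespace Pool.Agent.ThriftyBP

variable {N : Type} [DecidableEq N] {n : ℕ} {T : Tr N n}

namespace Tr

theorem Fn_subset {M : ℕ} {R : ℕ → Finset N} {j : ℕ} (hj : j < M) : T.Fn R j ⊆ T.An M R j := by
  intro f hf
  obtain ⟨h1, h2⟩ := Finset.mem_sdiff.1 hf
  refine Finset.mem_sdiff.2 ⟨?_, fun h3 => h2 ?_⟩
  · rw [Un_succ hj, T.chS_union]
    exact Finset.mem_union_left _ h1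
  · unfold Pn at h3
    split_ifs at h3 with h4
    · exact absurd h3 (Finset.notMem_empty f)
    · exact h3

theorem mask_ok {M : ℕ} {R D : ℕ → Finset N} {u : ℕ → N} (h : T.Plan M R D u) {j : ℕ}
    (hj : j < M) {z : N} (hz : z ∈ Un M R (j + 1)) :
    (z ∉ T.Fn R j ∧ Disjoint (T.ch z) (T.Fn R j)) ∧ z ∉ T.ch z ∧
      4 ≤ (T.Fn R j).card + (T.ch z ∩ T.An M R j).card := by
  obtain ⟨i, h1, h2, h3⟩ := mem_Un.1 hz
  have hzR : z ∉ R j := fun h4 =>
    Finset.disjoint_left.1 (h.disj j hj i h2 (by omega)) h4 h3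
  have hdisj : Disjoint (T.ch z) (T.chS (R j)) := by
    rw [Finset.disjoint_left]
    intro f hf hf'
    obtain ⟨p, hp, hpf⟩ := T.mem_chS.1 hf'
    rw [T.uniq hpf hf] at hp
    exact hzR hp
  refine ⟨⟨?_, ?_⟩, notMem_ch_self, ?_⟩
  · intro h4
    exact Finset.disjoint_left.1 (h.ch_R j hj i (by omega) h2) (Finset.mem_sdiff.1 h4).1 h3
  · exact Finset.disjoint_of_subset_right Finset.sdiff_subset hdisj
  have hchz : (T.ch z).card = 2 := T.card_ch (h.dep i h2 z h3)
  have hchR : (T.chS (R j)).card = 2 * (R j).card := T.card_chS (h.dep j hj)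
  have hpos := Finset.card_pos.2 (h.ne j hj)
  have hinter : T.ch z ∩ T.An M R j = T.ch z \ Pn R j := by
    ext x
    simp only [An, Finset.mem_inter, Finset.mem_sdiff]
    constructor
    · rintro ⟨h4, _, h5⟩
      exact ⟨h4, h5⟩
    · rintro ⟨h4, h5⟩
      refine ⟨h4, T.mem_chS.2 ⟨z, ?_, h4⟩, h5⟩
      rw [Un_succ hj]
      exact Finset.mem_union_right _ hz
  rw [hinter]
  by_cases hone : (R j).card = 1
  · have hPn : Pn R j = ∅ := if_pos hone
    have hFn : T.Fn R j = T.chS (R j) := by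
      unfold Fn
      rw [Finset.sdiff_eq_self_iff_disjoint, Finset.disjoint_left]
      intro x hx hx'
      obtain ⟨p, hp⟩ := Finset.card_eq_one.1 hone
      rw [hp, Finset.mem_singleton] at hx'
      subst hx'
      obtain ⟨p', hp', hpx⟩ := T.mem_chS.1 hx
      rw [hp, Finset.mem_singleton] at hp'
      subst hp'
      exact notMem_ch_self hpx
    rw [hPn, hFn, Finset.sdiff_empty, hchz, hchR, hone]
  · have hPn : Pn R j = R j := if_neg hone
    rw [hPn]
    have h4 := Finset.card_inter_add_card_sdiff (T.chS (R j)) (R j)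
    have h5 := Finset.card_inter_add_card_sdiff (T.ch z) (R j)
    have h6 : (T.chS (R j) ∩ R j).card + (T.ch z ∩ R j).card ≤ (R j).card := by
      rw [← Finset.card_union_of_disjoint]
      · exact Finset.card_le_card (Finset.union_subset Finset.inter_subset_right
          Finset.inter_subset_right)
      · rw [Finset.disjoint_left]
        intro x hx hx'
        exact Finset.disjoint_left.1 hdisj (Finset.mem_inter.1 hx').1 (Finset.mem_inter.1 hx).1
    unfold Fn
    omega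

open Classical in
/-- The labellings for which the window `j` cannot be decoded. -/
noncomputable def bad (T : Tr N n) (M : ℕ) (R : ℕ → Finset N) {k : ℕ} {Q : Type}
    (st : ℕ → (N → Fin k) → Q) (K : Finset (N → Fin k)) (j : ℕ) : Finset (N → Fin k) :=
  K.filter fun v => ∃ v' ∈ K, st j v = st j v' ∧ st (j + 1) v = st (j + 1) v' ∧
    (∀ x, x ∉ T.An M R j → v x = v' x) ∧ ∃ f ∈ T.Fn R j, v f ≠ v' f

theorem mem_bad {M : ℕ} {R : ℕ → Finset N} {k : ℕ} {Q : Type} {st : ℕ → (N → Fin k) → Q}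
    {K : Finset (N → Fin k)} {j : ℕ} {v : N → Fin k} :
    v ∈ T.bad M R st K j ↔ v ∈ K ∧ ∃ v' ∈ K, st j v = st j v' ∧ st (j + 1) v = st (j + 1) v' ∧
      (∀ x, x ∉ T.An M R j → v x = v' x) ∧ ∃ f ∈ T.Fn R j, v f ≠ v' f := by
  classical
  exact Finset.mem_filter

theorem bad_card [Fintype N] {C M : ℕ}
    (hC : ∀ (k : ℕ) (ch : N → Finset N) (A F Mk : Finset N) (K : Finset (N → Fin k)),
      Mk.card ≤ Fintype.card N → F ⊆ A → (∀ z ∈ Mk, z ∉ F ∧ Disjoint (ch z) F) →
      (∀ v ∈ K, ∀ v' ∈ K, ∀ x, x ∉ A → v x = v' x) → Masked ch F Mk K →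
      (∀ z ∈ Mk, z ∉ ch z ∧ 4 ≤ F.card + (ch z ∩ A).card) →
      (∃ v ∈ K, ∃ v' ∈ K, ∃ f ∈ F, v f ≠ v' f) → K.card * k ^ 4 ≤ C * k ^ A.card)
    {R D : ℕ → Finset N} {u : ℕ → N} (h : T.Plan M R D u)
    {k b : ℕ} {Q : Type} (st : ℕ → (N → Fin k) → Q) (code : Q → ℕ) (K : Finset (N → Fin k))
    (hb : ∀ v ∈ K, ∀ j ≤ M, code (st j v) < b)
    (hc : ∀ v ∈ K, ∀ v' ∈ K, ∀ j ≤ M, (∀ c ∈ T.ch (u j), v c = v' c) →
      code (st j v) = code (st j v') → st j v = st j v')
    (hs : ∀ v ∈ K, ∀ v' ∈ K, ∀ j < M, st j v = st j v' → st (j + 1) v = st (j + 1) v' →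
      (∃ z ∈ D j, v z ≠ v' z ∧ ∀ c ∈ T.ch z, v c = v' c) ∨
        ∀ z ∈ D j, ∀ c ∈ T.ch z, v c = v' c) {j : ℕ} (hj : j < M) :
    (T.bad M R st K j).card * k ^ 4 ≤ C * b ^ 2 * k ^ Fintype.card N := by
  classical
  rcases Nat.eq_zero_or_pos k with rfl | hk
  · have : T.bad M R st K j = ∅ := by
      rw [Finset.eq_empty_iff_forall_notMem]
      intro v _
      exact (v T.root).elim0
    rw [this]
    simp
  set A := T.An M R j with hA
  let key : (N → Fin k) → ({i : N // i ∉ A} → Fin k) × ℕ × ℕ := fun v =>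
    (fun i => v i.1, code (st j v), code (st (j + 1) v))
  -- inside a class the states agree
  have hcls : ∀ v ∈ K, ∀ v' ∈ K, key v = key v' →
      (∀ x, x ∉ A → v x = v' x) ∧ st j v = st j v' ∧ st (j + 1) v = st (j + 1) v' := by
    intro v hv v' hv' he
    simp only [key, Prod.mk.injEq] at he
    obtain ⟨e1, e2, e3⟩ := he
    have hout : ∀ x, x ∉ A → v x = v' x := fun x hx => congrFun e1 ⟨x, hx⟩
    refine ⟨hout, hc v hv v' hv' j (by omega) (fun c hcc => hout c fun hcA => ?_) e2,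
      hc v hv v' hv' (j + 1) (by omega) (fun c hcc => hout c fun hcA => ?_) e3⟩
    · exact h.ch_notMem (Or.inl rfl) hcc (Finset.mem_sdiff.1 hcA).1
    · exact h.ch_notMem (Or.inr rfl) hcc (Finset.mem_sdiff.1 hcA).1
  -- the size of a class
  have hclass : ∀ v₀ ∈ T.bad M R st K j,
      (K.filter fun v => key v = key v₀).card * k ^ 4 ≤ C * k ^ A.card := by
    intro v₀ hv₀
    obtain ⟨h₀, v₁, h₁, e1, e2, e3, f, hf, hne⟩ := mem_bad.1 hv₀
    refine hC k T.ch A (T.Fn R j) (Un M R (j + 1)) _ (Finset.card_le_univ _) (Fn_subset hj)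
      (fun z hz => (mask_ok h hj hz).1) ?_ ?_ (fun z hz => (mask_ok h hj hz).2) ?_
    · intro v hv v' hv' x hx
      obtain ⟨h2, h3⟩ := Finset.mem_filter.1 hv
      obtain ⟨h2', h3'⟩ := Finset.mem_filter.1 hv'
      exact (hcls v h2 v' h2' (h3.trans h3'.symm)).1 x hx
    · intro v hv v' hv' ⟨f, hf, hne⟩
      obtain ⟨h2, h3⟩ := Finset.mem_filter.1 hv
      obtain ⟨h2', h3'⟩ := Finset.mem_filter.1 hv'
      obtain ⟨a1, a2, a3⟩ := hcls v h2 v' h2' (h3.trans h3'.symm)
      rcases hs v h2 v' h2' j hj a2 a3 with ⟨z, hz, hzne, hzc⟩ | hall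
      · refine ⟨z, ?_, hzne, hzc⟩
        have hzA : z ∈ A := by
          by_contra hcon
          exact hzne (a1 z hcon)
        obtain ⟨h4, h5⟩ := Finset.mem_sdiff.1 hzA
        obtain ⟨p, hp, hpz⟩ := T.mem_chS.1 h4
        obtain ⟨i, hi1, hi2, hi3⟩ := mem_Un.1 hp
        obtain ⟨i', hi1', hi2', hi3'⟩ :=
          h.D_ch j hj z hz i hi1 hi2 (T.mem_chS.2 ⟨p, hi3, hpz⟩)
        rcases Nat.eq_or_lt_of_le hi1' with rfl | hlt
        · exfalso
          have hone : (R j).card = 1 := by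
            by_contra hcon
            refine h5 ?_
            unfold Pn
            rw [if_neg hcon]
            exact hi3'
          obtain ⟨p', hp'⟩ := Finset.card_eq_one.1 hone
          have hzp : z = p' := by
            rw [hp', Finset.mem_singleton] at hi3'
            exact hi3'
          subst hzp
          have hfz : f ∈ T.ch z := by
            obtain ⟨p'', h6, h7⟩ := T.mem_chS.1 (Finset.mem_sdiff.1 hf).1
            rw [hp', Finset.mem_singleton] at h6
            rwa [h6] at h7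
          exact hne (hzc f hfz)
        · exact mem_Un.2 ⟨i', hlt, hi2', hi3'⟩
      · exfalso
        obtain ⟨p, hp, hpf⟩ := T.mem_chS.1 (Finset.mem_sdiff.1 hf).1
        exact hne (hall p (h.R_D j hj hp) f hpf)
    · have hkey : key v₁ = key v₀ := by
        simp only [key, Prod.mk.injEq]
        refine ⟨?_, by rw [e1], by rw [e2]⟩
        funext i
        exact (e3 i.1 i.2).symm
      exact ⟨v₀, Finset.mem_filter.2 ⟨h₀, rfl⟩, v₁, Finset.mem_filter.2 ⟨h₁, hkey⟩, f, hf, hne⟩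
  -- counting the classes
  have h1 : (T.bad M R st K j).card ≤
      (C * k ^ A.card / k ^ 4) * ((T.bad M R st K j).image key).card := by
    refine Finset.card_le_mul_card_image _ _ ?_
    intro a ha
    obtain ⟨v₀, hv₀, rfl⟩ := Finset.mem_image.1 ha
    rw [Nat.le_div_iff_mul_le (by positivity)]
    refine le_trans (Nat.mul_le_mul_right _ (Finset.card_le_card ?_)) (hclass v₀ hv₀)
    exact Finset.filter_subset_filter _ fun v hv => (mem_bad.1 hv).1
  have h2 : ((T.bad M R st K j).image key).card ≤ k ^ (Fintype.card N - A.card) * (b * b) := by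
    have hsub : (T.bad M R st K j).image key ⊆
        Finset.univ ×ˢ (Finset.range b ×ˢ Finset.range b) := by
      intro a ha
      obtain ⟨v₀, hv₀, rfl⟩ := Finset.mem_image.1 ha
      have hv₀K : v₀ ∈ K := (mem_bad.1 hv₀).1
      rw [Finset.mem_product, Finset.mem_product, Finset.mem_range, Finset.mem_range]
      exact ⟨Finset.mem_univ _, hb v₀ hv₀K j (by omega), hb v₀ hv₀K (j + 1) (by omega)⟩
    refine (Finset.card_le_card hsub).trans ?_
    rw [Finset.card_product, Finset.card_product, Finset.card_range, Finset.card_univ,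
      Fintype.card_fun, Fintype.card_fin, Fintype.card_subtype_compl, Fintype.card_coe]
  calc (T.bad M R st K j).card * k ^ 4
      ≤ (C * k ^ A.card / k ^ 4) * (k ^ (Fintype.card N - A.card) * (b * b)) * k ^ 4 :=
        Nat.mul_le_mul_right _ (h1.trans (Nat.mul_le_mul_left _ h2))
    _ = (C * k ^ A.card / k ^ 4 * k ^ 4) * (k ^ (Fintype.card N - A.card) * (b * b)) := by ring
    _ ≤ (C * k ^ A.card) * (k ^ (Fintype.card N - A.card) * (b * b)) :=
        Nat.mul_le_mul_right _ (Nat.div_mul_le_self _ _)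
    _ = C * b ^ 2 * k ^ (A.card + (Fintype.card N - A.card)) := by
        rw [pow_add]
        ring
    _ = _ := by
        rw [Nat.add_sub_cancel' (Finset.card_le_univ A)]

end Tr

theorem windows_card [Fintype N] (T : Tr N n) (M : ℕ) :
    ∃ C : ℕ, ∀ (k b : ℕ) (R D : ℕ → Finset N) (u : ℕ → N), T.Plan M R D u →
      ∀ {Q : Type} (st : ℕ → (N → Fin k) → Q) (code : Q → ℕ) (K : Finset (N → Fin k)),
      (∀ v ∈ K, ∀ j ≤ M, code (st j v) < b) →
      (∀ v ∈ K, ∀ v' ∈ K, ∀ j ≤ M, (∀ c ∈ T.ch (u j), v c = v' c) →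
        code (st j v) = code (st j v') → st j v = st j v') →
      (∀ v ∈ K, ∀ v' ∈ K, ∀ j < M, st j v = st j v' → st (j + 1) v = st (j + 1) v' →
        (∃ z ∈ D j, v z ≠ v' z ∧ ∀ c ∈ T.ch z, v c = v' c) ∨
          ∀ z ∈ D j, ∀ c ∈ T.ch z, v c = v' c) →
      K.card * k ^ (2 * M) ≤ C * b ^ (M + 1) * k ^ Fintype.card N ∨
        K.card * k ^ 4 ≤ C * b ^ 2 * k ^ Fintype.card N := by
  classical
  obtain ⟨C, hC⟩ := mask_card_four (N := N) (Fintype.card N)
  refine ⟨2 * (M * C + 1), ?_⟩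
  intro k b R D u h Q st code K hb hc hs
  set Bd : Finset (N → Fin k) := (Finset.range M).biUnion (T.bad M R st K) with hBd
  have h1 : Bd.card * k ^ 4 ≤ M * C * b ^ 2 * k ^ Fintype.card N := by
    calc Bd.card * k ^ 4 ≤ (∑ j ∈ Finset.range M, (T.bad M R st K j).card) * k ^ 4 :=
          Nat.mul_le_mul_right _ Finset.card_biUnion_le
      _ = ∑ j ∈ Finset.range M, (T.bad M R st K j).card * k ^ 4 := Finset.sum_mul _ _ _
      _ ≤ ∑ _j ∈ Finset.range M, C * b ^ 2 * k ^ Fintype.card N :=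
          Finset.sum_le_sum fun j hj => Tr.bad_card hC h st code K hb hc hs (Finset.mem_range.1 hj)
      _ = _ := by
          rw [Finset.sum_const, Finset.card_range, smul_eq_mul]
          ring
  have h2 : (K \ Bd).card * k ^ (2 * M) ≤ b ^ (M + 1) * k ^ Fintype.card N := by
    refine Tr.good_card h st code (K \ Bd) (fun v hv => hb v (Finset.mem_sdiff.1 hv).1)
      (fun v hv v' hv' => hc v (Finset.mem_sdiff.1 hv).1 v' (Finset.mem_sdiff.1 hv').1) ?_
    intro v hv v' hv' j hj e1 e2 e3 f hf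
    by_contra hne
    refine (Finset.mem_sdiff.1 hv).2 (Finset.mem_biUnion.2 ⟨j, Finset.mem_range.2 hj, ?_⟩)
    exact Tr.mem_bad.2 ⟨(Finset.mem_sdiff.1 hv).1, v', (Finset.mem_sdiff.1 hv').1, e1, e2,
      e3, f, hf, hne⟩
  have h3 : K.card ≤ Bd.card + (K \ Bd).card := by
    have h4 := Finset.card_inter_add_card_sdiff K Bd
    have h5 := Finset.card_le_card (Finset.inter_subset_right (s₁ := K) (s₂ := Bd))
    omega
  rcases le_total Bd.card (K \ Bd).card with h4 | h4
  · left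
    calc K.card * k ^ (2 * M) ≤ (2 * (K \ Bd).card) * k ^ (2 * M) :=
          Nat.mul_le_mul_right _ (by omega)
      _ = 2 * ((K \ Bd).card * k ^ (2 * M)) := by ring
      _ ≤ 2 * (b ^ (M + 1) * k ^ Fintype.card N) := Nat.mul_le_mul_left _ h2
      _ = 2 * 1 * (b ^ (M + 1) * k ^ Fintype.card N) := by ring
      _ ≤ 2 * (M * C + 1) * (b ^ (M + 1) * k ^ Fintype.card N) :=
          Nat.mul_le_mul_right _ (Nat.mul_le_mul_left _ (Nat.le_add_left _ _))
      _ = _ := by ring
  · right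
    calc K.card * k ^ 4 ≤ (2 * Bd.card) * k ^ 4 := Nat.mul_le_mul_right _ (by omega)
      _ = 2 * (Bd.card * k ^ 4) := by ring
      _ ≤ 2 * (M * C * b ^ 2 * k ^ Fintype.card N) := Nat.mul_le_mul_left _ h1
      _ = 2 * (M * C) * (b ^ 2 * k ^ Fintype.card N) := by ring
      _ ≤ 2 * (M * C + 1) * (b ^ 2 * k ^ Fintype.card N) :=
          Nat.mul_le_mul_right _ (Nat.mul_le_mul_left _ (Nat.le_add_right _ _))
      _ = _ := by ring

end Pool.Agent.ThriftyBP
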