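import Pool.Agent.ThriftyBP.CutsProg

/-!
# Labellings whose thrifty variables are queried by few states
-/

namespace Pool.Agent.ThriftyBP

/-- Ranks: a function with finite fibres can be made injective by small numbers. -/
theorem exists_rank {Q X : Type} [Fintype Q] [DecidableEq X] (f : Q → X) :
    ∃ e : Q → ℕ, (∀ q, e q < (Finset.univ.filter fun q' => f q' = f q).card) ∧
      ∀ q q', f q = f q' → e q = e q' → q = q' := by
  classical
  let idx := Fintype.equivFin Q
  refine ⟨fun q => (Finset.univ.filter fun q' => f q' = f q ∧ idx q' < idx q).card, ?_, ?_⟩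
  · intro q
    refine Finset.card_lt_card ?_
    rw [Finset.ssubset_iff_of_subset]
    · exact ⟨q, by simp, by simp⟩
    · intro q' hq'
      simp only [Finset.mem_filter, Finset.mem_univ, true_and] at hq' ⊢
      exact hq'.1
  · have key : ∀ q q', f q = f q' → idx q < idx q' →
        (Finset.univ.filter fun x => f x = f q ∧ idx x < idx q).card <
          (Finset.univ.filter fun x => f x = f q' ∧ idx x < idx q').card := by
      intro q q' h1 h2
      refine Finset.card_lt_card ?_
      rw [Finset.ssubset_iff_of_subset]
      · exact ⟨q, by simp [h1, h2], by simp⟩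
      · intro x hx
        simp only [Finset.mem_filter, Finset.mem_univ, true_and] at hx ⊢
        exact ⟨hx.1.trans h1, hx.2.trans h2⟩
    intro q q' h1 h2
    rcases lt_trichotomy (idx q) (idx q') with h3 | h3 | h3
    · have := key q q' h1 h3
      simp only at h2
      omega
    · exact idx.injective h3
    · have := key q' q h1.symm h3
      simp only at h2
      omega

section

variable {k n : ℕ} {R : Type} (B : NBP (TVar k n) (Fin k) R)

open Classical in
/-- The number of states that query a variable. -/
noncomputable def cnt (x : TVar k n) : ℕ :=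
  letI := B.finQ
  (Finset.univ.filter fun q => B.var q = x).card

theorem exists_code : ∃ e : B.Q → ℕ, (∀ q, e q < cnt B (B.var q)) ∧
    ∀ q q', B.var q = B.var q' → e q = e q' → q = q' := by
  classical
  let _ := B.finQ
  exact exists_rank B.var

/-- A labelling is light if each of its thrifty variables is queried by few states. -/
def Light [Fintype R] (v : Nd n → Fin k) : Prop :=
  ∀ u, (ndTr n).dep u < n → cnt B (tvar n v u) * k ^ 2 ≤ 2 * Fintype.card (Nd n) * B.size

theorem card_tvar_fibre (u : Nd n) (hu : (ndTr n).dep u < n) (x : TVar k n) :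
    {v : Nd n → Fin k | tvar n v u = x}.ncard * k ^ 2 ≤ k ^ Fintype.card (Nd n) := by
  classical
  have h2 : ((ndTr n).ch u).card = 2 := (ndTr n).card_ch hu
  have hle : 2 ≤ Fintype.card (Nd n) := by
    rw [← h2]
    exact Finset.card_le_univ _
  have h1 : {v : Nd n → Fin k | tvar n v u = x}.ncard ≤ k ^ (Fintype.card (Nd n) - 2) := by
    have hcard : (Set.univ : Set ({i : Nd n // i ∉ (ndTr n).ch u} → Fin k)).ncard =
        k ^ (Fintype.card (Nd n) - 2) := by
      rw [Set.ncard_univ, Nat.card_eq_fintype_card, Fintype.card_fun, Fintype.card_fin,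
        Fintype.card_subtype_compl, Fintype.card_coe, h2]
    rw [← hcard]
    refine Set.ncard_le_ncard_of_injOn (fun v i => v i.1) (fun _ _ => Set.mem_univ _) ?_
      (Set.toFinite _)
    intro v hv v' hv' he
    funext i
    by_cases hi : i ∈ (ndTr n).ch u
    · exact child_of_tvar n v v' u (hv.trans hv'.symm) i (mem_ndTr_ch.1 hi)
    · exact congrFun he ⟨i, hi⟩
  calc _ ≤ k ^ (Fintype.card (Nd n) - 2) * k ^ 2 := Nat.mul_le_mul_right _ h1
    _ = _ := by rw [← pow_add]; congr 1; omega

open Classical in
theorem card_light [Fintype R] (hS : 0 < B.size) :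
    k ^ Fintype.card (Nd n) ≤ 2 * (Finset.univ.filter fun v => Light B v).card := by
  let _ := B.finQ
  -- the sum over all labellings for a fixed node
  have h1 : ∀ u : Nd n, (ndTr n).dep u < n →
      ∑ v : Nd n → Fin k, cnt B (tvar n v u) * k ^ 2 ≤ B.size * k ^ Fintype.card (Nd n) := by
    intro u hu
    have h2 : ∀ v : Nd n → Fin k, cnt B (tvar n v u) * k ^ 2 =
        ∑ q : B.Q, if tvar n v u = B.var q then k ^ 2 else 0 := by
      intro v
      rw [← Finset.sum_filter, Finset.sum_const, smul_eq_mul]
      congr 1
      unfold cnt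
      congr 1
      ext q
      simp only [Finset.mem_filter, Finset.mem_univ, true_and]
      exact eq_comm
    rw [Finset.sum_congr rfl fun v _ => h2 v, Finset.sum_comm]
    have h3 : ∀ q : B.Q, (∑ v : Nd n → Fin k, if tvar n v u = B.var q then k ^ 2 else 0) ≤
        k ^ Fintype.card (Nd n) := by
      intro q
      rw [← Finset.sum_filter, Finset.sum_const, smul_eq_mul]
      have h4 := card_tvar_fibre u hu (B.var q)
      rw [← Set.ncard_coe_finset]
      simpa using h4
    calc _ ≤ ∑ _q : B.Q, k ^ Fintype.card (Nd n) := Finset.sum_le_sum fun q _ => h3 q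
      _ = Fintype.card B.Q * k ^ Fintype.card (Nd n) := by
          rw [Finset.sum_const, smul_eq_mul, Finset.card_univ]
      _ ≤ _ := by
          refine Nat.mul_le_mul_right _ ?_
          unfold NBP.size
          exact Nat.le_add_right _ _
  set NN := Fintype.card (Nd n) with hNN
  have hNpos : 0 < NN := Fintype.card_pos_iff.2 ⟨Nd.root n⟩
  set U : Finset (Nd n) := Finset.univ.filter fun u => (ndTr n).dep u < n with hU
  have h5 : ∑ v : Nd n → Fin k, ∑ u ∈ U, cnt B (tvar n v u) * k ^ 2 ≤
      NN * (B.size * k ^ NN) := by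
    rw [Finset.sum_comm]
    calc _ ≤ ∑ _u ∈ U, B.size * k ^ NN :=
          Finset.sum_le_sum fun u hu => h1 u (Finset.mem_filter.1 hu).2
      _ = U.card * (B.size * k ^ NN) := by rw [Finset.sum_const, smul_eq_mul]
      _ ≤ _ := Nat.mul_le_mul_right _ (Finset.card_le_univ _)
  set H : Finset (Nd n → Fin k) := Finset.univ.filter fun v => ¬ Light B v with hH
  have h6 : H.card * (2 * NN * B.size) ≤ NN * (B.size * k ^ NN) := by
    refine le_trans ?_ h5
    calc H.card * (2 * NN * B.size) = ∑ _v ∈ H, 2 * NN * B.size := by
          rw [Finset.sum_const, smul_eq_mul]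
      _ ≤ ∑ v ∈ H, ∑ u ∈ U, cnt B (tvar n v u) * k ^ 2 := by
          refine Finset.sum_le_sum fun v hv => ?_
          have h7 : ¬ Light B v := (Finset.mem_filter.1 hv).2
          unfold Light at h7
          push Not at h7
          obtain ⟨u, hu, h8⟩ := h7
          have hu' : u ∈ U := Finset.mem_filter.2 ⟨Finset.mem_univ _, hu⟩
          exact h8.le.trans (Finset.single_le_sum (f := fun u => cnt B (tvar n v u) * k ^ 2)
            (fun _ _ => Nat.zero_le _) hu')
      _ ≤ _ := Finset.sum_le_sum_of_subset (Finset.subset_univ _)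
  have h9 : 2 * H.card ≤ k ^ NN := by
    have h10 : (NN * B.size) * (2 * H.card) ≤ (NN * B.size) * k ^ NN := by
      calc _ = H.card * (2 * NN * B.size) := by ring
        _ ≤ _ := h6
        _ = _ := by ring
    exact Nat.le_of_mul_le_mul_left h10 (Nat.mul_pos hNpos hS)
  have h11 : (Finset.univ.filter fun v => Light B v).card + H.card = k ^ NN := by
    rw [hH, Finset.card_filter_add_card_filter_not, Finset.card_univ, Fintype.card_fun,
      Fintype.card_fin]
  omega

end

end Pool.Agent.ThriftyBP
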