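import Pool.Agent.ThriftyBP.CutsSimple
import Pool.Agent.ThriftyBP.CutsCount

/-!
# The lower bound for nondeterministic thrifty programs
-/

namespace Pool.Agent.ThriftyBP

/-- The conditions on a labelling with `M` windows of a given type. -/
def WinTy {k n : ℕ} {R : Type} (B : NBP (TVar k n) (Fin k) R) (G : Fin k → R) (M : ℕ)
    (D₀ : Fin M → Finset (Nd n)) (u₀ : Fin (M + 1) → Nd n) (v : Nd n → Fin k) : Prop :=
  ∃ (l : List B.Q) (Rw D : ℕ → Finset (Nd n)) (st : ℕ → B.Q),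
    B.Path (inp v) B.start l (G (v (Nd.root n))) ∧
    (ndTr n).Plan M Rw D (fun j => nd B (st j)) ∧ (∀ j, (ndTr n).dep (nd B (st j)) < n) ∧
    (∀ j ≤ M, st j ∈ l) ∧
    (∀ j < M, ∃ A V C, l = A ++ ((st (j + 1) :: V) ++ (st j :: C)) ∧
      ∀ z, z ∈ D j ↔ ∃ q ∈ st (j + 1) :: V, nd B q = z) ∧
    (∀ j : Fin M, D j = D₀ j) ∧ ∀ j : Fin (M + 1), nd B (st j) = u₀ j

theorem window_card (n M : ℕ) : ∃ Cw : ℕ, ∀ (k : ℕ) (R : Type) (B : NBP (TVar k n) (Fin k) R),
    Thrifty B → ∀ (G : Fin k → R) (code : B.Q → ℕ),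
    (∀ q q', B.var q = B.var q' → code q = code q' → q = q') → ∀ (b : ℕ)
    (D₀ : Fin M → Finset (Nd n)) (u₀ : Fin (M + 1) → Nd n) (K : Finset (Nd n → Fin k)),
    (∀ v ∈ K, WinTy B G M D₀ u₀ v) →
    (∀ v ∈ K, ∀ q, IsThrifty n (inp v) (B.var q) → (ndTr n).dep (nd B q) < n → code q < b) →
    K.card * k ^ (2 * M) ≤ Cw * b ^ (M + 1) * k ^ Fintype.card (Nd n) ∨
      K.card * k ^ 4 ≤ Cw * b ^ 2 * k ^ Fintype.card (Nd n) := by
  classical
  obtain ⟨Cw, hCw⟩ := windows_card (ndTr n) M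
  refine ⟨Cw, ?_⟩
  intro k R B hthr G code hcode b D₀ u₀ K hK hb
  rcases K.eq_empty_or_nonempty with rfl | ⟨v₀, hv₀⟩
  · left
    simp
  obtain ⟨l₀, R₀, D₁, st₀, -, hplan, -, -, -, hD₁, hu₁⟩ := hK v₀ hv₀
  have hex : ∀ v : Nd n → Fin k, ∃ (l : List B.Q) (D : ℕ → Finset (Nd n)) (st : ℕ → B.Q),
      v ∈ K → B.Path (inp v) B.start l (G (v (Nd.root n))) ∧
      (∀ j, (ndTr n).dep (nd B (st j)) < n) ∧ (∀ j ≤ M, st j ∈ l) ∧
      (∀ j < M, ∃ A V C, l = A ++ ((st (j + 1) :: V) ++ (st j :: C)) ∧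
        ∀ z, z ∈ D j ↔ ∃ q ∈ st (j + 1) :: V, nd B q = z) ∧
      (∀ j < M, D j = D₁ j) ∧ ∀ j ≤ M, nd B (st j) = nd B (st₀ j) := by
    intro v
    by_cases hv : v ∈ K
    · obtain ⟨l, Rw, D, st, h1, -, h2, h3, h4, h5, h6⟩ := hK v hv
      refine ⟨l, D, st, fun _ => ⟨h1, h2, h3, h4, fun j hj => ?_, fun j hj => ?_⟩⟩
      · rw [h5 ⟨j, hj⟩, hD₁ ⟨j, hj⟩]
      · rw [h6 ⟨j, by omega⟩, hu₁ ⟨j, by omega⟩]
    · exact ⟨[], D₁, st₀, fun h => absurd h hv⟩
  choose l D st hall using hex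
  refine hCw k b R₀ D₁ (fun j => nd B (st₀ j)) hplan (fun j v => st v j) code K ?_ ?_ ?_
  · intro v hv j hj
    obtain ⟨h1, h2, h3, h4, h5, h6⟩ := hall v hv
    exact hb v hv _ (hthr _ _ _ h1 _ (h3 j hj)) (h2 j)
  · intro v hv v' hv' j hj hc he
    obtain ⟨h1, h2, h3, h4, h5, h6⟩ := hall v hv
    obtain ⟨h1', h2', h3', h4', h5', h6'⟩ := hall v' hv'
    exact state_eq hcode (hthr _ _ _ h1 _ (h3 j hj)) (hthr _ _ _ h1' _ (h3' j hj)) (h6 j hj)
      (h6' j hj) hc he
  · intro v hv v' hv' j hj e1 e2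
    obtain ⟨h1, h2, h3, h4, h5, h6⟩ := hall v hv
    obtain ⟨h1', h2', h3', h4', h5', h6'⟩ := hall v' hv'
    obtain ⟨A, V, C, hl, hD⟩ := h4 j hj
    obtain ⟨A', V', C', hl', hD'⟩ := h4' j hj
    have hp := h1
    have hp' := h1'
    rw [hl] at hp
    rw [hl'] at hp'
    obtain ⟨s₁, w1, w2⟩ := NBP.path_append.1 hp
    obtain ⟨s₂, w3, w4⟩ := NBP.path_append.1 w2
    obtain ⟨s₁', w1', w2'⟩ := NBP.path_append.1 hp'
    obtain ⟨s₂', w3', w4'⟩ := NBP.path_append.1 w2'
    have a1 : s₁ = Sum.inl (st v (j + 1)) := w3.1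
    have a1' : s₁' = Sum.inl (st v' (j + 1)) := w3'.1
    have a2 : s₂ = Sum.inl (st v j) := (NBP.path_cons.1 w4).1
    have a2' : s₂' = Sum.inl (st v' j) := (NBP.path_cons.1 w4').1
    have b1 : s₁ = s₁' := by rw [a1, a1', e2]
    have b2 : s₂ = s₂' := by rw [a2, a2', e1]
    have m1 : ∀ q ∈ A, q ∈ l v := by
      intro q hq
      rw [hl]
      exact List.mem_append_left _ hq
    have m2 : ∀ q ∈ st v j :: C, q ∈ l v := by
      intro q hq
      rw [hl]
      exact List.mem_append_right _ (List.mem_append_right _ hq)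
    have m3 : ∀ q ∈ st v' (j + 1) :: V', q ∈ l v' := by
      intro q hq
      rw [hl']
      exact List.mem_append_right _ (List.mem_append_left _ hq)
    have hsp := splice B hthr (v := v) (v' := v') (V' := st v' (j + 1) :: V') w1 w4
      (by rw [b1, b2]; exact w3')
      (fun q hq => hthr _ _ _ h1 q (m1 q hq))
      (fun q hq => hthr _ _ _ h1 q (m2 q hq))
      (fun q hq => hthr _ _ _ h1' q (m3 q hq))
    rcases hsp with ⟨q, hq, hne, hc⟩ | hsp
    · refine Or.inl ⟨nd B q, ?_, hne, fun c hc' => hc c (mem_ndTr_ch.1 hc')⟩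
      rw [← h5' j hj]
      exact (hD' _).2 ⟨q, hq, rfl⟩
    · refine Or.inr fun z hz c hc => ?_
      rw [← h5' j hj] at hz
      obtain ⟨q, hq, rfl⟩ := (hD' z).1 hz
      exact hsp q hq c (mem_ndTr_ch.1 hc)

/-- The final arithmetic. -/
theorem cuts_arith {k S A E b M : ℕ} (hk : 1 ≤ k) (hA : 1 ≤ A) (hE : 1 ≤ E) (hS : 1 ≤ S)
    (hb : b * k ^ 2 ≤ E * S)
    (h : k ^ (2 * M) ≤ A * b ^ (M + 1) ∨ k ^ 4 ≤ A * b ^ 2 ∨ k ^ 2 ≤ A * b ∨ k ≤ A) :
    k ^ (4 * M + 2) ≤ A ^ (4 * M + 4) * E ^ (M + 1) * S ^ (M + 1) := by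
  have key : k ^ 4 ≤ A * (E * S) →
      k ^ (4 * M + 2) ≤ A ^ (4 * M + 4) * E ^ (M + 1) * S ^ (M + 1) := by
    intro h4
    calc k ^ (4 * M + 2) ≤ k ^ (4 * (M + 1)) := Nat.pow_le_pow_right hk (by omega)
      _ = (k ^ 4) ^ (M + 1) := pow_mul _ _ _
      _ ≤ (A * (E * S)) ^ (M + 1) := Nat.pow_le_pow_left h4 _
      _ = A ^ (M + 1) * (E ^ (M + 1) * S ^ (M + 1)) := by rw [mul_pow, mul_pow]
      _ ≤ A ^ (4 * M + 4) * (E ^ (M + 1) * S ^ (M + 1)) :=
          Nat.mul_le_mul_right _ (Nat.pow_le_pow_right hA (by omega))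
      _ = _ := by ring
  rcases h with h | h | h | h
  · calc k ^ (4 * M + 2) = k ^ (2 * M) * (k ^ 2) ^ (M + 1) := by
          rw [← pow_mul, ← pow_add]
          congr 1
          ring
      _ ≤ A * b ^ (M + 1) * (k ^ 2) ^ (M + 1) := Nat.mul_le_mul_right _ h
      _ = A * (b * k ^ 2) ^ (M + 1) := by rw [mul_pow]; ring
      _ ≤ A * (E * S) ^ (M + 1) := Nat.mul_le_mul_left _ (Nat.pow_le_pow_left hb _)
      _ = A ^ 1 * (E ^ (M + 1) * S ^ (M + 1)) := by rw [mul_pow, pow_one]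
      _ ≤ A ^ (4 * M + 4) * (E ^ (M + 1) * S ^ (M + 1)) :=
          Nat.mul_le_mul_right _ (Nat.pow_le_pow_right hA (by omega))
      _ = _ := by ring
  · refine key ?_
    have h2 : (k ^ 4) ^ 2 ≤ (A * (E * S)) ^ 2 := by
      calc (k ^ 4) ^ 2 = k ^ 4 * (k ^ 2) ^ 2 := by ring
        _ ≤ A * b ^ 2 * (k ^ 2) ^ 2 := Nat.mul_le_mul_right _ h
        _ = A * (b * k ^ 2) ^ 2 := by ring
        _ ≤ A * (E * S) ^ 2 := Nat.mul_le_mul_left _ (Nat.pow_le_pow_left hb _)
        _ ≤ A ^ 2 * (E * S) ^ 2 := Nat.mul_le_mul_right _ (by nlinarith)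
        _ = _ := by ring
    exact (Nat.pow_le_pow_iff_left (by norm_num)).1 h2
  · refine key ?_
    calc k ^ 4 = k ^ 2 * k ^ 2 := by ring
      _ ≤ A * b * k ^ 2 := Nat.mul_le_mul_right _ h
      _ = A * (b * k ^ 2) := by ring
      _ ≤ _ := Nat.mul_le_mul_left _ hb
  · calc k ^ (4 * M + 2) ≤ A ^ (4 * M + 2) := Nat.pow_le_pow_left h _
      _ ≤ A ^ (4 * M + 4) := Nat.pow_le_pow_right hA (by omega)
      _ = A ^ (4 * M + 4) * 1 * 1 := by ring
      _ ≤ _ := Nat.mul_le_mul (Nat.mul_le_mul_left _ (Nat.one_le_pow _ _ hE))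
          (Nat.one_le_pow _ _ hS)

/-- The lower bound for the size of nondeterministic thrifty programs for tree evaluation. -/
theorem nondet_lower (M n : ℕ) (hn : 3 * M + 5 ≤ n) : ∃ C : ℕ, ∀ (k : ℕ) (R : Type) [Fintype R]
    (g : Fin k → R), (∃ a b, g a ≠ g b) → ∀ B : NBP (TVar k n) (Fin k) R,
      B.Computes (fun I => g (val n I)) → Thrifty B →
        k ^ (4 * M + 2) ≤ C * B.size ^ (M + 1) := by
  classical
  obtain ⟨Cw, hCw⟩ := window_card n M
  let Ty : Type := (Finset (Nd n) × Nd n × Nd n × Bool × Bool) ⊕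
    ((Fin M → Finset (Nd n)) × (Fin (M + 1) → Nd n))
  let _ : Fintype Ty := inferInstance
  let NN := Fintype.card (Nd n)
  let A := 2 * Fintype.card Ty * (Cw + 1)
  refine ⟨A ^ (4 * M + 4) * (2 * NN) ^ (M + 1), ?_⟩
  intro k R _ g hg B hcomp hthr
  have hk : 2 ≤ k := by
    obtain ⟨a, b, hab⟩ := hg
    have : a ≠ b := fun h => hab (h ▸ rfl)
    have ha := a.isLt
    have hb := b.isLt
    have : (a : ℕ) ≠ b := fun h => this (Fin.ext h)
    omega
  have hS : 1 ≤ B.size := by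
    have : 0 < Fintype.card R := Fintype.card_pos_iff.2 ⟨g ⟨0, by omega⟩⟩
    unfold NBP.size
    omega
  have hN1 : 1 ≤ NN := Fintype.card_pos_iff.2 ⟨Nd.root n⟩
  obtain ⟨code, hcode1, hcode2⟩ := exists_code B
  let b := 2 * NN * B.size / k ^ 2
  have hb : b * k ^ 2 ≤ 2 * NN * B.size := Nat.div_mul_le_self _ _
  have hlight : ∀ v : Nd n → Fin k, Light B v → ∀ q, IsThrifty n (inp v) (B.var q) →
      (ndTr n).dep (nd B q) < n → code q < b := by
    intro v hv q hq hd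
    have h1 := hv (nd B q) hd
    rw [← var_eq_tvar hq] at h1
    exact (hcode1 q).trans_le ((Nat.le_div_iff_mul_le (by positivity)).2 h1)
  -- the type of a labelling
  have hty : ∀ v : Nd n → Fin k, ∃ t : Ty, match t with
      | Sum.inl (F, ul, ur, a, c) => SimpleTy B g F ul ur a c v ∧ 1 ≤ F.card ∧
          2 * (a.toNat + c.toNat) ≤ F.card ∧
          (a = true → (ndTr n).dep ul < n ∧ Disjoint F ((ndTr n).ch ul)) ∧
          (c = true → (ndTr n).dep ur < n ∧ Disjoint F ((ndTr n).ch ur))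
      | Sum.inr (D₀, u₀) => WinTy B g M D₀ u₀ v := by
    intro v
    obtain ⟨l, hl⟩ := (hcomp (inp v)).1
    have hl' : B.Path (inp v) B.start l (g (v (Nd.root n))) := by
      have h1 : g (val n (inp v)) = g (v (Nd.root n)) := by rw [val_inp]
      exact h1 ▸ hl
    have hroot : ∃ q ∈ l, nd B q = (ndTr n).root := by
      have h1 := full_word B g hk hg hcomp hthr v l _ hl' [] (Nat.zero_le _)
      obtain ⟨q, hq, hq'⟩ := List.mem_map.1 h1
      exact ⟨q, hq, addr_injective n (hq'.trans (addr_root n).symm)⟩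
    rcases Tr.exists_windows (T := ndTr n) (ν := nd B) (M := M) hn hroot with
      ⟨A', V, C, F, a, c, h1, h2, h3, h4, h5, h6, h7, h8, h9⟩ | ⟨Rw, D, st, h1, h2, h3, h4⟩
    · obtain ⟨ul, hul⟩ : ∃ ul, a = true → ∃ g V', V = g :: V' ∧ nd B g = ul ∧
          (ndTr n).dep ul < n ∧ Disjoint F ((ndTr n).ch ul) := by
        cases a with
        | false => exact ⟨Nd.root n, by simp⟩
        | true =>
          obtain ⟨q, V', e1, e2, e3⟩ := h4 rfl
          exact ⟨nd B q, fun _ => ⟨q, V', e1, rfl, e2, e3⟩⟩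
      obtain ⟨ur, hur⟩ : ∃ ur, c = true → ∃ g V', C = g :: V' ∧ nd B g = ur ∧
          (ndTr n).dep ur < n ∧ Disjoint F ((ndTr n).ch ur) := by
        cases c with
        | false => exact ⟨Nd.root n, by simp⟩
        | true =>
          obtain ⟨q, V', e1, e2, e3⟩ := h6 rfl
          exact ⟨nd B q, fun _ => ⟨q, V', e1, rfl, e2, e3⟩⟩
      refine ⟨Sum.inl (F, ul, ur, a, c), ⟨A', V, C, h1 ▸ hl', h2, h3, ?_, h5, ?_, h7⟩, h8, h9,
        ?_, ?_⟩
      · intro ha
        obtain ⟨q, V', e1, e2, -⟩ := hul ha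
        exact ⟨q, V', e1, e2⟩
      · intro hc
        obtain ⟨q, V', e1, e2, -⟩ := hur hc
        exact ⟨q, V', e1, e2⟩
      · intro ha
        obtain ⟨q, V', -, -, e⟩ := hul ha
        exact e
      · intro hc
        obtain ⟨q, V', -, -, e⟩ := hur hc
        exact e
    · exact ⟨Sum.inr (fun j => D j, fun j => nd B (st j)), l, Rw, D, st, hl', h1, h2, h3, h4,
        fun _ => rfl, fun _ => rfl⟩
  choose ty hty using hty
  -- a popular type
  have hpig : ∃ t : Ty, (Finset.univ.filter fun v => Light B v).card ≤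
      Fintype.card Ty * ((Finset.univ.filter fun v => Light B v).filter fun v => ty v = t).card := by
    by_contra hcon
    push Not at hcon
    have hne : Nonempty Ty := ⟨Sum.inl (∅, Nd.root n, Nd.root n, false, false)⟩
    have h1 : (Finset.univ.filter fun v : Nd n → Fin k => Light B v).card = ∑ t : Ty,
        ((Finset.univ.filter fun v => Light B v).filter fun v => ty v = t).card :=
      Finset.card_eq_sum_card_fiberwise fun _ _ => Finset.mem_univ _
    have h2 : ∑ t : Ty, Fintype.card Ty *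
        ((Finset.univ.filter fun v => Light B v).filter fun v => ty v = t).card <
        ∑ _t : Ty, (Finset.univ.filter fun v : Nd n → Fin k => Light B v).card :=
      Finset.sum_lt_sum_of_nonempty Finset.univ_nonempty fun t _ => hcon t
    rw [← Finset.mul_sum, ← h1, Finset.sum_const, smul_eq_mul, Finset.card_univ] at h2
    exact lt_irrefl _ h2
  obtain ⟨t, ht⟩ := hpig
  set K := (Finset.univ.filter fun v => Light B v).filter fun v => ty v = t with hK
  have hKl : ∀ v ∈ K, Light B v := fun v hv =>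
    (Finset.mem_filter.1 (Finset.mem_filter.1 hv).1).2
  have hKt : ∀ v ∈ K, ty v = t := fun v hv => (Finset.mem_filter.1 hv).2
  have hbig : k ^ NN ≤ 2 * Fintype.card Ty * K.card := by
    calc k ^ NN ≤ 2 * (Finset.univ.filter fun v => Light B v).card := card_light B hS
      _ ≤ 2 * (Fintype.card Ty * K.card) := Nat.mul_le_mul_left _ ht
      _ = _ := by ring
  have hkN : 0 < k ^ NN := by positivity
  have hKne : K.Nonempty := by
    rw [← Finset.card_pos]
    by_contra h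
    obtain h0 : K.card = 0 := by omega
    rw [h0] at hbig
    omega
  -- dividing by the number of labellings
  have hdiv : ∀ x y c : ℕ, c ≤ Cw + 1 → K.card * x ≤ c * y * k ^ NN → x ≤ A * y := by
    intro x y c hc h
    refine Nat.le_of_mul_le_mul_left (c := k ^ NN) ?_ hkN
    calc k ^ NN * x ≤ 2 * Fintype.card Ty * K.card * x := Nat.mul_le_mul_right _ hbig
      _ = 2 * Fintype.card Ty * (K.card * x) := by ring
      _ ≤ 2 * Fintype.card Ty * (c * y * k ^ NN) := Nat.mul_le_mul_left _ h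
      _ ≤ 2 * Fintype.card Ty * ((Cw + 1) * y * k ^ NN) :=
          Nat.mul_le_mul_left _ (Nat.mul_le_mul_right _ (Nat.mul_le_mul_right _ hc))
      _ = k ^ NN * (A * y) := by
          change _ = k ^ NN * (2 * Fintype.card Ty * (Cw + 1) * y)
          ring
  have hA : 1 ≤ A := by
    have hne : 0 < Fintype.card Ty :=
      Fintype.card_pos_iff.2 ⟨Sum.inl (∅, Nd.root n, Nd.root n, false, false)⟩
    have : 0 < 2 * Fintype.card Ty * (Cw + 1) := by positivity
    exact this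
  refine cuts_arith (by omega) hA (by omega) hS hb ?_
  obtain ⟨v₀, hv₀⟩ := hKne
  rcases t with ⟨F, ul, ur, a, c⟩ | ⟨D₀, u₀⟩
  · have hS₀ : ∀ v ∈ K, SimpleTy B g F ul ur a c v ∧ 1 ≤ F.card ∧
          2 * (a.toNat + c.toNat) ≤ F.card ∧
          (a = true → (ndTr n).dep ul < n ∧ Disjoint F ((ndTr n).ch ul)) ∧
          (c = true → (ndTr n).dep ur < n ∧ Disjoint F ((ndTr n).ch ur)) := by
      intro v hv
      have h1 := hty v
      rw [hKt v hv] at h1
      exact h1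
    obtain ⟨-, h1, h2, h3, h4⟩ := hS₀ v₀ hv₀
    have h5 := simple_card B hthr g code hcode2 b F ul ur a c (fun ha => (h3 ha).2)
      (fun hc => (h4 hc).2) K (fun v hv => (hS₀ v hv).1) (by
        rintro v hv q hq (⟨ha, hq'⟩ | ⟨hc, hq'⟩)
        · exact hlight v (hKl v hv) q hq (hq' ▸ (h3 ha).1)
        · exact hlight v (hKl v hv) q hq (hq' ▸ (h4 hc).1))
    have h6 := hdiv (k ^ F.card) (b ^ (a.toNat + c.toNat)) 1 (by omega) (by
      rw [one_mul, mul_comm (b ^ _)]
      exact h5)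
    have h7 : ∀ m, m ≤ F.card → k ^ m ≤ A * b ^ (a.toNat + c.toNat) := fun m hm =>
      (Nat.pow_le_pow_right (by omega) hm).trans h6
    cases a <;> cases c <;> simp only [Bool.toNat_false, Bool.toNat_true] at h2 h7
    · right; right; right
      have := h7 1 h1
      simpa using this
    · right; right; left
      have := h7 2 (by omega)
      simpa using this
    · right; right; left
      have := h7 2 (by omega)
      simpa using this
    · right; left
      have := h7 4 (by omega)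
      simpa using this
  · have hW₀ : ∀ v ∈ K, WinTy B g M D₀ u₀ v := by
      intro v hv
      have h1 := hty v
      rw [hKt v hv] at h1
      exact h1
    rcases hCw k R B hthr g code hcode2 b D₀ u₀ K hW₀
      (fun v hv q hq hd => hlight v (hKl v hv) q hq hd) with h1 | h1
    · exact Or.inl (hdiv _ _ Cw (by omega) h1)
    · exact Or.inr (Or.inl (hdiv _ _ Cw (by omega) h1))

end Pool.Agent.ThriftyBP
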