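import Pool.Agent.ThriftyBP.Tree

/-!
# Counting with masks

In a set of functions any two of which that differ on `F` also differ at a node `z` of a small set
of masks while they agree on the children of `z`, a typical element has few variants on `F`.
-/

namespace Pool.Agent.ThriftyBP

variable {N : Type} [DecidableEq N]

/-- Two elements of `K` that differ on `F` differ at a mask but agree on its children. -/
def Masked {k : ℕ} (ch : N → Finset N) (F Mk : Finset N) (K : Finset (N → Fin k)) : Prop :=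
  ∀ v ∈ K, ∀ v' ∈ K, (∃ f ∈ F, v f ≠ v' f) → ∃ z ∈ Mk, v z ≠ v' z ∧ ∀ c ∈ ch z, v c = v' c

theorem const_card [Fintype N] {k : ℕ} {A F : Finset N} {K : Finset (N → Fin k)} (hF : F ⊆ A)
    (hA : ∀ v ∈ K, ∀ v' ∈ K, ∀ x, x ∉ A → v x = v' x)
    (hK : ∀ v ∈ K, ∀ v' ∈ K, ∀ f ∈ F, v f = v' f) : K.card * k ^ F.card ≤ k ^ A.card := by
  have h1 : K.card ≤ k ^ (A.card - F.card) := by
    have hcard : (Finset.univ : Finset ({i : N // i ∈ A \ F} → Fin k)).card =
        k ^ (A.card - F.card) := by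
      rw [Finset.card_univ, Fintype.card_fun, Fintype.card_fin, Fintype.card_coe,
        Finset.card_sdiff_of_subset hF]
    rw [← hcard]
    refine Finset.card_le_card_of_injOn (fun v i => v i.1) (fun _ _ => Finset.mem_univ _) ?_
    intro v hv v' hv' he
    funext x
    by_cases h1 : x ∈ A
    · by_cases h2 : x ∈ F
      · exact hK v hv v' hv' x h2
      · exact congrFun he ⟨x, Finset.mem_sdiff.2 ⟨h1, h2⟩⟩
    · exact hA v hv v' hv' x h1
  calc K.card * k ^ F.card ≤ k ^ (A.card - F.card) * k ^ F.card := Nat.mul_le_mul_right _ h1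
    _ = k ^ A.card := by
        rw [← pow_add, Nat.sub_add_cancel (Finset.card_le_card hF)]

open Classical in
/-- The elements that differ from `w` at `z` and agree with it on the children of `z`. -/
noncomputable def slab {k : ℕ} (ch : N → Finset N) (K : Finset (N → Fin k)) (z : N)
    (w : N → Fin k) : Finset (N → Fin k) :=
  K.filter fun v => v z ≠ w z ∧ ∀ c ∈ ch z, v c = w c

omit [DecidableEq N] in
theorem mem_slab {k : ℕ} {ch : N → Finset N} {K : Finset (N → Fin k)} {z : N} {w v : N → Fin k} :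
    v ∈ slab ch K z w ↔ v ∈ K ∧ v z ≠ w z ∧ ∀ c ∈ ch z, v c = w c := Finset.mem_filter

theorem slab_card [Fintype N] {s C : ℕ} {k : ℕ} {ch : N → Finset N}
    (ih : ∀ (A F Mk : Finset N) (K : Finset (N → Fin k)), Mk.card ≤ s → F ⊆ A →
      (∀ z ∈ Mk, z ∉ F ∧ Disjoint (ch z) F) →
      (∀ v ∈ K, ∀ v' ∈ K, ∀ x, x ∉ A → v x = v' x) → Masked ch F Mk K →
      K.card * k ^ F.card ≤ C * k ^ A.card)
    {A F Mk : Finset N} {K : Finset (N → Fin k)} (hMk : Mk.card ≤ s + 1) (hF : F ⊆ A)
    (hz : ∀ z ∈ Mk, z ∉ F ∧ Disjoint (ch z) F)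
    (hA : ∀ v ∈ K, ∀ v' ∈ K, ∀ x, x ∉ A → v x = v' x) (hK : Masked ch F Mk K)
    {z : N} (hzM : z ∈ Mk) {w : N → Fin k} (hw : w ∈ K) :
    (z ∉ A → slab ch K z w = ∅) ∧
      (slab ch K z w).card * k ^ F.card ≤ C * k ^ ((A \ insert z (ch z)).card + 1) := by
  constructor
  · intro h
    rw [Finset.eq_empty_iff_forall_notMem]
    intro v hv
    obtain ⟨h1, h2, -⟩ := mem_slab.1 hv
    exact h2 (hA v h1 w hw z h)
  · have h1 : (slab ch K z w).card = ∑ a : Fin k, ((slab ch K z w).filter fun v => v z = a).card :=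
      Finset.card_eq_sum_card_fiberwise fun _ _ => Finset.mem_univ _
    rw [h1, Finset.sum_mul]
    have h2 : ∀ a : Fin k, ((slab ch K z w).filter fun v => v z = a).card * k ^ F.card ≤
        C * k ^ (A \ insert z (ch z)).card := by
      intro a
      have hsub : ∀ v ∈ (slab ch K z w).filter fun v => v z = a,
          v ∈ K ∧ v z = a ∧ ∀ c ∈ ch z, v c = w c := by
        intro v hv
        obtain ⟨h3, h4⟩ := Finset.mem_filter.1 hv
        obtain ⟨h5, -, h6⟩ := mem_slab.1 h3
        exact ⟨h5, h4, h6⟩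
      refine ih _ F (Mk.erase z) _ ?_ ?_ ?_ ?_ ?_
      · rw [Finset.card_erase_of_mem hzM]
        omega
      · intro f hf
        rw [Finset.mem_sdiff, Finset.mem_insert]
        refine ⟨hF hf, ?_⟩
        rintro (rfl | h3)
        · exact (hz _ hzM).1 hf
        · exact Finset.disjoint_left.1 (hz _ hzM).2 h3 hf
      · exact fun z' hz' => hz z' (Finset.mem_of_mem_erase hz')
      · intro v hv v' hv' x hx
        obtain ⟨h3, h4, h5⟩ := hsub v hv
        obtain ⟨h3', h4', h5'⟩ := hsub v' hv'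
        by_cases h6 : x ∈ A
        · have h7 : x ∈ insert z (ch z) := by
            by_contra h7
            exact hx (Finset.mem_sdiff.2 ⟨h6, h7⟩)
          rcases Finset.mem_insert.1 h7 with rfl | h7
          · rw [h4, h4']
          · rw [h5 x h7, h5' x h7]
        · exact hA v h3 v' h3' x h6
      · intro v hv v' hv' hne
        obtain ⟨h3, h4, h5⟩ := hsub v hv
        obtain ⟨h3', h4', h5'⟩ := hsub v' hv'
        obtain ⟨z', h6, h7, h8⟩ := hK v h3 v' h3' hne
        refine ⟨z', Finset.mem_erase.2 ⟨?_, h6⟩, h7, h8⟩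
        rintro rfl
        exact h7 (h4.trans h4'.symm)
    calc _ ≤ ∑ _a : Fin k, C * k ^ (A \ insert z (ch z)).card := Finset.sum_le_sum fun a _ => h2 a
      _ = k * (C * k ^ (A \ insert z (ch z)).card) := by
          rw [Finset.sum_const, smul_eq_mul, Finset.card_univ, Fintype.card_fin]
      _ = _ := by rw [pow_succ]; ring

omit [DecidableEq N] in
theorem card_le_slabs {k : ℕ} {ch : N → Finset N} {F Mk : Finset N} {K : Finset (N → Fin k)}
    (hK : Masked ch F Mk K) {v₀ v₁ : N → Fin k} (h₀ : v₀ ∈ K) (h₁ : v₁ ∈ K) {f : N} (hf : f ∈ F)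
    (hne : v₀ f ≠ v₁ f) :
    K.card ≤ ∑ z ∈ Mk, ((slab ch K z v₀).card + (slab ch K z v₁).card) := by
  classical
  have hsub : K ⊆ Mk.biUnion fun z => slab ch K z v₀ ∪ slab ch K z v₁ := by
    intro v hv
    rw [Finset.mem_biUnion]
    by_cases h1 : v f = v₀ f
    · obtain ⟨z, hz, h2, h3⟩ := hK v hv v₁ h₁ ⟨f, hf, by rw [h1]; exact hne⟩
      exact ⟨z, hz, Finset.mem_union_right _ (mem_slab.2 ⟨hv, h2, h3⟩)⟩
    · obtain ⟨z, hz, h2, h3⟩ := hK v hv v₀ h₀ ⟨f, hf, h1⟩
      exact ⟨z, hz, Finset.mem_union_left _ (mem_slab.2 ⟨hv, h2, h3⟩)⟩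
  refine (Finset.card_le_card hsub).trans (Finset.card_biUnion_le.trans ?_)
  exact Finset.sum_le_sum fun z _ => Finset.card_union_le _ _

theorem mask_card [Fintype N] (s : ℕ) : ∃ C : ℕ, ∀ (k : ℕ) (ch : N → Finset N)
    (A F Mk : Finset N) (K : Finset (N → Fin k)), Mk.card ≤ s → F ⊆ A →
    (∀ z ∈ Mk, z ∉ F ∧ Disjoint (ch z) F) → (∀ v ∈ K, ∀ v' ∈ K, ∀ x, x ∉ A → v x = v' x) →
    Masked ch F Mk K → K.card * k ^ F.card ≤ C * k ^ A.card := by
  induction s with
  | zero =>
    refine ⟨1, ?_⟩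
    intro k ch A F Mk K hMk hF hz hA hK
    rw [one_mul]
    refine const_card hF hA ?_
    intro v hv v' hv' f hf
    by_contra hne
    obtain ⟨z, hz, -⟩ := hK v hv v' hv' ⟨f, hf, hne⟩
    rw [Finset.card_eq_zero.1 (Nat.le_zero.1 hMk)] at hz
    exact Finset.notMem_empty z hz
  | succ s ih =>
    obtain ⟨C, hC⟩ := ih
    refine ⟨1 + (s + 1) * (2 * C), ?_⟩
    intro k ch A F Mk K hMk hF hz hA hK
    by_cases hconst : ∀ v ∈ K, ∀ v' ∈ K, ∀ f ∈ F, v f = v' f
    · calc _ ≤ k ^ A.card := const_card hF hA hconst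
        _ ≤ _ := Nat.le_mul_of_pos_left _ (by omega)
    · push Not at hconst
      obtain ⟨v₀, h₀, v₁, h₁, f, hf, hne⟩ := hconst
      have h1 := card_le_slabs hK h₀ h₁ hf hne
      have h2 : ∀ z ∈ Mk, ∀ w ∈ K, (slab ch K z w).card * k ^ F.card ≤ C * k ^ A.card := by
        intro z hzM w hw
        obtain ⟨h3, h4⟩ := slab_card (hC k ch) hMk hF hz hA hK hzM hw
        by_cases hzA : z ∈ A
        · refine h4.trans (Nat.mul_le_mul_left _ (Nat.pow_le_pow_right (w z).pos ?_))
          have h5 : (A \ insert z (ch z)).card < A.card := by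
            refine Finset.card_lt_card ?_
            rw [Finset.ssubset_iff_of_subset Finset.sdiff_subset]
            exact ⟨z, hzA, by simp⟩
          omega
        · rw [h3 hzA]
          simp
      calc K.card * k ^ F.card
          ≤ (∑ z ∈ Mk, ((slab ch K z v₀).card + (slab ch K z v₁).card)) * k ^ F.card :=
            Nat.mul_le_mul_right _ h1
        _ = ∑ z ∈ Mk, ((slab ch K z v₀).card * k ^ F.card +
              (slab ch K z v₁).card * k ^ F.card) := by
            rw [Finset.sum_mul]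
            exact Finset.sum_congr rfl fun z _ => add_mul _ _ _
        _ ≤ ∑ _z ∈ Mk, (C * k ^ A.card + C * k ^ A.card) :=
            Finset.sum_le_sum fun z hz => Nat.add_le_add (h2 z hz v₀ h₀) (h2 z hz v₁ h₁)
        _ = Mk.card * (C * k ^ A.card + C * k ^ A.card) := by
            rw [Finset.sum_const, smul_eq_mul]
        _ ≤ (s + 1) * (C * k ^ A.card + C * k ^ A.card) := Nat.mul_le_mul_right _ hMk
        _ ≤ _ := by
            calc (s + 1) * (C * k ^ A.card + C * k ^ A.card)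
                = (s + 1) * (2 * C) * k ^ A.card := by ring
              _ ≤ _ := Nat.mul_le_mul_right _ (Nat.le_add_left _ _)

theorem mask_card_four [Fintype N] (s : ℕ) : ∃ C : ℕ, ∀ (k : ℕ) (ch : N → Finset N)
    (A F Mk : Finset N) (K : Finset (N → Fin k)), Mk.card ≤ s → F ⊆ A →
    (∀ z ∈ Mk, z ∉ F ∧ Disjoint (ch z) F) → (∀ v ∈ K, ∀ v' ∈ K, ∀ x, x ∉ A → v x = v' x) →
    Masked ch F Mk K → (∀ z ∈ Mk, z ∉ ch z ∧ 4 ≤ F.card + (ch z ∩ A).card) →
    (∃ v ∈ K, ∃ v' ∈ K, ∃ f ∈ F, v f ≠ v' f) → K.card * k ^ 4 ≤ C * k ^ A.card := by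
  obtain ⟨C, hC⟩ := mask_card (N := N) s
  refine ⟨s * (2 * C), ?_⟩
  intro k ch A F Mk K hMk hF hz hA hK h4 ⟨v₀, h₀, v₁, h₁, f, hf, hne⟩
  have h1 := card_le_slabs hK h₀ h₁ hf hne
  have hk : 0 < k := (v₀ f).pos
  have h2 : ∀ z ∈ Mk, ∀ w ∈ K, (slab ch K z w).card * k ^ 4 ≤ C * k ^ A.card := by
    intro z hzM w hw
    obtain ⟨h3, h5⟩ := slab_card (hC k ch) (hMk.trans (Nat.le_succ s)) hF hz hA hK hzM hw
    by_cases hzA : z ∈ A
    · obtain ⟨h6, h7⟩ := h4 z hzM
      have h8 : (A \ insert z (ch z)).card + 1 + (ch z ∩ A).card ≤ A.card := by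
        have h9 : insert z (ch z ∩ A) ⊆ A := by
          intro x hx
          rcases Finset.mem_insert.1 hx with rfl | hx
          · exact hzA
          · exact (Finset.mem_inter.1 hx).2
        have h10 : Disjoint (A \ insert z (ch z)) (insert z (ch z ∩ A)) := by
          rw [Finset.disjoint_left]
          intro x hx hx'
          refine (Finset.mem_sdiff.1 hx).2 ?_
          rcases Finset.mem_insert.1 hx' with rfl | hx'
          · exact Finset.mem_insert_self _ _
          · exact Finset.mem_insert_of_mem (Finset.mem_inter.1 hx').1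
        have h11 := Finset.card_le_card
          (Finset.union_subset (Finset.sdiff_subset (s := A) (t := insert z (ch z))) h9)
        rw [Finset.card_union_of_disjoint h10, Finset.card_insert_of_notMem (fun h =>
          h6 (Finset.mem_inter.1 h).1)] at h11
        omega
      calc (slab ch K z w).card * k ^ 4
          ≤ (slab ch K z w).card * k ^ (F.card + (ch z ∩ A).card) :=
            Nat.mul_le_mul_left _ (Nat.pow_le_pow_right hk h7)
        _ = (slab ch K z w).card * k ^ F.card * k ^ (ch z ∩ A).card := by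
            rw [pow_add]
            ring
        _ ≤ C * k ^ ((A \ insert z (ch z)).card + 1) * k ^ (ch z ∩ A).card :=
            Nat.mul_le_mul_right _ h5
        _ = C * k ^ ((A \ insert z (ch z)).card + 1 + (ch z ∩ A).card) := by
            rw [pow_add _ _ (ch z ∩ A).card]
            ring
        _ ≤ _ := Nat.mul_le_mul_left _ (Nat.pow_le_pow_right hk h8)
    · rw [h3 hzA]
      simp
  calc K.card * k ^ 4
      ≤ (∑ z ∈ Mk, ((slab ch K z v₀).card + (slab ch K z v₁).card)) * k ^ 4 :=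
        Nat.mul_le_mul_right _ h1
    _ = ∑ z ∈ Mk, ((slab ch K z v₀).card * k ^ 4 + (slab ch K z v₁).card * k ^ 4) := by
        rw [Finset.sum_mul]
        exact Finset.sum_congr rfl fun z _ => add_mul _ _ _
    _ ≤ ∑ _z ∈ Mk, (C * k ^ A.card + C * k ^ A.card) :=
        Finset.sum_le_sum fun z hz => Nat.add_le_add (h2 z hz v₀ h₀) (h2 z hz v₁ h₁)
    _ = Mk.card * (C * k ^ A.card + C * k ^ A.card) := by
        rw [Finset.sum_const, smul_eq_mul]
    _ ≤ s * (C * k ^ A.card + C * k ^ A.card) := Nat.mul_le_mul_right _ hMk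
    _ = _ := by ring

end Pool.Agent.ThriftyBP
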