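import Pool.Agent.ThriftyBP.CutsStage
import Pool.Agent.ThriftyBP.TimeLower

/-!
# Splicing computations of nondeterministic thrifty programs
-/

namespace Pool.Agent.ThriftyBP

/-! ### The tree of the nodes -/

theorem addr_of_child (n : ℕ) (p i : Nd n) (h : Nd.Child n p i) :
    ∃ b, addr n i = addr n p ++ [b] := by
  induction n with
  | zero => exact h.elim
  | succ n ih =>
    rcases i with _ | ⟨c, i⟩
    · rcases p with _ | ⟨d, p⟩ <;> exact h.elim
    · rcases p with _ | ⟨d, p⟩
      · have h' : i = Nd.root n := h
        subst h'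
        refine ⟨c, ?_⟩
        change c :: addr n (Nd.root n) = [] ++ [c]
        rw [addr_root]
        rfl
      · obtain ⟨h1, h2⟩ := h
        change Nd.Child n p i at h2
        subst h1
        obtain ⟨b, hb⟩ := ih p i h2
        refine ⟨b, ?_⟩
        change d :: addr n i = (d :: addr n p) ++ [b]
        rw [hb]
        rfl

noncomputable instance Nd.instDecidableEq (n : ℕ) : DecidableEq (Nd n) := Classical.decEq _

open Classical in
/-- The nodes of the complete binary tree as a rooted tree. -/
noncomputable def ndTr (n : ℕ) : Tr (Nd n) n where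
  root := Nd.root n
  ch := fun z => Finset.univ.filter (Nd.Child n z)
  dep := fun z => (addr n z).length
  dep_root := by rw [addr_root]; rfl
  dep_ch := by
    intro x z h
    obtain ⟨b, hb⟩ := addr_of_child n z x (Finset.mem_filter.1 h).2
    rw [hb, List.length_append, List.length_singleton]
  uniq := by
    intro x z z' h h'
    obtain ⟨b, hb⟩ := addr_of_child n z x (Finset.mem_filter.1 h).2
    obtain ⟨b', hb'⟩ := addr_of_child n z' x (Finset.mem_filter.1 h').2
    rw [hb] at hb'
    exact addr_injective n (List.append_inj' hb' rfl).1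
  card_ch := by
    intro z hz
    obtain ⟨i, hi⟩ := exists_addr n (addr n z ++ [false]) (by
      rw [List.length_append, List.length_singleton]; omega)
    obtain ⟨j, hj⟩ := exists_addr n (addr n z ++ [true]) (by
      rw [List.length_append, List.length_singleton]; omega)
    have hij : i ≠ j := by
      rintro rfl
      rw [hi] at hj
      have := (List.append_inj' hj rfl).2
      simp at this
    rw [← Finset.card_pair hij]
    congr 1
    ext x
    simp only [Finset.mem_filter, Finset.mem_univ, true_and, Finset.mem_insert,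
      Finset.mem_singleton]
    constructor
    · intro h
      obtain ⟨b, hb⟩ := addr_of_child n z x h
      cases b
      · exact Or.inl (addr_injective n (hb.trans hi.symm))
      · exact Or.inr (addr_injective n (hb.trans hj.symm))
    · rintro (rfl | rfl)
      · exact child_of_addr n z _ false hi
      · exact child_of_addr n z _ true hj

theorem mem_ndTr_ch {n : ℕ} {z x : Nd n} : x ∈ (ndTr n).ch z ↔ Nd.Child n z x := by
  simp [ndTr]

/-! ### The thrifty variable of a node -/

/-- The thrifty variable of a node. -/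
def tvar {k : ℕ} : (n : ℕ) → (Nd n → Fin k) → Nd n → TVar k n
  | 0, _, _ => ()
  | n + 1, v, none => Sum.inl (v (some (false, Nd.root n)), v (some (true, Nd.root n)))
  | n + 1, v, some (b, i) => Sum.inr (b, tvar n (fun j => v (some (b, j))) i)

theorem node_tvar {k : ℕ} (n : ℕ) (v : Nd n → Fin k) (i : Nd n) : node n (tvar n v i) = i := by
  induction n with
  | zero => rfl
  | succ n ih =>
    rcases i with _ | ⟨b, i⟩
    · rfl
    · change some (b, node n (tvar n (fun j => v (some (b, j))) i)) = some (b, i)
      rw [ih]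

theorem isThrifty_inp_iff {k : ℕ} (n : ℕ) (v : Nd n → Fin k) (x : TVar k n) :
    IsThrifty n (inp v) x ↔ x = tvar n v (node n x) := by
  induction n with
  | zero => exact ⟨fun _ => rfl, fun _ => trivial⟩
  | succ n ih =>
    rcases x with ⟨a, b⟩ | ⟨b, x⟩
    · change (a = val n (sub (inp v) false) ∧ b = val n (sub (inp v) true)) ↔
        (Sum.inl (a, b) : (Fin k × Fin k) ⊕ (Bool × TVar k n)) =
          Sum.inl (v (some (false, Nd.root n)), v (some (true, Nd.root n)))
      rw [sub_inp, sub_inp, val_inp, val_inp]
      simp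
    · have h := ih (fun j => v (some (b, j))) x
      change IsThrifty n (inp fun j => v (some (b, j))) x ↔
        (Sum.inr (b, x) : (Fin k × Fin k) ⊕ (Bool × TVar k n)) =
          Sum.inr (b, tvar n (fun j => v (some (b, j))) (node n x))
      rw [h]
      simp

theorem tvar_congr {k : ℕ} (n : ℕ) (v v' : Nd n → Fin k) (i : Nd n)
    (h : ∀ j, Nd.Child n i j → v j = v' j) : tvar n v i = tvar n v' i := by
  have h1 : IsThrifty n (inp v) (tvar n v i) := by
    rw [isThrifty_inp_iff, node_tvar]
  have h2 := isThrifty_inp_congr n v v' (tvar n v i) (by rwa [node_tvar]) h1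
  rw [isThrifty_inp_iff, node_tvar] at h2
  exact h2

theorem child_of_tvar {k : ℕ} (n : ℕ) (v v' : Nd n → Fin k) (i : Nd n)
    (h : tvar n v i = tvar n v' i) (j : Nd n) (hj : Nd.Child n i j) : v j = v' j := by
  refine thrifty_child n v v' (tvar n v i) ?_ ?_ j (by rwa [node_tvar])
  · rw [isThrifty_inp_iff, node_tvar]
  · rw [isThrifty_inp_iff, node_tvar, h]

/-! ### Inputs that agree with a labelling on its thrifty variables -/

theorem val_of_agree {k : ℕ} (n : ℕ) (v : Nd n → Fin k) (I : TVar k n → Fin k)
    (h : ∀ x, IsThrifty n (inp v) x → I x = v (node n x)) : val n I = v (Nd.root n) := by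
  induction n with
  | zero => exact h () trivial
  | succ n ih =>
    have h1 : ∀ b, val n (sub I b) = v (some (b, Nd.root n)) := fun b =>
      ih (fun j => v (some (b, j))) (sub I b) fun x hx => h (Sum.inr (b, x)) hx
    change I (Sum.inl (val n (sub I false), val n (sub I true))) = _
    refine h _ ⟨?_, ?_⟩
    · rw [h1, sub_inp, val_inp]
    · rw [h1, sub_inp, val_inp]

theorem isThrifty_of_agree {k : ℕ} (n : ℕ) (v : Nd n → Fin k) (I : TVar k n → Fin k)
    (h : ∀ x, IsThrifty n (inp v) x → I x = v (node n x)) (x : TVar k n)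
    (hx : IsThrifty n I x) : IsThrifty n (inp v) x := by
  induction n with
  | zero => trivial
  | succ n ih =>
    have h0 : ∀ b x, IsThrifty n (inp fun j => v (some (b, j))) x →
        sub I b x = v (some (b, node n x)) := fun b x hx => h (Sum.inr (b, x)) hx
    rcases x with ⟨a, b⟩ | ⟨b, x⟩
    · obtain ⟨h1, h2⟩ := hx
      rw [val_of_agree n _ _ (h0 false)] at h1
      rw [val_of_agree n _ _ (h0 true)] at h2
      refine ⟨?_, ?_⟩
      · rw [sub_inp, val_inp, h1]
      · rw [sub_inp, val_inp, h2]
    · exact ih (fun j => v (some (b, j))) (sub I b) (h0 b) x hx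

open Classical in
/-- The input that agrees with the first labelling on its thrifty variables, and with the second
labelling elsewhere. -/
noncomputable def mix {k n : ℕ} (v v' : Nd n → Fin k) : TVar k n → Fin k := fun x =>
  if IsThrifty n (inp v) x then v (node n x) else v' (node n x)

theorem mix_agree {k n : ℕ} (v v' : Nd n → Fin k) (x : TVar k n) (h : IsThrifty n (inp v) x) :
    mix v v' x = v (node n x) := if_pos h

/-- The splicing lemma. -/
theorem splice {k n : ℕ} {R : Type} (B : NBP (TVar k n) (Fin k) R) (hthr : Thrifty B)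
    {v v' : Nd n → Fin k} {A V' C : List B.Q} {s₁ s₂ : B.Q ⊕ R} {z : R}
    (hA : B.Walk (inp v) A B.start s₁) (hC : B.Path (inp v) s₂ C z)
    (hV' : B.Walk (inp v') V' s₁ s₂)
    (hAt : ∀ q ∈ A, IsThrifty n (inp v) (B.var q)) (hCt : ∀ q ∈ C, IsThrifty n (inp v) (B.var q))
    (hV't : ∀ q ∈ V', IsThrifty n (inp v') (B.var q)) :
    (∃ q ∈ V', v (nd B q) ≠ v' (nd B q) ∧ ∀ c, Nd.Child n (nd B q) c → v c = v' c) ∨
      ∀ q ∈ V', ∀ c, Nd.Child n (nd B q) c → v c = v' c := by
  by_cases hcon : ∃ q ∈ V', v (nd B q) ≠ v' (nd B q) ∧ ∀ c, Nd.Child n (nd B q) c → v c = v' c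
  · exact Or.inl hcon
  right
  push Not at hcon
  have hpath : B.Path (mix v v') B.start (A ++ (V' ++ C)) z := by
    refine NBP.path_append.2 ⟨s₁, NBP.walk_congr hA fun q hq => ?_,
      NBP.path_append.2 ⟨s₂, NBP.walk_congr hV' fun q hq => ?_,
        NBP.path_congr hC fun q hq => ?_⟩⟩
    · exact (mix_agree v v' _ (hAt q hq)).symm
    · by_cases ht : IsThrifty n (inp v) (B.var q)
      · rw [mix_agree v v' _ ht]
        by_contra hne
        obtain ⟨c, hc, hc'⟩ := hcon q hq (fun h => hne h.symm)
        exact hc' (thrifty_child n v v' (B.var q) ht (hV't q hq) c hc)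
      · exact (if_neg ht).symm
    · exact (mix_agree v v' _ (hCt q hq)).symm
  intro q hq c hc
  have h1 := hthr _ _ _ hpath q (by simp [hq])
  have h2 := isThrifty_of_agree n v (mix v v') (mix_agree v v') _ h1
  exact thrifty_child n v v' (B.var q) h2 (hV't q hq) c hc

end Pool.Agent.ThriftyBP
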