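import Pool.Agent.ThriftyBP.CutsMain

/-!
# The lower bound for nondeterministic thrifty programs, with real exponents
-/

namespace Pool.Agent.ThriftyBP

theorem nondet_lower_real (ε : ℝ) (hε : 0 < ε) : ∃ n₀ : ℕ, ∀ n : ℕ, n₀ ≤ n → ∃ k₀ : ℕ,
    ∀ k : ℕ, k₀ ≤ k → ∀ (R : Type) [Fintype R] (g : Fin k → R), (∃ a b, g a ≠ g b) →
      ∀ B : NBP (TVar k n) (Fin k) R, B.Computes (fun I => g (val n I)) → Thrifty B →
        (k : ℝ) ^ (4 - ε) ≤ B.size := by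
  obtain ⟨M, hM⟩ := exists_nat_gt (3 / ε)
  have hM' : 3 ≤ ε * (M + 1) := by
    rw [div_lt_iff₀ hε] at hM
    nlinarith
  refine ⟨3 * M + 5, fun n hn => ?_⟩
  obtain ⟨C, hC⟩ := nondet_lower M n hn
  refine ⟨C + 1, fun k hk R _ g hg B hcomp hthr => ?_⟩
  have h := hC k R g hg B hcomp hthr
  by_contra hcon
  push Not at hcon
  have hk1 : (1 : ℝ) ≤ k := by exact_mod_cast (by omega : 1 ≤ k)
  have hk0 : (0 : ℝ) < k := by linarith
  have h1 : (B.size : ℝ) ^ (M + 1) ≤ (k : ℝ) ^ (4 * M + 1) := by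
    calc (B.size : ℝ) ^ (M + 1) ≤ ((k : ℝ) ^ (4 - ε)) ^ (M + 1) :=
          pow_le_pow_left₀ (Nat.cast_nonneg _) hcon.le _
      _ = (k : ℝ) ^ ((4 - ε) * ((M + 1 : ℕ) : ℝ)) := by
          rw [← Real.rpow_natCast, ← Real.rpow_mul hk0.le]
      _ ≤ (k : ℝ) ^ (((4 * M + 1 : ℕ) : ℝ)) := by
          refine Real.rpow_le_rpow_of_exponent_le hk1 ?_
          push_cast
          nlinarith
      _ = _ := Real.rpow_natCast _ _
  have h2 : (k : ℝ) ^ (4 * M + 2) ≤ C * (B.size : ℝ) ^ (M + 1) := by exact_mod_cast h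
  have h3 : (k : ℝ) ^ (4 * M + 1) * k ≤ (k : ℝ) ^ (4 * M + 1) * C := by
    calc (k : ℝ) ^ (4 * M + 1) * k = (k : ℝ) ^ (4 * M + 2) := by rw [← pow_succ]
      _ ≤ C * (B.size : ℝ) ^ (M + 1) := h2
      _ ≤ C * (k : ℝ) ^ (4 * M + 1) := mul_le_mul_of_nonneg_left h1 (Nat.cast_nonneg _)
      _ = _ := mul_comm _ _
  have h4 : (k : ℝ) ≤ C := le_of_mul_le_mul_left h3 (by positivity)
  have h5 : k ≤ C := by exact_mod_cast h4
  omega

end Pool.Agent.ThriftyBP
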