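import Pool.Agent.ThriftyBP.CutsLight

/-!
# Counting the labellings with a single good window
-/

namespace Pool.Agent.ThriftyBP

theorem var_eq_tvar {k n : ℕ} {R : Type} {B : NBP (TVar k n) (Fin k) R} {v : Nd n → Fin k}
    {q : B.Q} (h : IsThrifty n (inp v) (B.var q)) : B.var q = tvar n v (nd B q) :=
  (isThrifty_inp_iff n v (B.var q)).1 h

/-- States with the same node and the same code are equal if the labellings agree on the children
of the node. -/
theorem state_eq {k n : ℕ} {R : Type} {B : NBP (TVar k n) (Fin k) R} {v v' : Nd n → Fin k}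
    {code : B.Q → ℕ} (hcode : ∀ q q', B.var q = B.var q' → code q = code q' → q = q')
    {q q' : B.Q} {u : Nd n} (h : IsThrifty n (inp v) (B.var q))
    (h' : IsThrifty n (inp v') (B.var q')) (hq : nd B q = u) (hq' : nd B q' = u)
    (hv : ∀ c ∈ (ndTr n).ch u, v c = v' c) (hc : code q = code q') : q = q' := by
  refine hcode q q' ?_ hc
  rw [var_eq_tvar h, var_eq_tvar h', hq, hq']
  exact tvar_congr n v v' u fun j hj => hv j (mem_ndTr_ch.2 hj)

/-- The conditions on a labelling with a single good window of a given type. -/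
def SimpleTy {k n : ℕ} {R : Type} (B : NBP (TVar k n) (Fin k) R) (G : Fin k → R)
    (F : Finset (Nd n)) (ul ur : Nd n) (a c : Bool) (v : Nd n → Fin k) : Prop :=
  ∃ A V C : List B.Q, B.Path (inp v) B.start (A ++ (V ++ C)) (G (v (Nd.root n))) ∧
    (∀ q ∈ V, nd B q ∉ F) ∧ (∀ f ∈ F, ∃ q ∈ V, f ∈ (ndTr n).ch (nd B q)) ∧
    (a = true → ∃ g V', V = g :: V' ∧ nd B g = ul) ∧ (a = false → A = []) ∧
    (c = true → ∃ q C', C = q :: C' ∧ nd B q = ur) ∧ (c = false → C = [])

theorem simple_card {k n : ℕ} {R : Type} (B : NBP (TVar k n) (Fin k) R) (hthr : Thrifty B)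
    (G : Fin k → R) (code : B.Q → ℕ)
    (hcode : ∀ q q', B.var q = B.var q' → code q = code q' → q = q') (b : ℕ)
    (F : Finset (Nd n)) (ul ur : Nd n) (a c : Bool)
    (hul : a = true → Disjoint F ((ndTr n).ch ul)) (hur : c = true → Disjoint F ((ndTr n).ch ur))
    (K : Finset (Nd n → Fin k)) (hK : ∀ v ∈ K, SimpleTy B G F ul ur a c v)
    (hb : ∀ v ∈ K, ∀ q, IsThrifty n (inp v) (B.var q) → (a = true ∧ nd B q = ul) ∨
      (c = true ∧ nd B q = ur) → code q < b) :
    K.card * k ^ F.card ≤ k ^ Fintype.card (Nd n) * b ^ (a.toNat + c.toNat) := by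
  classical
  have hex : ∀ v : Nd n → Fin k, ∃ (A V C : List B.Q) (s₁ s₂ : B.Q ⊕ R), v ∈ K →
      B.Path (inp v) B.start (A ++ (V ++ C)) (G (v (Nd.root n))) ∧
      B.Walk (inp v) A B.start s₁ ∧ B.Walk (inp v) V s₁ s₂ ∧
      B.Path (inp v) s₂ C (G (v (Nd.root n))) ∧
      (∀ q ∈ V, nd B q ∉ F) ∧ (∀ f ∈ F, ∃ q ∈ V, f ∈ (ndTr n).ch (nd B q)) ∧
      (a = true → ∃ g V', V = g :: V' ∧ nd B g = ul) ∧ (a = false → A = []) ∧
      (c = true → ∃ q C', C = q :: C' ∧ nd B q = ur) ∧ (c = false → C = []) := by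
    intro v
    by_cases hv : v ∈ K
    · obtain ⟨A, V, C, h1, h2⟩ := hK v hv
      obtain ⟨s₁, h3, h4⟩ := NBP.path_append.1 h1
      obtain ⟨s₂, h5, h6⟩ := NBP.path_append.1 h4
      exact ⟨A, V, C, s₁, s₂, fun _ => ⟨h1, h3, h5, h6, h2⟩⟩
    · exact ⟨[], [], [], B.start, B.start, fun h => absurd h hv⟩
  choose A V C s₁ s₂ hall using hex
  let cs : B.Q ⊕ R → ℕ := Sum.elim code (fun _ => 0)
  let key : (Nd n → Fin k) → ({i : Nd n // i ∉ F} → Fin k) × ℕ × ℕ := fun v =>
    (fun i => v i.1, if a = true then cs (s₁ v) else 0, if c = true then cs (s₂ v) else 0)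
  have hinj : Set.InjOn key K := by
    intro v hv v' hv' he
    have hv := Finset.mem_coe.1 hv
    have hv' := Finset.mem_coe.1 hv'
    simp only [key, Prod.mk.injEq] at he
    obtain ⟨e1, e2, e3⟩ := he
    have hout : ∀ i, i ∉ F → v i = v' i := fun i hi => congrFun e1 ⟨i, hi⟩
    obtain ⟨p0, p1, p2, p3, p4, p5, p6, p7, p8, p9⟩ := hall v hv
    obtain ⟨r0, r1, r2, r3, r4, r5, r6, r7, r8, r9⟩ := hall v' hv'
    have hroot : Nd.root n ∉ F := by
      intro h
      obtain ⟨q, _, hq⟩ := p5 _ h
      have := (ndTr n).dep_ch hq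
      have h0 : (ndTr n).dep (Nd.root n) = 0 := (ndTr n).dep_root
      omega
    have hs₁ : s₁ v = s₁ v' := by
      cases ha : a with
      | false =>
        have h1 := p7 ha
        have h2 := r7 ha
        rw [h1] at p1
        rw [h2] at r1
        exact (show B.start = s₁ v from p1).symm.trans r1
      | true =>
        obtain ⟨g, V₁, h1, h2⟩ := p6 ha
        obtain ⟨g', V₁', h1', h2'⟩ := r6 ha
        have h3 : s₁ v = Sum.inl g := by
          rw [h1] at p2
          exact p2.1
        have h3' : s₁ v' = Sum.inl g' := by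
          rw [h1'] at r2
          exact r2.1
        rw [ha, if_pos rfl, if_pos rfl, h3, h3'] at e2
        have h4 : g = g' := by
          refine state_eq hcode (v := v) (v' := v') (u := ul) ?_ ?_ h2 h2' ?_ e2
          · exact hthr _ _ _ p0 g (by simp [h1])
          · exact hthr _ _ _ r0 g' (by simp [h1'])
          · intro c' hc'
            exact hout c' fun h => Finset.disjoint_left.1 (hul ha) h hc'
        rw [h3, h3', h4]
    have hs₂ : s₂ v = s₂ v' := by
      cases hc : c with
      | false =>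
        have h1 := p9 hc
        have h2 := r9 hc
        rw [h1, NBP.path_nil] at p3
        rw [h2, NBP.path_nil] at r3
        rw [p3, r3, hout _ hroot]
      | true =>
        obtain ⟨g, V₁, h1, h2⟩ := p8 hc
        obtain ⟨g', V₁', h1', h2'⟩ := r8 hc
        have h3 : s₂ v = Sum.inl g := by
          rw [h1, NBP.path_cons] at p3
          exact p3.1
        have h3' : s₂ v' = Sum.inl g' := by
          rw [h1', NBP.path_cons] at r3
          exact r3.1
        rw [hc, if_pos rfl, if_pos rfl, h3, h3'] at e3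
        have h4 : g = g' := by
          refine state_eq hcode (v := v) (v' := v') (u := ur) ?_ ?_ h2 h2' ?_ e3
          · exact hthr _ _ _ p0 g (by simp [h1])
          · exact hthr _ _ _ r0 g' (by simp [h1'])
          · intro c' hc'
            exact hout c' fun h => Finset.disjoint_left.1 (hur hc) h hc'
        rw [h3, h3', h4]
    have hsp := splice B hthr (v := v) (v' := v') (V' := V v') p1 p3 (by
      rw [hs₁, hs₂]; exact r2)
      (fun q hq => hthr _ _ _ p0 q (by simp [hq]))
      (fun q hq => hthr _ _ _ p0 q (by simp [hq]))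
      (fun q hq => hthr _ _ _ r0 q (by simp [hq]))
    rcases hsp with ⟨q, hq, hne, _⟩ | hsp
    · exact absurd (hout _ (r4 q hq)) hne
    · funext i
      by_cases hi : i ∈ F
      · obtain ⟨q, hq, hqi⟩ := r5 i hi
        exact hsp q hq i (mem_ndTr_ch.1 hqi)
      · exact hout i hi
  have hmaps : Set.MapsTo key K ((Finset.univ ×ˢ (Finset.range (b ^ a.toNat) ×ˢ
      Finset.range (b ^ c.toNat)) : Finset (({i : Nd n // i ∉ F} → Fin k) × ℕ × ℕ)) :
      Set (({i : Nd n // i ∉ F} → Fin k) × ℕ × ℕ)) := by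
    intro v hv
    have hv := Finset.mem_coe.1 hv
    obtain ⟨p0, p1, p2, p3, p4, p5, p6, p7, p8, p9⟩ := hall v hv
    rw [Finset.mem_coe, Finset.mem_product, Finset.mem_product]
    refine ⟨Finset.mem_univ _, ?_, ?_⟩
    · rw [Finset.mem_range]
      change (if a = true then cs (s₁ v) else 0) < _
      cases ha : a with
      | false => simp
      | true =>
        obtain ⟨g, V₁, h1, h2⟩ := p6 ha
        have h3 : s₁ v = Sum.inl g := by
          rw [h1] at p2
          exact p2.1
        rw [if_pos rfl, h3, Bool.toNat_true, pow_one]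
        exact hb v hv g (hthr _ _ _ p0 g (by simp [h1])) (Or.inl ⟨ha, h2⟩)
    · rw [Finset.mem_range]
      change (if c = true then cs (s₂ v) else 0) < _
      cases hc : c with
      | false => simp
      | true =>
        obtain ⟨g, V₁, h1, h2⟩ := p8 hc
        have h3 : s₂ v = Sum.inl g := by
          rw [h1, NBP.path_cons] at p3
          exact p3.1
        rw [if_pos rfl, h3, Bool.toNat_true, pow_one]
        exact hb v hv g (hthr _ _ _ p0 g (by simp [h1])) (Or.inr ⟨hc, h2⟩)
  have h1 := Finset.card_le_card_of_injOn key hmaps hinj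
  rw [Finset.card_product, Finset.card_product, Finset.card_range, Finset.card_range,
    Finset.card_univ, Fintype.card_fun, Fintype.card_fin, Fintype.card_subtype_compl,
    Fintype.card_coe, ← pow_add] at h1
  calc K.card * k ^ F.card
      ≤ k ^ (Fintype.card (Nd n) - F.card) * b ^ (a.toNat + c.toNat) * k ^ F.card :=
        Nat.mul_le_mul_right _ h1
    _ = k ^ (Fintype.card (Nd n) - F.card + F.card) * b ^ (a.toNat + c.toNat) := by
        rw [pow_add]
        ring
    _ = _ := by
        rw [Nat.sub_add_cancel (Finset.card_le_univ F)]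

end Pool.Agent.ThriftyBP
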