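import Pool.Agent.ThriftyBP.CutsAbsorb

/-!
# Existence of many windows
-/

namespace Pool.Agent.ThriftyBP

namespace Tr

variable {N : Type} [DecidableEq N] {n : ℕ} (T : Tr N n) {Q : Type} (ν : Q → N)

/-- A single good window of the word `l` (forwards in time). -/
def Simple (l : List Q) : Prop :=
  ∃ (A V C : List Q) (F : Finset N) (a c : Bool),
    l = A ++ (V ++ C) ∧ (∀ q ∈ V, ν q ∉ F) ∧ (∀ f ∈ F, ∃ q ∈ V, f ∈ T.ch (ν q)) ∧
    (a = true → ∃ g V', V = g :: V' ∧ T.dep (ν g) < n ∧ Disjoint F (T.ch (ν g))) ∧
    (a = false → A = []) ∧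
    (c = true → ∃ q C', C = q :: C' ∧ T.dep (ν q) < n ∧ Disjoint F (T.ch (ν q))) ∧
    (c = false → C = []) ∧ 1 ≤ F.card ∧ 2 * (a.toNat + c.toNat) ≤ F.card

variable {T ν}

theorem Far.simple {y C l : List Q} (h : T.Far ν y) (hl : l = y.reverse ++ C) :
    T.Simple ν l := by
  obtain ⟨act, x', F, P, rfl, h1, h2, h3, h4, h5, h6⟩ := h
  obtain ⟨C₁, C₂, rfl, h7, h8⟩ := exists_split_first (fun q => T.dep (ν q) < n ∧ ν q ∉ P) C
  have hF : ∀ q ∈ C₁, ν q ∉ F := by
    intro q hq hqF
    have h9 := h4 _ hqF
    refine h7 q hq ⟨h9, fun h10 => ?_⟩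
    exact Finset.disjoint_left.1 h3 hqF h10
  have hend : ∀ q, ν q ∉ P → Disjoint F (T.ch (ν q)) := by
    intro q hq
    rw [Finset.disjoint_left]
    intro f hf hfq
    obtain ⟨p, hp, hpf⟩ := h1 f hf
    rw [T.uniq hpf hfq] at hp
    exact hq hp
  have hread : ∀ f ∈ F, ∃ q ∈ act, f ∈ T.ch (ν q) := by
    intro f hf
    obtain ⟨p, hp, hpf⟩ := h1 f hf
    obtain ⟨q, hq, rfl⟩ := h2 p hp
    exact ⟨q, hq, hpf⟩
  obtain ⟨c, hc1, hc2⟩ : ∃ c : Bool,
      (c = true → ∃ q C', C₂ = q :: C' ∧ T.dep (ν q) < n ∧ Disjoint F (T.ch (ν q))) ∧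
      (c = false → C₂ = []) := by
    rcases h8 with rfl | ⟨q, C', rfl, h9, h10⟩
    · exact ⟨false, by simp, fun _ => rfl⟩
    · exact ⟨true, fun _ => ⟨q, C', rfl, h9, hend q h10⟩, by simp⟩
  have hcle : c.toNat ≤ 1 := Bool.toNat_le c
  rcases h6 with ⟨rfl, h6⟩ | ⟨g, x'', rfl, hg1, hg2, hg3, h6⟩
  · refine ⟨[], act.reverse ++ C₁, C₂, F, false, c, ?_, ?_, ?_, by simp, fun _ => rfl, hc1, hc2,
      by omega, ?_⟩
    · rw [hl]
      simp
    · intro q hq
      rcases List.mem_append.1 hq with hq | hq
      · exact h5 q (List.mem_reverse.1 hq)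
      · exact hF q hq
    · intro f hf
      obtain ⟨q, hq, hqf⟩ := hread f hf
      exact ⟨q, by simp [hq], hqf⟩
    · simp only [Bool.toNat_false]
      omega
  · refine ⟨x''.reverse, g :: (act.reverse ++ C₁), C₂, F, true, c, ?_, ?_, ?_,
      fun _ => ⟨g, _, rfl, hg1, hend g hg2⟩, by simp, hc1, hc2, by omega, ?_⟩
    · rw [hl]
      simp
    · intro q hq
      rcases List.mem_cons.1 hq with rfl | hq
      · exact hg3
      · rcases List.mem_append.1 hq with hq | hq
        · exact h5 q (List.mem_reverse.1 hq)
        · exact hF q hq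
    · intro f hf
      obtain ⟨q, hq, hqf⟩ := hread f hf
      exact ⟨q, by simp [hq], hqf⟩
    · simp only [Bool.toNat_true]
      omega

theorem Ok.part {w : Win Q N} {S : Finset N} (h : T.Ok ν w S) : T.Part ν w.act w.R S where
  act_R := h.act_R
  R_act := h.R_act
  disj := h.disj
  ne := h.ne
  par := h.par

variable (T ν)

/-- A stage: the word before the read `q` has the windows `L`. -/
structure Stage (l : List Q) (L : List (Win Q N)) (x : List Q) (q : Q) (C : List Q) : Prop where
  eq : l = x.reverse ++ q :: C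
  str : T.Str ν x L
  dep : T.dep (ν q) < n
  notMem : ν q ∉ Win.all L
  par : ν q = T.root ∨ ν q ∈ T.chS (Win.all L)

variable {T ν}

theorem Stage.step {l : List Q} {L : List (Win Q N)} {x : List Q} {q : Q} {C : List Q}
    (h : T.Stage ν l L x q C) (hn : 3 * L.length + 8 ≤ n) :
    T.Simple ν l ∨ ∃ L' x' q' C', T.Stage ν l L' x' q' C' ∧ L'.length ≤ L.length + 1 ∧
      (Win.all L).card < (Win.all L').card := by
  have hP : T.Part ν [q] {ν q} (Win.all L) := by
    refine ⟨?_, ?_, ?_, ?_, ?_⟩
    · intro q' hq' _
      rw [List.mem_singleton] at hq'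
      subst hq'
      simp
    · intro z hz
      rw [Finset.mem_singleton] at hz
      exact ⟨q, by simp, hz.symm⟩
    · rw [Finset.disjoint_singleton_left]
      exact h.notMem
    · exact Finset.singleton_nonempty _
    · intro z hz
      rw [Finset.mem_singleton] at hz
      subst hz
      rcases h.par with h1 | h1
      · exact Or.inl h1
      · obtain ⟨p, hp, hpq⟩ := T.mem_chS.1 h1
        exact Or.inr ⟨p, Finset.mem_union_right _ hp, hpq⟩
  rcases absorb x.length x [q] {ν q} L le_rfl h.str hP (by simp) (by omega) with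
    hfar | ⟨x', L', act', g, S', h1, h2, h3, h4, h5⟩
  · refine Or.inl (hfar.simple (C := C) ?_)
    rw [h.eq]
    simp
  have hcl := h3.part.closed h2.closed
  have hdisj : Disjoint (T.chS S') (Win.all L') :=
    h3.part.chS_disj h2.closed (root_notMem_chS T S')
  have hcard := h2.card_le
  have hS' := h3.card_le
  change S'.card ≤ 3 at hS'
  have hdep : ∀ f ∈ T.chS (S' ∪ Win.all L'), T.dep f < n := by
    intro f hf
    obtain ⟨p, hp, hpf⟩ := T.mem_chS.1 hf
    have h6 := hcl.dep_lt hp
    have h7 := Finset.card_union_le S' (Win.all L')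
    change T.dep p < (S' ∪ Win.all L').card at h6
    have := T.dep_ch hpf
    omega
  have hlt : (Win.all L).card < (S' ∪ Win.all L').card := by
    refine Finset.card_lt_card (Finset.ssubset_iff_subset_ne.2
      ⟨Finset.subset_union_right.trans h4, ?_⟩)
    intro h6
    refine h.notMem (h6 ▸ h4 ?_)
    simp
  obtain ⟨C₁, C₂, rfl, h7, h8⟩ := exists_split_first
    (fun q => ν q ∈ T.chS (S' ∪ Win.all L') ∧ ν q ∉ S' ∪ Win.all L') C
  rcases h8 with rfl | ⟨q', C', rfl, h9, h10⟩
  · left
    have hfr := T.card_front (S := S') h3.ne (fun z hz => by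
      have h6 := hcl.dep_lt (z := z) (Finset.mem_union_left _ hz)
      have h7 := Finset.card_union_le S' (Win.all L')
      change T.dep z < (S' ∪ Win.all L').card at h6
      omega)
    have hpos : 0 < S'.card := Finset.card_pos.2 h3.ne
    refine ⟨x'.reverse, g :: (act'.reverse ++ C₁), [], T.chS S' \ S', true, false, ?_, ?_, ?_,
      fun _ => ⟨g, _, rfl, h3.g_int, ?_⟩, by simp, by simp, fun _ => rfl, by omega, ?_⟩
    · rw [h.eq]
      have h11 : q :: x = act' ++ g :: x' := h1
      have h12 := congrArg List.reverse h11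
      simp only [List.reverse_cons, List.reverse_append, List.append_assoc] at h12
      calc x.reverse ++ q :: (C₁ ++ []) = (x.reverse ++ [q]) ++ C₁ := by simp
        _ = _ := by rw [h12]; simp
    · intro q'' hq hF
      rw [Finset.mem_sdiff] at hF
      have hch : ν q'' ∈ T.chS (S' ∪ Win.all L') := T.chS_mono Finset.subset_union_left hF.1
      have hnot : ν q'' ∉ S' ∪ Win.all L' := by
        rw [Finset.mem_union]
        rintro (h11 | h11)
        · exact hF.2 h11
        · exact Finset.disjoint_left.1 hdisj hF.1 h11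
      rcases List.mem_cons.1 hq with rfl | hq
      · exact h3.g_ch hch
      · rcases List.mem_append.1 hq with hq | hq
        · exact hnot (h3.act_R q'' (List.mem_reverse.1 hq) (hdep _ hch))
        · exact h7 q'' hq ⟨hch, hnot⟩
    · intro f hf
      obtain ⟨p, hp, hpf⟩ := T.mem_chS.1 (Finset.mem_sdiff.1 hf).1
      obtain ⟨q'', hq, rfl⟩ := h3.R_act p hp
      change q'' ∈ act' at hq
      exact ⟨q'', by simp [hq], hpf⟩
    · rw [Finset.disjoint_left]
      intro f hf hfg
      obtain ⟨p, hp, hpf⟩ := T.mem_chS.1 (Finset.mem_sdiff.1 hf).1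
      rw [T.uniq hpf hfg] at hp
      exact h3.g_R (Finset.mem_union_left _ hp)
    · simp only [Bool.toNat_true, Bool.toNat_false]
      omega
  · right
    refine ⟨⟨C₁.reverse, act', g, S'⟩ :: L', C₁.reverse ++ (act' ++ g :: x'), q', C',
      ⟨?_, ⟨x', rfl, ?_, h2⟩, hdep _ h9, h10, Or.inr h9⟩, by simpa using h5, hlt⟩
    · rw [h.eq, ← h1]
      simp
    · refine { h3 with pass_ch := ?_ }
      intro q'' hq hch
      by_contra hcon
      exact h7 q'' (List.mem_reverse.1 hq) ⟨hch, hcon⟩

theorem exists_stage {l : List Q} {M : ℕ} (hn : 3 * M + 5 ≤ n)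
    (hroot : ∃ q ∈ l, ν q = T.root) :
    T.Simple ν l ∨ ∃ L x q C, T.Stage ν l L x q C ∧ L.length = M := by
  have key : ∀ d L x q C, T.Stage ν l L x q C → L.length ≤ M → 3 * M ≤ (Win.all L).card + d →
      T.Simple ν l ∨ ∃ L x q C, T.Stage ν l L x q C ∧ L.length = M := by
    intro d
    induction d with
    | zero =>
      intro L x q C h1 h2 h3
      have := h1.str.card_le
      exact Or.inr ⟨L, x, q, C, h1, by omega⟩
    | succ d ih =>
      intro L x q C h1 h2 h3
      rcases Nat.lt_or_ge L.length M with h4 | h4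
      · rcases h1.step (by omega) with h5 | ⟨L', x', q', C', h5, h6, h7⟩
        · exact Or.inl h5
        · exact ih L' x' q' C' h5 (by omega) (by omega)
      · exact Or.inr ⟨L, x, q, C, h1, by omega⟩
  obtain ⟨q, hq, hq'⟩ := hroot
  obtain ⟨l₁, l₂, rfl⟩ := List.append_of_mem hq
  refine key (3 * M) [] l₁.reverse q l₂ ⟨by simp, trivial, ?_, ?_, Or.inl hq'⟩ (Nat.zero_le _)
    (by omega)
  · rw [hq', T.dep_root]
    omega
  · exact Finset.notMem_empty _

/-! ### The windows as functions of their index -/

/-- The states at the ends of the windows. -/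
def ends : Q → List (Win Q N) → ℕ → Q
  | q, _, 0 => q
  | q, [], _ + 1 => q
  | _, w :: L, j + 1 => ends w.g L j

/-- The active nodes of the windows. -/
def acts : List (Win Q N) → ℕ → Finset N
  | [], _ => ∅
  | w :: _, 0 => w.R
  | _ :: L, j + 1 => acts L j

/-- The nodes read in the windows. -/
def rds (ν : Q → N) : List (Win Q N) → ℕ → Finset N
  | [], _ => ∅
  | w :: _, 0 => ((w.g :: (w.act.reverse ++ w.pass.reverse)).map ν).toFinset
  | _ :: L, j + 1 => rds ν L j

theorem acts_subset (L : List (Win Q N)) (j : ℕ) : acts L j ⊆ Win.all L := by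
  induction L generalizing j with
  | nil => exact Finset.empty_subset _
  | cons w L ih =>
    cases j with
    | zero => exact Finset.subset_union_left
    | succ j => exact (ih j).trans Finset.subset_union_right

theorem exists_acts {L : List (Win Q N)} {z : N} (h : z ∈ Win.all L) :
    ∃ j < L.length, z ∈ acts L j := by
  induction L with
  | nil => exact absurd h (Finset.notMem_empty z)
  | cons w L ih =>
    rcases Finset.mem_union.1 h with h | h
    · exact ⟨0, by simp, h⟩
    · obtain ⟨j, h1, h2⟩ := ih h
      exact ⟨j + 1, by simpa using h1, h2⟩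

theorem Str.plan {x : List Q} {L : List (Win Q N)} {q : Q} (h : T.Str ν x L)
    (hq : ν q ∉ Win.all L) (hn : 3 * L.length + 1 ≤ n) :
    T.Plan L.length (acts L) (rds ν L) (fun j => ν (ends q L j)) := by
  induction L generalizing x q with
  | nil =>
    constructor <;> simp
  | cons w L ih =>
    have hcl := h.closed
    have hcard := h.card_le
    obtain ⟨x', rfl, h1, h2⟩ := h
    simp only [List.length_cons] at hn hcard
    have hg : ν w.g ∉ Win.all L := fun h => h1.g_R (Finset.mem_union_right _ h)
    have IH := ih h2 hg (by omega)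
    have hdep : ∀ f ∈ T.chS (Win.all (w :: L)), T.dep f < n := by
      intro f hf
      obtain ⟨p, hp, hpf⟩ := T.mem_chS.1 hf
      have := hcl.dep_lt hp
      have := T.dep_ch hpf
      omega
    have hsub : ∀ j, acts (w :: L) j ⊆ Win.all (w :: L) := acts_subset _
    constructor
    · intro j hj
      cases j with
      | zero => exact h1.ne
      | succ j => exact IH.ne j (by simpa using hj)
    · intro i hi j hj hij
      cases i with
      | zero =>
        cases j with
        | zero => exact absurd rfl hij
        | succ j => exact Finset.disjoint_of_subset_right (acts_subset L j) h1.disj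
      | succ i =>
        cases j with
        | zero => exact (Finset.disjoint_of_subset_right (acts_subset L i) h1.disj).symm
        | succ j => exact IH.disj i (by simpa using hi) j (by simpa using hj) (by omega)
    · intro j hj z hz
      have := hcl.dep_lt (hsub j hz)
      omega
    · intro i hi j hj
      cases j with
      | zero => exact fun h => hq (hsub i h)
      | succ j =>
        cases i with
        | zero =>
          obtain rfl : j = 0 := by omega
          have h3 : ends q (w :: L) (0 + 1) = w.g := by cases L <;> rfl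
          intro h
          rw [h3] at h
          exact h1.g_R (Finset.mem_union_left _ h)
        | succ i => exact IH.u_R i (by simpa using hi) j (by omega)
    · intro j hj
      cases j with
      | zero =>
        intro z hz
        obtain ⟨q', hq', rfl⟩ := h1.R_act z hz
        simp only [rds, List.mem_toFinset]
        exact List.mem_map_of_mem (by simp [hq'])
      | succ j => exact IH.R_D j (by simpa using hj)
    · intro j hj z hz i hji hi hzi
      cases j with
      | zero =>
        have h3 : z ∈ T.chS (Win.all (w :: L)) := T.chS_mono (hsub i) hzi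
        have h4 : z ∈ Win.all (w :: L) := by
          simp only [rds, List.mem_toFinset, List.mem_map] at hz
          obtain ⟨q', hq', rfl⟩ := hz
          rcases List.mem_cons.1 hq' with rfl | hq'
          · exact absurd h3 h1.g_ch
          · rcases List.mem_append.1 hq' with hq' | hq'
            · exact h1.act_R q' (List.mem_reverse.1 hq') (hdep _ h3)
            · exact h1.pass_ch q' (List.mem_reverse.1 hq') h3
        obtain ⟨i', h5, h6⟩ := exists_acts h4
        exact ⟨i', Nat.zero_le _, h5, h6⟩
      | succ j =>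
        cases i with
        | zero => omega
        | succ i =>
          obtain ⟨i', h3, h4, h5⟩ := IH.D_ch j (by simpa using hj) z hz i (by omega)
            (by simpa using hi) hzi
          exact ⟨i' + 1, by omega, by simpa using h4, h5⟩
    · intro j hj i hji hi
      cases i with
      | zero => omega
      | succ i =>
        cases j with
        | zero =>
          exact Finset.disjoint_of_subset_right (acts_subset L i)
            (h1.part.chS_disj h2.closed (root_notMem_chS T _))
        | succ j => exact IH.ch_R j (by simpa using hj) i (by omega) (by simpa using hi)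

theorem Str.wins {x l : List Q} {L : List (Win Q N)} {q : Q} {C : List Q} (h : T.Str ν x L)
    (hl : l = x.reverse ++ q :: C) (j : ℕ) (hj : j < L.length) :
    ∃ A V C', l = A ++ ((ends q L (j + 1) :: V) ++ (ends q L j :: C')) ∧
      ∀ z, z ∈ rds ν L j ↔ ∃ q' ∈ ends q L (j + 1) :: V, ν q' = z := by
  induction L generalizing x q C j with
  | nil => simp at hj
  | cons w L ih =>
    obtain ⟨x', rfl, h1, h2⟩ := h
    cases j with
    | zero =>
      refine ⟨x'.reverse, w.act.reverse ++ w.pass.reverse, C, ?_, fun z => ?_⟩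
      · rw [hl]
        cases L <;> simp [ends]
      · have h3 : ends q (w :: L) (0 + 1) = w.g := by cases L <;> rfl
        rw [h3]
        simp only [rds, List.mem_toFinset, List.mem_map]
    | succ j =>
      obtain ⟨A, V, C', h3, h4⟩ := ih h2 (q := w.g)
        (C := w.act.reverse ++ (w.pass.reverse ++ q :: C)) (by rw [hl]; simp) j (by simpa using hj)
      exact ⟨A, V, C', h3, h4⟩

theorem Str.ends_dep {x : List Q} {L : List (Win Q N)} {q : Q} (h : T.Str ν x L)
    (hq : T.dep (ν q) < n) (j : ℕ) : T.dep (ν (ends q L j)) < n := by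
  induction L generalizing x q j with
  | nil => cases j <;> exact hq
  | cons w L ih =>
    obtain ⟨x', rfl, h1, h2⟩ := h
    cases j with
    | zero => exact hq
    | succ j => exact ih h2 h1.g_int j

/-- A word that contains the root has a single good window or `M` windows. -/
theorem exists_windows {l : List Q} {M : ℕ} (hn : 3 * M + 5 ≤ n)
    (hroot : ∃ q ∈ l, ν q = T.root) :
    T.Simple ν l ∨ ∃ (R D : ℕ → Finset N) (st : ℕ → Q), T.Plan M R D (fun j => ν (st j)) ∧
      (∀ j, T.dep (ν (st j)) < n) ∧ (∀ j ≤ M, st j ∈ l) ∧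
      ∀ j < M, ∃ A V C, l = A ++ ((st (j + 1) :: V) ++ (st j :: C)) ∧
        ∀ z, z ∈ D j ↔ ∃ q ∈ st (j + 1) :: V, ν q = z := by
  rcases exists_stage hn hroot with h | ⟨L, x, q, C, h, rfl⟩
  · exact Or.inl h
  · refine Or.inr ⟨acts L, rds ν L, ends q L, h.str.plan h.notMem (by omega),
      h.str.ends_dep h.dep, ?_, fun j hj => h.str.wins h.eq j hj⟩
    intro j hj
    cases j with
    | zero =>
      have : ends q L 0 = q := by cases L <;> rfl
      rw [this, h.eq]
      simp
    | succ j =>
      obtain ⟨A, V, C', h1, -⟩ := h.str.wins h.eq j (by omega)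
      rw [h1]
      simp

end Tr

end Pool.Agent.ThriftyBP
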