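import Pool.Agent.ThriftyBP.LockProg

/-!
# Two registers: values are added digit by digit

The fragment `add n r` adds the value of a subtree to the register `r`, and it leaves the other
register as it is.  Both registers may be used as scratch registers by the subtrees of the children,
because the value itself is only added, one digit at a time, after they have been cleaned up.
-/

namespace Pool.Agent.ThriftyBP

namespace Frag

variable {X Y V A B C : Type}

/-- A fragment without states. -/
def silent (R : A → B → Prop) : Frag X V A B where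
  Q := Empty
  finQ := inferInstance
  var q := q.elim
  entry a s := ∃ b, R a b ∧ s = Sum.inr b
  edge q _ _ := q.elim

theorem card_silent (R : A → B → Prop) : (silent R : Frag X V A B).card = 0 := by
  change Fintype.card Empty = 0
  exact Fintype.card_empty

theorem go_silent (R : A → B → Prop) (I : X → V) (a : A) (l : List Empty) (b : B) :
    (silent R : Frag X V A B).Go I a l b ↔ l = [] ∧ R a b := by
  constructor
  · rintro ⟨s, ⟨b', h1, rfl⟩, h2⟩
    cases l with
    | nil =>
      have h3 : (Sum.inr b' : Empty ⊕ B) = Sum.inr b := h2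
      obtain rfl := Sum.inr.inj h3
      exact ⟨rfl, h1⟩
    | cons q l => exact q.elim
  · rintro ⟨rfl, h⟩
    exact ⟨Sum.inr b, ⟨b, h, rfl⟩, rfl⟩

/-- A fragment with one query. -/
def single (Q : Type) (fQ : Fintype Q) (var : Q → X) (en : A → Q → Prop) (ex : Q → V → B → Prop) :
    Frag X V A B where
  Q := Q
  finQ := fQ
  var := var
  entry a s := ∃ q, s = Sum.inl q ∧ en a q
  edge q z s := ∃ b, s = Sum.inr b ∧ ex q z b

theorem go_single' {Q : Type} {fQ : Fintype Q} {var : Q → X} {en : A → Q → Prop}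
    {ex : Q → V → B → Prop} (I : X → V) (a : A) (l : List Q) (b : B) :
    (single Q fQ var en ex).Go I a l b ↔ ∃ q, l = [q] ∧ en a q ∧ ex q (I (var q)) b := by
  constructor
  · rintro ⟨s, ⟨q, rfl, h1⟩, h2⟩
    cases l with
    | nil => exact nomatch h2
    | cons q' l =>
      obtain ⟨h3, t, ⟨b', rfl, h4⟩, h5⟩ := h2
      obtain rfl := Sum.inl.inj h3
      cases l with
      | nil =>
        have h5' : (Sum.inr b' : Q ⊕ B) = Sum.inr b := h5
        obtain rfl := Sum.inr.inj h5'
        exact ⟨q, rfl, h1, h4⟩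
      | cons q'' l =>
        have := h5.1
        exact nomatch this
  · rintro ⟨q, rfl, h1, h2⟩
    exact ⟨_, ⟨q, rfl, h1⟩, rfl, _, ⟨b, rfl, h2⟩, rfl⟩

/-- The fragment has exactly the effect of `f`, its traversals are unique, and they query only
good variables. -/
def Does (F : Frag X V A B) (I : X → V) (Good : X → Prop) (f : A → B) : Prop :=
  ∀ a, ∃ l₀, (∀ l b, F.Go I a l b ↔ l = l₀ ∧ b = f a) ∧ ∀ q ∈ l₀, Good (F.var q)

theorem does_silent {f : A → B} (I : X → V) (Good : X → Prop) :
    (silent (fun a b => b = f a) : Frag X V A B).Does I Good f := by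
  intro a
  refine ⟨[], fun l b => go_silent _ I a l b, ?_⟩
  intro q _
  exact q.elim

theorem Does.comp {F : Frag X V A B} {G : Frag X V B C} {I : X → V} {Good : X → Prop}
    {f : A → B} {g : B → C} (hF : F.Does I Good f) (hG : G.Does I Good g) :
    (F.comp G).Does I Good (fun a => g (f a)) := by
  intro a
  obtain ⟨l₁, h1, h2⟩ := hF a
  obtain ⟨l₂, h3, h4⟩ := hG (f a)
  refine ⟨l₁.map Sum.inl ++ l₂.map Sum.inr, ?_, ?_⟩
  · intro l c
    constructor
    · intro h
      obtain ⟨b, k₁, k₂, rfl, h5, h6⟩ := (go_comp F G I a l c).1 h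
      obtain ⟨rfl, rfl⟩ := (h1 k₁ b).1 h5
      obtain ⟨rfl, rfl⟩ := (h3 k₂ c).1 h6
      exact ⟨rfl, rfl⟩
    · rintro ⟨rfl, rfl⟩
      exact (go_comp F G I a _ _).2 ⟨_, _, _, rfl, (h1 _ _).2 ⟨rfl, rfl⟩, (h3 _ _).2 ⟨rfl, rfl⟩⟩
  · intro q hq
    rcases List.mem_append.1 hq with hq | hq
    · obtain ⟨p, hp, rfl⟩ := List.mem_map.1 hq
      exact h2 p hp
    · obtain ⟨p, hp, rfl⟩ := List.mem_map.1 hq
      exact h4 p hp

theorem Does.ext {F : Frag X V A B} {I : X → V} {Good : X → Prop} {f : A → B}
    (hF : F.Does I Good f) (D : Type) (fD : Fintype D) :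
    (F.ext D fD).Does I Good (fun a => (f a.1, a.2)) := by
  rintro ⟨a, d⟩
  obtain ⟨l₁, h1, h2⟩ := hF a
  refine ⟨l₁.map (fun q => (q, d)), ?_, ?_⟩
  · rintro l ⟨b, d'⟩
    constructor
    · intro h
      obtain ⟨h3, l', rfl, h4⟩ := (go_ext F D fD I (a, d) l (b, d')).1 h
      obtain ⟨rfl, h5⟩ := (h1 l' b).1 h4
      exact ⟨rfl, Prod.ext h5 h3⟩
    · rintro ⟨rfl, h⟩
      simp only [Prod.mk.injEq] at h
      obtain ⟨rfl, rfl⟩ := h
      exact (go_ext F _ fD I (a, _) _ _).2 ⟨rfl, l₁, rfl, (h1 _ _).2 ⟨rfl, rfl⟩⟩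
  · intro q hq
    obtain ⟨p, hp, rfl⟩ := List.mem_map.1 hq
    exact h2 p hp

theorem Does.mapVar {F : Frag X V A B} {e : X → Y} {I : Y → V} {Good : Y → Prop} {f : A → B}
    (hF : F.Does (fun x => I (e x)) (fun x => Good (e x)) f) :
    (F.mapVar e).Does I Good f := by
  intro a
  obtain ⟨l₁, h1, h2⟩ := hF a
  exact ⟨l₁, fun l b => (go_mapVar e F I a l b).trans (h1 l b), h2⟩

end Frag

/-- A gadget: values are encoded in a finite abelian group which is coloured without
monochromatic three term progressions whose difference is a difference of two encoded values;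
the encoding is a sum of contributions of `D` digits. -/
structure Digits (k : ℕ) where
  H : Type
  grp : AddCommGroup H
  finH : Fintype H
  C : Type
  finC : Fintype C
  W : Type
  finW : Fintype W
  D : ℕ
  enc : Fin k → H
  inj : Function.Injective enc
  col : H → C
  sound : ∀ (x x' : Fin k) (u : H), col (u + (enc x - enc x')) = col u →
    col (u + (enc x - enc x') + (enc x - enc x')) = col u → x = x'
  dig : ℕ → Fin k → W
  put : ℕ → W → H
  sum_dig : ∀ z, ∑ i ∈ Finset.range D, put i (dig i z) = enc z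

namespace Digits

attribute [instance] Digits.grp Digits.finH Digits.finC Digits.finW

variable {k : ℕ} (G : Digits k)

/-- Two registers. -/
abbrev Mem : Type := Bool → G.H

/-- Add `u` to the register `r`. -/
def inc (r : Bool) (u : G.H) (m : G.Mem) : G.Mem := Function.update m r (m r + u)

/-- The fragment for a leaf. -/
def leaf (r : Bool) : Frag (TVar k 0) (Fin k) G.Mem G.Mem :=
  Frag.single G.Mem inferInstance (fun _ => ()) (fun a q => q = a) (fun q z b => b = G.inc r (G.enc z) q)

/-- The fragment that queries an inner node: guess the two values, subtract them, compare the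
colours, query, subtract the values once more and remember the digit `i` of the answer. -/
def mid (n : ℕ) (r : Bool) (i : ℕ) :
    Frag (TVar k (n + 1)) (Fin k) (G.Mem × (G.C × G.C)) (G.Mem × ((G.C × G.C) × G.W)) :=
  Frag.single ((G.Mem × (G.C × G.C)) × (Fin k × Fin k)) inferInstance (fun q => Sum.inl q.2)
    (fun a q => a.1 = G.inc r (G.enc q.2.2) (G.inc (!r) (G.enc q.2.1) q.1.1) ∧ a.2 = q.1.2 ∧
      G.col (q.1.1 r) = q.1.2.1 ∧ G.col (q.1.1 (!r)) = q.1.2.2)
    (fun q z b => b = (G.inc r (- G.enc q.2.2) (G.inc (!r) (- G.enc q.2.1) q.1.1),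
      (q.1.2, G.dig i z)))

/-- Remember the colours. -/
def look (r : Bool) (m : G.Mem) : G.Mem × (G.C × G.C) := (m, (G.col (m r), G.col (m (!r))))

/-- The first part of a pass: remember the colours and add the values of the children. -/
def pre {n : ℕ} (F : Bool → Frag (TVar k n) (Fin k) G.Mem G.Mem) (r : Bool) :
    Frag (TVar k (n + 1)) (Fin k) G.Mem (G.Mem × (G.C × G.C)) :=
  (Frag.silent (fun a b => b = G.look r a)).comp
    ((((F (!r)).mapVar (embd false)).ext (G.C × G.C) inferInstance).comp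
    (((F r).mapVar (embd true)).ext (G.C × G.C) inferInstance))

/-- The last part of a pass: add the values of the children. -/
def post {n : ℕ} (F : Bool → Frag (TVar k n) (Fin k) G.Mem G.Mem) (r : Bool) :
    Frag (TVar k (n + 1)) (Fin k) (G.Mem × ((G.C × G.C) × G.W)) (G.Mem × ((G.C × G.C) × G.W)) :=
  (((F (!r)).mapVar (embd false)).ext ((G.C × G.C) × G.W) inferInstance).comp
    (((F r).mapVar (embd true)).ext ((G.C × G.C) × G.W) inferInstance)

/-- The end of a pass: compare the colours and add the contribution of the digit. -/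
def fin (r : Bool) (i : ℕ) (a : G.Mem × ((G.C × G.C) × G.W)) (b : G.Mem) : Prop :=
  G.look r a.1 = (a.1, a.2.1) ∧ b = G.inc r (G.put i a.2.2) a.1

/-- One pass: add the contribution of the digit `i` of the value to the register `r`. -/
def pass {n : ℕ} (F : Bool → Frag (TVar k n) (Fin k) G.Mem G.Mem) (r : Bool) (i : ℕ) :
    Frag (TVar k (n + 1)) (Fin k) G.Mem G.Mem :=
  (G.pre F r).comp ((G.mid n r i).comp ((G.post F r).comp (Frag.silent (G.fin r i))))

/-- Several passes. -/
def passes {n : ℕ} (F : Bool → Frag (TVar k n) (Fin k) G.Mem G.Mem) (r : Bool) :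
    ℕ → Frag (TVar k (n + 1)) (Fin k) G.Mem G.Mem
  | 0 => Frag.silent (fun a b => b = a)
  | j + 1 => (passes F r j).comp (G.pass F r j)

/-- The fragment that adds the value of a tree to the register `r`. -/
def add : (n : ℕ) → Bool → Frag (TVar k n) (Fin k) G.Mem G.Mem
  | 0, r => G.leaf r
  | n + 1, r => G.passes (add n) r G.D

theorem does_leaf (r : Bool) (I : TVar k 0 → Fin k) :
    (G.leaf r).Does I (IsThrifty 0 I) (G.inc r (G.enc (val 0 I))) := by
  intro a
  refine ⟨[a], fun l b => ?_, fun q _ => trivial⟩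
  refine (Frag.go_single' I a l b).trans ?_
  constructor
  · rintro ⟨q, rfl, rfl, rfl⟩
    exact ⟨rfl, rfl⟩
  · rintro ⟨rfl, rfl⟩
    exact ⟨a, rfl, rfl, rfl⟩

theorem inc_apply_self (r : Bool) (u : G.H) (m : G.Mem) : G.inc r u m r = m r + u := by
  simp [inc]

theorem inc_apply_not (r : Bool) (u : G.H) (m : G.Mem) : G.inc r u m (!r) = m (!r) := by
  simp [inc]

theorem inc_not_apply (r : Bool) (u : G.H) (m : G.Mem) : G.inc (!r) u m r = m r := by
  simp [inc]

theorem mem_ext (r : Bool) {m m' : G.Mem} (h1 : m r = m' r) (h2 : m (!r) = m' (!r)) : m = m' := by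
  funext j
  by_cases hj : j = r
  · rw [hj]
    exact h1
  · have : j = !r := by
      cases j <;> cases r <;> simp_all
    rw [this]
    exact h2

/-- The registers after both children have been added. -/
def both (r : Bool) (x y : Fin k) (m : G.Mem) : G.Mem :=
  G.inc r (G.enc y) (G.inc (!r) (G.enc x) m)

theorem both_self (r : Bool) (x y : Fin k) (m : G.Mem) : G.both r x y m r = m r + G.enc y := by
  simp [both, inc]

theorem both_not (r : Bool) (x y : Fin k) (m : G.Mem) :
    G.both r x y m (!r) = m (!r) + G.enc x := by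
  simp [both, inc]

/-- The registers after both guesses have been subtracted. -/
def unboth (r : Bool) (x y : Fin k) (m : G.Mem) : G.Mem :=
  G.inc r (- G.enc y) (G.inc (!r) (- G.enc x) m)

theorem unboth_self (r : Bool) (x y : Fin k) (m : G.Mem) :
    G.unboth r x y m r = m r - G.enc y := by
  simp [unboth, inc, sub_eq_add_neg]

theorem unboth_not (r : Bool) (x y : Fin k) (m : G.Mem) :
    G.unboth r x y m (!r) = m (!r) - G.enc x := by
  simp [unboth, inc, sub_eq_add_neg]

theorem both_unboth (r : Bool) (x y : Fin k) (m : G.Mem) :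
    G.both r x y (G.unboth r x y m) = m := by
  refine G.mem_ext r ?_ ?_
  · rw [both_self, unboth_self, sub_add_cancel]
  · rw [both_not, unboth_not, sub_add_cancel]

section

variable {n : ℕ} (F : Bool → Frag (TVar k n) (Fin k) G.Mem G.Mem) (r : Bool)
  (I : TVar k (n + 1) → Fin k)
  (hF : ∀ b r, (F r).Does (sub I b) (IsThrifty n (sub I b)) (G.inc r (G.enc (val n (sub I b)))))

include hF

theorem does_pre : (G.pre F r).Does I (IsThrifty (n + 1) I)
    (fun a => (G.both r (val n (sub I false)) (val n (sub I true)) a,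
      (G.col (a r), G.col (a (!r))))) := by
  have h1 : ((F (!r)).mapVar (embd false)).Does I (IsThrifty (n + 1) I) _ :=
    Frag.Does.mapVar (hF false (!r))
  have h2 : ((F r).mapVar (embd true)).Does I (IsThrifty (n + 1) I) _ :=
    Frag.Does.mapVar (hF true r)
  exact (Frag.does_silent I _).comp ((h1.ext _ _).comp (h2.ext _ _))

theorem does_post : (G.post F r).Does I (IsThrifty (n + 1) I)
    (fun a => (G.both r (val n (sub I false)) (val n (sub I true)) a.1, a.2)) := by
  have h1 : ((F (!r)).mapVar (embd false)).Does I (IsThrifty (n + 1) I) _ :=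
    Frag.Does.mapVar (hF false (!r))
  have h2 : ((F r).mapVar (embd true)).Does I (IsThrifty (n + 1) I) _ :=
    Frag.Does.mapVar (hF true r)
  exact (h1.ext _ _).comp (h2.ext _ _)

omit hF in
/-- The one fact about the registers. -/
theorem registers {x y a b : Fin k} {m m' : G.Mem} (h1 : G.both r a b m = G.both r x y m')
    (h2 : G.col (m' r) = G.col (m r)) (h3 : G.col (m' (!r)) = G.col (m (!r)))
    (h4 : G.col (G.both r a b (G.unboth r x y m') r) = G.col (m r))
    (h5 : G.col (G.both r a b (G.unboth r x y m') (!r)) = G.col (m (!r))) :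
    x = a ∧ y = b ∧ m' = m := by
  have e1 := congrFun h1 r
  have e2 := congrFun h1 (!r)
  rw [both_self, both_self] at e1
  rw [both_not, both_not] at e2
  rw [both_self, unboth_self] at h4
  rw [both_not, unboth_not] at h5
  have f1 : m' r = m r + (G.enc b - G.enc y) := by
    rw [← add_sub_assoc, e1, add_sub_cancel_right]
  have f2 : m' (!r) = m (!r) + (G.enc a - G.enc x) := by
    rw [← add_sub_assoc, e2, add_sub_cancel_right]
  have g1 : m' r - G.enc y + G.enc b =
      m r + (G.enc b - G.enc y) + (G.enc b - G.enc y) := by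
    rw [f1]; abel
  have g2 : m' (!r) - G.enc x + G.enc a =
      m (!r) + (G.enc a - G.enc x) + (G.enc a - G.enc x) := by
    rw [f2]; abel
  rw [g1] at h4
  rw [g2] at h5
  rw [f1] at h2
  rw [f2] at h3
  have hy := G.sound b y _ h2 h4
  have hx := G.sound a x _ h3 h5
  subst hx hy
  refine ⟨rfl, rfl, G.mem_ext r ?_ ?_⟩
  · rw [f1]; simp
  · rw [f2]; simp

theorem does_pass (i : ℕ) : (G.pass F r i).Does I (IsThrifty (n + 1) I)
    (G.inc r (G.put i (G.dig i (val (n + 1) I)))) := by
  intro m
  set vL := val n (sub I false) with hvL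
  set vR := val n (sub I true) with hvR
  have hval : val (n + 1) I = I (Sum.inl (vL, vR)) := rfl
  obtain ⟨l₁, h1, t1⟩ := G.does_pre F r I hF m
  obtain ⟨l₂, h2, t2⟩ := G.does_post F r I hF
    (G.unboth r vL vR m, ((G.col (m r), G.col (m (!r))), G.dig i (val (n + 1) I)))
  rw [← hvL, ← hvR] at h1 h2
  refine ⟨l₁.map Sum.inl ++ (([((m, (G.col (m r), G.col (m (!r)))), (vL, vR))].map Sum.inl) ++
    ((l₂.map Sum.inl ++ ([] : List Empty).map Sum.inr).map Sum.inr)).map Sum.inr, ?_, ?_⟩
  · intro l b
    constructor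
    · intro h
      obtain ⟨b₁, k₁, k₂, rfl, g1, g2⟩ := (Frag.go_comp _ _ I m l b).1 h
      obtain ⟨b₂, k₃, k₄, rfl, g3, g4⟩ := (Frag.go_comp _ _ I b₁ k₂ b).1 g2
      obtain ⟨b₃, k₅, k₆, rfl, g5, g6⟩ := (Frag.go_comp _ _ I b₂ k₄ b).1 g4
      obtain ⟨rfl, rfl⟩ := (h1 _ _).1 g1
      obtain ⟨⟨⟨m', c, c'⟩, x, y⟩, rfl, ⟨g7, g8, g9, g10⟩, rfl⟩ := (Frag.go_single' I _ k₃ b₂).1 g3
      obtain ⟨rfl, g11, g12⟩ := (Frag.go_silent _ I b₃ k₆ b).1 g6
      simp only at g7 g8 g9 g10
      obtain ⟨rfl, rfl⟩ := Prod.ext_iff.1 g8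
      obtain ⟨l₃, h3, _⟩ := G.does_post F r I hF
        (G.unboth r x y m', ((G.col (m r), G.col (m (!r))), G.dig i (I (Sum.inl (x, y)))))
      obtain ⟨rfl, rfl⟩ := (h3 _ _).1 g5
      simp only [look, Prod.mk.injEq, true_and] at g11
      obtain ⟨rfl, rfl, rfl⟩ := G.registers r (a := vL) (b := vR) g7 g9 g10 g11.1 g11.2
      obtain ⟨rfl, -⟩ := (h2 _ _).1 g5
      refine ⟨rfl, ?_⟩
      rw [g12]
      simp only
      rw [G.both_unboth]
      rfl
    · rintro ⟨rfl, rfl⟩
      refine (Frag.go_comp _ _ I m _ _).2 ⟨_, _, _, rfl, (h1 _ _).2 ⟨rfl, rfl⟩,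
        (Frag.go_comp _ _ I _ _ _).2 ⟨_, _, _, rfl, (Frag.go_single' I _ _ _).2 ⟨_, rfl,
          ⟨rfl, rfl, rfl, rfl⟩, rfl⟩, (Frag.go_comp _ _ I _ _ _).2 ⟨_, _, _, rfl,
            (h2 _ _).2 ⟨rfl, rfl⟩, (Frag.go_silent _ I _ _ _).2 ⟨rfl, ?_, ?_⟩⟩⟩⟩
      · simp only [look, G.both_unboth]
      · simp only [G.both_unboth]
  · intro q hq
    rcases List.mem_append.1 hq with hq | hq
    · obtain ⟨p, hp, rfl⟩ := List.mem_map.1 hq
      exact t1 p hp
    obtain ⟨q, hq', rfl⟩ := List.mem_map.1 hq
    rcases List.mem_append.1 hq' with hq' | hq'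
    · obtain ⟨p, hp, rfl⟩ := List.mem_map.1 hq'
      obtain rfl := List.mem_singleton.1 hp
      exact ⟨rfl, rfl⟩
    obtain ⟨q, hq'', rfl⟩ := List.mem_map.1 hq'
    rcases List.mem_append.1 hq'' with hq'' | hq''
    · obtain ⟨p, hp, rfl⟩ := List.mem_map.1 hq''
      exact t2 p hp
    · obtain ⟨p, hp, rfl⟩ := List.mem_map.1 hq''
      exact p.elim

theorem does_passes (j : ℕ) : (G.passes F r j).Does I (IsThrifty (n + 1) I)
    (G.inc r (∑ i ∈ Finset.range j, G.put i (G.dig i (val (n + 1) I)))) := by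
  induction j with
  | zero =>
    have : G.inc r (∑ i ∈ Finset.range 0, G.put i (G.dig i (val (n + 1) I))) = fun a => a := by
      funext m
      simp [inc]
    rw [this]
    exact Frag.does_silent I _
  | succ j ih =>
    have h := ih.comp (G.does_pass F r I hF j)
    have : (fun a => G.inc r (G.put j (G.dig j (val (n + 1) I)))
        (G.inc r (∑ i ∈ Finset.range j, G.put i (G.dig i (val (n + 1) I))) a)) =
        G.inc r (∑ i ∈ Finset.range (j + 1), G.put i (G.dig i (val (n + 1) I))) := by
      funext m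
      simp [inc, Finset.sum_range_succ, add_assoc]
    rw [this] at h
    exact h

end

theorem does_add (n : ℕ) : ∀ (r : Bool) (I : TVar k n → Fin k),
    (G.add n r).Does I (IsThrifty n I) (G.inc r (G.enc (val n I))) := by
  induction n with
  | zero => exact fun r I => G.does_leaf r I
  | succ n ih =>
    intro r I
    have h := G.does_passes (G.add n) r I (fun b r => ih r (sub I b)) G.D
    rw [G.sum_dig] at h
    exact h

end Digits

end Pool.Agent.ThriftyBP
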