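import Pool.Agent.ThriftyBP.Digit
import Pool.Agent.ThriftyBP.Behrend

/-!
# Two registers: the number of states, the branching program, and the gadget
-/

namespace Pool.Agent.ThriftyBP

namespace Digits

variable {k : ℕ} (G : Digits k)

/-- The number of memories times the number of guesses. -/
noncomputable def PP : ℕ := Fintype.card G.H ^ 2 * k ^ 2

/-- The factor for the side information. -/
noncomputable def SS : ℕ := Fintype.card G.C ^ 2 * Fintype.card G.W

theorem card_mem : Fintype.card G.Mem = Fintype.card G.H ^ 2 := by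
  rw [Fintype.card_fun, Fintype.card_bool]

theorem card_leaf (hk : 0 < k) (r : Bool) : (G.leaf r).card ≤ G.PP := by
  have h1 : (G.leaf r).card = Fintype.card G.Mem := rfl
  rw [h1, card_mem]
  exact Nat.le_mul_of_pos_right _ (by positivity)

theorem card_mid (n : ℕ) (r : Bool) (i : ℕ) :
    (G.mid n r i).card = Fintype.card G.C ^ 2 * G.PP := by
  have h1 : (G.mid n r i).card =
      Fintype.card ((G.Mem × (G.C × G.C)) × (Fin k × Fin k)) := rfl
  rw [h1]
  simp only [Fintype.card_prod, card_mem, Fintype.card_fin, PP]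
  ring

theorem card_pass {n : ℕ} (F : Bool → Frag (TVar k n) (Fin k) G.Mem G.Mem) (r : Bool) (i : ℕ)
    (hw : 0 < Fintype.card G.W) {t : ℕ} (hF : ∀ b, (F b).card ≤ t) (ht : G.PP ≤ t) :
    (G.pass F r i).card ≤ 5 * (G.SS * t) := by
  have h1 : (G.pass F r i).card = 0 + ((F (!r)).card * (Fintype.card G.C * Fintype.card G.C) +
      (F r).card * (Fintype.card G.C * Fintype.card G.C)) + (Fintype.card G.C ^ 2 * G.PP +
      (((F (!r)).card * ((Fintype.card G.C * Fintype.card G.C) * Fintype.card G.W) +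
      (F r).card * ((Fintype.card G.C * Fintype.card G.C) * Fintype.card G.W)) + 0)) := by
    unfold pass pre post
    simp only [Frag.card_comp, Frag.card_ext, Frag.card_mapVar, Frag.card_silent, card_mid,
      Fintype.card_prod]
  have h2 : Fintype.card G.C ^ 2 ≤ G.SS := Nat.le_mul_of_pos_right _ hw
  have h3 : Fintype.card G.C * Fintype.card G.C ≤ G.SS := by rwa [← pow_two]
  have h4 : (Fintype.card G.C * Fintype.card G.C) * Fintype.card G.W = G.SS := by
    rw [← pow_two]
    rfl
  rw [h1, h4]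
  calc _ ≤ 0 + (t * G.SS + t * G.SS) + (G.SS * t + ((t * G.SS + t * G.SS) + 0)) := by
        have := hF r
        have := hF (!r)
        gcongr
    _ = _ := by ring

theorem card_passes {n : ℕ} (F : Bool → Frag (TVar k n) (Fin k) G.Mem G.Mem) (r : Bool)
    (hw : 0 < Fintype.card G.W) {t : ℕ} (hF : ∀ b, (F b).card ≤ t) (ht : G.PP ≤ t) (j : ℕ) :
    (G.passes F r j).card ≤ j * (5 * (G.SS * t)) := by
  induction j with
  | zero =>
    rw [zero_mul]
    exact (Frag.card_silent _).le
  | succ j ih =>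
    rw [passes, Frag.card_comp, Nat.succ_mul]
    exact Nat.add_le_add ih (G.card_pass F r j hw hF ht)

theorem card_add (hk : 0 < k) (hD : 0 < G.D) (n : ℕ) (r : Bool) :
    (G.add n r).card ≤ (G.D * 5 * G.SS) ^ n * G.PP := by
  have hw : 0 < Fintype.card G.W := Fintype.card_pos_iff.2 ⟨G.dig 0 ⟨0, hk⟩⟩
  have hc : 0 < Fintype.card G.C := Fintype.card_pos_iff.2 ⟨G.col 0⟩
  have hS : 0 < G.SS := by
    unfold SS
    positivity
  induction n generalizing r with
  | zero =>
    rw [pow_zero, one_mul]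
    exact G.card_leaf hk r
  | succ n ih =>
    have h1 : G.PP ≤ (G.D * 5 * G.SS) ^ n * G.PP := Nat.le_mul_of_pos_left _ (by positivity)
    refine (G.card_passes (G.add n) r hw ih h1 G.D).trans (le_of_eq ?_)
    ring

/-- The exit that stands for the output `z`. -/
def out (z : Fin k) : G.Mem := G.inc true (G.enc z) (fun _ => 0)

theorem out_injective : Function.Injective G.out := by
  intro z z' h
  have h1 := congrFun h true
  simp only [out, inc, Function.update_self, zero_add] at h1
  exact G.inj h1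

/-- The whole program. -/
noncomputable def prog (n : ℕ) : NBP (TVar k n) (Fin k) (Fin k) :=
  closeProg (G.add n true) (someLeaf n) (fun _ => 0) G.out

theorem path_prog (n : ℕ) (I : TVar k n → Fin k) : ∃ l₀ : List (G.prog n).Q,
    (∀ l z, (G.prog n).Path I (G.prog n).start l z ↔ l = l₀ ∧ z = val n I) ∧
      ∀ q ∈ l₀, IsThrifty n I ((G.prog n).var q) := by
  obtain ⟨l₀, h1, h2⟩ := G.does_add n true I (fun _ => 0)
  refine ⟨Sum.inl () :: l₀.map Sum.inr, ?_, ?_⟩
  · intro l z
    refine (path_closeProg_start G.out_injective I l z).trans ?_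
    constructor
    · rintro ⟨l', rfl, h⟩
      obtain ⟨rfl, h4⟩ := (h1 _ _).1 h
      exact ⟨rfl, G.out_injective h4⟩
    · rintro ⟨rfl, rfl⟩
      exact ⟨l₀, rfl, (h1 _ _).2 ⟨rfl, rfl⟩⟩
  · intro q hq
    rcases List.mem_cons.1 hq with rfl | hq
    · exact isThrifty_someLeaf n I
    · obtain ⟨p, hp, rfl⟩ := List.mem_map.1 hq
      exact h2 p hp

theorem computes_prog (n : ℕ) : (G.prog n).Computes (val n) := by
  intro I
  obtain ⟨l₀, h1, _⟩ := G.path_prog n I
  exact ⟨⟨l₀, (h1 _ _).2 ⟨rfl, rfl⟩⟩, fun l r h => ((h1 l r).1 h).2⟩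

theorem thrifty_prog (n : ℕ) : Thrifty (G.prog n) := by
  intro I l r h
  obtain ⟨l₀, h1, h2⟩ := G.path_prog n I
  obtain ⟨rfl, _⟩ := (h1 l r).1 h
  exact h2

theorem unambiguous_prog (n : ℕ) : (G.prog n).Unambiguous := by
  intro I l l' r r' h h'
  obtain ⟨l₀, h1, _⟩ := G.path_prog n I
  rw [((h1 l r).1 h).1, ((h1 l' r').1 h').1]

theorem size_prog (hk : 0 < k) (hD : 0 < G.D) (n : ℕ) :
    (G.prog n).size ≤ (G.D * 5 * G.SS) ^ n * G.PP + k + 1 := by
  have h1 : (G.prog n).size = 1 + (G.add n true).card + k := by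
    let _ := (G.add n true).finQ
    change Fintype.card (Unit ⊕ (G.add n true).Q) + Fintype.card (Fin k) = _
    rw [Fintype.card_sum, Fintype.card_unit, Fintype.card_fin]
    rfl
  have h2 := G.card_add hk hD n true
  omega

end Digits

/-- The gadget: `k` values, `(2 * M) ^ d` group elements, `2 ^ d * (d * M ^ 2 + 1)` colours,
`d` digits with `2 * M` values each. -/
theorem exists_digits (k d M : ℕ) (hM : 1 ≤ M) (hk : k ≤ (2 * M) ^ d) :
    ∃ G : Digits k, Fintype.card G.H = (2 * M) ^ d ∧
      Fintype.card G.C = 2 ^ d * (d * M ^ 2 + 1) ∧ Fintype.card G.W = 2 * M ∧ G.D = d := by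
  classical
  have : NeZero (2 * M) := ⟨by omega⟩
  obtain ⟨e⟩ : Nonempty (Fin k ↪ (Fin d → ZMod (2 * M))) := by
    apply Function.Embedding.nonempty_of_card_le
    simpa [ZMod.card] using hk
  refine ⟨⟨Fin d → ZMod (2 * M), inferInstance, inferInstance,
    (Fin d → Bool) × Fin (d * M ^ 2 + 1), inferInstance, ZMod (2 * M), inferInstance, d,
    e, e.injective,
    fun u => (fun i => APFree.hi M (u i), ⟨APFree.nrm M u, APFree.nrm_lt u⟩), ?_,
    fun i z => if h : i < d then e z ⟨i, h⟩ else 0,
    fun i w => if h : i < d then Pi.single ⟨i, h⟩ w else 0, ?_⟩, ?_, ?_, ?_, rfl⟩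
  · intro x x' u h1 h2
    simp only [Prod.mk.injEq, Fin.mk.injEq] at h1 h2
    have := APFree.key u (e x - e x') (fun i => congrFun h1.1 i) (fun i => congrFun h2.1 i)
      h1.2 h2.2
    exact e.injective (sub_eq_zero.1 this)
  · intro z
    rw [Finset.sum_range (fun i => (if h : i < d then Pi.single ⟨i, h⟩
      (if h : i < d then e z ⟨i, h⟩ else 0) else 0 : Fin d → ZMod (2 * M)))]
    have : ∀ i : Fin d, (if h : (i : ℕ) < d then Pi.single ⟨i, h⟩
      (if h : (i : ℕ) < d then e z ⟨i, h⟩ else 0) else 0 : Fin d → ZMod (2 * M)) =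
        Pi.single i (e z i) := by
      intro i
      simp
    rw [Finset.sum_congr rfl fun i _ => this i]
    exact Finset.univ_sum_single (e z)
  · change Fintype.card (Fin d → ZMod (2 * M)) = _
    simp [ZMod.card]
  · change Fintype.card ((Fin d → Bool) × Fin (d * M ^ 2 + 1)) = _
    simp
  · change Fintype.card (ZMod (2 * M)) = _
    simp [ZMod.card]

end Pool.Agent.ThriftyBP
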