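import Pool.Agent.ThriftyBP.Basic

/-!
# Open programs (fragments) and their composition
-/

namespace Pool.Agent.ThriftyBP

/-- A program fragment: it is entered with an element of `A` and left with an element of `B`. -/
structure Frag (X V A B : Type) where
  Q : Type
  finQ : Fintype Q
  var : Q → X
  entry : A → Q ⊕ B → Prop
  edge : Q → V → Q ⊕ B → Prop

namespace Frag

variable {X Y V A B C : Type}

/-- Number of states. -/
noncomputable def card (F : Frag X V A B) : ℕ :=
  letI := F.finQ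
  Fintype.card F.Q

/-- Computations inside a fragment, up to its exit. -/
def Path (F : Frag X V A B) (I : X → V) : F.Q ⊕ B → List F.Q → B → Prop
  | s, [], b => s = Sum.inr b
  | s, q :: l, b => s = Sum.inl q ∧ ∃ t, F.edge q (I (F.var q)) t ∧ F.Path I t l b

/-- Traversals of a fragment, from an entry value to an exit value. -/
def Go (F : Frag X V A B) (I : X → V) (a : A) (l : List F.Q) (b : B) : Prop :=
  ∃ s, F.entry a s ∧ F.Path I s l b

/-- Renaming the variables. -/
def mapVar (f : X → Y) (F : Frag X V A B) : Frag Y V A B where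
  Q := F.Q
  finQ := F.finQ
  var q := f (F.var q)
  entry := F.entry
  edge := F.edge

theorem card_mapVar (f : X → Y) (F : Frag X V A B) : (F.mapVar f).card = F.card := rfl

theorem path_mapVar (f : X → Y) (F : Frag X V A B) (I : Y → V) (s : F.Q ⊕ B) (l : List F.Q)
    (b : B) : (F.mapVar f).Path I s l b ↔ F.Path (fun x => I (f x)) s l b := by
  induction l generalizing s with
  | nil => exact Iff.rfl
  | cons q l ih =>
    constructor
    · rintro ⟨h1, t, h2, h3⟩
      exact ⟨h1, t, h2, (ih t).1 h3⟩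
    · rintro ⟨h1, t, h2, h3⟩
      exact ⟨h1, t, h2, (ih t).2 h3⟩

theorem go_mapVar (f : X → Y) (F : Frag X V A B) (I : Y → V) (a : A) (l : List F.Q)
    (b : B) : (F.mapVar f).Go I a l b ↔ F.Go (fun x => I (f x)) a l b := by
  constructor
  · rintro ⟨s, h1, h2⟩
    exact ⟨s, h1, (path_mapVar f F I s l b).1 h2⟩
  · rintro ⟨s, h1, h2⟩
    exact ⟨s, h1, (path_mapVar f F I s l b).2 h2⟩

/-- Where the composition of two fragments continues from `s`, a state or an exit of the first. -/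
def Link (F : Frag X V A B) (G : Frag X V B C) (s : F.Q ⊕ B) (t : (F.Q ⊕ G.Q) ⊕ C) : Prop :=
  (∃ q, s = Sum.inl q ∧ t = Sum.inl (Sum.inl q)) ∨
    ∃ b u, s = Sum.inr b ∧ G.entry b u ∧ t = Sum.map Sum.inr id u

/-- Composition: first `F`, then `G`. -/
def comp (F : Frag X V A B) (G : Frag X V B C) : Frag X V A C where
  Q := F.Q ⊕ G.Q
  finQ := letI := F.finQ; letI := G.finQ; inferInstance
  var := Sum.elim F.var G.var
  entry a t := ∃ s, F.entry a s ∧ Link F G s t
  edge q v t :=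
    (∃ q', q = Sum.inl q' ∧ ∃ s, F.edge q' v s ∧ Link F G s t) ∨
      ∃ q', q = Sum.inr q' ∧ ∃ s, G.edge q' v s ∧ t = Sum.map Sum.inr id s

theorem card_comp (F : Frag X V A B) (G : Frag X V B C) :
    (F.comp G).card = F.card + G.card := by
  let _ := F.finQ
  let _ := G.finQ
  unfold card
  simp only [comp]
  exact Fintype.card_sum

theorem path_comp_inr (F : Frag X V A B) (G : Frag X V B C) (I : X → V) (s : G.Q ⊕ C)
    (l : List (F.Q ⊕ G.Q)) (c : C) :
    (F.comp G).Path I (Sum.map Sum.inr id s) l c ↔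
      ∃ l', l = l'.map Sum.inr ∧ G.Path I s l' c := by
  induction l generalizing s with
  | nil =>
    constructor
    · intro h
      refine ⟨[], rfl, ?_⟩
      rcases s with q | c'
      · exact nomatch h
      · have h' : Sum.inr c' = (Sum.inr c : (F.Q ⊕ G.Q) ⊕ C) := h
        obtain rfl := Sum.inr.inj h'
        rfl
    · rintro ⟨l', h1, h2⟩
      have : l' = [] := by simpa using h1.symm
      subst this
      simp only [Path] at h2 ⊢
      subst h2
      rfl
  | cons q l ih =>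
    constructor
    · rintro ⟨h1, t, h2, h3⟩
      rcases s with q' | c'
      · obtain rfl : Sum.inr q' = q := Sum.inl.inj h1
        rcases h2 with ⟨q'', h4, _⟩ | ⟨q'', h4, u, h5, rfl⟩
        · exact nomatch h4
        · obtain rfl : q' = q'' := Sum.inr.inj h4
          obtain ⟨l', rfl, h6⟩ := (ih u).1 h3
          exact ⟨q' :: l', rfl, rfl, u, h5, h6⟩
      · exact nomatch h1
    · rintro ⟨l', h1, h2⟩
      cases l' with
      | nil => simp at h1
      | cons q' l' =>
        simp only [List.map_cons, List.cons.injEq] at h1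
        obtain ⟨rfl, rfl⟩ := h1
        obtain ⟨rfl, t, h3, h4⟩ := h2
        exact ⟨rfl, Sum.map Sum.inr id t, Or.inr ⟨q', rfl, t, h3, rfl⟩, (ih t).2 ⟨l', rfl, h4⟩⟩

theorem path_comp_inl (F : Frag X V A B) (G : Frag X V B C) (I : X → V) (s : F.Q ⊕ B)
    (l : List (F.Q ⊕ G.Q)) (c : C) :
    (∃ t, Link F G s t ∧ (F.comp G).Path I t l c) ↔
      ∃ b l1 l2, l = l1.map Sum.inl ++ l2.map Sum.inr ∧ F.Path I s l1 b ∧ G.Go I b l2 c := by
  constructor
  · rintro ⟨t, hst, h⟩
    induction l generalizing s t with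
    | nil =>
      rcases hst with ⟨q, rfl, rfl⟩ | ⟨b, u, rfl, h1, rfl⟩
      · exact nomatch h
      · obtain ⟨l', h2, h3⟩ := (path_comp_inr F G I u [] c).1 h
        exact ⟨b, [], l', by simpa using h2, rfl, u, h1, h3⟩
    | cons q l ih =>
      rcases hst with ⟨q', rfl, rfl⟩ | ⟨b, u, rfl, h1, rfl⟩
      · obtain ⟨h1, t, h2, h3⟩ := h
        obtain rfl : Sum.inl q' = q := Sum.inl.inj h1
        rcases h2 with ⟨q'', h4, s, h5, h6⟩ | ⟨q'', h4, _⟩
        · obtain rfl : q' = q'' := Sum.inl.inj h4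
          obtain ⟨b, l1, l2, rfl, h7, h8⟩ := ih s t h6 h3
          exact ⟨b, q' :: l1, l2, rfl, ⟨rfl, s, h5, h7⟩, h8⟩
        · exact nomatch h4
      · obtain ⟨l', h2, h3⟩ := (path_comp_inr F G I u (q :: l) c).1 h
        exact ⟨b, [], l', by simpa using h2, rfl, u, h1, h3⟩
  · rintro ⟨b, l1, l2, rfl, h1, h2⟩
    induction l1 generalizing s with
    | nil =>
      obtain ⟨u, h3, h4⟩ := h2
      simp only [Path] at h1
      subst h1
      exact ⟨Sum.map Sum.inr id u, Or.inr ⟨b, u, rfl, h3, rfl⟩,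
        (path_comp_inr F G I u _ c).2 ⟨l2, by simp, h4⟩⟩
    | cons q l1 ih =>
      obtain ⟨rfl, s', h3, h4⟩ := h1
      obtain ⟨t, h5, h6⟩ := ih s' h4
      refine ⟨Sum.inl (Sum.inl q), Or.inl ⟨q, rfl, rfl⟩, ?_⟩
      exact ⟨rfl, t, Or.inl ⟨q, rfl, s', h3, h5⟩, h6⟩

theorem go_comp (F : Frag X V A B) (G : Frag X V B C) (I : X → V) (a : A)
    (l : List (F.Q ⊕ G.Q)) (c : C) :
    (F.comp G).Go I a l c ↔
      ∃ b l1 l2, l = l1.map Sum.inl ++ l2.map Sum.inr ∧ F.Go I a l1 b ∧ G.Go I b l2 c := by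
  constructor
  · rintro ⟨t, ⟨s, hs, hst⟩, h⟩
    obtain ⟨b, l1, l2, rfl, h1, h2⟩ := (path_comp_inl F G I s l c).1 ⟨t, hst, h⟩
    exact ⟨b, l1, l2, rfl, ⟨s, hs, h1⟩, h2⟩
  · rintro ⟨b, l1, l2, rfl, ⟨s, hs, h1⟩, h2⟩
    obtain ⟨t, hst, h⟩ := (path_comp_inl F G I s _ c).2 ⟨b, l1, l2, rfl, h1, h2⟩
    exact ⟨t, ⟨s, hs, hst⟩, h⟩

end Frag

end Pool.Agent.ThriftyBP
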