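import Pool.Agent.ThriftyBP.Upper
import Pool.Agent.ThriftyBP.Code

/-!
# A gadget with few colours that depend on the value
-/

namespace Pool.Agent.ThriftyBP

open Finset

/-- Shifting by `e` changes the block of length `B`. -/
theorem block_ne {q B e : ℕ} [NeZero q] (he : B ≤ e) (he' : e + B ≤ q) (hB : 0 < B)
    (φ : ZMod q) : (φ - (e : ZMod q)).val / B ≠ φ.val / B := by
  intro h
  set b := φ - (e : ZMod q) with hb
  have h1 : φ = b + (e : ZMod q) := by rw [hb]; ring
  have h2 : φ.val = (b.val + e) % q := by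
    rw [h1, ZMod.val_add, ZMod.val_natCast, Nat.add_mod, Nat.mod_mod, ← Nat.add_mod]
  have hbq := ZMod.val_lt b
  have h3 := Nat.div_add_mod b.val B
  have h4 := Nat.div_add_mod φ.val B
  have h5 := Nat.mod_lt b.val hB
  have h6 := Nat.mod_lt φ.val hB
  rw [h] at h3
  rcases lt_or_ge (b.val + e) q with h7 | h7
  · rw [Nat.mod_eq_of_lt h7] at h2
    omega
  · have h8 : (b.val + e) % q = b.val + e - q := by
      rw [Nat.mod_eq_sub_mod h7, Nat.mod_eq_of_lt (by omega)]
    rw [h8] at h2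
    omega

/-- The squared distance of two words. -/
def sqDist {D M : ℕ} (x y : Fin D → Fin M) : ℕ := ∑ i, ((x i : ℤ) - (y i : ℤ)).natAbs ^ 2

theorem hammingDist_le_sqDist {D M : ℕ} (x y : Fin D → Fin M) : hammingDist x y ≤ sqDist x y := by
  classical
  unfold hammingDist sqDist
  rw [Finset.card_eq_sum_ones, Finset.sum_filter]
  refine Finset.sum_le_sum fun i _ => ?_
  split_ifs with h
  · have : (x i : ℤ) - (y i : ℤ) ≠ 0 := by
      intro h'
      apply h
      apply Fin.ext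
      omega
    have := Int.natAbs_pos.2 this
    exact Nat.one_le_pow _ _ this
  · exact Nat.zero_le _

theorem sqDist_le {D M : ℕ} (x y : Fin D → Fin M) : sqDist x y ≤ D * M ^ 2 := by
  unfold sqDist
  have : ∑ i : Fin D, ((x i : ℤ) - (y i : ℤ)).natAbs ^ 2 ≤ ∑ _i : Fin D, M ^ 2 := by
    refine Finset.sum_le_sum fun i _ => Nat.pow_le_pow_left ?_ 2
    have := (x i).isLt
    have := (y i).isLt
    omega
  simpa using this

theorem cast_sqDist {D M q : ℕ} (x y : Fin D → Fin M) :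
    ((sqDist x y : ℕ) : ZMod q) = ∑ i, (((x i : ℕ) : ZMod q) - ((y i : ℕ) : ZMod q)) ^ 2 := by
  unfold sqDist
  rw [Nat.cast_sum]
  refine Finset.sum_congr rfl fun i _ => ?_
  have h : (((((x i : ℤ) - (y i : ℤ)).natAbs ^ 2 : ℕ) : ℤ) : ZMod q) =
      ((((x i : ℤ) - (y i : ℤ)) ^ 2 : ℤ) : ZMod q) := by
    congr 1
    rw [Nat.cast_pow, Int.natCast_natAbs, sq_abs]
  rw [Int.cast_natCast] at h
  rw [h]
  push_cast
  ring

section

variable {k m M q : ℕ} (w : Fin k → (Fin (4 * m) → Fin M))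

/-- The encoding. -/
def lenc (q : ℕ) (x : Fin k) : (Fin (4 * m) → ZMod q) × ZMod q :=
  (fun i => ((w x i : ℕ) : ZMod q), ∑ i, ((w x i : ℕ) : ZMod q) ^ 2)

/-- The linear form of the value `x`. -/
def lform (q : ℕ) (x : Fin k) (u : (Fin (4 * m) → ZMod q) × ZMod q) : ZMod q :=
  u.2 - 2 * ∑ i, ((w x i : ℕ) : ZMod q) * u.1 i

theorem lform_add (x x' : Fin k) (u : (Fin (4 * m) → ZMod q) × ZMod q) :
    lform w q x (u + (lenc w q x - lenc w q x') + (lenc w q x - lenc w q x')) =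
      lform w q x u - ((2 * sqDist (w x) (w x') : ℕ) : ZMod q) := by
  rw [Nat.cast_mul, cast_sqDist]
  unfold lform lenc
  simp only [Prod.snd_add, Prod.snd_sub, Prod.fst_add, Prod.fst_sub, Pi.add_apply, Pi.sub_apply,
    Nat.cast_ofNat]
  have h1 : ∀ i, ((w x i : ℕ) : ZMod q) *
      (u.1 i + (((w x i : ℕ) : ZMod q) - ((w x' i : ℕ) : ZMod q)) +
        (((w x i : ℕ) : ZMod q) - ((w x' i : ℕ) : ZMod q))) =
      ((w x i : ℕ) : ZMod q) * u.1 i + (((w x i : ℕ) : ZMod q) - ((w x' i : ℕ) : ZMod q)) ^ 2 +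
        ((w x i : ℕ) : ZMod q) ^ 2 - ((w x' i : ℕ) : ZMod q) ^ 2 := by
    intro i
    ring
  rw [Finset.sum_congr rfl fun i _ => h1 i, Finset.sum_sub_distrib, Finset.sum_add_distrib,
    Finset.sum_add_distrib]
  ring

end

/-- The gadget. -/
theorem exists_label_gadget (k m M : ℕ) (hm : 1 ≤ m) (hM : 1 ≤ M)
    (hk : k * (16 * M) ^ m ≤ M ^ (4 * m)) :
    ∃ G : Gadget k, Fintype.card G.H = (2 * m * (4 * M ^ 2 + 1)) ^ (4 * m + 1) ∧
      Fintype.card G.C = 4 * M ^ 2 + 2 := by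
  obtain ⟨w, hw⟩ := exists_code hM k hk
  set B := 2 * m with hB
  set q := B * (4 * M ^ 2 + 1) with hq
  have hB0 : 0 < B := by omega
  have : NeZero q := ⟨by positivity⟩
  have hblock : ∀ φ : ZMod q, φ.val / B < 4 * M ^ 2 + 2 := by
    intro φ
    have h1 : φ.val < (4 * M ^ 2 + 1) * B := by
      have h0 := ZMod.val_lt φ
      have h00 : q = (4 * M ^ 2 + 1) * B := by rw [hq, mul_comm]
      omega
    have := (Nat.div_lt_iff_lt_mul hB0).2 h1
    omega
  let col : Fin k → (Fin (4 * m) → ZMod q) × ZMod q → Fin (4 * M ^ 2 + 2) := fun x u =>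
    ⟨(lform w q x u).val / B, hblock _⟩
  have sound : ∀ (x x' : Fin k) (u : (Fin (4 * m) → ZMod q) × ZMod q),
      col x (u + (lenc w q x - lenc w q x') + (lenc w q x - lenc w q x')) = col x u → x = x' := by
    intro x x' u h
    by_contra hne
    have h1 := hw x x' hne
    have h2 := hammingDist_le_sqDist (w x) (w x')
    have h3 := sqDist_le (w x) (w x')
    simp only [col, Fin.mk.injEq, lform_add] at h
    refine block_ne (B := B) (e := 2 * sqDist (w x) (w x')) ?_ ?_ hB0 _ h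
    · omega
    · have h4 : 2 * (4 * m * M ^ 2) + B = q := by rw [hq, hB]; ring
      omega
  refine ⟨⟨(Fin (4 * m) → ZMod q) × ZMod q, inferInstance, inferInstance, Fin (4 * M ^ 2 + 2),
    inferInstance, lenc w q, ?_, col, fun x x' u _ h => sound x x' u h⟩, ?_, ?_⟩
  · intro x x' h
    refine sound x x' 0 ?_
    rw [h]
    simp
  · change Fintype.card ((Fin (4 * m) → ZMod q) × ZMod q) = _
    rw [Fintype.card_prod, Fintype.card_fun, Fintype.card_fin, ZMod.card, pow_succ]
  · change Fintype.card (Fin (4 * M ^ 2 + 2)) = _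
    rw [Fintype.card_fin]

end Pool.Agent.ThriftyBP
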