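import Pool.Agent.ThriftyBP.Basic

/-!
# Basic facts on computations of branching programs
-/

namespace Pool.Agent.ThriftyBP.NBP

variable {X V R : Type}

theorem path_nil {B : NBP X V R} {I : X → V} {s : B.Q ⊕ R} {z : R} :
    B.Path I s [] z ↔ s = Sum.inr z := by
  constructor
  · intro h
    cases h
    rfl
  · rintro rfl
    exact Path.final _

theorem path_cons {B : NBP X V R} {I : X → V} {s : B.Q ⊕ R} {q : B.Q} {l : List B.Q} {z : R} :
    B.Path I s (q :: l) z ↔ s = Sum.inl q ∧ ∃ t, B.edge q (I (B.var q)) t ∧ B.Path I t l z := by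
  constructor
  · intro h
    cases h with
    | step h1 h2 => exact ⟨rfl, _, h1, h2⟩
  · rintro ⟨rfl, t, h1, h2⟩
    exact Path.step h1 h2

end Pool.Agent.ThriftyBP.NBP
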