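import Pool.Agent.ThriftyBP.Frag
import Pool.Agent.ThriftyBP.PathLemmas

/-!
# Locks: catalytic storage of values in blocks of several levels

A value `x` is locked in a register with content `t` by adding `enc x` and remembering the colour
`col x t`.  It can then be used twice by guessing it and subtracting the guesses, and the second
computation of `x` unlocks the register.
-/

namespace Pool.Agent.ThriftyBP

open scoped Classical in
/-- A gadget: values `x : Fin k` are encoded in a finite abelian group `H`; the colour `col x u`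
detects, from `u`, two subtracted guesses `x'` and `x''` if one of them is false. -/
structure Lock (k : ℕ) where
  H : Type
  grp : AddCommGroup H
  finH : Fintype H
  C : Type
  finC : Fintype C
  enc : Fin k → H
  inj : Function.Injective enc
  col : Fin k → H → C
  sound : ∀ (x x' x'' : Fin k) (u : H),
    col x (u + (enc x - enc x') + (enc x - enc x'')) = col x u → x' = x ∧ x'' = x

namespace Frag

variable {X V A B : Type}

/-- A fragment with a passive context. -/
def ext (F : Frag X V A B) (D : Type) (fD : Fintype D) : Frag X V (A × D) (B × D) where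
  Q := F.Q × D
  finQ := letI := F.finQ; inferInstance
  var q := F.var q.1
  entry a s := ∃ s', F.entry a.1 s' ∧ s = Sum.map (fun q => (q, a.2)) (fun b => (b, a.2)) s'
  edge q v s := ∃ s', F.edge q.1 v s' ∧ s = Sum.map (fun q' => (q', q.2)) (fun b => (b, q.2)) s'

theorem card_ext (F : Frag X V A B) (D : Type) (fD : Fintype D) :
    (F.ext D fD).card = F.card * Fintype.card D := by
  let _ := F.finQ
  unfold card
  simp only [ext]
  exact Fintype.card_prod _ _

theorem path_ext (F : Frag X V A B) (D : Type) (fD : Fintype D) (I : X → V) (d : D)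
    (s : F.Q ⊕ B) (l : List (F.Q × D)) (b : B × D) :
    (F.ext D fD).Path I (Sum.map (fun q => (q, d)) (fun b => (b, d)) s) l b ↔
      b.2 = d ∧ ∃ l', l = l'.map (fun q => (q, d)) ∧ F.Path I s l' b.1 := by
  induction l generalizing s with
  | nil =>
    constructor
    · intro h
      rcases s with q | b'
      · exact nomatch h
      · have h' : Sum.inr (b', d) = (Sum.inr b : (F.Q × D) ⊕ (B × D)) := h
        obtain rfl := Sum.inr.inj h'
        exact ⟨rfl, [], rfl, rfl⟩
    · rintro ⟨h1, l', h2, h3⟩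
      have : l' = [] := by simpa using h2.symm
      subst this
      simp only [Path] at h3 ⊢
      subst h3
      obtain ⟨b, d'⟩ := b
      simp only at h1
      subst h1
      rfl
  | cons q l ih =>
    constructor
    · rintro ⟨h1, t, h2, h3⟩
      rcases s with q' | b'
      · obtain rfl : (q', d) = q := Sum.inl.inj h1
        obtain ⟨s', h4, rfl⟩ := h2
        obtain ⟨h5, l', rfl, h6⟩ := (ih s').1 h3
        exact ⟨h5, q' :: l', rfl, rfl, s', h4, h6⟩
      · exact nomatch h1
    · rintro ⟨h0, l', h1, h2⟩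
      cases l' with
      | nil => simp at h1
      | cons q' l' =>
        simp only [List.map_cons, List.cons.injEq] at h1
        obtain ⟨rfl, rfl⟩ := h1
        obtain ⟨rfl, t, h3, h4⟩ := h2
        exact ⟨rfl, _, ⟨t, h3, rfl⟩, (ih t).2 ⟨h0, l', rfl, h4⟩⟩

theorem go_ext (F : Frag X V A B) (D : Type) (fD : Fintype D) (I : X → V)
    (a : A × D) (l : List (F.Q × D)) (b : B × D) :
    (F.ext D fD).Go I a l b ↔
      b.2 = a.2 ∧ ∃ l', l = l'.map (fun q => (q, a.2)) ∧ F.Go I a.1 l' b.1 := by
  constructor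
  · rintro ⟨s, ⟨s', h1, rfl⟩, h2⟩
    obtain ⟨h3, l', rfl, h4⟩ := (path_ext F D fD I a.2 s' l b).1 h2
    exact ⟨h3, l', rfl, s', h1, h4⟩
  · rintro ⟨h0, l', rfl, s', h1, h2⟩
    exact ⟨_, ⟨s', h1, rfl⟩, (path_ext F D fD I a.2 s' _ b).2 ⟨h0, l', rfl, h2⟩⟩

end Frag

/-- The scratch register for a node of a block with target register `r`; `j` is the number of
levels of the block below the node. -/
def sc {A : ℕ} (r : Fin (2 * A + 3)) (j : ℕ) (s : Bool) : Fin (2 * A + 3) :=
  r + Fin.ofNat (2 * A + 3) (2 * j + s.toNat + 1)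

theorem sc_ne {A : ℕ} (r : Fin (2 * A + 3)) {j : ℕ} (hj : j ≤ A) (s : Bool) : sc r j s ≠ r := by
  intro h
  have h1 : Fin.ofNat (2 * A + 3) (2 * j + s.toNat + 1) = 0 := by
    have : r + Fin.ofNat (2 * A + 3) (2 * j + s.toNat + 1) = r + 0 := by
      rw [add_zero]
      exact h
    exact add_left_cancel this
  have h2 := congrArg Fin.val h1
  have hs : s.toNat ≤ 1 := Bool.toNat_le s
  rw [Fin.val_ofNat, Nat.mod_eq_of_lt (by omega)] at h2
  simp at h2

theorem sc_inj {A : ℕ} (r : Fin (2 * A + 3)) {j j' : ℕ} (hj : j ≤ A) (hj' : j' ≤ A) {s s' : Bool}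
    (h : sc r j s = sc r j' s') : j = j' ∧ s = s' := by
  have h1 : Fin.ofNat (2 * A + 3) (2 * j + s.toNat + 1) =
      Fin.ofNat (2 * A + 3) (2 * j' + s'.toNat + 1) := add_left_cancel h
  have h2 := congrArg Fin.val h1
  have hs : s.toNat ≤ 1 := Bool.toNat_le s
  have hs' : s'.toNat ≤ 1 := Bool.toNat_le s'
  rw [Fin.val_ofNat, Fin.val_ofNat, Nat.mod_eq_of_lt (by omega),
    Nat.mod_eq_of_lt (by omega)] at h2
  have h3 : s.toNat = s'.toNat := by omega
  refine ⟨by omega, ?_⟩
  cases s <;> cases s' <;> simp_all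

/-- The variables of a subtree as variables of the tree. -/
def embd {k n : ℕ} (b : Bool) (x : TVar k n) : TVar k (n + 1) := Sum.inr (b, x)

namespace Lock

attribute [instance] Lock.grp Lock.finH Lock.finC

variable {k : ℕ} (G : Lock k) (A : ℕ)

/-- The registers. -/
abbrev Mem : Type := Fin (2 * A + 3) → G.H

/-- Lock: add the value to the target register and remember the colour. -/
def θ₁ {E : Type} (p : E × G.H) (x : Fin k) : Option ((E × G.C) × G.H) :=
  some ((p.1, G.col x p.2), p.2 + G.enc x)

open scoped Classical in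
/-- Unlock: add the value to the target register, compare the colour and forget it. -/
noncomputable def θ₂ {E : Type} (p : (E × G.C) × G.H) (x : Fin k) : Option (E × G.H) :=
  if G.col x (p.2 + G.enc x) = p.1.2 then some (p.1.1, p.2 + G.enc x) else none

variable {A}

/-- The effect of an operation `θ` on the register `ρ`. -/
def eff {E E' : Type} (ρ : Fin (2 * A + 3)) (θ : E × G.H → Fin k → Option (E' × G.H))
    (a : E × G.Mem A) (z : Fin k) : Option (E' × G.Mem A) :=
  (θ (a.1, a.2 ρ) z).map fun p => (p.1, Function.update a.2 ρ p.2)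

/-- The effect of locking. -/
def push {E : Type} (ρ : Fin (2 * A + 3)) (z : Fin k) (a : E × G.Mem A) : (E × G.C) × G.Mem A :=
  ((a.1, G.col z (a.2 ρ)), Function.update a.2 ρ (a.2 ρ + G.enc z))

theorem eff_θ₁ {E : Type} {ρ : Fin (2 * A + 3)} {a : E × G.Mem A} {z : Fin k} :
    G.eff ρ G.θ₁ a z = some (G.push ρ z a) := rfl

theorem eff_θ₂ {E : Type} {ρ : Fin (2 * A + 3)} {a : (E × G.C) × G.Mem A} {z : Fin k}
    {b : E × G.Mem A} :
    G.eff ρ G.θ₂ a z = some b ↔ G.col z (a.2 ρ + G.enc z) = a.1.2 ∧
      b = (a.1.1, Function.update a.2 ρ (a.2 ρ + G.enc z)) := by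
  unfold eff θ₂
  split_ifs with h
  · simp only [Option.map_some, Option.some.injEq]
    exact ⟨fun h' => ⟨h, h'.symm⟩, fun h' => h'.2.symm⟩
  · simp only [Option.map_none]
    constructor
    · intro h'
      exact nomatch h'
    · intro h'
      exact absurd h'.1 h

/-- The memory with two values added. -/
def up (ρl ρr : Fin (2 * A + 3)) (m : G.Mem A) (x y : Fin k) : G.Mem A :=
  Function.update (Function.update m ρl (m ρl + G.enc x)) ρr (m ρr + G.enc y)

/-- The memory with two values subtracted. -/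
def down (ρl ρr : Fin (2 * A + 3)) (m : G.Mem A) (x y : Fin k) : G.Mem A :=
  Function.update (Function.update m ρl (m ρl - G.enc x)) ρr (m ρr - G.enc y)

/-- The fragment for a leaf. -/
def leaf (E E' : Type) (fE : Fintype E) (ρ : Fin (2 * A + 3))
    (θ : E × G.H → Fin k → Option (E' × G.H)) :
    Frag (TVar k 0) (Fin k) (E × G.Mem A) (E' × G.Mem A) where
  Q := E × G.Mem A
  finQ := inferInstance
  var _ := ()
  entry a s := s = Sum.inl a
  edge q z s := ∃ b, G.eff ρ θ q z = some b ∧ s = Sum.inr b

/-- The query of the root of a block. -/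
def mid {X : Type} (e : Fin k × Fin k → X) (E E' : Type) (fE : Fintype E)
    (ρ ρl ρr : Fin (2 * A + 3)) (θ : E × G.H → Fin k → Option (E' × G.H)) :
    Frag X (Fin k) (((E × G.C) × G.C) × G.Mem A) (((E' × G.C) × G.C) × G.Mem A) where
  Q := ((E × G.C) × G.C) × G.Mem A × (Fin k × Fin k)
  finQ := inferInstance
  var q := e q.2.2
  entry a s := ∃ m x y, s = Sum.inl (a.1, m, (x, y)) ∧ a.2 = G.up ρl ρr m x y
  edge q z s := ∃ e' t', θ (q.1.1.1, q.2.1 ρ) z = some (e', t') ∧
    s = Sum.inr (((e', q.1.1.2), q.1.2),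
      G.down ρl ρr (Function.update q.2.1 ρ t') q.2.2.1 q.2.2.2)

/-- The first query of an inner node of a block: use both children, lock the value. -/
def fwd {X : Type} (e : Fin k × Fin k → X) (E : Type) (fE : Fintype E)
    (ρ ρl ρr : Fin (2 * A + 3)) :
    Frag X (Fin k) (((E × G.C) × G.C) × G.Mem A) (((E × G.C) × G.Mem A) × (G.C × G.C)) where
  Q := ((E × G.C) × G.C) × G.Mem A × (Fin k × Fin k)
  finQ := inferInstance
  var q := e q.2.2
  entry a s := ∃ m x y, s = Sum.inl (a.1, m, (x, y)) ∧ a.2 = G.up ρl ρr m x y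
  edge q z s := s = Sum.inr (G.push ρ z (q.1.1.1, q.2.1), (q.1.1.2, q.1.2))

/-- The second query of an inner node of a block: use both children, unlock the value. -/
noncomputable def bwd {X : Type} (e : Fin k × Fin k → X) (E : Type) (fE : Fintype E)
    (ρ ρl ρr : Fin (2 * A + 3)) :
    Frag X (Fin k) (((E × G.C) × G.Mem A) × (G.C × G.C)) (((E × G.C) × G.C) × G.Mem A) where
  Q := ((E × G.C) × (G.C × G.C)) × G.Mem A × (Fin k × Fin k)
  finQ := inferInstance
  var q := e q.2.2
  entry a s := ∃ m x y, s = Sum.inl ((a.1.1, a.2), m, (x, y)) ∧ a.1.2 = G.up ρl ρr m x y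
  edge q z s := ∃ b, G.eff ρ G.θ₂ (q.1.1, q.2.1) z = some b ∧
    s = Sum.inr (((b.1, q.1.2.1), q.1.2.2), b.2)

end Lock

end Pool.Agent.ThriftyBP
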