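import Pool.Agent.ThriftyBP.LockGadget

/-!
# Fast and small programs for a fixed number of levels
-/

namespace Pool.Agent.ThriftyBP

open Real Lock

/-- The properties of the programs of this construction. -/
def Fast {k n : ℕ} (B : NBP (TVar k n) (Fin k) (Fin k)) (T : ℕ) : Prop :=
  ∀ (I : TVar k n → Fin k) (l : List B.Q) (z : Fin k), B.Path I B.start l z → l.length ≤ T

theorem fast_size_bound (A n d k : ℕ) (hd : 1 ≤ d) (hk : 1 ≤ k) :
    ∃ B : NBP (TVar k n) (Fin k) (Fin k), B.Computes (val n) ∧ Thrifty B ∧ B.Unambiguous ∧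
      Fast B (2 ^ (n + 2 + n / (A + 1))) ∧
      (B.size : ℝ) ≤ (4 ^ (2 * n) * (8 * d + 1) ^ ((2 * ax A + 3) * (2 * n) +
          (d + 1) * (2 * A + 3)) + 2) *
        (k : ℝ) ^ (4 * (A : ℝ) + 8 +
          2 * ((2 * ax A + 3) * (2 * n) + (2 * A + 3) : ℕ) / d) := by
  have hk' : (1 : ℝ) ≤ k := by exact_mod_cast hk
  have hk0 : (0 : ℝ) < k := by linarith
  have hd' : (1 : ℝ) ≤ d := by exact_mod_cast hd
  have hd0 : (0 : ℝ) < d := by linarith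
  set t : ℝ := (k : ℝ) ^ (1 / (d : ℝ)) with ht
  have ht1 : 1 ≤ t := Real.one_le_rpow hk' (by positivity)
  have ht0 : 0 < t := by linarith
  set M : ℕ := ⌈t⌉₊ with hM
  have hM1 : t ≤ M := Nat.le_ceil t
  have hM2 : (M : ℝ) ≤ 2 * t := by
    have := (Nat.ceil_lt_add_one (by linarith : 0 ≤ t)).le
    linarith
  have htd : t ^ d = k := by
    rw [ht, ← Real.rpow_natCast, ← Real.rpow_mul hk0.le]
    rw [one_div, inv_mul_cancel₀ hd0.ne', Real.rpow_one]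
  have hkM : k ≤ M ^ d := by
    have : (k : ℝ) ≤ (M : ℝ) ^ d := by
      rw [← htd]
      exact pow_le_pow_left₀ (by linarith) hM1 d
    exact_mod_cast this
  obtain ⟨G, hG1, hG2⟩ := exists_lock_pow k d M hkM
  refine ⟨G.prog A n, G.computes_prog A n, G.thrifty_prog A n, G.unambiguous_prog A n,
    G.length_prog A n, ?_⟩
  set c : ℕ := 2 * (d * M ^ 2) + 1 with hc
  set E : ℕ := (2 * ax A + 3) * (2 * n) + (d + 1) * (2 * A + 3) with hE
  set F : ℕ := (2 * ax A + 3) * (2 * n) + (2 * A + 3) with hF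
  have hs : ((G.prog A n).size : ℝ) ≤ 4 ^ (2 * n) * (c : ℝ) ^ E * k ^ 2 + k + 1 := by
    have h1 := G.size_prog A (by omega : 0 < k) n
    have h2 : G.YY A ^ (2 * n) * G.PP A = 4 ^ (2 * n) * c ^ E * k ^ 2 := by
      have h3 : G.cc = c := hG2
      unfold Lock.YY Lock.PP
      rw [h3, hG1, mul_assoc 4, ← pow_mul, ← pow_add, mul_pow, ← pow_mul, ← pow_mul, hE,
        pow_add _ ((2 * ax A + 3) * (2 * n)), mul_comm (ax A) 2]
      ring
    rw [h2] at h1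
    exact_mod_cast h1
  have hcR : (c : ℝ) ≤ (8 * d + 1) * t ^ 2 := by
    have h1 : (M : ℝ) ^ 2 ≤ 4 * t ^ 2 := by
      have := pow_le_pow_left₀ (by positivity) hM2 2
      linarith [mul_pow 2 t 2]
    have h2 : (1 : ℝ) ≤ t ^ 2 := one_le_pow₀ ht1
    rw [hc]
    push_cast
    nlinarith
  have hpow : (t ^ 2) ^ E = (k : ℝ) ^ (4 * (A : ℝ) + 6 + 2 * (F : ℕ) / d) := by
    rw [ht, ← pow_mul, ← Real.rpow_natCast, ← Real.rpow_mul hk0.le]
    congr 1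
    rw [hE, hF]
    push_cast
    field_simp
    ring
  have hk8 : (k : ℝ) ^ 2 * (k : ℝ) ^ (4 * (A : ℝ) + 6 + 2 * (F : ℕ) / d) =
      (k : ℝ) ^ (4 * (A : ℝ) + 8 + 2 * (F : ℕ) / d) := by
    rw [← Real.rpow_natCast k 2, ← Real.rpow_add hk0]
    congr 1
    push_cast
    ring
  have hk1 : (k : ℝ) ≤ (k : ℝ) ^ (4 * (A : ℝ) + 8 + 2 * (F : ℕ) / d) := by
    have h5 : (1 : ℝ) ≤ 4 * (A : ℝ) + 8 + 2 * (F : ℕ) / d := by
      have : 0 ≤ 2 * ((F : ℕ) : ℝ) / d := by positivity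
      have : (0 : ℝ) ≤ A := by positivity
      linarith
    calc (k : ℝ) = (k : ℝ) ^ (1 : ℝ) := (Real.rpow_one _).symm
      _ ≤ _ := Real.rpow_le_rpow_of_exponent_le hk' h5
  calc ((G.prog A n).size : ℝ) ≤ 4 ^ (2 * n) * (c : ℝ) ^ E * k ^ 2 + k + 1 := hs
    _ ≤ 4 ^ (2 * n) * ((8 * d + 1) * t ^ 2) ^ E * k ^ 2 + k + 1 := by gcongr
    _ = 4 ^ (2 * n) * (8 * d + 1) ^ E * (k ^ 2 * (t ^ 2) ^ E) + k + 1 := by
        rw [mul_pow (8 * (d : ℝ) + 1) (t ^ 2) E]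
        ring
    _ = 4 ^ (2 * n) * (8 * d + 1) ^ E * (k : ℝ) ^ (4 * (A : ℝ) + 8 + 2 * (F : ℕ) / d)
          + k + 1 := by
        rw [hpow, hk8]
    _ ≤ 4 ^ (2 * n) * (8 * d + 1) ^ E * (k : ℝ) ^ (4 * (A : ℝ) + 8 + 2 * (F : ℕ) / d)
          + (k : ℝ) ^ (4 * (A : ℝ) + 8 + 2 * (F : ℕ) / d)
          + (k : ℝ) ^ (4 * (A : ℝ) + 8 + 2 * (F : ℕ) / d) := by
        linarith
    _ = _ := by ring

theorem exists_fast_small (A n : ℕ) (ε : ℝ) (hε : 0 < ε) : ∃ k₀ : ℕ, ∀ k : ℕ, k₀ ≤ k →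
    ∃ B : NBP (TVar k n) (Fin k) (Fin k), B.Computes (val n) ∧ Thrifty B ∧ B.Unambiguous ∧
      Fast B (2 ^ (n + 2 + n / (A + 1))) ∧ (B.size : ℝ) ≤ (k : ℝ) ^ (4 * (A : ℝ) + 8 + ε) := by
  set F : ℕ := (2 * ax A + 3) * (2 * n) + (2 * A + 3) with hF
  obtain ⟨d, hd⟩ := exists_nat_ge (4 * (F : ℝ) / ε + 1)
  have hd1 : 1 ≤ d := by
    have : (1 : ℝ) ≤ d := by
      have : 0 ≤ 4 * (F : ℝ) / ε := by positivity
      linarith
    exact_mod_cast this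
  have hd0 : (0 : ℝ) < d := by exact_mod_cast hd1
  have he : 2 * (F : ℝ) / d ≤ ε / 2 := by
    rw [div_le_iff₀ hd0]
    have h1 : 4 * (F : ℝ) / ε ≤ d := by linarith
    rw [div_le_iff₀ hε] at h1
    nlinarith
  set K : ℝ := 4 ^ (2 * n) * (8 * d + 1) ^ ((2 * ax A + 3) * (2 * n) +
          (d + 1) * (2 * A + 3)) + 2 with hK
  have hK0 : 0 < K := by positivity
  obtain ⟨k₀, hk₀⟩ := exists_nat_ge (K ^ (2 / ε) + 1)
  refine ⟨k₀, fun k hk => ?_⟩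
  have hkR : K ^ (2 / ε) + 1 ≤ k := hk₀.trans (by exact_mod_cast hk)
  have hKp : 0 < K ^ (2 / ε) := Real.rpow_pos_of_pos hK0 _
  have hk1 : (1 : ℝ) ≤ k := by linarith
  have hk1' : 1 ≤ k := by exact_mod_cast hk1
  obtain ⟨B, h1, h2, h3, h4, h5⟩ := fast_size_bound A n d k hd1 hk1'
  refine ⟨B, h1, h2, h3, h4, h5.trans ?_⟩
  have hk0 : (0 : ℝ) < k := by linarith
  have hKk : K ≤ (k : ℝ) ^ (ε / 2) := by
    calc K = (K ^ (2 / ε)) ^ (ε / 2) := by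
          rw [← Real.rpow_mul hK0.le]
          have : 2 / ε * (ε / 2) = 1 := by field_simp
          rw [this, Real.rpow_one]
      _ ≤ (k : ℝ) ^ (ε / 2) := by
          apply Real.rpow_le_rpow hKp.le (by linarith) (by positivity)
  calc K * (k : ℝ) ^ (4 * (A : ℝ) + 8 + 2 * (F : ℕ) / d)
      ≤ (k : ℝ) ^ (ε / 2) * (k : ℝ) ^ (4 * (A : ℝ) + 8 + ε / 2) := by
        apply mul_le_mul hKk _ (by positivity) (by positivity)
        apply Real.rpow_le_rpow_of_exponent_le hk1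
        linarith
    _ = (k : ℝ) ^ (4 * (A : ℝ) + 8 + ε) := by
        rw [← Real.rpow_add hk0]
        congr 1
        ring

end Pool.Agent.ThriftyBP
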