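import Pool.Agent.ThriftyBP.LockRec

/-!
# Locks: the number of states
-/

namespace Pool.Agent.ThriftyBP.Lock

variable {k : ℕ} (G : Lock k) (A : ℕ)

/-- `2 ^ (j + 1) - 2`. -/
def ax : ℕ → ℕ
  | 0 => 0
  | j + 1 => 2 * ax j + 2

theorem ax_eq (j : ℕ) : ax j + 2 = 2 ^ (j + 1) := by
  induction j with
  | zero => rfl
  | succ j ih =>
    have : ax (j + 1) = 2 * ax j + 2 := rfl
    rw [this, pow_succ, ← ih]
    ring

theorem ax_mono {i j : ℕ} (h : i ≤ j) : ax i ≤ ax j := by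
  have h1 := ax_eq i
  have h2 := ax_eq j
  have h3 : 2 ^ (i + 1) ≤ 2 ^ (j + 1) := Nat.pow_le_pow_right (by norm_num) (by omega)
  omega

/-- The number of colours. -/
noncomputable abbrev cc : ℕ := Fintype.card G.C

/-- The number of memories times the number of guesses. -/
noncomputable def PP : ℕ := Fintype.card G.H ^ (2 * A + 3) * k ^ 2

/-- The growth factor. -/
noncomputable def YY : ℕ := 4 * (G.cc ^ ax A) ^ 2 * G.cc ^ 3

theorem card_mem : Fintype.card (G.Mem A) = Fintype.card G.H ^ (2 * A + 3) := by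
  rw [Fintype.card_fun, Fintype.card_fin]

variable {A}

theorem card_leaf (hk : 0 < k) (E E' : Type) (fE : Fintype E) (ρ : Fin (2 * A + 3))
    (θ : E × G.H → Fin k → Option (E' × G.H)) {e : ℕ} (he : Fintype.card E ≤ e) :
    (G.leaf E E' fE ρ θ).card ≤ e * G.PP A := by
  have h1 : (G.leaf E E' fE ρ θ).card = Fintype.card E * Fintype.card (G.Mem A) := by
    change Fintype.card (E × G.Mem A) = _
    exact Fintype.card_prod _ _
  rw [h1, card_mem]
  exact Nat.mul_le_mul he (Nat.le_mul_of_pos_right _ (by positivity))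

theorem card_mid {X : Type} (e' : Fin k × Fin k → X) (E E' : Type) (fE : Fintype E)
    (ρ ρl ρr : Fin (2 * A + 3)) (θ : E × G.H → Fin k → Option (E' × G.H)) {e : ℕ}
    (he : Fintype.card E ≤ e) :
    (G.mid e' E E' fE ρ ρl ρr θ).card ≤ G.cc ^ 2 * (e * G.PP A) := by
  have h1 : (G.mid e' E E' fE ρ ρl ρr θ).card =
      G.cc ^ 2 * (Fintype.card E * G.PP A) := by
    change Fintype.card (((E × G.C) × G.C) × G.Mem A × (Fin k × Fin k)) = _
    simp only [Fintype.card_prod, card_mem, Fintype.card_fin, PP, cc]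
    ring
  rw [h1]
  exact Nat.mul_le_mul_left _ (Nat.mul_le_mul_right _ he)

theorem card_fwd {X : Type} (e' : Fin k × Fin k → X) (E : Type) (fE : Fintype E)
    (ρ ρl ρr : Fin (2 * A + 3)) {e : ℕ} (he : Fintype.card E ≤ e) :
    (G.fwd e' E fE ρ ρl ρr).card ≤ G.cc ^ 2 * (e * G.PP A) := by
  have h1 : (G.fwd e' E fE ρ ρl ρr).card =
      G.cc ^ 2 * (Fintype.card E * G.PP A) := by
    change Fintype.card (((E × G.C) × G.C) × G.Mem A × (Fin k × Fin k)) = _
    simp only [Fintype.card_prod, card_mem, Fintype.card_fin, PP, cc]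
    ring
  rw [h1]
  exact Nat.mul_le_mul_left _ (Nat.mul_le_mul_right _ he)

theorem card_bwd {X : Type} (e' : Fin k × Fin k → X) (E : Type) (fE : Fintype E)
    (ρ ρl ρr : Fin (2 * A + 3)) {e : ℕ} (he : Fintype.card E ≤ e) :
    (G.bwd e' E fE ρ ρl ρr).card ≤ G.cc ^ 3 * (e * G.PP A) := by
  have h1 : (G.bwd e' E fE ρ ρl ρr).card =
      G.cc ^ 3 * (Fintype.card E * G.PP A) := by
    change Fintype.card (((E × G.C) × (G.C × G.C)) × G.Mem A × (Fin k × Fin k)) = _
    simp only [Fintype.card_prod, card_mem, Fintype.card_fin, PP, cc]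
    ring
  rw [h1]
  exact Nat.mul_le_mul_left _ (Nat.mul_le_mul_right _ he)

theorem cc_pos (hk : 0 < k) : 0 < G.cc := Fintype.card_pos_iff.2 ⟨G.col ⟨0, hk⟩ 0⟩

theorem card_ctx {E : Type} [Fintype E] {e : ℕ} (he : Fintype.card E ≤ e) :
    Fintype.card (E × G.C) ≤ e * G.cc := by
  rw [Fintype.card_prod]
  exact Nat.mul_le_mul_right _ he

theorem card_run_succ (hk : 0 < k) {n : ℕ}
    (ih : ∀ (j : ℕ), j ≤ A → ∀ (X : Type) (r : Fin (2 * A + 3)) (s : Bool) (e : TVar k n → X)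
      (E E' : Type) (fE : Fintype E) (fE' : Fintype E')
      (W : Frag X (Fin k) ((E × G.C) × G.Mem A) ((E' × G.C) × G.Mem A)) (ε : ℕ),
      Fintype.card E ≤ ε → Fintype.card E' ≤ ε →
      (G.nest A n j X r s e E E' fE fE' W).card ≤
        G.cc ^ ax j * W.card + G.YY A ^ (2 * n + 1) * (ε * G.PP A))
    (E E' : Type) (fE : Fintype E) (fE' : Fintype E') (r : Fin (2 * A + 3))
    (θ : E × G.H → Fin k → Option (E' × G.H)) (ε : ℕ) (hE : Fintype.card E ≤ ε)
    (hE' : Fintype.card E' ≤ ε) :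
    (G.run A (n + 1) E E' fE fE' r θ).card ≤ G.YY A ^ (2 * (n + 1)) * (ε * G.PP A) := by
  have h0 := G.card_mid (fun p => (Sum.inl p : TVar k (n + 1))) E E' fE r (sc r A false)
    (sc r A true) θ hE
  have h1 := ih A le_rfl (TVar k (n + 1)) r true (embd true) (E × G.C) (E' × G.C) inferInstance
    inferInstance (G.mid (fun p => (Sum.inl p : TVar k (n + 1))) E E' fE r (sc r A false)
    (sc r A true) θ) (ε * G.cc) (G.card_ctx hE) (G.card_ctx hE')
  have h2 := ih A le_rfl (TVar k (n + 1)) r false (embd false) E E' fE fE'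
    (G.nest A n A (TVar k (n + 1)) r true (embd true) (E × G.C) (E' × G.C) inferInstance
        inferInstance (G.mid (fun p => (Sum.inl p : TVar k (n + 1))) E E' fE r
          (sc r A false) (sc r A true) θ)) ε hE hE'
  have hc := G.cc_pos hk
  have hY : G.YY A = 4 * (G.cc ^ ax A) ^ 2 * G.cc ^ 3 := rfl
  set a := G.cc ^ ax A with ha
  set c := G.cc with hcc
  set Z := G.YY A ^ (2 * n + 1) with hZ
  set P := ε * G.PP A with hP
  have hP' : ε * c * G.PP A = c * P := by rw [hP]; ring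
  rw [hP'] at h1
  have ha1 : 1 ≤ a := Nat.one_le_pow _ _ hc
  have hZ1 : 1 ≤ Z := Nat.one_le_pow _ _ (by rw [hY]; positivity)
  have e1 : a * (a * (c ^ 2 * P) + Z * (c * P)) + Z * P ≤
      (4 * a ^ 2 * c ^ 3) * Z * P := by
    have f1 : a * (a * (c ^ 2 * P)) ≤ a ^ 2 * c ^ 3 * Z * P := by
      calc a * (a * (c ^ 2 * P)) = (a ^ 2 * c ^ 2) * 1 * 1 * P := by ring
        _ ≤ (a ^ 2 * c ^ 2) * c * Z * P := by gcongr; exact hc
        _ = a ^ 2 * c ^ 3 * Z * P := by ring
    have f2 : a * (Z * (c * P)) ≤ a ^ 2 * c ^ 3 * Z * P := by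
      calc a * (Z * (c * P)) = a * 1 * c * 1 * 1 * Z * P := by ring
        _ ≤ a * a * c * c * c * Z * P := by gcongr <;> exact hc
        _ = a ^ 2 * c ^ 3 * Z * P := by ring
    have f3 : Z * P ≤ a ^ 2 * c ^ 3 * Z * P := by
      calc Z * P = 1 * 1 * Z * P := by ring
        _ ≤ a ^ 2 * c ^ 3 * Z * P := by
            gcongr
            · exact Nat.one_le_pow _ _ ha1
            · exact Nat.one_le_pow _ _ hc
    calc a * (a * (c ^ 2 * P) + Z * (c * P)) + Z * P
        = a * (a * (c ^ 2 * P)) + a * (Z * (c * P)) + Z * P := by ring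
      _ ≤ a ^ 2 * c ^ 3 * Z * P + a ^ 2 * c ^ 3 * Z * P + a ^ 2 * c ^ 3 * Z * P := by gcongr
      _ = 3 * (a ^ 2 * c ^ 3 * Z * P) := by ring
      _ ≤ 4 * (a ^ 2 * c ^ 3 * Z * P) := Nat.mul_le_mul_right _ (by norm_num)
      _ = _ := by ring
  calc (G.run A (n + 1) E E' fE fE' r θ).card ≤ _ := h2
    _ ≤ a * (a * (c ^ 2 * P) + Z * (c * P)) + Z * P := by
        refine Nat.add_le_add_right (Nat.mul_le_mul_left _ (h1.trans ?_)) _
        exact Nat.add_le_add_right (Nat.mul_le_mul_left _ h0) _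
    _ ≤ (4 * a ^ 2 * c ^ 3) * Z * P := e1
    _ = G.YY A ^ (2 * (n + 1)) * P := by
        rw [← hY, hZ]
        ring

theorem card_lock (hk : 0 < k) {n : ℕ} {X E E' : Type}
    {e : TVar k n → X} (W : Frag X (Fin k) ((E × G.C) × G.Mem A) ((E' × G.C) × G.Mem A))
    {R₁ : Frag (TVar k n) (Fin k) (E × G.Mem A) ((E × G.C) × G.Mem A)}
    {R₂ : Frag (TVar k n) (Fin k) ((E' × G.C) × G.Mem A) (E' × G.Mem A)} (ε m : ℕ)
    (h1 : R₁.card ≤ G.YY A ^ m * ((ε * G.cc) * G.PP A))
    (h2 : R₂.card ≤ G.YY A ^ m * ((ε * G.cc) * G.PP A)) :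
    ((R₁.mapVar e).comp (W.comp (R₂.mapVar e))).card ≤
      W.card + G.YY A ^ (m + 1) * (ε * G.PP A) := by
  have hc := G.cc_pos hk
  have hY : 2 * G.cc ≤ G.YY A := by
    have ha1 : 1 ≤ (G.cc ^ ax A) ^ 2 := Nat.one_le_pow _ _ (Nat.one_le_pow _ _ hc)
    calc 2 * G.cc ≤ 4 * 1 * G.cc ^ 3 := by
          have : G.cc ≤ G.cc ^ 3 := Nat.le_self_pow (by norm_num) _
          omega
      _ ≤ 4 * (G.cc ^ ax A) ^ 2 * G.cc ^ 3 := by gcongr
  rw [Frag.card_comp, Frag.card_comp, Frag.card_mapVar, Frag.card_mapVar]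
  calc R₁.card + (W.card + R₂.card) ≤ G.YY A ^ m * ((ε * G.cc) * G.PP A) +
        (W.card + G.YY A ^ m * ((ε * G.cc) * G.PP A)) := by gcongr
    _ = W.card + G.YY A ^ m * (2 * G.cc) * (ε * G.PP A) := by ring
    _ ≤ W.card + G.YY A ^ m * (G.YY A) * (ε * G.PP A) := by gcongr
    _ = W.card + G.YY A ^ (m + 1) * (ε * G.PP A) := by rw [pow_succ]

theorem card_nest (hk : 0 < k) (n : ℕ) : ∀ (j : ℕ), j ≤ A → ∀ (X : Type) (r : Fin (2 * A + 3))
    (s : Bool) (e : TVar k n → X) (E E' : Type) (fE : Fintype E) (fE' : Fintype E')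
    (W : Frag X (Fin k) ((E × G.C) × G.Mem A) ((E' × G.C) × G.Mem A)) (ε : ℕ),
    Fintype.card E ≤ ε → Fintype.card E' ≤ ε →
    (G.nest A n j X r s e E E' fE fE' W).card ≤
      G.cc ^ ax j * W.card + G.YY A ^ (2 * n + 1) * (ε * G.PP A) := by
  have hc := G.cc_pos hk
  induction n with
  | zero =>
    intro j _ X r s e E E' fE fE' W ε hE hE'
    have hle : ε ≤ ε * G.cc := Nat.le_mul_of_pos_right _ hc
    have h1 := G.card_lock (e := e) hk W (R₁ := G.leaf E (E × G.C) fE (sc r j s) G.θ₁)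
      (R₂ := G.leaf (E' × G.C) E' inferInstance (sc r j s) G.θ₂) ε 0
      (by
        rw [pow_zero, one_mul]
        exact G.card_leaf hk _ _ _ _ _ (hE.trans hle))
      (by
        rw [pow_zero, one_mul]
        exact G.card_leaf hk _ _ _ _ _ (G.card_ctx hE'))
    refine le_trans h1 ?_
    have : 1 ≤ G.cc ^ ax j := Nat.one_le_pow _ _ hc
    exact Nat.add_le_add_right (Nat.le_mul_of_pos_left _ this) _
  | succ n ih =>
    intro j hj X r s e E E' fE fE' W ε hE hE'
    have hle : ε ≤ ε * G.cc := Nat.le_mul_of_pos_right _ hc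
    cases j with
    | zero =>
      rw [nest_run]
      have h1 := G.card_run_succ hk ih E (E × G.C) fE inferInstance (sc r 0 s) G.θ₁ (ε * G.cc)
        (hE.trans hle) (G.card_ctx hE)
      have h2 := G.card_run_succ hk ih (E' × G.C) E' inferInstance fE' (sc r 0 s) G.θ₂ (ε * G.cc)
        (G.card_ctx hE') (hE'.trans hle)
      have h3 := G.card_lock (e := e) hk W ε (2 * (n + 1)) h1 h2
      simpa [ax] using h3
    | succ j =>
      have h0 := G.card_fwd (fun p => e (Sum.inl p)) E fE (sc r (j + 1) s) (sc r j false)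
        (sc r j true) hE
      have h0' := G.card_bwd (fun p => e (Sum.inl p)) E' fE' (sc r (j + 1) s) (sc r j false)
        (sc r j true) hE'
      have hW' : ((G.fwd (fun p => e (Sum.inl p)) E fE (sc r (j + 1) s) (sc r j false)
          (sc r j true)).comp ((W.ext (G.C × G.C) inferInstance).comp
            (G.bwd (fun p => e (Sum.inl p)) E' fE' (sc r (j + 1) s) (sc r j false)
              (sc r j true)))).card ≤ G.cc ^ 2 * W.card + 2 * G.cc ^ 3 * (ε * G.PP A) := by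
        rw [Frag.card_comp, Frag.card_comp, Frag.card_ext, Fintype.card_prod]
        have : G.cc ^ 2 * (ε * G.PP A) ≤ G.cc ^ 3 * (ε * G.PP A) :=
          Nat.mul_le_mul_right _ (Nat.pow_le_pow_right hc (by norm_num))
        calc _ ≤ G.cc ^ 2 * (ε * G.PP A) + (W.card * (G.cc * G.cc) + G.cc ^ 3 * (ε * G.PP A)) := by
              gcongr
          _ ≤ G.cc ^ 3 * (ε * G.PP A) + (W.card * (G.cc * G.cc) + G.cc ^ 3 * (ε * G.PP A)) := by
              gcongr
          _ = _ := by ring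
      have h1 := ih j (by omega) X r true (fun x => e (embd true x)) (E × G.C) (E' × G.C)
        inferInstance inferInstance _ (ε * G.cc) (G.card_ctx hE) (G.card_ctx hE') |>.trans
        (Nat.add_le_add_right (Nat.mul_le_mul_left _ hW') _)
      have h2 := ih j (by omega) X r false (fun x => e (embd false x)) E E' fE fE' _ ε hE hE'
        |>.trans (Nat.add_le_add_right (Nat.mul_le_mul_left _ h1) _)
      refine le_trans h2 ?_
      have hY : G.YY A = 4 * (G.cc ^ ax A) ^ 2 * G.cc ^ 3 := rfl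
      have hax : ax (j + 1) = 2 * ax j + 2 := rfl
      have haA : G.cc ^ ax j ≤ G.cc ^ ax A := Nat.pow_le_pow_right hc (ax_mono (by omega))
      have hpow : G.cc ^ ax (j + 1) = (G.cc ^ ax j) ^ 2 * G.cc ^ 2 := by
        rw [hax, pow_add, pow_mul']
      rw [hpow]
      set α := G.cc ^ ax j with hα
      set a := G.cc ^ ax A with ha
      set c := G.cc with hcc
      set Z := G.YY A ^ (2 * n + 1) with hZ
      set P := ε * G.PP A with hP
      have hP' : ε * c * G.PP A = c * P := by rw [hP]; ring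
      rw [hP']
      have ha1 : 1 ≤ a := Nat.one_le_pow _ _ hc
      have hY1 : 1 ≤ G.YY A := by rw [hY]; exact Nat.succ_le_of_lt (by positivity)
      have hZ1 : 1 ≤ Z := Nat.one_le_pow _ _ hY1
      have f1 : 2 * α ^ 2 * c ^ 3 * P ≤ 2 * (a ^ 2 * c ^ 3 * Z * P) := by
        calc 2 * α ^ 2 * c ^ 3 * P ≤ 2 * a ^ 2 * c ^ 3 * P := by gcongr
          _ = 2 * (a ^ 2 * c ^ 3 * 1 * P) := by ring
          _ ≤ 2 * (a ^ 2 * c ^ 3 * Z * P) := by gcongr
      have f2 : α * (Z * (c * P)) ≤ a ^ 2 * c ^ 3 * Z * P := by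
        calc α * (Z * (c * P)) = α * 1 * c * 1 * 1 * Z * P := by ring
          _ ≤ a * a * c * c * c * Z * P := by gcongr <;> exact hc
          _ = a ^ 2 * c ^ 3 * Z * P := by ring
      have f3 : Z * P ≤ a ^ 2 * c ^ 3 * Z * P := by
        calc Z * P = 1 * 1 * Z * P := by ring
          _ ≤ a ^ 2 * c ^ 3 * Z * P := by
              gcongr
              · exact Nat.one_le_pow _ _ ha1
              · exact Nat.one_le_pow _ _ hc
      calc α * (α * (c ^ 2 * W.card + 2 * c ^ 3 * P) + Z * (c * P)) + Z * P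
          = α ^ 2 * c ^ 2 * W.card + (2 * α ^ 2 * c ^ 3 * P + α * (Z * (c * P)) + Z * P) := by ring
        _ ≤ α ^ 2 * c ^ 2 * W.card + (2 * (a ^ 2 * c ^ 3 * Z * P) + a ^ 2 * c ^ 3 * Z * P +
            a ^ 2 * c ^ 3 * Z * P) := by gcongr
        _ = α ^ 2 * c ^ 2 * W.card + (4 * a ^ 2 * c ^ 3) * Z * P := by ring
        _ = α ^ 2 * c ^ 2 * W.card + 1 * (G.YY A * Z) * P := by rw [← hY]; ring
        _ ≤ α ^ 2 * c ^ 2 * W.card + G.YY A * (G.YY A * Z) * P := by gcongr
        _ = _ := by rw [hZ]; ring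

/-- Bound on the number of states of a run. -/
theorem card_run (hk : 0 < k) (n : ℕ) (E E' : Type) (fE : Fintype E) (fE' : Fintype E')
    (r : Fin (2 * A + 3)) (θ : E × G.H → Fin k → Option (E' × G.H)) (ε : ℕ)
    (hE : Fintype.card E ≤ ε) (hE' : Fintype.card E' ≤ ε) :
    (G.run A n E E' fE fE' r θ).card ≤ G.YY A ^ (2 * n) * (ε * G.PP A) := by
  cases n with
  | zero =>
    rw [mul_zero, pow_zero, one_mul]
    exact G.card_leaf hk _ _ _ _ _ hE
  | succ n => exact G.card_run_succ hk (G.card_nest hk n) E E' fE fE' r θ ε hE hE'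

end Pool.Agent.ThriftyBP.Lock
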