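import Pool.Agent.ThriftyBP.LockProg
import Pool.Agent.ThriftyBP.LabelGadget

/-!
# Locks from codes
-/

namespace Pool.Agent.ThriftyBP

open Finset

section

variable {k D M q : ℕ} (w : Fin k → (Fin D → Fin M))

/-- The encoding. -/
def kenc (q : ℕ) (x : Fin k) : (Fin D → ZMod q) × ZMod q :=
  (fun i => ((w x i : ℕ) : ZMod q), ∑ i, ((w x i : ℕ) : ZMod q) ^ 2)

/-- The linear form of the value `x`. -/
def kform (q : ℕ) (x : Fin k) (u : (Fin D → ZMod q) × ZMod q) : ZMod q :=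
  u.2 - 2 * ∑ i, ((w x i : ℕ) : ZMod q) * u.1 i

theorem kform_add (x x' x'' : Fin k) (u : (Fin D → ZMod q) × ZMod q) :
    kform w q x (u + (kenc w q x - kenc w q x') + (kenc w q x - kenc w q x'')) =
      kform w q x u - ((sqDist (w x) (w x') + sqDist (w x) (w x'') : ℕ) : ZMod q) := by
  rw [Nat.cast_add, cast_sqDist, cast_sqDist, ← Finset.sum_add_distrib]
  unfold kform kenc
  simp only [Prod.snd_add, Prod.snd_sub, Prod.fst_add, Prod.fst_sub, Pi.add_apply, Pi.sub_apply]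
  have h1 : ∀ i, ((w x i : ℕ) : ZMod q) *
      (u.1 i + (((w x i : ℕ) : ZMod q) - ((w x' i : ℕ) : ZMod q)) +
        (((w x i : ℕ) : ZMod q) - ((w x'' i : ℕ) : ZMod q))) =
      ((w x i : ℕ) : ZMod q) * u.1 i + (2 * ((w x i : ℕ) : ZMod q) ^ 2 -
        ((w x i : ℕ) : ZMod q) * ((w x' i : ℕ) : ZMod q) -
        ((w x i : ℕ) : ZMod q) * ((w x'' i : ℕ) : ZMod q)) := by
    intro i
    ring
  have h2 : ∀ i, (((w x i : ℕ) : ZMod q) - ((w x' i : ℕ) : ZMod q)) ^ 2 +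
      (((w x i : ℕ) : ZMod q) - ((w x'' i : ℕ) : ZMod q)) ^ 2 =
      2 * (2 * ((w x i : ℕ) : ZMod q) ^ 2 -
        ((w x i : ℕ) : ZMod q) * ((w x' i : ℕ) : ZMod q) -
        ((w x i : ℕ) : ZMod q) * ((w x'' i : ℕ) : ZMod q)) -
      (2 * ((w x i : ℕ) : ZMod q) ^ 2 - ((w x' i : ℕ) : ZMod q) ^ 2 -
        ((w x'' i : ℕ) : ZMod q) ^ 2) := by
    intro i
    ring
  have h3 : ∑ i, (((w x i : ℕ) : ZMod q) * u.1 i + (2 * ((w x i : ℕ) : ZMod q) ^ 2 -
        ((w x i : ℕ) : ZMod q) * ((w x' i : ℕ) : ZMod q) -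
        ((w x i : ℕ) : ZMod q) * ((w x'' i : ℕ) : ZMod q))) =
      ∑ i, ((w x i : ℕ) : ZMod q) * u.1 i + ∑ i, (2 * ((w x i : ℕ) : ZMod q) ^ 2 -
        ((w x i : ℕ) : ZMod q) * ((w x' i : ℕ) : ZMod q) -
        ((w x i : ℕ) : ZMod q) * ((w x'' i : ℕ) : ZMod q)) := Finset.sum_add_distrib
  have h4 : ∑ i, (2 * (2 * ((w x i : ℕ) : ZMod q) ^ 2 -
        ((w x i : ℕ) : ZMod q) * ((w x' i : ℕ) : ZMod q) -
        ((w x i : ℕ) : ZMod q) * ((w x'' i : ℕ) : ZMod q)) -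
      (2 * ((w x i : ℕ) : ZMod q) ^ 2 - ((w x' i : ℕ) : ZMod q) ^ 2 -
        ((w x'' i : ℕ) : ZMod q) ^ 2)) = 2 * ∑ i, (2 * ((w x i : ℕ) : ZMod q) ^ 2 -
        ((w x i : ℕ) : ZMod q) * ((w x' i : ℕ) : ZMod q) -
        ((w x i : ℕ) : ZMod q) * ((w x'' i : ℕ) : ZMod q)) -
      (2 * ∑ i, ((w x i : ℕ) : ZMod q) ^ 2 -
        ∑ i, ((w x' i : ℕ) : ZMod q) ^ 2 - ∑ i, ((w x'' i : ℕ) : ZMod q) ^ 2) := by
    rw [Finset.sum_sub_distrib, ← Finset.mul_sum]
    congr 1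
    rw [Finset.sum_sub_distrib, Finset.sum_sub_distrib, ← Finset.mul_sum]
  rw [Finset.sum_congr rfl fun i _ => h1 i, Finset.sum_congr rfl fun i _ => h2 i, h3, h4]
  ring

end

/-- The lock of a code with squared distances at least `B`. -/
theorem exists_lock (k D M B Q : ℕ) (w : Fin k → (Fin D → Fin M)) (hB : 1 ≤ B)
    (hw : ∀ i j, i ≠ j → B ≤ sqDist (w i) (w j)) (hQ : 2 * (D * M ^ 2) + B ≤ B * Q) :
    ∃ G : Lock k, Fintype.card G.H = (B * Q) ^ (D + 1) ∧ Fintype.card G.C = Q := by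
  set q := B * Q with hq
  have hq0 : 0 < q := by omega
  have : NeZero q := ⟨by omega⟩
  have hblock : ∀ φ : ZMod q, φ.val / B < Q := by
    intro φ
    have h0 := ZMod.val_lt φ
    rw [Nat.div_lt_iff_lt_mul (by omega), mul_comm]
    exact h0
  let col : Fin k → (Fin D → ZMod q) × ZMod q → Fin Q := fun x u =>
    ⟨(kform w q x u).val / B, hblock _⟩
  have sound : ∀ (x x' x'' : Fin k) (u : (Fin D → ZMod q) × ZMod q),
      col x (u + (kenc w q x - kenc w q x') + (kenc w q x - kenc w q x'')) = col x u →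
        x' = x ∧ x'' = x := by
    intro x x' x'' u h
    by_contra hne
    have h3 := sqDist_le (w x) (w x')
    have h4 := sqDist_le (w x) (w x'')
    have h5 : B ≤ sqDist (w x) (w x') + sqDist (w x) (w x'') := by
      by_cases h6 : x' = x
      · have h7 : x'' ≠ x := fun h => hne ⟨h6, h⟩
        have := hw x x'' (Ne.symm h7)
        omega
      · have := hw x x' (Ne.symm h6)
        omega
    simp only [col, Fin.mk.injEq, kform_add] at h
    refine block_ne (B := B) (e := sqDist (w x) (w x') + sqDist (w x) (w x'')) h5 ?_ (by omega)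
      _ h
    omega
  refine ⟨⟨(Fin D → ZMod q) × ZMod q, inferInstance, inferInstance, Fin Q,
    inferInstance, kenc w q, ?_, col, sound⟩, ?_, ?_⟩
  · intro x x' h
    refine ((sound x x' x 0 ?_).1).symm
    rw [h]
    simp
  · change Fintype.card ((Fin D → ZMod q) × ZMod q) = _
    rw [Fintype.card_prod, Fintype.card_fun, Fintype.card_fin, ZMod.card, pow_succ]
  · change Fintype.card (Fin Q) = _
    rw [Fintype.card_fin]

/-- Locks for large `k` and few colours. -/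
theorem exists_lock_pow (k D M : ℕ) (hk : k ≤ M ^ D) :
    ∃ G : Lock k, Fintype.card G.H = (2 * (D * M ^ 2) + 1) ^ (D + 1) ∧
      Fintype.card G.C = 2 * (D * M ^ 2) + 1 := by
  obtain ⟨w⟩ : Nonempty (Fin k ↪ (Fin D → Fin M)) := by
    apply Function.Embedding.nonempty_of_card_le
    simpa using hk
  obtain ⟨G, h1, h2⟩ := exists_lock k D M 1 (2 * (D * M ^ 2) + 1) w le_rfl (fun i j hij => by
    refine le_trans ?_ (hammingDist_le_sqDist (w i) (w j))
    have : w i ≠ w j := fun h => hij (w.injective h)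
    exact Nat.one_le_iff_ne_zero.2 (hammingDist_ne_zero.2 this)) (by omega)
  exact ⟨G, by rw [h1, one_mul], h2⟩

/-- Locks from codes with large distance. -/
theorem exists_lock_code (k m M : ℕ) (hm : 1 ≤ m) (hM : 1 ≤ M)
    (hk : k * (16 * M) ^ m ≤ M ^ (4 * m)) :
    ∃ G : Lock k, Fintype.card G.H = (m * (8 * M ^ 2 + 1)) ^ (4 * m + 1) ∧
      Fintype.card G.C = 8 * M ^ 2 + 1 := by
  obtain ⟨w, hw⟩ := exists_code hM k hk
  refine exists_lock k (4 * m) M m (8 * M ^ 2 + 1) w hm (fun i j hij => ?_) ?_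
  · have h1 := hw i j hij
    have h2 := hammingDist_le_sqDist (w i) (w j)
    omega
  · have : m * (8 * M ^ 2 + 1) = 2 * (4 * m * M ^ 2) + m := by ring
    omega

end Pool.Agent.ThriftyBP
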