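import Pool.Agent.ThriftyBP.LockSpec

/-!
# Locks: the two recursion steps
-/

namespace Pool.Agent.ThriftyBP.Lock

variable {k A : ℕ} (G : Lock k)

section registers

variable {ρ ρl ρr : Fin (2 * A + 3)} (h1 : ρl ≠ ρ) (h2 : ρr ≠ ρ) (h3 : ρl ≠ ρr)

include h3 in
theorem eq_of_up_eq {m₀ m : G.Mem A} {x y x' y' : Fin k}
    (h : G.up ρl ρr m₀ x y = G.up ρl ρr m x' y') :
    m ρl = m₀ ρl + (G.enc x - G.enc x') ∧ m ρr = m₀ ρr + (G.enc y - G.enc y') ∧
      ∀ j, j ≠ ρl → j ≠ ρr → m j = m₀ j := by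
  have e1 := congrFun h ρl
  have e2 := congrFun h ρr
  simp only [up, Function.update_apply, if_neg h3, if_neg (Ne.symm h3), if_true] at e1 e2
  refine ⟨?_, ?_, ?_⟩
  · rw [← add_sub_assoc, e1, add_sub_cancel_right]
  · rw [← add_sub_assoc, e2, add_sub_cancel_right]
  · intro j hjl hjr
    have e3 := congrFun h j
    simp only [up, Function.update_apply, if_neg hjl, if_neg hjr] at e3
    exact e3.symm

include h3 in
theorem up_down (m : G.Mem A) (x y : Fin k) : G.up ρl ρr (G.down ρl ρr m x y) x y = m := by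
  funext j
  unfold up down
  simp only [Function.update_apply, if_neg h3, if_neg (Ne.symm h3), if_true]
  by_cases hr : j = ρr
  · subst hr
    simp
  · by_cases hl : j = ρl
    · subst hl
      simp [h3]
    · simp [hr, hl]

include h3 in
theorem down_eq {m m' : G.Mem A} {x y : Fin k} (h : m = G.up ρl ρr m' x y) :
    m' = G.down ρl ρr m x y := by
  subst h
  funext j
  unfold up down
  simp only [Function.update_apply, if_neg h3, if_neg (Ne.symm h3), if_true]
  by_cases hr : j = ρr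
  · subst hr
    simp
  · by_cases hl : j = ρl
    · subst hl
      simp [h3]
    · simp [hr, hl]

theorem push_push {E : Type} (a : E × G.Mem A) (x y : Fin k) (h3 : ρl ≠ ρr) :
    G.push ρr y (G.push ρl x a) =
      (((a.1, G.col x (a.2 ρl)), G.col y (a.2 ρr)), G.up ρl ρr a.2 x y) := by
  unfold push up
  simp only [Function.update_of_ne (Ne.symm h3)]

end registers

/-- Expanding an inner node of a block. -/
theorem nestSpec_expand {n : ℕ} {X E E' : Type} {fE : Fintype E} {fE' : Fintype E'}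
    {ρ ρl ρr : Fin (2 * A + 3)} (h1 : ρl ≠ ρ) (h2 : ρr ≠ ρ) (h3 : ρl ≠ ρr)
    {e : TVar k (n + 1) → X} {τ : ℕ}
    (W : Frag X (Fin k) ((E × G.C) × G.Mem A) ((E' × G.C) × G.Mem A))
    (hW : ∀ (I : X → Fin k) a l b, W.Go I a l b → b.2 ρl = a.2 ρl ∧ b.2 ρr = a.2 ρr)
    {Fr : Frag X (Fin k) ((E × G.C) × G.Mem A) ((E' × G.C) × G.Mem A)}
    {Fl : Frag X (Fin k) (E × G.Mem A) (E' × G.Mem A)}
    (hFr : G.NestSpec ρr (fun x => e (embd true x)) τ
      ((G.fwd (fun p => e (Sum.inl p)) E fE ρ ρl ρr).comp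
        ((W.ext (G.C × G.C) inferInstance).comp
          (G.bwd (fun p => e (Sum.inl p)) E' fE' ρ ρl ρr))) Fr)
    (hFl : G.NestSpec ρl (fun x => e (embd false x)) τ Fr Fl) :
    G.NestSpec ρ e (2 * τ + 2) W Fl := by
  classical
  intro I a
  set x := val n fun t => I (e (embd false t)) with hx
  set y := val n fun t => I (e (embd true t)) with hy
  set z := val (n + 1) fun t => I (e t) with hz
  have hzxy : z = I (e (Sum.inl (x, y))) := rfl
  obtain ⟨gl, gl1, gl2⟩ := hFl I a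
  obtain ⟨gr, gr1, gr2⟩ := hFr I (G.push ρl x a)
  rw [← hx] at gl1 gl2
  rw [← hy] at gr1 gr2
  set cx := G.col x (a.2 ρl) with hcx
  set cy := G.col y (a.2 ρr) with hcy
  have hpp : G.push ρr y (G.push ρl x a) = (((a.1, cx), cy), G.up ρl ρr a.2 x y) :=
    G.push_push a x y h3
  -- the states of the two queries
  let s₁ : ((E × G.C) × G.C) × G.Mem A × (Fin k × Fin k) := (((a.1, cx), cy), a.2, (x, y))
  let m₂ : ((E' × G.C) × G.Mem A) → G.Mem A := fun c => G.down ρl ρr c.2 x y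
  let s₂ : ((E' × G.C) × G.Mem A) → ((E' × G.C) × (G.C × G.C)) × G.Mem A × (Fin k × Fin k) :=
    fun c => ((c.1, (cx, cy)), m₂ c, (x, y))
  let b' : ((E' × G.C) × G.Mem A) → E' × G.Mem A := fun c =>
    (c.1.1, Function.update (m₂ c) ρ (m₂ c ρ + G.enc z))
  let b₂ : ((E' × G.C) × G.Mem A) → ((E' × G.C) × G.C) × G.Mem A := fun c =>
    ((((b' c).1, cx), cy), (b' c).2)
  let b₁ : ((E' × G.C) × G.Mem A) → (E' × G.C) × G.Mem A := fun c =>
    (((b' c).1, cx), Function.update (b' c).2 ρr ((b' c).2 ρr + G.enc y))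
  let L : List W.Q → ((E' × G.C) × G.Mem A) → List
      ((((E × G.C) × G.C) × G.Mem A × (Fin k × Fin k)) ⊕ ((W.Q × (G.C × G.C)) ⊕
        (((E' × G.C) × (G.C × G.C)) × G.Mem A × (Fin k × Fin k)))) := fun lW c =>
    [s₁].map Sum.inl ++ (((lW.map fun q => (q, (cx, cy))).map Sum.inl ++
      [s₂ c].map Sum.inr).map Sum.inr)
  have hm₂ρ : ∀ c, m₂ c ρ = c.2 ρ := by
    intro c
    simp only [m₂, down, Function.update_of_ne (Ne.symm h1), Function.update_of_ne (Ne.symm h2)]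
  have hfinal : ∀ c : (E' × G.C) × G.Mem A,
      Function.update (Function.update (b' c).2 ρr ((b' c).2 ρr + G.enc y)) ρl
        ((Function.update (b' c).2 ρr ((b' c).2 ρr + G.enc y)) ρl + G.enc x) =
      Function.update c.2 ρ (c.2 ρ + G.enc z) := by
    intro c
    funext j
    simp only [b', m₂, down, Function.update_apply]
    by_cases hjl : j = ρl
    · subst hjl
      simp [h1, h3]
    · by_cases hjr : j = ρr
      · subst hjr
        simp [h2, Ne.symm h3]
      · by_cases hj : j = ρ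
        · subst hj
          simp [hjl, hjr]
        · simp [hj, hjl, hjr]
  -- analysis of a traversal
  have key : ∀ l b, Fl.Go I a l b → ∃ lW c, W.Go I (G.push ρ z a) lW c ∧
      G.eff ρ G.θ₂ c z = some b ∧ l = gl (gr (L lW c) (b₂ c)) (b₁ c) := by
    intro l b h
    obtain ⟨l₁, c₁, k1, k2, rfl⟩ := (gl1 l b).1 h
    obtain ⟨l₂, c₂, k3, k4, rfl⟩ := (gr1 l₁ c₁).1 k1
    rw [hpp] at k3
    obtain ⟨d₁, t₁, t₂, rfl, k5, k6⟩ := (Frag.go_comp _ _ I _ l₂ c₂).1 k3
    obtain ⟨d₂, t₃, t₄, rfl, k7, k8⟩ := (Frag.go_comp _ _ I d₁ t₂ c₂).1 k6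
    obtain ⟨m, x', y', rfl, k9, rfl⟩ := (G.go_fwd I _ t₁ d₁).1 k5
    obtain ⟨k10, lW, rfl, k11⟩ := (Frag.go_ext W _ _ I _ t₃ d₂).1 k7
    obtain ⟨m', x'', y'', rfl, k12, f, k13, rfl⟩ := (G.go_bwd I d₂ t₄ c₂).1 k8
    obtain ⟨c, dd⟩ := d₂
    simp only at k10 k11 k12 k13
    subst k10
    rw [G.eff_θ₂] at k2 k4 k13
    obtain ⟨k13, rfl⟩ := k13
    obtain ⟨k4, rfl⟩ := k4
    obtain ⟨k2, rfl⟩ := k2
    obtain ⟨p1, p2⟩ := hW I _ _ _ k11
    simp only [push, Function.update_of_ne h1, Function.update_of_ne h2] at p1 p2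
    obtain ⟨q1, q2, q3⟩ := G.eq_of_up_eq h3 k9
    have r := G.down_eq h3 k12
    have r1 : m' ρl = m ρl - G.enc x'' := by
      rw [r, ← p1]
      simp only [down, Function.update_of_ne h3, Function.update_self]
    have r2 : m' ρr = m ρr - G.enc y'' := by
      rw [r, ← p2]
      simp only [down, Function.update_self]
    simp only [Function.update_of_ne h1, Function.update_of_ne h2, Function.update_of_ne h3]
      at k2 k4
    have u1 : m' ρl + G.enc x = a.2 ρl + (G.enc x - G.enc x') + (G.enc x - G.enc x'') := by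
      rw [r1, q1]; abel
    have u2 : m' ρr + G.enc y = a.2 ρr + (G.enc y - G.enc y') + (G.enc y - G.enc y'') := by
      rw [r2, q2]; abel
    rw [u1] at k2
    rw [u2] at k4
    obtain ⟨rfl, rfl⟩ := G.sound x x' x'' _ k2
    obtain ⟨rfl, rfl⟩ := G.sound y y' y'' _ k4
    have hm : m = a.2 := by
      funext j
      by_cases hjl : j = ρl
      · rw [hjl, q1]; simp
      · by_cases hjr : j = ρr
        · rw [hjr, q2]; simp
        · exact q3 j hjl hjr
    subst hm
    have hm' : m' = m₂ c := r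
    subst hm'
    refine ⟨lW, c, k11, ?_, ?_⟩
    · rw [G.eff_θ₂]
      have k14 : G.col z (m₂ c ρ + G.enc z) = c.1.2 := k13
      rw [hm₂ρ] at k14
      exact ⟨k14, Prod.ext rfl (hfinal c)⟩
    · rfl
  -- the converse
  have conv : ∀ lW c b, W.Go I (G.push ρ z a) lW c → G.eff ρ G.θ₂ c z = some b →
      Fr.Go I (G.push ρl x a) (gr (L lW c) (b₂ c)) (b₁ c) ∧
      ((G.fwd (fun p => e (Sum.inl p)) E fE ρ ρl ρr).comp
        ((W.ext (G.C × G.C) inferInstance).comp
          (G.bwd (fun p => e (Sum.inl p)) E' fE' ρ ρl ρr))).Go I (G.push ρr y (G.push ρl x a))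
          (L lW c) (b₂ c) ∧
      G.eff ρr G.θ₂ (b₂ c) y = some (b₁ c) ∧ G.eff ρl G.θ₂ (b₁ c) x = some b := by
    intro lW c b k1 k2
    obtain ⟨p1, p2⟩ := hW I _ _ _ k1
    simp only [push, Function.update_of_ne h1, Function.update_of_ne h2] at p1 p2
    rw [G.eff_θ₂] at k2
    obtain ⟨k2, rfl⟩ := k2
    have hgo : ((G.fwd (fun p => e (Sum.inl p)) E fE ρ ρl ρr).comp
        ((W.ext (G.C × G.C) inferInstance).comp
          (G.bwd (fun p => e (Sum.inl p)) E' fE' ρ ρl ρr))).Go I (G.push ρr y (G.push ρl x a))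
          (L lW c) (b₂ c) := by
      rw [hpp]
      refine (Frag.go_comp _ _ I _ _ _).2 ⟨(G.push ρ z a, (cx, cy)), [s₁], _, rfl,
        (G.go_fwd I _ _ _).2 ⟨a.2, x, y, rfl, rfl, rfl⟩, ?_⟩
      refine (Frag.go_comp _ _ I _ _ _).2 ⟨(c, (cx, cy)), _, [s₂ c], rfl,
        (Frag.go_ext W _ _ I _ _ _).2 ⟨rfl, lW, rfl, k1⟩, ?_⟩
      refine (G.go_bwd I _ _ _).2 ⟨m₂ c, x, y, rfl, (G.up_down h3 _ _ _).symm, b' c, ?_, rfl⟩
      rw [G.eff_θ₂]
      refine ⟨?_, rfl⟩
      change G.col z (m₂ c ρ + G.enc z) = c.1.2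
      rw [hm₂ρ]
      exact k2
    have hr : G.eff ρr G.θ₂ (b₂ c) y = some (b₁ c) := by
      rw [G.eff_θ₂]
      refine ⟨?_, rfl⟩
      have : (b₂ c).2 ρr + G.enc y = a.2 ρr := by
        simp only [b₂, b', m₂, Function.update_of_ne h2, down, Function.update_self]
        rw [p2]
        abel
      rw [this]
    refine ⟨(gr1 _ _).2 ⟨_, _, hgo, hr, rfl⟩, hgo, hr, ?_⟩
    rw [G.eff_θ₂]
    refine ⟨?_, ?_⟩
    · have : (b₁ c).2 ρl + G.enc x = a.2 ρl := by
        simp only [b₁, b', m₂, Function.update_of_ne h1, Function.update_of_ne h3, down,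
          Function.update_self]
        rw [p1]
        abel
      rw [this]
    · exact Prod.ext rfl (hfinal c).symm
  refine ⟨fun lW c => gl (gr (L lW c) (b₂ c)) (b₁ c), ?_, ?_⟩
  · intro l b
    refine ⟨key l b, ?_⟩
    rintro ⟨lW, c, k1, k2, rfl⟩
    obtain ⟨g1, _, _, g4⟩ := conv lW c b k1 k2
    exact (gl1 _ _).2 ⟨_, _, g1, g4, rfl⟩
  · intro lW c b k1 k2
    obtain ⟨g1, g2, g3, g4⟩ := conv lW c b k1 k2
    obtain ⟨n1, n2⟩ := gl2 _ _ _ g1 g4
    obtain ⟨n3, n4⟩ := gr2 _ _ _ g2 g3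
    refine ⟨?_, ?_⟩
    · have hL : (L lW c).length = 1 + (lW.length + 1) := by
        refine (length_three [s₁] (lW.map fun q => (q, (cx, cy))) [s₂ c]).trans ?_
        simp
      have n3' : (gr (L lW c) (b₂ c)).length = (L lW c).length + τ := n3
      rw [hL] at n3'
      rw [n1, n3']
      omega
    · intro q hq
      rcases n2 q hq with ⟨t, ht1, ht2⟩ | ⟨q', hq', ht⟩
      · exact Or.inl ⟨embd false t, ht1, ht2⟩
      · rcases n4 q' hq' with ⟨t, ht1, ht2⟩ | ⟨q'', hq'', ht'⟩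
        · exact Or.inl ⟨embd true t, ht.trans ht1, ht2⟩
        · rcases List.mem_append.1 hq'' with hq3 | hq3
          · obtain ⟨p, hp, rfl⟩ := List.mem_map.1 hq3
            obtain rfl := List.mem_singleton.1 hp
            exact Or.inl ⟨Sum.inl (x, y), ht.trans ht', rfl, rfl⟩
          obtain ⟨q4, hq4, rfl⟩ := List.mem_map.1 hq3
          rcases List.mem_append.1 hq4 with hq5 | hq5
          · obtain ⟨p, hp, rfl⟩ := List.mem_map.1 hq5
            obtain ⟨p', hp', rfl⟩ := List.mem_map.1 hp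
            exact Or.inr ⟨p', hp', ht.trans ht'⟩
          · obtain ⟨p, hp, rfl⟩ := List.mem_map.1 hq5
            obtain rfl := List.mem_singleton.1 hp
            exact Or.inl ⟨Sum.inl (x, y), ht.trans ht', rfl, rfl⟩

/-- The run of the root of a block. -/
theorem runSpec_block {n : ℕ} {E E' : Type} {fE : Fintype E}
    {ρ ρl ρr : Fin (2 * A + 3)} (h1 : ρl ≠ ρ) (h2 : ρr ≠ ρ) (h3 : ρl ≠ ρr) {τ : ℕ}
    {θ : E × G.H → Fin k → Option (E' × G.H)}
    {Fr : Frag (TVar k (n + 1)) (Fin k) ((E × G.C) × G.Mem A) ((E' × G.C) × G.Mem A)}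
    {Fl : Frag (TVar k (n + 1)) (Fin k) (E × G.Mem A) (E' × G.Mem A)}
    (hFr : G.NestSpec ρr (embd true) τ
      (G.mid (fun p => (Sum.inl p : TVar k (n + 1))) E E' fE ρ ρl ρr θ) Fr)
    (hFl : G.NestSpec ρl (embd false) τ Fr Fl) :
    G.RunSpec ρ θ (2 * τ + 1) Fl := by
  classical
  intro I a
  set x := val n fun t => I (embd false t) with hx
  set y := val n fun t => I (embd true t) with hy
  set z := val (n + 1) I with hz
  have hzxy : z = I (Sum.inl (x, y)) := rfl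
  obtain ⟨gl, gl1, gl2⟩ := hFl I a
  obtain ⟨gr, gr1, gr2⟩ := hFr I (G.push ρl x a)
  rw [← hx] at gl1 gl2
  rw [← hy] at gr1 gr2
  set cx := G.col x (a.2 ρl) with hcx
  set cy := G.col y (a.2 ρr) with hcy
  have hpp : G.push ρr y (G.push ρl x a) = (((a.1, cx), cy), G.up ρl ρr a.2 x y) :=
    G.push_push a x y h3
  let s₁ : ((E × G.C) × G.C) × G.Mem A × (Fin k × Fin k) := (((a.1, cx), cy), a.2, (x, y))
  let m₂ : E' × G.H → G.Mem A := fun p => G.down ρl ρr (Function.update a.2 ρ p.2) x y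
  let b₂ : E' × G.H → ((E' × G.C) × G.C) × G.Mem A := fun p => (((p.1, cx), cy), m₂ p)
  let b₁ : E' × G.H → (E' × G.C) × G.Mem A := fun p =>
    ((p.1, cx), Function.update (m₂ p) ρr (m₂ p ρr + G.enc y))
  have hfinal : ∀ p : E' × G.H,
      Function.update (Function.update (m₂ p) ρr (m₂ p ρr + G.enc y)) ρl
        ((Function.update (m₂ p) ρr (m₂ p ρr + G.enc y)) ρl + G.enc x) =
      Function.update a.2 ρ p.2 := by
    intro p
    funext j
    simp only [m₂, down, Function.update_apply]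
    by_cases hjl : j = ρl
    · subst hjl
      simp [h1, h3]
    · by_cases hjr : j = ρr
      · subst hjr
        simp [h2, Ne.symm h3]
      · by_cases hj : j = ρ
        · subst hj
          simp [hjl, hjr]
        · simp [hj, hjl, hjr]
  have hm₂l : ∀ p, m₂ p ρl + G.enc x = a.2 ρl := by
    intro p
    simp only [m₂, down, Function.update_of_ne h1, Function.update_of_ne h3,
      Function.update_self]
    abel
  have hm₂r : ∀ p, m₂ p ρr + G.enc y = a.2 ρr := by
    intro p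
    simp only [m₂, down, Function.update_of_ne h2, Function.update_self]
    abel
  have key : ∀ l b, Fl.Go I a l b → ∃ p, θ (a.1, a.2 ρ) z = some p ∧
      b = (p.1, Function.update a.2 ρ p.2) ∧ l = gl (gr [s₁] (b₂ p)) (b₁ p) := by
    intro l b h
    obtain ⟨l₁, c₁, k1, k2, rfl⟩ := (gl1 l b).1 h
    obtain ⟨l₂, c₂, k3, k4, rfl⟩ := (gr1 l₁ c₁).1 k1
    rw [hpp] at k3
    obtain ⟨m, x', y', rfl, k9, e', t', k10, rfl⟩ := (G.go_mid I _ l₂ c₂).1 k3
    rw [G.eff_θ₂] at k2 k4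
    obtain ⟨k4, rfl⟩ := k4
    obtain ⟨k2, rfl⟩ := k2
    obtain ⟨q1, q2, q3⟩ := G.eq_of_up_eq h3 k9
    simp only [down, Function.update_of_ne h1, Function.update_of_ne h2,
      Function.update_of_ne h3, Function.update_self] at k2 k4
    have u1 : m ρl - G.enc x' + G.enc x =
        a.2 ρl + (G.enc x - G.enc x') + (G.enc x - G.enc x') := by
      rw [q1]; abel
    have u2 : m ρr - G.enc y' + G.enc y =
        a.2 ρr + (G.enc y - G.enc y') + (G.enc y - G.enc y') := by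
      rw [q2]; abel
    rw [u1] at k2
    rw [u2] at k4
    obtain ⟨rfl, _⟩ := G.sound x x' x' _ k2
    obtain ⟨rfl, _⟩ := G.sound y y' y' _ k4
    have hm : m = a.2 := by
      funext j
      by_cases hjl : j = ρl
      · rw [hjl, q1]; simp
      · by_cases hjr : j = ρr
        · rw [hjr, q2]; simp
        · exact q3 j hjl hjr
    subst hm
    exact ⟨(e', t'), k10, Prod.ext rfl (hfinal (e', t')), rfl⟩
  have conv : ∀ p, θ (a.1, a.2 ρ) z = some p →
      Fr.Go I (G.push ρl x a) (gr [s₁] (b₂ p)) (b₁ p) ∧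
      (G.mid (fun p => (Sum.inl p : TVar k (n + 1))) E E' fE ρ ρl ρr θ).Go I
        (G.push ρr y (G.push ρl x a)) [s₁] (b₂ p) ∧
      G.eff ρr G.θ₂ (b₂ p) y = some (b₁ p) ∧
      G.eff ρl G.θ₂ (b₁ p) x = some (p.1, Function.update a.2 ρ p.2) := by
    intro p hp
    have hgo : (G.mid (fun p => (Sum.inl p : TVar k (n + 1))) E E' fE ρ ρl ρr θ).Go I
        (G.push ρr y (G.push ρl x a)) [s₁] (b₂ p) := by
      rw [hpp]
      exact (G.go_mid I _ _ _).2 ⟨a.2, x, y, rfl, rfl, p.1, p.2, hp, rfl⟩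
    have hr : G.eff ρr G.θ₂ (b₂ p) y = some (b₁ p) := by
      rw [G.eff_θ₂]
      refine ⟨?_, rfl⟩
      change G.col y (m₂ p ρr + G.enc y) = cy
      rw [hm₂r]
    refine ⟨(gr1 _ _).2 ⟨_, _, hgo, hr, rfl⟩, hgo, hr, ?_⟩
    rw [G.eff_θ₂]
    refine ⟨?_, ?_⟩
    · have : (b₁ p).2 ρl + G.enc x = a.2 ρl := by
        simp only [b₁, Function.update_of_ne h3]
        exact hm₂l p
      rw [this]
    · exact Prod.ext rfl (hfinal p).symm
  refine ⟨?_, ?_, ?_⟩
  · intro l b h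
    obtain ⟨p, k1, rfl, rfl⟩ := key l b h
    obtain ⟨g1, g2, g3, g4⟩ := conv p k1
    obtain ⟨n1, n2⟩ := gl2 _ _ _ g1 g4
    obtain ⟨n3, n4⟩ := gr2 _ _ _ g2 g3
    refine ⟨?_, ?_, ?_⟩
    · unfold eff
      rw [k1]
      rfl
    · have n3' : (gr [s₁] (b₂ p)).length = 1 + τ := n3
      rw [n1, n3']
      omega
    · intro q hq
      rcases n2 q hq with ⟨t, ht1, ht2⟩ | ⟨q', hq', ht⟩
      · rw [ht1]
        exact ht2
      · rcases n4 q' hq' with ⟨t, ht1, ht2⟩ | ⟨q'', hq'', ht'⟩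
        · rw [ht, ht1]
          exact ht2
        · obtain rfl := List.mem_singleton.1 hq''
          rw [ht, ht']
          exact ⟨rfl, rfl⟩
  · intro b hb
    unfold eff at hb
    rw [Option.map_eq_some_iff] at hb
    obtain ⟨p, k1, rfl⟩ := hb
    obtain ⟨g1, _, _, g4⟩ := conv p k1
    exact ⟨_, (gl1 _ _).2 ⟨_, _, g1, g4, rfl⟩⟩
  · intro l l' b b' h h'
    obtain ⟨p, k1, rfl, rfl⟩ := key l b h
    obtain ⟨p', k1', rfl, rfl⟩ := key l' b' h'
    rw [k1, Option.some.injEq] at k1'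
    rw [k1']

end Pool.Agent.ThriftyBP.Lock
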