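import Pool.Agent.ThriftyBP.LockCard

/-!
# Locks: the branching program
-/

namespace Pool.Agent.ThriftyBP

/-- A leaf variable, which is thrifty for every input. -/
def someLeaf {k : ℕ} : (n : ℕ) → TVar k n
  | 0 => ()
  | n + 1 => Sum.inr (false, someLeaf n)

theorem isThrifty_someLeaf {k : ℕ} (n : ℕ) (I : TVar k n → Fin k) :
    IsThrifty n I (someLeaf n) := by
  induction n with
  | zero => trivial
  | succ n ih => exact ih (sub I false)

section

variable {X V B : Type} {A : Type} (F : Frag X V A B) (x₀ : X) (a₀ : A) {R : Type} (out : R → B)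

/-- The program of a fragment: a start state that queries `x₀`, then the fragment entered at `a₀`;
the exit `out z` becomes the final state `z`. -/
def closeProg : NBP X V R where
  Q := Unit ⊕ F.Q
  finQ :=
    letI := F.finQ
    inferInstance
  var := Sum.elim (fun _ => x₀) F.var
  start := Sum.inl (Sum.inl ())
  edge q v s :=
    (q = Sum.inl () ∧ ∃ t, F.entry a₀ t ∧
      ((∃ q', t = Sum.inl q' ∧ s = Sum.inl (Sum.inr q')) ∨
        ∃ z, t = Sum.inr (out z) ∧ s = Sum.inr z)) ∨
    (∃ q₀, q = Sum.inr q₀ ∧ ∃ t, F.edge q₀ v t ∧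
      ((∃ q', t = Sum.inl q' ∧ s = Sum.inl (Sum.inr q')) ∨
        ∃ z, t = Sum.inr (out z) ∧ s = Sum.inr z))

variable {F x₀ a₀ out} (hout : Function.Injective out)

include hout in
theorem path_closeProg (I : X → V) (t : F.Q ⊕ B)
    (s : (Unit ⊕ F.Q) ⊕ R)
    (hts : (∃ q', t = Sum.inl q' ∧ s = Sum.inl (Sum.inr q')) ∨
        ∃ z, t = Sum.inr (out z) ∧ s = Sum.inr z) (l : List (Unit ⊕ F.Q)) (z : R) :
    (closeProg F x₀ a₀ out).Path I s l z ↔ ∃ l', l = l'.map Sum.inr ∧ F.Path I t l' (out z) := by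
  constructor
  · intro h
    induction l generalizing t s with
    | nil =>
      have h' : s = Sum.inr z := NBP.path_nil.1 h
      refine ⟨[], rfl, ?_⟩
      rcases hts with ⟨q', rfl, h1⟩ | ⟨z', rfl, h1⟩
      · rw [h'] at h1
        exact nomatch h1
      · rw [h'] at h1
        obtain rfl : z = z' := Sum.inr.inj h1
        rfl
    | cons q l ih =>
      obtain ⟨h0, s', h1, h2⟩ := NBP.path_cons.1 h
      have h0' : s = Sum.inl q := h0
      subst h0'
      rcases hts with ⟨q', rfl, h3⟩ | ⟨z', rfl, h3⟩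
      · obtain rfl : q = Sum.inr q' := Sum.inl.inj h3
        rcases h1 with ⟨h4, _⟩ | ⟨q₀, h4, t', h5, h6⟩
        · exact nomatch h4
        · obtain rfl : q' = q₀ := Sum.inr.inj h4
          obtain ⟨l', rfl, h7⟩ := ih t' _ h6 h2
          exact ⟨q' :: l', rfl, rfl, t', h5, h7⟩
      · exact nomatch h3
  · rintro ⟨l', rfl, h⟩
    induction l' generalizing t s with
    | nil =>
      have h' : t = Sum.inr (out z) := h
      subst h'
      rcases hts with ⟨q', h1, rfl⟩ | ⟨z', h1, rfl⟩
      · exact nomatch h1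
      · obtain rfl : z = z' := hout (Sum.inr.inj h1)
        exact NBP.path_nil.2 rfl
    | cons q l ih =>
      obtain ⟨rfl, t', h1, h2⟩ := h
      rcases hts with ⟨q', h3, rfl⟩ | ⟨z', h3, rfl⟩
      · obtain rfl : q = q' := Sum.inl.inj h3
        have h4 : ∃ s' : (Unit ⊕ F.Q) ⊕ R,
            ((∃ q', t' = Sum.inl q' ∧ s' = Sum.inl (Sum.inr q')) ∨
              ∃ z, t' = Sum.inr (out z) ∧ s' = Sum.inr z) := by
          rcases t' with q' | b
          · exact ⟨_, Or.inl ⟨q', rfl, rfl⟩⟩
          · cases l with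
            | nil =>
              have h2' : (Sum.inr b : F.Q ⊕ B) = Sum.inr (out z) := h2
              obtain rfl := Sum.inr.inj h2'
              exact ⟨_, Or.inr ⟨z, rfl, rfl⟩⟩
            | cons q' l => exact nomatch h2.1
        obtain ⟨s', h4⟩ := h4
        exact NBP.path_cons.2 ⟨rfl, s', Or.inr ⟨q, rfl, t', h1, h4⟩, ih t' s' h4 h2⟩
      · exact nomatch h3

include hout in
theorem path_closeProg_start (I : X → V) (l : List (Unit ⊕ F.Q)) (z : R) :
    (closeProg F x₀ a₀ out).Path I (closeProg F x₀ a₀ out).start l z ↔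
      ∃ l', l = Sum.inl () :: l'.map Sum.inr ∧ F.Go I a₀ l' (out z) := by
  constructor
  · intro h
    cases l with
    | nil =>
      have := NBP.path_nil.1 h
      exact nomatch this
    | cons q l =>
      obtain ⟨h0, s', h1, h2⟩ := NBP.path_cons.1 h
      obtain rfl : Sum.inl () = q := Sum.inl.inj h0
      rcases h1 with ⟨_, t, h3, h4⟩ | ⟨q₀, h3, _⟩
      · obtain ⟨l', rfl, h5⟩ := (path_closeProg hout I t s' h4 l z).1 h2
        exact ⟨l', rfl, t, h3, h5⟩
      · exact nomatch h3
  · rintro ⟨l', rfl, t, h1, h2⟩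
    have h4 : ∃ s' : (Unit ⊕ F.Q) ⊕ R, ((∃ q', t = Sum.inl q' ∧ s' = Sum.inl (Sum.inr q')) ∨
            ∃ z, t = Sum.inr (out z) ∧ s' = Sum.inr z) := by
      rcases t with q' | b
      · exact ⟨_, Or.inl ⟨q', rfl, rfl⟩⟩
      · cases l' with
        | nil =>
          have h2' : (Sum.inr b : F.Q ⊕ B) = Sum.inr (out z) := h2
          obtain rfl := Sum.inr.inj h2'
          exact ⟨_, Or.inr ⟨z, rfl, rfl⟩⟩
        | cons q' l => exact nomatch h2.1
    obtain ⟨s', h4⟩ := h4
    exact NBP.path_cons.2 ⟨rfl, s', Or.inl ⟨rfl, t, h1, h4⟩,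
      (path_closeProg hout I t s' h4 _ z).2 ⟨l', rfl, h2⟩⟩

end

namespace Lock

variable {k : ℕ} (G : Lock k) (A : ℕ)

/-- The top level instruction: add the value to the target register. -/
def θ₀ (p : Unit × G.H) (x : Fin k) : Option (Unit × G.H) := some ((), p.2 + G.enc x)

/-- The exit that stands for the output `z`. -/
def out (z : Fin k) : Unit × G.Mem A := ((), Function.update (fun _ => 0) 0 (G.enc z))

theorem out_injective : Function.Injective (G.out A) := by
  intro z z' h
  have h1 := congrFun (congrArg Prod.snd h) 0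
  simp only [out, Function.update_self] at h1
  exact G.inj h1

theorem eff_θ₀ (z : Fin k) (b : Unit × G.Mem A) :
    G.eff 0 G.θ₀ ((), fun _ => 0) z = some b ↔ b = G.out A z := by
  unfold eff θ₀ out
  simp only [Option.map_some, Option.some.injEq, zero_add]
  exact eq_comm

/-- The whole program. -/
noncomputable def prog (n : ℕ) : NBP (TVar k n) (Fin k) (Fin k) :=
  closeProg (G.run A n Unit Unit inferInstance inferInstance 0 G.θ₀) (someLeaf n)
    ((), fun _ => 0) (G.out A)

theorem path_prog (n : ℕ) (I : TVar k n → Fin k) (l : List (G.prog A n).Q) (z : Fin k) :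
    (G.prog A n).Path I (G.prog A n).start l z ↔
      ∃ l', l = Sum.inl () :: l'.map Sum.inr ∧
        (G.run A n Unit Unit inferInstance inferInstance 0 G.θ₀).Go I ((), fun _ => 0) l'
          (G.out A z) :=
  path_closeProg_start (G.out_injective A) I l z

theorem computes_prog (n : ℕ) : (G.prog A n).Computes (val n) := by
  intro I
  constructor
  · obtain ⟨l, hl⟩ := (G.runSpec_run n Unit Unit inferInstance inferInstance 0 G.θ₀ I
      ((), fun _ => 0)).2.1 (G.out A (val n I)) ((G.eff_θ₀ A _ _).2 rfl)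
    exact ⟨_, (G.path_prog A n I _ _).2 ⟨l, rfl, hl⟩⟩
  · intro l r h
    obtain ⟨l', rfl, h'⟩ := (G.path_prog A n I _ _).1 h
    have := ((G.runSpec_run n Unit Unit inferInstance inferInstance 0 G.θ₀ I
      ((), fun _ => 0)).1 l' _ h').1
    exact G.out_injective A ((G.eff_θ₀ A _ _).1 this)

theorem thrifty_prog (n : ℕ) : Thrifty (G.prog A n) := by
  intro I l r h q hq
  obtain ⟨l', rfl, h'⟩ := (G.path_prog A n I _ _).1 h
  have := ((G.runSpec_run n Unit Unit inferInstance inferInstance 0 G.θ₀ I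
    ((), fun _ => 0)).1 l' _ h').2.2
  rcases List.mem_cons.1 hq with rfl | hq
  · exact isThrifty_someLeaf n I
  · obtain ⟨p, hp, rfl⟩ := List.mem_map.1 hq
    exact this p hp

theorem unambiguous_prog (n : ℕ) : (G.prog A n).Unambiguous := by
  intro I l l' r r' h h'
  obtain ⟨l₁, rfl, h₁⟩ := (G.path_prog A n I _ _).1 h
  obtain ⟨l₂, rfl, h₂⟩ := (G.path_prog A n I _ _).1 h'
  rw [(G.runSpec_run n Unit Unit inferInstance inferInstance 0 G.θ₀ I
    ((), fun _ => 0)).2.2 l₁ l₂ _ _ h₁ h₂]

theorem length_start {Q : Type} (l : List Q) :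
    (Sum.inl () :: l.map Sum.inr : List (Unit ⊕ Q)).length = l.length + 1 := by
  simp

/-- All computations that end in a final state are short. -/
theorem length_prog (n : ℕ) (I : TVar k n → Fin k) (l : List (G.prog A n).Q) (z : Fin k)
    (h : (G.prog A n).Path I (G.prog A n).start l z) : l.length ≤ 2 ^ (n + 2 + n / (A + 1)) := by
  obtain ⟨l', rfl, h'⟩ := (G.path_prog A n I _ _).1 h
  have h1 := ((G.runSpec_run n Unit Unit inferInstance inferInstance 0 G.θ₀ I
    ((), fun _ => 0)).1 l' _ h').2.1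
  have h2 := tR_bound A n
  have h3 : l'.length = tR A n := h1
  refine le_trans (le_of_eq (length_start l')) ?_
  omega

theorem size_prog (hk : 0 < k) (n : ℕ) : (G.prog A n).size ≤
    G.YY A ^ (2 * n) * G.PP A + k + 1 := by
  have h1 : (G.prog A n).size =
      1 + (G.run A n Unit Unit inferInstance inferInstance 0 G.θ₀).card + k := by
    let _ := (G.run A n Unit Unit inferInstance inferInstance 0 G.θ₀).finQ
    change Fintype.card (Unit ⊕ (G.run A n Unit Unit inferInstance inferInstance 0 G.θ₀).Q) +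
      Fintype.card (Fin k) = _
    rw [Fintype.card_sum, Fintype.card_unit, Fintype.card_fin]
    rfl
  have h2 := G.card_run (A := A) hk n Unit Unit inferInstance inferInstance 0 G.θ₀ 1 (by simp)
    (by simp)
  rw [one_mul] at h2
  omega

end Lock

end Pool.Agent.ThriftyBP
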