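import Pool.Agent.ThriftyBP.LockNest

/-!
# Locks: the recursion
-/

namespace Pool.Agent.ThriftyBP.Lock

variable {k : ℕ} (G : Lock k) (A : ℕ)

/-- A fragment that locks the value of the subtree `e`, does `W`, and unlocks.  The subtree has
`n + 1` levels, and the block has `j` levels below its root. -/
noncomputable def nest : (n j : ℕ) → (X : Type) → (r : Fin (2 * A + 3)) → (s : Bool) →
    (e : TVar k n → X) → (E E' : Type) → Fintype E → Fintype E' →
    Frag X (Fin k) ((E × G.C) × G.Mem A) ((E' × G.C) × G.Mem A) →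
    Frag X (Fin k) (E × G.Mem A) (E' × G.Mem A)
  | 0, j, _, r, s, e, E, E', fE, _, W =>
    ((G.leaf E (E × G.C) fE (sc r j s) G.θ₁).mapVar e).comp
      (W.comp ((G.leaf (E' × G.C) E' inferInstance (sc r j s) G.θ₂).mapVar e))
  | n + 1, 0, _, r, s, e, E, E', fE, fE', W =>
    (Frag.mapVar e (nest n A (TVar k (n + 1)) (sc r 0 s) false (embd false) E (E × G.C) fE
      inferInstance
      (nest n A (TVar k (n + 1)) (sc r 0 s) true (embd true) (E × G.C) ((E × G.C) × G.C)
        inferInstance inferInstance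
        (G.mid (fun p => (Sum.inl p : TVar k (n + 1))) E (E × G.C) fE (sc r 0 s)
          (sc (sc r 0 s) A false) (sc (sc r 0 s) A true) G.θ₁)))).comp
      (W.comp
        (Frag.mapVar e (nest n A (TVar k (n + 1)) (sc r 0 s) false (embd false) (E' × G.C) E'
          inferInstance fE'
          (nest n A (TVar k (n + 1)) (sc r 0 s) true (embd true) ((E' × G.C) × G.C) (E' × G.C)
            inferInstance inferInstance
            (G.mid (fun p => (Sum.inl p : TVar k (n + 1))) (E' × G.C) E' inferInstance (sc r 0 s)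
              (sc (sc r 0 s) A false) (sc (sc r 0 s) A true) G.θ₂)))))
  | n + 1, j + 1, X, r, s, e, E, E', fE, fE', W =>
    nest n j X r false (fun x => e (embd false x)) E E' fE fE'
      (nest n j X r true (fun x => e (embd true x)) (E × G.C) (E' × G.C) inferInstance inferInstance
        ((G.fwd (fun p => e (Sum.inl p)) E fE (sc r (j + 1) s) (sc r j false) (sc r j true)).comp
          ((W.ext (G.C × G.C) inferInstance).comp
            (G.bwd (fun p => e (Sum.inl p)) E' fE' (sc r (j + 1) s) (sc r j false)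
              (sc r j true)))))

/-- The fragment of a tree with `n + 1` levels, for the operation `θ` on the register `r`. -/
noncomputable def run : (n : ℕ) → (E E' : Type) → Fintype E → Fintype E' →
    (r : Fin (2 * A + 3)) → (E × G.H → Fin k → Option (E' × G.H)) →
    Frag (TVar k n) (Fin k) (E × G.Mem A) (E' × G.Mem A)
  | 0, E, E', fE, _, r, θ => G.leaf E E' fE r θ
  | n + 1, E, E', fE, fE', r, θ =>
    G.nest A n A (TVar k (n + 1)) r false (embd false) E E' fE fE'
      (G.nest A n A (TVar k (n + 1)) r true (embd true) (E × G.C) (E' × G.C) inferInstance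
        inferInstance (G.mid (fun p => (Sum.inl p : TVar k (n + 1))) E E' fE r
          (sc r A false) (sc r A true) θ))

theorem nest_run (n : ℕ) (X : Type) (r : Fin (2 * A + 3)) (s : Bool) (e : TVar k n → X)
    (E E' : Type) (fE : Fintype E) (fE' : Fintype E')
    (W : Frag X (Fin k) ((E × G.C) × G.Mem A) ((E' × G.C) × G.Mem A)) :
    G.nest A n 0 X r s e E E' fE fE' W =
      ((G.run A n E (E × G.C) fE inferInstance (sc r 0 s) G.θ₁).mapVar e).comp
        (W.comp ((G.run A n (E' × G.C) E' inferInstance fE' (sc r 0 s) G.θ₂).mapVar e)) := by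
  cases n with
  | zero => rfl
  | succ n => rfl

/-- The number of queries for locking and unlocking. -/
def tN (A : ℕ) : ℕ → ℕ → ℕ
  | 0, _ => 2
  | n + 1, 0 => 2 * (2 * tN A n A + 1)
  | n + 1, j + 1 => 2 * tN A n j + 2

/-- The number of queries of a run. -/
def tR (A : ℕ) : ℕ → ℕ
  | 0 => 1
  | n + 1 => 2 * tN A n A + 1

variable {A}

theorem pres_mid {X : Type} (e : Fin k × Fin k → X) (E E' : Type) (fE : Fintype E)
    (r : Fin (2 * A + 3)) (θ : E × G.H → Fin k → Option (E' × G.H)) :
    Pres G r A (G.mid e E E' fE r (sc r A false) (sc r A true) θ) := by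
  intro I a l b h j' hj' s
  obtain ⟨m, x, y, rfl, h1, e', t', h2, rfl⟩ := (G.go_mid I a l b).1 h
  have n0 : sc r j' s ≠ r := sc_ne r (by omega) s
  have n1 : sc r j' s ≠ sc r A false := fun h => by
    have := (sc_inj r (by omega) le_rfl h).1
    omega
  have n2 : sc r j' s ≠ sc r A true := fun h => by
    have := (sc_inj r (by omega) le_rfl h).1
    omega
  rw [h1]
  simp only [up, down, Function.update_of_ne n0, Function.update_of_ne n1,
    Function.update_of_ne n2]

theorem pres_expand {X : Type} (e : Fin k × Fin k → X) (E E' : Type) (fE : Fintype E)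
    (fE' : Fintype E') (r : Fin (2 * A + 3)) (s : Bool) (j : ℕ) (hj : j + 1 ≤ A)
    (W : Frag X (Fin k) ((E × G.C) × G.Mem A) ((E' × G.C) × G.Mem A)) (hW : Pres G r (j + 1) W) :
    Pres G r j ((G.fwd e E fE (sc r (j + 1) s) (sc r j false) (sc r j true)).comp
          ((W.ext (G.C × G.C) inferInstance).comp
            (G.bwd e E' fE' (sc r (j + 1) s) (sc r j false) (sc r j true)))) := by
  intro I a l b h j' hj' s'
  obtain ⟨d₁, t₁, t₂, rfl, k5, k6⟩ := (Frag.go_comp _ _ I _ _ _).1 h
  obtain ⟨d₂, t₃, t₄, rfl, k7, k8⟩ := (Frag.go_comp _ _ I d₁ t₂ _).1 k6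
  obtain ⟨m, x', y', rfl, k9, rfl⟩ := (G.go_fwd I _ t₁ d₁).1 k5
  obtain ⟨k10, lW, rfl, k11⟩ := (Frag.go_ext W _ _ I _ t₃ d₂).1 k7
  obtain ⟨m', x'', y'', rfl, k12, f, k13, rfl⟩ := (G.go_bwd I d₂ t₄ _).1 k8
  rw [G.eff_θ₂] at k13
  obtain ⟨_, rfl⟩ := k13
  have n0 : sc r j' s' ≠ sc r (j + 1) s := fun h => by
    have := (sc_inj r (by omega) hj h).1
    omega
  have n1 : sc r j' s' ≠ sc r j false := fun h => by
    have := (sc_inj r (by omega) (by omega) h).1
    omega
  have n2 : sc r j' s' ≠ sc r j true := fun h => by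
    have := (sc_inj r (by omega) (by omega) h).1
    omega
  have p := hW I _ _ _ k11 j' (by omega) s'
  rw [k12] at p
  rw [k9]
  simp only [up, push, Function.update_of_ne n0, Function.update_of_ne n1,
    Function.update_of_ne n2] at p ⊢
  exact p

theorem pres_nest {n : ℕ} {X E E' : Type} {r : Fin (2 * A + 3)} {s : Bool} {j : ℕ} (hj : j ≤ A)
    {e : TVar k n → X} {τ : ℕ}
    {W : Frag X (Fin k) ((E × G.C) × G.Mem A) ((E' × G.C) × G.Mem A)}
    {F : Frag X (Fin k) (E × G.Mem A) (E' × G.Mem A)}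
    (h : G.NestSpec (sc r j s) e τ W F) (hW : Pres G r j W) : Pres G r j F := by
  intro I a l b hgo j' hj' s'
  obtain ⟨g, h1, _⟩ := h I a
  obtain ⟨lW, b', h2, h3, _⟩ := (h1 l b).1 hgo
  rw [G.eff_θ₂] at h3
  obtain ⟨_, rfl⟩ := h3
  have n1 : sc r j' s' ≠ sc r j s := fun h => by
    have := (sc_inj r (by omega) hj h).1
    omega
  have p := hW I _ _ _ h2 j' hj' s'
  simp only [push, Function.update_of_ne n1] at p ⊢
  exact p

theorem runSpec_leaf (E E' : Type) (fE : Fintype E) (ρ : Fin (2 * A + 3))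
    (θ : E × G.H → Fin k → Option (E' × G.H)) : G.RunSpec ρ θ 1 (G.leaf E E' fE ρ θ) := by
  intro I a
  refine ⟨?_, ?_, ?_⟩
  · intro l b h
    obtain ⟨rfl, h'⟩ := (G.go_leaf I a l b).1 h
    exact ⟨h', rfl, fun q _ => trivial⟩
  · intro b h
    exact ⟨[a], (G.go_leaf I a _ _).2 ⟨rfl, h⟩⟩
  · intro l l' b b' h h'
    rw [((G.go_leaf I a l b).1 h).1, ((G.go_leaf I a l' b').1 h').1]

theorem runSpec_succ {n : ℕ}
    (ih : ∀ (j : ℕ), j ≤ A → ∀ (X : Type) (r : Fin (2 * A + 3)) (s : Bool) (e : TVar k n → X)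
      (E E' : Type) (fE : Fintype E) (fE' : Fintype E')
      (W : Frag X (Fin k) ((E × G.C) × G.Mem A) ((E' × G.C) × G.Mem A)), Pres G r j W →
      G.NestSpec (sc r j s) e (tN A n j) W (G.nest A n j X r s e E E' fE fE' W))
    (E E' : Type) (fE : Fintype E) (fE' : Fintype E') (r : Fin (2 * A + 3))
    (θ : E × G.H → Fin k → Option (E' × G.H)) :
    G.RunSpec r θ (tR A (n + 1)) (G.run A (n + 1) E E' fE fE' r θ) := by
  have h0 := G.pres_mid (fun p => (Sum.inl p : TVar k (n + 1))) E E' fE r θ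
  have h1 := ih A le_rfl (TVar k (n + 1)) r true (embd true) (E × G.C) (E' × G.C) inferInstance
    inferInstance _ h0
  have h2 := ih A le_rfl (TVar k (n + 1)) r false (embd false) E E' fE fE' _
    (G.pres_nest le_rfl h1 h0)
  exact G.runSpec_block (sc_ne r le_rfl _) (sc_ne r le_rfl _)
    (fun h => Bool.noConfusion (sc_inj r le_rfl le_rfl h).2) h1 h2

theorem nestSpec_nest (n : ℕ) : ∀ (j : ℕ), j ≤ A → ∀ (X : Type) (r : Fin (2 * A + 3)) (s : Bool)
    (e : TVar k n → X) (E E' : Type) (fE : Fintype E) (fE' : Fintype E')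
    (W : Frag X (Fin k) ((E × G.C) × G.Mem A) ((E' × G.C) × G.Mem A)), Pres G r j W →
    G.NestSpec (sc r j s) e (tN A n j) W (G.nest A n j X r s e E E' fE fE' W) := by
  induction n with
  | zero =>
    intro j _ X r s e E E' fE fE' W _
    exact G.nestSpec_run W (G.runSpec_leaf E (E × G.C) fE (sc r j s) G.θ₁)
      (G.runSpec_leaf (E' × G.C) E' inferInstance (sc r j s) G.θ₂)
  | succ n ih =>
    intro j hj X r s e E E' fE fE' W hW
    cases j with
    | zero =>
      rw [nest_run]
      exact G.nestSpec_run W (G.runSpec_succ ih E (E × G.C) fE inferInstance (sc r 0 s) G.θ₁)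
        (G.runSpec_succ ih (E' × G.C) E' inferInstance fE' (sc r 0 s) G.θ₂)
    | succ j =>
      have h0 := G.pres_expand (fun p => e (Sum.inl p)) E E' fE fE' r s j hj W hW
      have h1 := ih j (by omega) X r true (fun x => e (embd true x)) (E × G.C) (E' × G.C)
        inferInstance inferInstance _ h0
      have h2 := ih j (by omega) X r false (fun x => e (embd false x)) E E' fE fE' _
        (G.pres_nest (by omega) h1 h0)
      refine G.nestSpec_expand ?_ ?_ ?_ W ?_ h1 h2
      · intro h
        have := (sc_inj r (by omega) hj h).1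
        omega
      · intro h
        have := (sc_inj r (by omega) hj h).1
        omega
      · intro h
        exact Bool.noConfusion (sc_inj r (by omega) (by omega) h).2
      · intro I a l b hgo
        exact ⟨hW I a l b hgo j (by omega) false, hW I a l b hgo j (by omega) true⟩

theorem runSpec_run (n : ℕ) (E E' : Type) (fE : Fintype E) (fE' : Fintype E')
    (r : Fin (2 * A + 3)) (θ : E × G.H → Fin k → Option (E' × G.H)) :
    G.RunSpec r θ (tR A n) (G.run A n E E' fE fE' r θ) := by
  cases n with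
  | zero => exact G.runSpec_leaf E E' fE r θ
  | succ n => exact G.runSpec_succ (G.nestSpec_nest n) E E' fE fE' r θ

/-! ### Time -/

theorem tN_bound (A n : ℕ) : ∀ j ≤ A, tN A n j + 2 ≤ 2 ^ (n + 2 + (n + (A + 1) - j) / (A + 1)) := by
  induction n with
  | zero =>
    intro j _
    have : tN A 0 j = 2 := rfl
    rw [this]
    calc 2 + 2 = 2 ^ 2 := by norm_num
      _ ≤ 2 ^ (0 + 2 + (0 + (A + 1) - j) / (A + 1)) :=
          Nat.pow_le_pow_right (by norm_num) (Nat.le_add_right _ _)
  | succ n ih =>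
    intro j hj
    cases j with
    | zero =>
      have h1 : tN A (n + 1) 0 = 2 * (2 * tN A n A + 1) := rfl
      have h2 := ih A le_rfl
      have h3 : n + (A + 1) - A = n + 1 := by omega
      rw [h3] at h2
      have h4 : (n + 1 + (A + 1) - 0) / (A + 1) = (n + 1) / (A + 1) + 1 := by
        rw [Nat.sub_zero, Nat.add_div_right _ (by omega)]
      rw [h1, h4]
      calc 2 * (2 * tN A n A + 1) + 2 ≤ 4 * (tN A n A + 2) := by omega
        _ ≤ 4 * 2 ^ (n + 2 + (n + 1) / (A + 1)) := Nat.mul_le_mul_left _ h2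
        _ = 2 ^ (n + 1 + 2 + ((n + 1) / (A + 1) + 1)) := by ring
    | succ j =>
      have h1 : tN A (n + 1) (j + 1) = 2 * tN A n j + 2 := rfl
      have h2 := ih j (by omega)
      have h3 : n + 1 + (A + 1) - (j + 1) = n + (A + 1) - j := by omega
      rw [h1, h3]
      calc 2 * tN A n j + 2 + 2 = 2 * (tN A n j + 2) := by ring
        _ ≤ 2 * 2 ^ (n + 2 + (n + (A + 1) - j) / (A + 1)) := Nat.mul_le_mul_left _ h2
        _ = 2 ^ (n + 1 + 2 + (n + (A + 1) - j) / (A + 1)) := by ring

theorem tR_bound (A n : ℕ) : tR A n + 1 ≤ 2 ^ (n + 2 + n / (A + 1)) := by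
  cases n with
  | zero =>
    calc tR A 0 + 1 = 2 := rfl
      _ ≤ 2 ^ 2 := by norm_num
      _ ≤ 2 ^ (0 + 2 + 0 / (A + 1)) :=
          Nat.pow_le_pow_right (by norm_num) (Nat.le_add_right _ _)
  | succ n =>
    have h1 : tR A (n + 1) = 2 * tN A n A + 1 := rfl
    have h2 := tN_bound A n A le_rfl
    have h3 : n + (A + 1) - A = n + 1 := by omega
    rw [h3] at h2
    rw [h1]
    calc 2 * tN A n A + 1 + 1 ≤ 2 * (tN A n A + 2) := by omega
      _ ≤ 2 * 2 ^ (n + 2 + (n + 1) / (A + 1)) := Nat.mul_le_mul_left _ h2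
      _ = 2 ^ (n + 1 + 2 + (n + 1) / (A + 1)) := by ring

end Pool.Agent.ThriftyBP.Lock
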