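import Pool.Agent.ThriftyBP.Lock

/-!
# Locks: traversals of the building blocks
-/

namespace Pool.Agent.ThriftyBP.Lock

variable {k A : ℕ} (G : Lock k)

theorem go_leaf {E E' : Type} {fE : Fintype E} {ρ : Fin (2 * A + 3)}
    {θ : E × G.H → Fin k → Option (E' × G.H)} (I : TVar k 0 → Fin k) (a : E × G.Mem A)
    (l : List (E × G.Mem A)) (b : E' × G.Mem A) :
    (G.leaf E E' fE ρ θ).Go I a l b ↔ l = [a] ∧ G.eff ρ θ a (val 0 I) = some b := by
  constructor
  · rintro ⟨s, h1, h2⟩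
    cases l with
    | nil =>
      have h1' : s = Sum.inl a := h1
      have h2' : s = Sum.inr b := h2
      rw [h1'] at h2'
      exact nomatch h2'
    | cons q l =>
      have h1' : s = Sum.inl a := h1
      obtain ⟨h3, t, h4, h5⟩ := h2
      rw [h1'] at h3
      obtain rfl := Sum.inl.inj h3
      obtain ⟨b', h6, rfl⟩ := h4
      cases l with
      | nil =>
        have h5' : (Sum.inr b' : (E × G.Mem A) ⊕ (E' × G.Mem A)) = Sum.inr b := h5
        obtain rfl := Sum.inr.inj h5'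
        exact ⟨rfl, h6⟩
      | cons q' l =>
        have := h5.1
        exact nomatch this
  · rintro ⟨rfl, h⟩
    exact ⟨Sum.inl a, rfl, rfl, Sum.inr b, ⟨b, h, rfl⟩, rfl⟩

/-- Traversals of a fragment with one query. -/
theorem go_single {X B B' Q : Type} {fQ : Fintype Q} {var : Q → X}
    {en : B → Q → Prop} {ex : Q → Fin k → B' → Prop} (I : X → Fin k) (a : B) (l : List Q) (b : B') :
    Frag.Go (V := Fin k) ⟨Q, fQ, var, fun a s => ∃ q, s = Sum.inl q ∧ en a q,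
      fun q z s => ∃ b, s = Sum.inr b ∧ ex q z b⟩ I a l b ↔
      ∃ q, l = [q] ∧ en a q ∧ ex q (I (var q)) b := by
  constructor
  · rintro ⟨s, ⟨q, rfl, h1⟩, h2⟩
    cases l with
    | nil => exact nomatch h2
    | cons q' l =>
      obtain ⟨h3, t, ⟨b', rfl, h4⟩, h5⟩ := h2
      obtain rfl := Sum.inl.inj h3
      cases l with
      | nil =>
        have h5' : (Sum.inr b' : Q ⊕ B') = Sum.inr b := h5
        obtain rfl := Sum.inr.inj h5'
        exact ⟨q, rfl, h1, h4⟩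
      | cons q'' l =>
        have := h5.1
        exact nomatch this
  · rintro ⟨q, rfl, h1, h2⟩
    exact ⟨_, ⟨q, rfl, h1⟩, rfl, _, ⟨b, rfl, h2⟩, rfl⟩

section

variable {X : Type} {e : Fin k × Fin k → X} {E E' : Type} {fE : Fintype E}
  {ρ ρl ρr : Fin (2 * A + 3)}

theorem go_mid {θ : E × G.H → Fin k → Option (E' × G.H)} (I : X → Fin k)
    (a : ((E × G.C) × G.C) × G.Mem A) (l : List (((E × G.C) × G.C) × G.Mem A × (Fin k × Fin k)))
    (b : ((E' × G.C) × G.C) × G.Mem A) :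
    (G.mid e E E' fE ρ ρl ρr θ).Go I a l b ↔ ∃ m x y, l = [(a.1, m, (x, y))] ∧
      a.2 = G.up ρl ρr m x y ∧
      ∃ e' t', θ (a.1.1.1, m ρ) (I (e (x, y))) = some (e', t') ∧
        b = (((e', a.1.1.2), a.1.2), G.down ρl ρr (Function.update m ρ t') x y) := by
  constructor
  · rintro ⟨s, ⟨m, x, y, rfl, h1⟩, h4⟩
    cases l with
    | nil => exact nomatch h4
    | cons q l =>
      obtain ⟨h5, t, ⟨e', t', h6, rfl⟩, h7⟩ := h4
      obtain rfl := Sum.inl.inj h5
      cases l with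
      | nil =>
        refine ⟨m, x, y, rfl, h1, e', t', h6, ?_⟩
        exact (Sum.inr.inj h7).symm
      | cons q' l =>
        have := h7.1
        exact nomatch this
  · rintro ⟨m, x, y, rfl, h1, e', t', h6, rfl⟩
    exact ⟨_, ⟨m, x, y, rfl, h1⟩, rfl, _, ⟨e', t', h6, rfl⟩, rfl⟩

theorem go_fwd (I : X → Fin k)
    (a : ((E × G.C) × G.C) × G.Mem A) (l : List (((E × G.C) × G.C) × G.Mem A × (Fin k × Fin k)))
    (b : ((E × G.C) × G.Mem A) × (G.C × G.C)) :
    (G.fwd e E fE ρ ρl ρr).Go I a l b ↔ ∃ m x y, l = [(a.1, m, (x, y))] ∧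
      a.2 = G.up ρl ρr m x y ∧
      b = (G.push ρ (I (e (x, y))) (a.1.1.1, m), (a.1.1.2, a.1.2)) := by
  constructor
  · rintro ⟨s, ⟨m, x, y, rfl, h1⟩, h4⟩
    cases l with
    | nil => exact nomatch h4
    | cons q l =>
      obtain ⟨h5, t, h6, h7⟩ := h4
      obtain rfl := Sum.inl.inj h5
      have h6' : t = Sum.inr (G.push ρ (I (e (x, y))) (a.1.1.1, m), (a.1.1.2, a.1.2)) := h6
      subst h6'
      cases l with
      | nil =>
        refine ⟨m, x, y, rfl, h1, ?_⟩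
        exact (Sum.inr.inj h7).symm
      | cons q' l =>
        have := h7.1
        exact nomatch this
  · rintro ⟨m, x, y, rfl, h1, rfl⟩
    exact ⟨_, ⟨m, x, y, rfl, h1⟩, rfl, _, rfl, rfl⟩

theorem go_bwd (I : X → Fin k)
    (a : ((E × G.C) × G.Mem A) × (G.C × G.C))
    (l : List (((E × G.C) × (G.C × G.C)) × G.Mem A × (Fin k × Fin k)))
    (b : ((E × G.C) × G.C) × G.Mem A) :
    (G.bwd e E fE ρ ρl ρr).Go I a l b ↔ ∃ m x y, l = [((a.1.1, a.2), m, (x, y))] ∧
      a.1.2 = G.up ρl ρr m x y ∧ ∃ b', G.eff ρ G.θ₂ (a.1.1, m) (I (e (x, y))) = some b' ∧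
      b = (((b'.1, a.2.1), a.2.2), b'.2) := by
  constructor
  · rintro ⟨s, ⟨m, x, y, rfl, h1⟩, h4⟩
    cases l with
    | nil => exact nomatch h4
    | cons q l =>
      obtain ⟨h5, t, ⟨b', h6, rfl⟩, h7⟩ := h4
      obtain rfl := Sum.inl.inj h5
      cases l with
      | nil =>
        refine ⟨m, x, y, rfl, h1, b', h6, ?_⟩
        exact (Sum.inr.inj h7).symm
      | cons q' l =>
        have := h7.1
        exact nomatch this
  · rintro ⟨m, x, y, rfl, h1, b', h6, rfl⟩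
    exact ⟨_, ⟨m, x, y, rfl, h1⟩, rfl, _, ⟨b', h6, rfl⟩, rfl⟩

end

/-! ### Specifications -/

/-- A fragment that has exactly the effect of `θ`, with unique traversals of length `τ`, all of
whose queries are thrifty. -/
def RunSpec {n : ℕ} {E E' : Type} (ρ : Fin (2 * A + 3)) (θ : E × G.H → Fin k → Option (E' × G.H))
    (τ : ℕ) (F : Frag (TVar k n) (Fin k) (E × G.Mem A) (E' × G.Mem A)) : Prop :=
  ∀ (I : TVar k n → Fin k) (a : E × G.Mem A),
    (∀ l b, F.Go I a l b → G.eff ρ θ a (val n I) = some b ∧ l.length = τ ∧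
      ∀ q ∈ l, IsThrifty n I (F.var q)) ∧
    (∀ b, G.eff ρ θ a (val n I) = some b → ∃ l, F.Go I a l b) ∧
    (∀ l l' b b', F.Go I a l b → F.Go I a l' b' → l = l')

/-- A fragment that does the same as locking the value of a subtree, then `W`, and then
unlocking. -/
def NestSpec {n : ℕ} {X E E' : Type} (ρ : Fin (2 * A + 3)) (e : TVar k n → X) (τ : ℕ)
    (W : Frag X (Fin k) ((E × G.C) × G.Mem A) ((E' × G.C) × G.Mem A))
    (F : Frag X (Fin k) (E × G.Mem A) (E' × G.Mem A)) : Prop :=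
  ∀ (I : X → Fin k) (a : E × G.Mem A),
    ∃ g : List W.Q → ((E' × G.C) × G.Mem A) → List F.Q,
      (∀ l b, F.Go I a l b ↔ ∃ lW b', W.Go I (G.push ρ (val n fun x => I (e x)) a) lW b' ∧
        G.eff ρ G.θ₂ b' (val n fun x => I (e x)) = some b ∧ l = g lW b') ∧
      (∀ lW b' b, W.Go I (G.push ρ (val n fun x => I (e x)) a) lW b' →
        G.eff ρ G.θ₂ b' (val n fun x => I (e x)) = some b →
        (g lW b').length = lW.length + τ ∧ ∀ q ∈ g lW b',
          (∃ x, F.var q = e x ∧ IsThrifty n (fun x => I (e x)) x) ∨ ∃ q' ∈ lW, F.var q = W.var q')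

/-- `W` does not change the scratch registers of the lower levels of the block. -/
def Pres {X B B' : Type} (r : Fin (2 * A + 3)) (j : ℕ)
    (W : Frag X (Fin k) (B × G.Mem A) (B' × G.Mem A)) : Prop :=
  ∀ (I : X → Fin k) a l b, W.Go I a l b → ∀ j' < j, ∀ s, b.2 (sc r j' s) = a.2 (sc r j' s)

theorem length_three {P Q R : Type} (p : List P) (q : List Q) (r : List R) :
    (p.map Sum.inl ++ (q.map Sum.inl ++ r.map Sum.inr).map Sum.inr : List (P ⊕ (Q ⊕ R))).length =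
      p.length + (q.length + r.length) := by
  simp only [List.length_append, List.length_map]

/-- Unlocking by running a subtree. -/
theorem nestSpec_run {n : ℕ} {X E E' : Type} {ρ : Fin (2 * A + 3)} {e : TVar k n → X} {τ : ℕ}
    (W : Frag X (Fin k) ((E × G.C) × G.Mem A) ((E' × G.C) × G.Mem A))
    {R₁ : Frag (TVar k n) (Fin k) (E × G.Mem A) ((E × G.C) × G.Mem A)}
    {R₂ : Frag (TVar k n) (Fin k) ((E' × G.C) × G.Mem A) (E' × G.Mem A)}
    (h₁ : G.RunSpec ρ G.θ₁ τ R₁) (h₂ : G.RunSpec ρ G.θ₂ τ R₂) :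
    G.NestSpec ρ e (2 * τ) W ((R₁.mapVar e).comp (W.comp (R₂.mapVar e))) := by
  classical
  intro I a
  set z := val n fun x => I (e x) with hz
  obtain ⟨l₁, hl₁⟩ := (h₁ (fun x => I (e x)) a).2.1 (G.push ρ z a) rfl
  let l₂ : ((E' × G.C) × G.Mem A) → List R₂.Q := fun b' =>
    if h : ∃ l b, R₂.Go (fun x => I (e x)) b' l b then h.choose else []
  have hl₂ : ∀ b' l b, R₂.Go (fun x => I (e x)) b' l b → l = l₂ b' := by
    intro b' l b h
    have hex : ∃ l b, R₂.Go (fun x => I (e x)) b' l b := ⟨l, b, h⟩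
    have h3 : l₂ b' = hex.choose := dif_pos hex
    rw [h3]
    obtain ⟨b'', hb''⟩ := hex.choose_spec
    exact (h₂ (fun x => I (e x)) b').2.2 _ _ _ _ h hb''
  refine ⟨fun lW b' => l₁.map Sum.inl ++ ((lW.map Sum.inl ++ (l₂ b').map Sum.inr).map Sum.inr),
    ?_, ?_⟩
  · intro l b
    constructor
    · intro h
      obtain ⟨b₁, k₁, k₂, rfl, h3, h4⟩ := (Frag.go_comp _ _ I a l b).1 h
      obtain ⟨b₂, k₃, k₄, rfl, h5, h6⟩ := (Frag.go_comp _ _ I b₁ k₂ b).1 h4
      replace h3 := (Frag.go_mapVar e R₁ I a k₁ b₁).1 h3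
      replace h6 := (Frag.go_mapVar e R₂ I b₂ k₄ b).1 h6
      have h7 := ((h₁ (fun x => I (e x)) a).1 k₁ b₁ h3).1
      have h8 : b₁ = G.push ρ z a := (Option.some.inj h7).symm
      have h9 := ((h₂ (fun x => I (e x)) b₂).1 k₄ b h6).1
      have h10 := (h₁ (fun x => I (e x)) a).2.2 _ _ _ _ h3 hl₁
      have h11 := hl₂ _ _ _ h6
      subst h8
      exact ⟨k₃, b₂, h5, h9, by rw [h10, h11]; rfl⟩
    · rintro ⟨lW, b', h3, h4, rfl⟩
      obtain ⟨k₄, h5⟩ := (h₂ (fun x => I (e x)) b').2.1 b h4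
      have h6 := hl₂ _ _ _ h5
      subst h6
      exact (Frag.go_comp _ _ I a _ b).2 ⟨_, _, _, rfl, (Frag.go_mapVar e R₁ I a _ _).2 hl₁,
        (Frag.go_comp _ _ I _ _ b).2 ⟨_, _, _, rfl, h3, (Frag.go_mapVar e R₂ I _ _ _).2 h5⟩⟩
  · intro lW b' b h3 h4
    obtain ⟨k₄, h5⟩ := (h₂ (fun x => I (e x)) b').2.1 b h4
    have h6 := hl₂ _ _ _ h5
    subst h6
    have h7 := (h₁ (fun x => I (e x)) a).1 l₁ _ hl₁
    have h8 := (h₂ (fun x => I (e x)) b').1 _ b h5
    refine ⟨?_, ?_⟩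
    · refine (length_three l₁ lW (l₂ b')).trans ?_
      rw [h7.2.1, h8.2.1]
      omega
    · intro q hq
      rcases List.mem_append.1 hq with hq | hq
      · obtain ⟨p, hp, rfl⟩ := List.mem_map.1 hq
        exact Or.inl ⟨R₁.var p, rfl, h7.2.2 p hp⟩
      obtain ⟨q, hq', rfl⟩ := List.mem_map.1 hq
      rcases List.mem_append.1 hq' with hq' | hq'
      · obtain ⟨p, hp, rfl⟩ := List.mem_map.1 hq'
        exact Or.inr ⟨p, hp, rfl⟩
      · obtain ⟨p, hp, rfl⟩ := List.mem_map.1 hq'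
        exact Or.inl ⟨R₂.var p, rfl, h8.2.2 p hp⟩

end Pool.Agent.ThriftyBP.Lock
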