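import Pool.Agent.ThriftyBP.Uniform
import Pool.Agent.ThriftyBP.LockAsymp

/-!
# The uniform upper bound with a bound on the time
-/

namespace Pool.Agent.ThriftyBP

open Real Lock

/-- The choice of the parameters. -/
theorem exists_params (n k : ℕ) (hk : 2 ≤ k) : ∃ m M : ℕ, 1 ≤ m ∧ 16 ≤ M ∧ k ≤ M ^ (2 * m) ∧
    ∀ (p q : ℕ) (S : ℝ),
      S ≤ 3 * ((M : ℝ) ^ (p * n) * ((m * (M : ℝ) ^ 3) ^ (q * m) * (k : ℝ) ^ 2)) →
      S ≤ exp ((3 * p + 10 * q + 2 : ℕ) *
        (log k + (n + 1) + √((n + 1) * log k * log (2 + log k)))) := by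
  have hk' : (2 : ℝ) ≤ k := by exact_mod_cast hk
  have hk0 : (0 : ℝ) < k := by linarith
  set L := log (k : ℝ) with hL
  have hL0 : 0 < L := Real.log_pos (by linarith)
  set lam := log (2 + L) with hlam
  have hlam0 : 0 < lam := Real.log_pos (by linarith)
  have hlam1 : lam ≤ 1 + L := by
    have := Real.log_le_sub_one_of_pos (show 0 < 2 + L by linarith)
    linarith
  set h : ℝ := (n : ℝ) + 1 with hh
  have hh1 : 1 ≤ h := by
    have : (0 : ℝ) ≤ n := Nat.cast_nonneg n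
    linarith
  set a := √(L * lam / h) with ha
  have ha0 : 0 < a := Real.sqrt_pos.2 (by positivity)
  set Rt := √(h * L * lam) with hRt
  have hRt0 : 0 ≤ Rt := Real.sqrt_nonneg _
  have haR : h * a = Rt := by
    rw [ha, hRt]
    have : h = √(h ^ 2) := (Real.sqrt_sq (by linarith)).symm
    nth_rewrite 1 [this]
    rw [← Real.sqrt_mul (by positivity)]
    congr 1
    field_simp
  have haR' : L * lam = a * Rt := by
    have h1 : a * a = L * lam / h := Real.mul_self_sqrt (by positivity)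
    rw [← haR]
    have : a * (h * a) = h * (a * a) := by ring
    rw [this, h1]
    field_simp
  have haR2 : a ≤ Rt := by
    rw [← haR]
    nlinarith
  set M : ℕ := ⌈16 * exp a⌉₊ with hM
  have hM1 : 16 * exp a ≤ M := Nat.le_ceil _
  have hea : 1 ≤ exp a := Real.one_le_exp ha0.le
  have hM2 : (M : ℝ) ≤ 17 * exp a := by
    have := (Nat.ceil_lt_add_one (show 0 ≤ 16 * exp a by positivity)).le
    rw [← hM] at this
    linarith
  have hM16 : 16 ≤ M := by
    have : (16 : ℝ) ≤ M := by linarith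
    exact_mod_cast this
  have hM0 : (0 : ℝ) < M := by
    have : (16 : ℝ) ≤ M := by exact_mod_cast hM16
    linarith
  set l := log (M : ℝ) with hl
  have hl1 : a ≤ l := by
    rw [hl, Real.le_log_iff_exp_le hM0]
    linarith
  have hl2 : l ≤ 3 + a := by
    rw [hl, Real.log_le_iff_le_exp hM0, Real.exp_add]
    refine hM2.trans (mul_le_mul_of_nonneg_right ?_ (Real.exp_pos _).le)
    have h1 := Real.exp_one_gt_d9
    have h2 : exp (3 : ℝ) = exp 1 ^ 3 := by
      rw [← Real.exp_nat_mul]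
      norm_num
    rw [h2]
    have h3 : (2.7 : ℝ) ^ 3 ≤ exp 1 ^ 3 := pow_le_pow_left₀ (by norm_num) (by linarith) 3
    refine le_trans ?_ h3
    norm_num
  have hl0 : 0 < l := lt_of_lt_of_le ha0 hl1
  have hl3 : 1 ≤ l := by
    rw [hl, Real.le_log_iff_exp_le hM0]
    have h1 := Real.exp_one_lt_d9
    have : (16 : ℝ) ≤ M := by exact_mod_cast hM16
    linarith
  set m : ℕ := ⌈L / (2 * l)⌉₊ with hm
  have hm0 : 0 < L / (2 * l) := by positivity
  have hm1 : 1 ≤ m := Nat.one_le_ceil_iff.2 hm0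
  have hm2 : L / (2 * l) ≤ m := Nat.le_ceil _
  have hm3 : (m : ℝ) ≤ L / (2 * l) + 1 := (Nat.ceil_lt_add_one hm0.le).le
  have hmr : (1 : ℝ) ≤ m := by exact_mod_cast hm1
  have hkM : k ≤ M ^ (2 * m) := by
    have h1 : L ≤ ((2 * m : ℕ) : ℝ) * l := by
      rw [div_le_iff₀ (by positivity)] at hm2
      push_cast
      linarith
    have h2 : (k : ℝ) ≤ (M : ℝ) ^ (2 * m) := by
      rw [← Real.exp_log hk0, ← Real.exp_log hM0, ← Real.exp_nat_mul]
      exact Real.exp_le_exp.2 h1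
    exact_mod_cast h2
  refine ⟨m, M, hm1, hM16, hkM, fun p q S hs => ?_⟩
  -- the factors
  have hml : (m : ℝ) * l ≤ L / 2 + 3 + Rt := by
    have h1 : (m : ℝ) * l ≤ (L / (2 * l) + 1) * l := mul_le_mul_of_nonneg_right hm3 hl0.le
    have h2 : (L / (2 * l) + 1) * l = L / 2 + l := by
      field_simp
    linarith
  have hlogm : log (m : ℝ) ≤ lam := by
    rw [hlam]
    apply Real.log_le_log (by linarith)
    have h1 : L / (2 * l) ≤ L := by
      rw [div_le_iff₀ (by positivity)]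
      nlinarith
    linarith
  have hlogm0 : 0 ≤ log (m : ℝ) := Real.log_nonneg hmr
  have hmlam : (m : ℝ) * lam ≤ Rt + 1 + L := by
    have h1 : (m : ℝ) * lam ≤ (L / (2 * l) + 1) * lam := mul_le_mul_of_nonneg_right hm3 hlam0.le
    have h2 : L / (2 * l) * lam ≤ Rt := by
      rw [div_mul_eq_mul_div, haR', div_le_iff₀ (by positivity)]
      nlinarith
    linarith
  have f1 : (3 : ℝ) ≤ exp 2 := by
    have := Real.add_one_le_exp (2 : ℝ)
    linarith
  have hp0 : (0 : ℝ) ≤ p := Nat.cast_nonneg p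
  have hq0 : (0 : ℝ) ≤ q := Nat.cast_nonneg q
  have f2 : (M : ℝ) ^ (p * n) ≤ exp (p * (3 * h + Rt)) := by
    apply pow_le_exp hM0
    push_cast
    have h1 : (n : ℝ) * l ≤ h * (3 + a) := by
      apply mul_le_mul (by linarith) hl2 hl0.le (by linarith)
    have h2 : (p : ℝ) * (n * l) ≤ p * (3 * h + Rt) :=
      mul_le_mul_of_nonneg_left (by rw [← haR]; linarith) hp0
    linarith
  have f3 : (m * (M : ℝ) ^ 3) ^ (q * m) ≤ exp (q * ((Rt + 1 + L) + 3 * (L / 2 + 3 + Rt))) := by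
    apply pow_le_exp (by positivity)
    rw [Real.log_mul (by positivity) (by positivity), Real.log_pow]
    push_cast
    have h1 : (m : ℝ) * log m ≤ m * lam := mul_le_mul_of_nonneg_left hlogm (by linarith)
    have h2 : (q : ℝ) * (m * log m + 3 * (m * l)) ≤
        q * ((Rt + 1 + L) + 3 * (L / 2 + 3 + Rt)) :=
      mul_le_mul_of_nonneg_left (by linarith) hq0
    have h3 : (q : ℝ) * m * (log m + 3 * log (M : ℝ)) = q * (m * log m + 3 * (m * l)) := by
      rw [hl]
      ring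
    linarith
  have f4 : (k : ℝ) ^ 2 ≤ exp (2 * L) := by
    apply pow_le_exp hk0
    push_cast
    exact le_rfl
  calc S ≤ 3 * ((M : ℝ) ^ (p * n) * ((m * (M : ℝ) ^ 3) ^ (q * m) * (k : ℝ) ^ 2)) := hs
    _ ≤ exp 2 * (exp (p * (3 * h + Rt)) *
        (exp (q * ((Rt + 1 + L) + 3 * (L / 2 + 3 + Rt))) * exp (2 * L))) := by
        gcongr
    _ = exp (2 + (p * (3 * h + Rt) + (q * ((Rt + 1 + L) + 3 * (L / 2 + 3 + Rt)) + 2 * L))) := by
        rw [Real.exp_add 2, Real.exp_add (p * (3 * h + Rt)),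
          Real.exp_add (q * ((Rt + 1 + L) + 3 * (L / 2 + 3 + Rt))) (2 * L)]
    _ ≤ exp ((3 * p + 10 * q + 2 : ℕ) * (L + h + Rt)) := by
        apply Real.exp_le_exp.2
        push_cast
        have g1 : 0 ≤ (p : ℝ) * L := by positivity
        have g2 : 0 ≤ (p : ℝ) * Rt := by positivity
        have g3 : 0 ≤ (q : ℝ) * L := by positivity
        have g4 : 0 ≤ (q : ℝ) * Rt := by positivity
        have g5 : (q : ℝ) ≤ q * h := le_mul_of_one_le_right hq0 hh1
        have g6 : (3 * (p : ℝ) + 10 * q + 2) * (L + h + Rt) =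
          3 * (p * L) + 3 * (p * h) + 3 * (p * Rt) + 10 * (q * L) + 10 * (q * h) + 10 * (q * Rt)
            + 2 * L + 2 * h + 2 * Rt := by ring
        have g7 : 2 + (p * (3 * h + Rt) + (q * ((Rt + 1 + L) + 3 * (L / 2 + 3 + Rt)) + 2 * L)) =
          2 + 3 * (p * h) + p * Rt + 4 * (q * Rt) + 10 * q + (5 / 2) * (q * L) + 2 * L := by ring
        rw [g6, g7]
        linarith

/-- The size in terms of the parameters. -/
theorem lock_size (A n k m M : ℕ) (hk1 : 1 ≤ k) (hm : 1 ≤ m) (hM : 16 ≤ M)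
    (hk : k ≤ M ^ (2 * m)) :
    ∃ B : NBP (TVar k n) (Fin k) (Fin k), B.Computes (val n) ∧ Thrifty B ∧ B.Unambiguous ∧
      Fast B (2 ^ (n + 2 + n / (A + 1))) ∧
      B.size ≤ 3 * (M ^ ((12 * ax A + 20) * n) *
        ((m * M ^ 3) ^ (5 * (2 * A + 3) * m) * k ^ 2)) := by
  have hk' : k * (16 * M) ^ m ≤ M ^ (4 * m) := by
    calc k * (16 * M) ^ m ≤ M ^ (2 * m) * (M * M) ^ m := by
          refine Nat.mul_le_mul hk (Nat.pow_le_pow_left (Nat.mul_le_mul_right _ hM) _)
      _ = M ^ (4 * m) := by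
          rw [← pow_two, ← pow_mul, ← pow_add]
          congr 1
          ring
  obtain ⟨G, hG1, hG2⟩ := exists_lock_code k m M hm (by omega) hk'
  refine ⟨G.prog A n, G.computes_prog A n, G.thrifty_prog A n, G.unambiguous_prog A n,
    G.length_prog A n, ?_⟩
  have hs := G.size_prog A hk1 n
  have hcc : G.cc = 8 * M ^ 2 + 1 := hG2
  have hM2 : 1 ≤ M ^ 2 := Nat.one_le_pow _ _ (by omega)
  have hc : 8 * M ^ 2 + 1 ≤ M ^ 3 := by
    calc 8 * M ^ 2 + 1 ≤ 9 * M ^ 2 := by omega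
      _ ≤ M * M ^ 2 := Nat.mul_le_mul_right _ (by omega)
      _ = M ^ 3 := by ring
  have h1 : G.YY A ≤ M ^ (6 * ax A + 10) := by
    unfold Lock.YY
    rw [hcc]
    calc 4 * ((8 * M ^ 2 + 1) ^ ax A) ^ 2 * (8 * M ^ 2 + 1) ^ 3
        ≤ M * ((M ^ 3) ^ ax A) ^ 2 * (M ^ 3) ^ 3 := by
          gcongr
          omega
      _ = M ^ (6 * ax A + 10) := by
          rw [← pow_mul, ← pow_mul, ← pow_mul]
          ring
  have h2 : G.YY A ^ (2 * n) ≤ M ^ ((12 * ax A + 20) * n) := by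
    calc G.YY A ^ (2 * n) ≤ (M ^ (6 * ax A + 10)) ^ (2 * n) := Nat.pow_le_pow_left h1 _
      _ = M ^ ((12 * ax A + 20) * n) := by
          rw [← pow_mul]
          congr 1
          ring
  have hpos : 0 < m * M ^ 3 := by positivity
  have h3 : G.PP A ≤ (m * M ^ 3) ^ (5 * (2 * A + 3) * m) * k ^ 2 := by
    unfold Lock.PP
    rw [hG1, ← pow_mul]
    refine Nat.mul_le_mul_right _ ?_
    refine (Nat.pow_le_pow_left (Nat.mul_le_mul_left m hc) _).trans
      (Nat.pow_le_pow_right hpos ?_)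
    calc (4 * m + 1) * (2 * A + 3) ≤ (5 * m) * (2 * A + 3) := Nat.mul_le_mul_right _ (by omega)
      _ = 5 * (2 * A + 3) * m := by ring
  have h5 := Nat.mul_le_mul h2 h3
  have h6 : 0 < M ^ ((12 * ax A + 20) * n) := by positivity
  have h7 : 0 < (m * M ^ 3) ^ (5 * (2 * A + 3) * m) := by positivity
  have h8 : k ≤ M ^ ((12 * ax A + 20) * n) *
        ((m * M ^ 3) ^ (5 * (2 * A + 3) * m) * k ^ 2) := by
    calc k ≤ k ^ 2 := Nat.le_self_pow (by norm_num) k
      _ ≤ (m * M ^ 3) ^ (5 * (2 * A + 3) * m) * k ^ 2 := Nat.le_mul_of_pos_left _ h7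
      _ ≤ _ := Nat.le_mul_of_pos_left _ h6
  have h9 := hk1.trans h8
  omega

/-- The uniform upper bound with a bound on the time. -/
theorem exists_fast_uniform (A n k : ℕ) (hk : 2 ≤ k) :
    ∃ B : NBP (TVar k n) (Fin k) (Fin k), B.Computes (val n) ∧ Thrifty B ∧ B.Unambiguous ∧
      Fast B (2 ^ (n + 2 + n / (A + 1))) ∧
      (B.size : ℝ) ≤ exp (212 * 2 ^ A *
        (log k + (n + 1) + √((n + 1) * log k * log (2 + log k)))) := by
  obtain ⟨m, M, hm, hM, hkM, hpq⟩ := exists_params n k hk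
  obtain ⟨B, hB1, hB2, hB3, hB4, hB5⟩ := lock_size A n k m M (by omega) hm hM hkM
  refine ⟨B, hB1, hB2, hB3, hB4, ?_⟩
  refine (hpq (12 * ax A + 20) (5 * (2 * A + 3)) B.size (by exact_mod_cast hB5)).trans ?_
  apply Real.exp_le_exp.2
  apply mul_le_mul_of_nonneg_right
  · have h1 := ax_eq A
    have h2 : 2 ^ (A + 1) = 2 * 2 ^ A := by ring
    have h3 : A + 1 ≤ 2 ^ A := Nat.lt_two_pow_self
    have h4 : 3 * (12 * ax A + 20) + 10 * (5 * (2 * A + 3)) + 2 ≤ 212 * 2 ^ A := by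
      omega
    exact_mod_cast h4
  · have h1 : (2 : ℝ) ≤ k := by exact_mod_cast hk
    have h2 : 0 ≤ log (k : ℝ) := Real.log_nonneg (by linarith)
    positivity

end Pool.Agent.ThriftyBP
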