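import Pool.Agent.ThriftyBP.PathLemmas

/-!
# Nodes of the tree, inputs given by labellings of the nodes, and black pebbling
-/

namespace Pool.Agent.ThriftyBP

/-- The nodes of the complete binary tree with `n + 1` levels; `none` is the root. -/
def Nd : ℕ → Type
  | 0 => Unit
  | n + 1 => Option (Bool × Nd n)

namespace Nd

noncomputable instance instFintype : (n : ℕ) → Fintype (Nd n)
  | 0 => inferInstanceAs (Fintype Unit)
  | n + 1 => letI := instFintype n; inferInstanceAs (Fintype (Option (Bool × Nd n)))

/-- The root. -/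
def root : (n : ℕ) → Nd n
  | 0 => ()
  | _ + 1 => none

/-- `Child p c`: the node `c` is a child of the node `p`. -/
def Child : (n : ℕ) → Nd n → Nd n → Prop
  | 0, _, _ => False
  | _ + 1, _, none => False
  | n + 1, none, some (_, j) => j = root n
  | n + 1, some (b, i), some (c, j) => b = c ∧ Child n i j

theorem child_irrefl (n : ℕ) (j : Nd n) : ¬ Child n j j := by
  induction n with
  | zero => exact id
  | succ n ih =>
    rcases j with _ | ⟨b, j⟩
    · exact id
    · intro h
      exact ih j h.2

end Nd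

/-- The node to which a variable belongs. -/
def node {k : ℕ} : (n : ℕ) → TVar k n → Nd n
  | 0, _ => ()
  | _ + 1, Sum.inl _ => none
  | n + 1, Sum.inr (b, x) => some (b, node n x)

/-- The input in which all entries that belong to the node `j` are `v j`. -/
def inp {k n : ℕ} (v : Nd n → Fin k) : TVar k n → Fin k := fun x => v (node n x)

theorem sub_inp {k n : ℕ} (v : Nd (n + 1) → Fin k) (b : Bool) :
    sub (inp v) b = inp (fun j => v (some (b, j))) := rfl

theorem val_inp {k : ℕ} (n : ℕ) (v : Nd n → Fin k) : val n (inp v) = v (Nd.root n) := by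
  cases n with
  | zero => rfl
  | succ n => rfl

/-- If a variable is thrifty for the inputs of two labellings, then they agree on the children of
its node. -/
theorem thrifty_child {k : ℕ} (n : ℕ) (v v' : Nd n → Fin k) (x : TVar k n)
    (h : IsThrifty n (inp v) x) (h' : IsThrifty n (inp v') x) (j : Nd n)
    (hj : Nd.Child n (node n x) j) : v j = v' j := by
  induction n with
  | zero => exact hj.elim
  | succ n ih =>
    rcases j with _ | ⟨c, j⟩
    · rcases x with ⟨a, b⟩ | ⟨b, x⟩
      · exact hj.elim
      · exact hj.elim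
    · rcases x with ⟨a, b⟩ | ⟨b, x⟩
      · have hj' : j = Nd.root n := hj
        subst hj'
        obtain ⟨h1, h2⟩ := h
        obtain ⟨h1', h2'⟩ := h'
        rw [sub_inp, val_inp] at h1 h2 h1' h2'
        cases c
        · exact h1.symm.trans h1'
        · exact h2.symm.trans h2'
      · obtain ⟨rfl, hj⟩ : b = c ∧ Nd.Child n (node n x) j := hj
        exact ih (fun j => v (some (b, j))) (fun j => v' (some (b, j))) x h h' j hj

/-- Thriftiness for the input of a labelling only depends on the values at the children. -/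
theorem isThrifty_inp_congr {k : ℕ} (n : ℕ) (v v' : Nd n → Fin k) (x : TVar k n)
    (hv : ∀ j, Nd.Child n (node n x) j → v j = v' j) (h : IsThrifty n (inp v) x) :
    IsThrifty n (inp v') x := by
  induction n with
  | zero => trivial
  | succ n ih =>
    rcases x with ⟨a, b⟩ | ⟨b, x⟩
    · obtain ⟨h1, h2⟩ := h
      rw [sub_inp, val_inp] at h1 h2
      refine ⟨?_, ?_⟩
      · rw [sub_inp, val_inp, h1]
        exact hv (some (false, Nd.root n)) rfl
      · rw [sub_inp, val_inp, h2]
        exact hv (some (true, Nd.root n)) rfl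
    · exact ih (fun j => v (some (b, j))) (fun j => v' (some (b, j))) x
        (fun j hj => hv (some (b, j)) ⟨rfl, hj⟩) h

/-! ### Pebbling -/

/-- The nodes which are children of a later node of the list and do not occur before it. -/
def Peb {n : ℕ} : List (Nd n) → Set (Nd n)
  | [] => ∅
  | p :: L => {j | Nd.Child n p j ∨ (j ≠ p ∧ j ∈ Peb L)}

theorem exists_parent_of_mem_peb {n : ℕ} {L : List (Nd n)} {j : Nd n} (h : j ∈ Peb L) :
    ∃ p ∈ L, Nd.Child n p j := by
  induction L with
  | nil => exact h.elim
  | cons p L ih =>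
    rcases h with h | ⟨_, h⟩
    · exact ⟨p, List.mem_cons_self, h⟩
    · obtain ⟨p', h1, h2⟩ := ih h
      exact ⟨p', List.mem_cons_of_mem _ h1, h2⟩

theorem exists_parent_before {n : ℕ} {A B : List (Nd n)} {j : Nd n} (h : j ∈ Peb (A ++ j :: B)) :
    ∃ p ∈ A, Nd.Child n p j := by
  induction A with
  | nil =>
    rcases h with h | ⟨h, _⟩
    · exact (Nd.child_irrefl n j h).elim
    · exact (h rfl).elim
  | cons p A ih =>
    rcases h with h | ⟨_, h⟩
    · exact ⟨p, List.mem_cons_self, h⟩
    · obtain ⟨p', h1, h2⟩ := ih h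
      exact ⟨p', List.mem_cons_of_mem _ h1, h2⟩

theorem exists_split_of_mem_peb {n : ℕ} {L : List (Nd n)} {j : Nd n} (h : j ∈ Peb L) :
    ∃ A p B, L = A ++ p :: B ∧ Nd.Child n p j ∧ j ∉ A := by
  induction L with
  | nil => exact h.elim
  | cons p L ih =>
    rcases h with h | ⟨h0, h⟩
    · exact ⟨[], p, L, rfl, h, List.not_mem_nil⟩
    · obtain ⟨A, p', B, rfl, h1, h2⟩ := ih h
      exact ⟨p :: A, p', B, rfl, h1, by simp [h0, h2]⟩

/-- A pebbling move, or a removal of pebbles. -/
def Move {n : ℕ} (C C' : Set (Nd n)) : Prop :=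
  C' ⊆ C ∨ ∃ p, C' ⊆ insert p C ∧ ∀ j, Nd.Child n p j → j ∈ C

theorem move_peb {n : ℕ} (p : Nd n) (L : List (Nd n)) : Move (Peb (p :: L)) (Peb L) := by
  refine Or.inr ⟨p, ?_, fun j hj => Or.inl hj⟩
  intro j hj
  by_cases h : j = p
  · exact Or.inl h
  · exact Or.inr (Or.inr ⟨h, hj⟩)

/-- The part of a set of nodes in a subtree. -/
def part {n : ℕ} (b : Bool) (C : Set (Nd (n + 1))) : Set (Nd n) := {j | (some (b, j) : Nd (n+1)) ∈ C}

theorem move_part {n : ℕ} (b : Bool) {C C' : Set (Nd (n + 1))} (h : Move C C') :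
    Move (part b C) (part b C') := by
  rcases h with h | ⟨p, h1, h2⟩
  · exact Or.inl fun j hj => h hj
  · rcases p with _ | ⟨c, p⟩
    · refine Or.inl fun j hj => ?_
      rcases h1 hj with h | h
      · exact nomatch h
      · exact h
    · by_cases hbc : c = b
      · subst hbc
        refine Or.inr ⟨p, fun j hj => ?_, fun j hj => h2 (some (c, j)) ⟨rfl, hj⟩⟩
        rcases h1 hj with h | h
        · have : j = p := by
            have h' : (some (c, j) : Option (Bool × Nd n)) = some (c, p) := h
            simpa using h'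
          exact Or.inl this
        · exact Or.inr h
      · refine Or.inl fun j hj => ?_
        rcases h1 hj with h | h
        · have h' : (some (b, j) : Option (Bool × Nd n)) = some (c, p) := h
          simp only [Option.some.injEq, Prod.mk.injEq] at h'
          exact (hbc h'.1.symm).elim
        · exact h

theorem ncard_parts {n : ℕ} (C : Set (Nd (n + 1))) (b : Bool) :
    (part b C).ncard + (part (!b) C).ncard ≤ C.ncard := by
  have hinj : ∀ c : Bool, Function.Injective (fun j : Nd n => (some (c, j) : Nd (n + 1))) := by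
    intro c j j' h
    have h' : (some (c, j) : Option (Bool × Nd n)) = some (c, j') := h
    simpa using h'
  rw [← Set.ncard_image_of_injective (part b C) (hinj b),
    ← Set.ncard_image_of_injective (part (!b) C) (hinj (!b)), ← Set.ncard_union_eq]
  · apply Set.ncard_le_ncard
    · rintro x (⟨j, hj, rfl⟩ | ⟨j, hj, rfl⟩)
      · exact hj
      · exact hj
    · exact Set.toFinite _
  · rw [Set.disjoint_left]
    rintro x ⟨j, _, rfl⟩ ⟨j', _, h⟩
    have h' : (some (!b, j') : Option (Bool × Nd n)) = some (b, j) := h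
    simp at h'

mutual

/-- Black pebbling: to pebble the root of a tree with `n + 1` levels takes `n + 1` pebbles. -/
theorem pebble_root : (n : ℕ) → ∀ (C : ℕ → Set (Nd n)) (a b : ℕ), a ≤ b → C a = ∅ →
    Nd.root n ∈ C b → (∀ i, a ≤ i → i < b → Move (C i) (C (i + 1))) →
    ∃ i, a ≤ i ∧ i ≤ b ∧ n + 1 ≤ (C i).ncard
  | 0, C, a, b, hab, _, hb, _ => by
    refine ⟨b, hab, le_rfl, ?_⟩
    have : 0 < (C b).ncard := (Set.ncard_pos (Set.toFinite _)).2 ⟨_, hb⟩
    omega
  | n + 1, C, a, b, hab, ha, hb, hm => by
    -- the first time that the root is pebbled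
    have h1 : ∃ i, a ≤ i ∧ i < b ∧ Nd.root (n + 1) ∉ C i ∧ Nd.root (n + 1) ∈ C (i + 1) := by
      by_contra hcon
      push Not at hcon
      have : ∀ i, a ≤ i → i ≤ b → Nd.root (n + 1) ∉ C i := by
        intro i hi
        induction i, hi using Nat.le_induction with
        | base => intro _; rw [ha]; exact id
        | succ i hi ih => intro h; exact hcon i hi (by omega) (ih (by omega))
      exact this b hab le_rfl hb
    obtain ⟨i, h2, h3, h4, h5⟩ := h1
    have h6 : ∀ j, Nd.Child (n + 1) (Nd.root (n + 1)) j → j ∈ C i := by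
      rcases hm i h2 h3 with h | ⟨p, h, h'⟩
      · exact (h4 (h h5)).elim
      · rcases h h5 with h'' | h''
        · rw [h'']
          exact h'
        · exact (h4 h'').elim
    obtain ⟨i', h7, h8, h9⟩ := pebble_children n C a i h2 ha h6
      (fun i' hi' hi'' => hm i' hi' (by omega))
    exact ⟨i', h7, by omega, h9⟩

/-- Black pebbling: it takes `n + 2` pebbles to pebble both children of the root of a tree with
`n + 2` levels. -/
theorem pebble_children : (n : ℕ) → ∀ (C : ℕ → Set (Nd (n + 1))) (a b : ℕ), a ≤ b → C a = ∅ →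
    (∀ j, Nd.Child (n + 1) (Nd.root (n + 1)) j → j ∈ C b) →
    (∀ i, a ≤ i → i < b → Move (C i) (C (i + 1))) →
    ∃ i, a ≤ i ∧ i ≤ b ∧ n + 2 ≤ (C i).ncard
  | n, C, a, b, hab, ha, hb, hm => by
    classical
    let S : Finset ℕ := (Finset.Icc a b).filter fun i => ∃ c, part c (C i) = ∅
    have haS : a ∈ S := by
      refine Finset.mem_filter.2 ⟨Finset.mem_Icc.2 ⟨le_rfl, hab⟩, true, ?_⟩
      rw [ha]
      rfl
    obtain ⟨t, htS, htmax⟩ := S.exists_max_image id ⟨a, haS⟩
    obtain ⟨ht, c, hc⟩ := Finset.mem_filter.1 htS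
    obtain ⟨hat, htb⟩ := Finset.mem_Icc.1 ht
    obtain ⟨i, h1, h2, h3⟩ := pebble_root n (fun i => part c (C i)) t b htb hc
      (hb (some (c, Nd.root n)) rfl) (fun i hi hi' => move_part c (hm i (hat.trans hi) hi'))
    have hit : i ≠ t := by
      rintro rfl
      change n + 1 ≤ (part c (C i)).ncard at h3
      rw [hc, Set.ncard_empty] at h3
      omega
    have hiS : i ∉ S := by
      intro hi
      have := htmax i hi
      simp only [id] at this
      omega
    have hne : part (!c) (C i) ≠ ∅ := by
      intro h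
      exact hiS (Finset.mem_filter.2 ⟨Finset.mem_Icc.2 ⟨hat.trans h1, h2⟩, !c, h⟩)
    have hpos : 0 < (part (!c) (C i)).ncard :=
      (Set.ncard_pos (Set.toFinite _)).2 (Set.nonempty_iff_ne_empty.2 hne)
    have := ncard_parts (C i) c
    exact ⟨i, hat.trans h1, h2, by omega⟩

end

end Pool.Agent.ThriftyBP
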