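import Mathlib

/-!
# Rooted trees whose nodes of small depth have two children
-/

namespace Pool.Agent.ThriftyBP

/-- A rooted tree in which all nodes of depth less than `n` have two children. -/
structure Tr (N : Type) [DecidableEq N] (n : ℕ) where
  root : N
  ch : N → Finset N
  dep : N → ℕ
  dep_root : dep root = 0
  dep_ch : ∀ {x z : N}, x ∈ ch z → dep x = dep z + 1
  uniq : ∀ {x z z' : N}, x ∈ ch z → x ∈ ch z' → z = z'
  card_ch : ∀ {z : N}, dep z < n → (ch z).card = 2

namespace Tr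

variable {N : Type} [DecidableEq N] {n : ℕ} (T : Tr N n)

/-- The children of the nodes of `S`. -/
def chS (S : Finset N) : Finset N := S.biUnion T.ch

theorem mem_chS {S : Finset N} {x : N} : x ∈ T.chS S ↔ ∃ z ∈ S, x ∈ T.ch z := by
  simp [chS]

theorem chS_union (S S' : Finset N) : T.chS (S ∪ S') = T.chS S ∪ T.chS S' := by
  ext x
  simp only [mem_chS, Finset.mem_union]
  constructor
  · rintro ⟨z, h | h, hz⟩
    · exact Or.inl ⟨z, h, hz⟩
    · exact Or.inr ⟨z, h, hz⟩
  · rintro (⟨z, h, hz⟩ | ⟨z, h, hz⟩)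
    · exact ⟨z, Or.inl h, hz⟩
    · exact ⟨z, Or.inr h, hz⟩

theorem chS_mono {S S' : Finset N} (h : S ⊆ S') : T.chS S ⊆ T.chS S' := by
  intro x hx
  obtain ⟨z, hz, hxz⟩ := T.mem_chS.1 hx
  exact T.mem_chS.2 ⟨z, h hz, hxz⟩

/-- All parents of nodes of `S` are in `S`. -/
def Closed (S : Finset N) : Prop := ∀ z ∈ S, z = T.root ∨ ∃ p ∈ S, z ∈ T.ch p

theorem Closed.dep_lt {T : Tr N n} {S : Finset N} (h : T.Closed S) {z : N} (hz : z ∈ S) :
    T.dep z < S.card := by
  have key : ∀ d, ∀ z ∈ S, T.dep z = d → ∀ e ≤ d, e ∈ S.image T.dep := by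
    intro d
    induction d with
    | zero =>
      intro z hz hd e he
      obtain rfl : e = 0 := by omega
      exact Finset.mem_image.2 ⟨z, hz, hd⟩
    | succ d ih =>
      intro z hz hd e he
      rcases Nat.lt_or_ge d e with h1 | h1
      · obtain rfl : e = d + 1 := by omega
        exact Finset.mem_image.2 ⟨z, hz, hd⟩
      · rcases h z hz with rfl | ⟨p, hp, hpz⟩
        · rw [T.dep_root] at hd
          omega
        · have := T.dep_ch hpz
          exact ih p hp (by omega) e h1
  have h1 : Finset.range (T.dep z + 1) ⊆ S.image T.dep := by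
    intro e he
    rw [Finset.mem_range] at he
    exact key _ z hz rfl e (by omega)
  have h2 := Finset.card_le_card h1
  rw [Finset.card_range] at h2
  have := Finset.card_image_le (s := S) (f := T.dep)
  omega

theorem card_chS {S : Finset N} (h : ∀ z ∈ S, T.dep z < n) : (T.chS S).card = 2 * S.card := by
  unfold chS
  rw [Finset.card_biUnion]
  · rw [Finset.sum_congr rfl fun z hz => T.card_ch (h z hz), Finset.sum_const, smul_eq_mul]
    ring
  · intro z _ z' _ hne
    rw [Function.onFun, Finset.disjoint_left]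
    intro x hx hx'
    exact hne (T.uniq hx hx')

theorem card_front {S : Finset N} (hS : S.Nonempty) (h : ∀ z ∈ S, T.dep z < n) :
    S.card + 1 ≤ (T.chS S \ S).card := by
  obtain ⟨z₀, hz₀, hmin⟩ := S.exists_min_image T.dep hS
  have h1 : T.chS S ∩ S ⊆ S.erase z₀ := by
    intro x hx
    rw [Finset.mem_inter] at hx
    refine Finset.mem_erase.2 ⟨?_, hx.2⟩
    rintro rfl
    obtain ⟨p, hp, hpx⟩ := T.mem_chS.1 hx.1
    have := hmin p hp
    have := T.dep_ch hpx
    omega
  have h2 := Finset.card_le_card h1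
  rw [Finset.card_erase_of_mem hz₀] at h2
  have h3 := Finset.card_inter_add_card_sdiff (T.chS S) S
  have h4 := T.card_chS h
  have h5 : 0 < S.card := Finset.card_pos.2 hS
  omega

end Tr

/-- Static data for `M` windows: the window `j` (the window `0` is the last one) has the active
nodes `R j`, reads the nodes `D j`, and lies between reads of the nodes `u (j + 1)` and `u j`. -/
structure Tr.Plan {N : Type} [DecidableEq N] {n : ℕ} (T : Tr N n) (M : ℕ) (R D : ℕ → Finset N)
    (u : ℕ → N) : Prop where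
  ne : ∀ j < M, (R j).Nonempty
  disj : ∀ i < M, ∀ j < M, i ≠ j → Disjoint (R i) (R j)
  dep : ∀ j < M, ∀ z ∈ R j, T.dep z < n
  u_R : ∀ i < M, ∀ j ≤ i + 1, u j ∉ R i
  R_D : ∀ j < M, R j ⊆ D j
  D_ch : ∀ j < M, ∀ z ∈ D j, ∀ i, j ≤ i → i < M → z ∈ T.chS (R i) →
    ∃ i', j ≤ i' ∧ i' < M ∧ z ∈ R i'
  ch_R : ∀ j < M, ∀ i, j < i → i < M → Disjoint (T.chS (R j)) (R i)

end Pool.Agent.ThriftyBP
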