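import Pool.Agent.ThriftyBP.LabelGadget

/-!
# The uniform upper bound
-/

namespace Pool.Agent.ThriftyBP

open Real

theorem pow_le_exp {x y : ℝ} {n : ℕ} (hx : 0 < x) (h : (n : ℝ) * log x ≤ y) : x ^ n ≤ exp y := by
  rw [← Real.exp_log hx, ← Real.exp_nat_mul]
  exact Real.exp_le_exp.2 h

/-- The size in terms of the parameters. -/
theorem label_size (n k m M : ℕ) (hk1 : 1 ≤ k) (hm : 1 ≤ m) (hM : 16 ≤ M) (hk : k ≤ M ^ (2 * m)) :
    ∃ B : NBP (TVar k n) (Fin k) (Fin k), B.Computes (val n) ∧ Thrifty B ∧ B.Unambiguous ∧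
      B.size ≤ 3 * (M ^ (6 * n) * ((m * M ^ 3) ^ (15 * m) * k ^ 2)) := by
  have hk' : k * (16 * M) ^ m ≤ M ^ (4 * m) := by
    calc k * (16 * M) ^ m ≤ M ^ (2 * m) * (M * M) ^ m := by
          refine Nat.mul_le_mul hk (Nat.pow_le_pow_left (Nat.mul_le_mul_right _ hM) _)
      _ = M ^ (4 * m) := by
          rw [← pow_two, ← pow_mul, ← pow_add]
          congr 1
          ring
  obtain ⟨G, hG1, hG2⟩ := exists_label_gadget k m M hm (by omega) hk'
  refine ⟨G.prog n, G.computes_prog n, G.thrifty_prog n, G.unambiguous_prog n, ?_⟩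
  have hs := G.size_prog hk1 n
  rw [hG1, hG2] at hs
  have h1 : 5 * (4 * M ^ 2 + 2) ^ 2 ≤ M ^ 6 := by
    have a1 : 4 * M ^ 2 + 2 ≤ 6 * M ^ 2 := by
      have : 1 ≤ M ^ 2 := Nat.one_le_pow _ _ (by omega)
      omega
    calc 5 * (4 * M ^ 2 + 2) ^ 2 ≤ 5 * (6 * M ^ 2) ^ 2 :=
          Nat.mul_le_mul_left _ (Nat.pow_le_pow_left a1 2)
      _ = 180 * M ^ 4 := by ring
      _ ≤ M ^ 2 * M ^ 4 := by
          refine Nat.mul_le_mul_right _ ?_
          calc 180 ≤ 16 ^ 2 := by norm_num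
            _ ≤ M ^ 2 := Nat.pow_le_pow_left hM 2
      _ = M ^ 6 := by ring
  have h2 : 2 * m * (4 * M ^ 2 + 1) ≤ m * M ^ 3 := by
    have a1 : 4 * M ^ 2 + 1 ≤ 5 * M ^ 2 := by
      have : 1 ≤ M ^ 2 := Nat.one_le_pow _ _ (by omega)
      omega
    calc 2 * m * (4 * M ^ 2 + 1) ≤ 2 * m * (5 * M ^ 2) := Nat.mul_le_mul_left _ a1
      _ = m * (10 * M ^ 2) := by ring
      _ ≤ m * (M * M ^ 2) := Nat.mul_le_mul_left _ (Nat.mul_le_mul_right _ (by omega))
      _ = m * M ^ 3 := by ring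
  have hpos : 0 < m * M ^ 3 := by positivity
  have h3 : ((2 * m * (4 * M ^ 2 + 1)) ^ (4 * m + 1)) ^ 3 ≤ (m * M ^ 3) ^ (15 * m) := by
    rw [← pow_mul]
    exact (Nat.pow_le_pow_left h2 _).trans (Nat.pow_le_pow_right hpos (by omega))
  have h4 : (5 * (4 * M ^ 2 + 2) ^ 2) ^ n ≤ M ^ (6 * n) := by
    rw [pow_mul]
    exact Nat.pow_le_pow_left h1 n
  have h5 : (5 * (4 * M ^ 2 + 2) ^ 2) ^ n * (((2 * m * (4 * M ^ 2 + 1)) ^ (4 * m + 1)) ^ 3 * k ^ 2) ≤
      M ^ (6 * n) * ((m * M ^ 3) ^ (15 * m) * k ^ 2) :=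
    Nat.mul_le_mul h4 (Nat.mul_le_mul_right _ h3)
  have h6 : 0 < M ^ (6 * n) := by positivity
  have h7 : 0 < (m * M ^ 3) ^ (15 * m) := by positivity
  have h8 : k ≤ M ^ (6 * n) * ((m * M ^ 3) ^ (15 * m) * k ^ 2) := by
    calc k ≤ k ^ 2 := Nat.le_self_pow (by norm_num) k
      _ ≤ (m * M ^ 3) ^ (15 * m) * k ^ 2 := Nat.le_mul_of_pos_left _ h7
      _ ≤ _ := Nat.le_mul_of_pos_left _ h6
  have h9 : 1 ≤ M ^ (6 * n) * ((m * M ^ 3) ^ (15 * m) * k ^ 2) := hk1.trans h8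
  omega

/-- The uniform upper bound. -/
theorem exists_uniform (n k : ℕ) (hk : 2 ≤ k) :
    ∃ B : NBP (TVar k n) (Fin k) (Fin k), B.Computes (val n) ∧ Thrifty B ∧ B.Unambiguous ∧
      (B.size : ℝ) ≤ exp (170 * (log k + (n + 1) + √((n + 1) * log k * log (2 + log k)))) := by
  have hk' : (2 : ℝ) ≤ k := by exact_mod_cast hk
  have hk0 : (0 : ℝ) < k := by linarith
  set L := log (k : ℝ) with hL
  have hL0 : 0 < L := Real.log_pos (by linarith)
  set lam := log (2 + L) with hlam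
  have hlam0 : 0 < lam := Real.log_pos (by linarith)
  have hlam1 : lam ≤ 1 + L := by
    have := Real.log_le_sub_one_of_pos (show 0 < 2 + L by linarith)
    linarith
  set h : ℝ := (n : ℝ) + 1 with hh
  have hh1 : 1 ≤ h := by
    have : (0 : ℝ) ≤ n := Nat.cast_nonneg n
    linarith
  set a := √(L * lam / h) with ha
  have ha0 : 0 < a := Real.sqrt_pos.2 (by positivity)
  set Rt := √(h * L * lam) with hRt
  have hRt0 : 0 ≤ Rt := Real.sqrt_nonneg _
  have haR : h * a = Rt := by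
    rw [ha, hRt]
    have : h = √(h ^ 2) := (Real.sqrt_sq (by linarith)).symm
    nth_rewrite 1 [this]
    rw [← Real.sqrt_mul (by positivity)]
    congr 1
    field_simp
  have haR' : L * lam = a * Rt := by
    have h1 : a * a = L * lam / h := Real.mul_self_sqrt (by positivity)
    rw [← haR]
    have : a * (h * a) = h * (a * a) := by ring
    rw [this, h1]
    field_simp
  have haR2 : a ≤ Rt := by
    rw [← haR]
    nlinarith
  set M : ℕ := ⌈16 * exp a⌉₊ with hM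
  have hM1 : 16 * exp a ≤ M := Nat.le_ceil _
  have hea : 1 ≤ exp a := Real.one_le_exp ha0.le
  have hM2 : (M : ℝ) ≤ 17 * exp a := by
    have := (Nat.ceil_lt_add_one (show 0 ≤ 16 * exp a by positivity)).le
    rw [← hM] at this
    linarith
  have hM16 : 16 ≤ M := by
    have : (16 : ℝ) ≤ M := by linarith
    exact_mod_cast this
  have hM0 : (0 : ℝ) < M := by
    have : (16 : ℝ) ≤ M := by exact_mod_cast hM16
    linarith
  set l := log (M : ℝ) with hl
  have hl1 : a ≤ l := by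
    rw [hl, Real.le_log_iff_exp_le hM0]
    linarith
  have hl2 : l ≤ 3 + a := by
    rw [hl, Real.log_le_iff_le_exp hM0, Real.exp_add]
    refine hM2.trans (mul_le_mul_of_nonneg_right ?_ (Real.exp_pos _).le)
    have h1 := Real.exp_one_gt_d9
    have h2 : exp (3 : ℝ) = exp 1 ^ 3 := by
      rw [← Real.exp_nat_mul]
      norm_num
    rw [h2]
    have h3 : (2.7 : ℝ) ^ 3 ≤ exp 1 ^ 3 := pow_le_pow_left₀ (by norm_num) (by linarith) 3
    refine le_trans ?_ h3
    norm_num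
  have hl0 : 0 < l := lt_of_lt_of_le ha0 hl1
  have hl3 : 1 ≤ l := by
    rw [hl, Real.le_log_iff_exp_le hM0]
    have h1 := Real.exp_one_lt_d9
    have : (16 : ℝ) ≤ M := by exact_mod_cast hM16
    linarith
  set m : ℕ := ⌈L / (2 * l)⌉₊ with hm
  have hm0 : 0 < L / (2 * l) := by positivity
  have hm1 : 1 ≤ m := Nat.one_le_ceil_iff.2 hm0
  have hm2 : L / (2 * l) ≤ m := Nat.le_ceil _
  have hm3 : (m : ℝ) ≤ L / (2 * l) + 1 := (Nat.ceil_lt_add_one hm0.le).le
  have hmr : (1 : ℝ) ≤ m := by exact_mod_cast hm1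
  have hkM : k ≤ M ^ (2 * m) := by
    have h1 : L ≤ ((2 * m : ℕ) : ℝ) * l := by
      rw [div_le_iff₀ (by positivity)] at hm2
      push_cast
      linarith
    have h2 : (k : ℝ) ≤ (M : ℝ) ^ (2 * m) := by
      rw [← Real.exp_log hk0, ← Real.exp_log hM0, ← Real.exp_nat_mul]
      exact Real.exp_le_exp.2 h1
    exact_mod_cast h2
  obtain ⟨B, hB1, hB2, hB3, hB4⟩ := label_size n k m M (by omega) hm1 hM16 hkM
  refine ⟨B, hB1, hB2, hB3, ?_⟩
  have hs : (B.size : ℝ) ≤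
      3 * ((M : ℝ) ^ (6 * n) * ((m * (M : ℝ) ^ 3) ^ (15 * m) * (k : ℝ) ^ 2)) := by
    exact_mod_cast hB4
  -- the factors
  have hml : (m : ℝ) * l ≤ L / 2 + 3 + Rt := by
    have h1 : (m : ℝ) * l ≤ (L / (2 * l) + 1) * l := mul_le_mul_of_nonneg_right hm3 hl0.le
    have h2 : (L / (2 * l) + 1) * l = L / 2 + l := by
      field_simp
    linarith
  have hlogm : log (m : ℝ) ≤ lam := by
    rw [hlam]
    apply Real.log_le_log (by linarith)
    have h1 : L / (2 * l) ≤ L := by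
      rw [div_le_iff₀ (by positivity)]
      nlinarith
    linarith
  have hlogm0 : 0 ≤ log (m : ℝ) := Real.log_nonneg hmr
  have hmlam : (m : ℝ) * lam ≤ Rt + 1 + L := by
    have h1 : (m : ℝ) * lam ≤ (L / (2 * l) + 1) * lam := mul_le_mul_of_nonneg_right hm3 hlam0.le
    have h2 : L / (2 * l) * lam ≤ Rt := by
      rw [div_mul_eq_mul_div, haR', div_le_iff₀ (by positivity)]
      nlinarith
    linarith
  have f1 : (3 : ℝ) ≤ exp 2 := by
    have := Real.add_one_le_exp (2 : ℝ)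
    linarith
  have f2 : (M : ℝ) ^ (6 * n) ≤ exp (18 * h + 6 * Rt) := by
    apply pow_le_exp hM0
    push_cast
    have h1 : (n : ℝ) * l ≤ h * (3 + a) := by
      apply mul_le_mul (by linarith) hl2 hl0.le (by linarith)
    nlinarith
  have f3 : (m * (M : ℝ) ^ 3) ^ (15 * m) ≤ exp (15 * (Rt + 1 + L) + 45 * (L / 2 + 3 + Rt)) := by
    apply pow_le_exp (by positivity)
    rw [Real.log_mul (by positivity) (by positivity), Real.log_pow]
    push_cast
    have h1 : (m : ℝ) * log m ≤ m * lam := mul_le_mul_of_nonneg_left hlogm (by linarith)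
    nlinarith
  have f4 : (k : ℝ) ^ 2 ≤ exp (2 * L) := by
    apply pow_le_exp hk0
    push_cast
    exact le_rfl
  calc (B.size : ℝ) ≤
      3 * ((M : ℝ) ^ (6 * n) * ((m * (M : ℝ) ^ 3) ^ (15 * m) * (k : ℝ) ^ 2)) := hs
    _ ≤ exp 2 * (exp (18 * h + 6 * Rt) *
        (exp (15 * (Rt + 1 + L) + 45 * (L / 2 + 3 + Rt)) * exp (2 * L))) := by
        gcongr
    _ = exp (2 + ((18 * h + 6 * Rt) + ((15 * (Rt + 1 + L) + 45 * (L / 2 + 3 + Rt)) + 2 * L))) := by
        rw [Real.exp_add 2, Real.exp_add (18 * h + 6 * Rt),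
          Real.exp_add (15 * (Rt + 1 + L) + 45 * (L / 2 + 3 + Rt)) (2 * L)]
    _ ≤ exp (170 * (L + h + Rt)) := by
        apply Real.exp_le_exp.2
        linarith

end Pool.Agent.ThriftyBP
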