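import Pool.Agent.ThriftyBP.Frag
import Pool.Agent.ThriftyBP.PathLemmas

/-!
# The construction of small unambiguous thrifty programs from a colouring gadget
-/

namespace Pool.Agent.ThriftyBP

open scoped Classical in
/-- A gadget: values `x : Fin k` are encoded in a finite abelian group `H`; `col x u` is a colour
that detects, from `u`, the false value `x'` in place of the true one `x`. -/
structure Gadget (k : ℕ) where
  H : Type
  grp : AddCommGroup H
  finH : Fintype H
  C : Type
  finC : Fintype C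
  enc : Fin k → H
  inj : Function.Injective enc
  col : Fin k → H → C
  sound : ∀ (x x' : Fin k) (u : H),
    col x' (u + (enc x - enc x')) = col x u →
    col x (u + (enc x - enc x') + (enc x - enc x')) = col x u → x = x'

/-- The variables of a subtree as variables of the tree. -/
def emb {k n : ℕ} (b : Bool) (x : TVar k n) : TVar k (n + 1) := Sum.inr (b, x)

namespace Gadget

attribute [instance] Gadget.grp Gadget.finH Gadget.finC

variable {k : ℕ} (G : Gadget k)

/-- Three registers. -/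
abbrev Mem : Type := Fin 3 → G.H

/-- Add the value to the target register and remember the colour. -/
def θ₁ {E : Type} (p : E × G.H) (x : Fin k) : Option ((E × G.C) × G.H) :=
  some ((p.1, G.col x p.2), p.2 + G.enc x)

open scoped Classical in
/-- Add the value to the target register, compare the colour and forget it. -/
noncomputable def θ₂ {E : Type} (p : (E × G.C) × G.H) (x : Fin k) : Option (E × G.H) :=
  if G.col x (p.2 + G.enc x) = p.1.2 then some (p.1.1, p.2 + G.enc x) else none

/-- The effect of a fragment. -/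
def eff {E E' : Type} (r : Fin 3) (θ : E × G.H → Fin k → Option (E' × G.H)) (a : E × G.Mem)
    (z : Fin k) : Option (E' × G.Mem) :=
  (θ (a.1, a.2 r) z).map fun p => (p.1, Function.update a.2 r p.2)

/-- The fragment for a leaf. -/
def leaf (E E' : Type) (fE : Fintype E) (r : Fin 3) (θ : E × G.H → Fin k → Option (E' × G.H)) :
    Frag (TVar k 0) (Fin k) (E × G.Mem) (E' × G.Mem) where
  Q := E × G.Mem
  finQ := inferInstance
  var _ := ()
  entry a s := s = Sum.inl a
  edge q z s := ∃ b, G.eff r θ q z = some b ∧ s = Sum.inr b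

/-- The memory with the two values added to the scratch registers. -/
def shiftUp (r : Fin 3) (m : G.Mem) (x y : Fin k) : G.Mem :=
  Function.update (Function.update m (r + 1) (m (r + 1) + G.enc x)) (r + 2)
    (m (r + 2) + G.enc y)

/-- The memory with the two values subtracted from the scratch registers. -/
def shiftDown (r : Fin 3) (m : G.Mem) (x y : Fin k) : G.Mem :=
  Function.update (Function.update m (r + 1) (m (r + 1) - G.enc x)) (r + 2)
    (m (r + 2) - G.enc y)

/-- The fragment that queries an inner node. -/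
def mid (n : ℕ) (E E' : Type) (fE : Fintype E) (r : Fin 3)
    (θ : E × G.H → Fin k → Option (E' × G.H)) :
    Frag (TVar k (n + 1)) (Fin k) (((E × G.C) × G.C) × G.Mem) (((E' × G.C) × G.C) × G.Mem) where
  Q := ((E × G.C) × G.C) × G.Mem × (Fin k × Fin k)
  finQ := inferInstance
  var q := Sum.inl q.2.2
  entry a s := ∃ m x y, s = Sum.inl (a.1, m, (x, y)) ∧ a.2 = G.shiftUp r m x y ∧
    G.col x (m (r + 1)) = a.1.1.2 ∧ G.col y (m (r + 2)) = a.1.2
  edge q z s := ∃ e' t', θ (q.1.1.1, q.2.1 r) z = some (e', t') ∧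
    s = Sum.inr (((e', q.1.1.2), q.1.2),
      G.shiftDown r (Function.update q.2.1 r t') q.2.2.1 q.2.2.2)

/-- The fragment for a tree with `n + 1` levels. -/
noncomputable def frag : (n : ℕ) → (E E' : Type) → Fintype E → Fintype E' → (r : Fin 3) →
    (E × G.H → Fin k → Option (E' × G.H)) →
    Frag (TVar k n) (Fin k) (E × G.Mem) (E' × G.Mem)
  | 0, E, E', fE, _, r, θ => G.leaf E E' fE r θ
  | n + 1, E, E', fE, fE', r, θ =>
    ((frag n E (E × G.C) fE inferInstance (r + 1) G.θ₁).mapVar
        (emb false)).comp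
      (((frag n (E × G.C) ((E × G.C) × G.C) inferInstance inferInstance (r + 2) G.θ₁).mapVar
        (emb true)).comp
      ((G.mid n E E' fE r θ).comp
      (((frag n ((E' × G.C) × G.C) (E' × G.C) inferInstance inferInstance (r + 2) G.θ₂).mapVar
        (emb true)).comp
      ((frag n (E' × G.C) E' inferInstance fE' (r + 1) G.θ₂).mapVar
        (emb false)))))

theorem r1 (r : Fin 3) : r + 1 ≠ r := by revert r; decide
theorem r2 (r : Fin 3) : r + 2 ≠ r := by revert r; decide
theorem r12 (r : Fin 3) : r + 1 ≠ r + 2 := by revert r; decide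
theorem r21 (r : Fin 3) : r + 2 ≠ r + 1 := by revert r; decide
theorem r1' (r : Fin 3) : r ≠ r + 1 := by revert r; decide
theorem r2' (r : Fin 3) : r ≠ r + 2 := by revert r; decide
theorem rall (r j : Fin 3) : j = r ∨ j = r + 1 ∨ j = r + 2 := by revert r j; decide

/-- The specification of a fragment. -/
def Spec {n : ℕ} {E E' : Type} (r : Fin 3) (θ : E × G.H → Fin k → Option (E' × G.H))
    (F : Frag (TVar k n) (Fin k) (E × G.Mem) (E' × G.Mem)) : Prop :=
  ∀ (I : TVar k n → Fin k) (a : E × G.Mem),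
    (∀ l b, F.Go I a l b → G.eff r θ a (val n I) = some b ∧ ∀ q ∈ l, IsThrifty n I (F.var q)) ∧
    (∀ b, G.eff r θ a (val n I) = some b → ∃ l, F.Go I a l b) ∧
    (∀ l l' b b', F.Go I a l b → F.Go I a l' b' → l = l')

theorem spec_leaf (E E' : Type) (fE : Fintype E) (r : Fin 3)
    (θ : E × G.H → Fin k → Option (E' × G.H)) : G.Spec r θ (G.leaf E E' fE r θ) := by
  intro I a
  have key : ∀ l b, (G.leaf E E' fE r θ).Go I a l b ↔ l = [a] ∧ G.eff r θ a (val 0 I) = some b := by
    intro l b
    constructor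
    · rintro ⟨s, h1, h2⟩
      cases l with
      | nil =>
        have h1' : s = Sum.inl a := h1
        have h2' : s = Sum.inr b := h2
        rw [h1'] at h2'
        exact nomatch h2'
      | cons q l =>
        have h1' : s = Sum.inl a := h1
        obtain ⟨h3, t, h4, h5⟩ := h2
        rw [h1'] at h3
        obtain rfl := Sum.inl.inj h3
        obtain ⟨b', h6, rfl⟩ := h4
        cases l with
        | nil =>
          have h5' : (Sum.inr b' : (E × G.Mem) ⊕ (E' × G.Mem)) = Sum.inr b := h5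
          obtain rfl := Sum.inr.inj h5'
          exact ⟨rfl, h6⟩
        | cons q' l =>
          have := h5.1
          exact nomatch this
    · rintro ⟨rfl, h⟩
      exact ⟨Sum.inl a, rfl, rfl, Sum.inr b, ⟨b, h, rfl⟩, rfl⟩
  refine ⟨?_, ?_, ?_⟩
  · intro l b h
    rw [key] at h
    exact ⟨h.2, fun q _ => trivial⟩
  · intro b h
    exact ⟨[a], (key _ _).2 ⟨rfl, h⟩⟩
  · intro l l' b b' h h'
    rw [key] at h h'
    rw [h.1, h'.1]

theorem go_mid {n : ℕ} {E E' : Type} {fE : Fintype E} {r : Fin 3}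
    {θ : E × G.H → Fin k → Option (E' × G.H)} (I : TVar k (n + 1) → Fin k)
    (a : ((E × G.C) × G.C) × G.Mem) (l : List (((E × G.C) × G.C) × G.Mem × (Fin k × Fin k)))
    (b : ((E' × G.C) × G.C) × G.Mem) :
    (G.mid n E E' fE r θ).Go I a l b ↔ ∃ m x y, l = [(a.1, m, (x, y))] ∧
      a.2 = G.shiftUp r m x y ∧ G.col x (m (r + 1)) = a.1.1.2 ∧ G.col y (m (r + 2)) = a.1.2 ∧
      ∃ e' t', θ (a.1.1.1, m r) (I (Sum.inl (x, y))) = some (e', t') ∧
        b = (((e', a.1.1.2), a.1.2), G.shiftDown r (Function.update m r t') x y) := by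
  constructor
  · rintro ⟨s, ⟨m, x, y, rfl, h1, h2, h3⟩, h4⟩
    cases l with
    | nil => exact nomatch h4
    | cons q l =>
      obtain ⟨h5, t, ⟨e', t', h6, rfl⟩, h7⟩ := h4
      obtain rfl := Sum.inl.inj h5
      cases l with
      | nil =>
        refine ⟨m, x, y, rfl, h1, h2, h3, e', t', h6, ?_⟩
        exact (Sum.inr.inj h7).symm
      | cons q' l =>
        have := h7.1
        exact nomatch this
  · rintro ⟨m, x, y, rfl, h1, h2, h3, e', t', h6, rfl⟩
    exact ⟨_, ⟨m, x, y, rfl, h1, h2, h3⟩, rfl, _, ⟨e', t', h6, rfl⟩, rfl⟩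

theorem eff_eq_some {E E' : Type} {r : Fin 3} {θ : E × G.H → Fin k → Option (E' × G.H)}
    {a : E × G.Mem} {z : Fin k} {b : E' × G.Mem} :
    G.eff r θ a z = some b ↔
      ∃ t', θ (a.1, a.2 r) z = some (b.1, t') ∧ b.2 = Function.update a.2 r t' := by
  unfold eff
  rw [Option.map_eq_some_iff]
  constructor
  · rintro ⟨⟨e', t'⟩, h1, rfl⟩
    exact ⟨t', h1, rfl⟩
  · rintro ⟨t', h1, h2⟩
    exact ⟨(b.1, t'), h1, by rw [← h2]⟩

theorem eff_θ₁ {E : Type} {r : Fin 3} {a : E × G.Mem} {z : Fin k} {b : (E × G.C) × G.Mem} :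
    G.eff r G.θ₁ a z = some b ↔
      b = ((a.1, G.col z (a.2 r)), Function.update a.2 r (a.2 r + G.enc z)) := by
  unfold eff θ₁
  simp only [Option.map_some, Option.some.injEq]
  exact eq_comm

theorem eff_θ₂ {E : Type} {r : Fin 3} {a : (E × G.C) × G.Mem} {z : Fin k} {b : E × G.Mem} :
    G.eff r G.θ₂ a z = some b ↔ G.col z (a.2 r + G.enc z) = a.1.2 ∧
      b = (a.1.1, Function.update a.2 r (a.2 r + G.enc z)) := by
  unfold eff θ₂
  split_ifs with h
  · simp only [Option.map_some, Option.some.injEq]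
    exact ⟨fun h' => ⟨h, h'.symm⟩, fun h' => h'.2.symm⟩
  · simp only [Option.map_none]
    constructor
    · intro h'
      exact nomatch h'
    · intro h'
      exact absurd h'.1 h

/-- The one fact about the registers: a traversal of the five parts forces the guess to be
right and has the right effect. -/
theorem registers {r : Fin 3} {m m' : G.Mem} {x y a b : Fin k} {t' : G.H}
    (h1 : Function.update (Function.update m (r + 1) (m (r + 1) + G.enc a)) (r + 2)
      (m (r + 2) + G.enc b) = G.shiftUp r m' x y)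
    (h2 : G.col x (m' (r + 1)) = G.col a (m (r + 1)))
    (h3 : G.col y (m' (r + 2)) = G.col b (m (r + 2)))
    (h4 : G.col b (G.shiftDown r (Function.update m' r t') x y (r + 2) + G.enc b) =
      G.col b (m (r + 2)))
    (h5 : G.col a (G.shiftDown r (Function.update m' r t') x y (r + 1) + G.enc a) =
      G.col a (m (r + 1))) : x = a ∧ y = b ∧ m' = m := by
  have e0 := congrFun h1 r
  have e1 := congrFun h1 (r + 1)
  have e2 := congrFun h1 (r + 2)
  simp only [shiftUp, shiftDown, Function.update_apply, r1 r, r2 r, r12 r, r21 r, r1' r, r2' r,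
    if_true, if_false] at e0 e1 e2 h4 h5
  have f1 : m' (r + 1) = m (r + 1) + (G.enc a - G.enc x) := by
    rw [← add_sub_assoc, e1, add_sub_cancel_right]
  have f2 : m' (r + 2) = m (r + 2) + (G.enc b - G.enc y) := by
    rw [← add_sub_assoc, e2, add_sub_cancel_right]
  have g1 : m' (r + 1) - G.enc x + G.enc a =
      m (r + 1) + (G.enc a - G.enc x) + (G.enc a - G.enc x) := by
    rw [f1]; abel
  have g2 : m' (r + 2) - G.enc y + G.enc b =
      m (r + 2) + (G.enc b - G.enc y) + (G.enc b - G.enc y) := by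
    rw [f2]; abel
  rw [g1] at h5
  rw [g2] at h4
  rw [f1] at h2
  rw [f2] at h3
  have hx := G.sound a x _ h2 h5
  have hy := G.sound b y _ h3 h4
  subst hx hy
  refine ⟨rfl, rfl, ?_⟩
  funext j
  rcases rall r j with rfl | rfl | rfl
  · exact e0.symm
  · rw [f1]; simp
  · rw [f2]; simp

theorem registers_final {r : Fin 3} {m : G.Mem} {x y : Fin k} {t' : G.H} :
    Function.update (Function.update (G.shiftDown r (Function.update m r t') x y) (r + 2)
      (G.shiftDown r (Function.update m r t') x y (r + 2) + G.enc y)) (r + 1)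
      (G.shiftDown r (Function.update m r t') x y (r + 1) + G.enc x) =
      Function.update m r t' := by
  funext j
  rcases rall r j with rfl | rfl | rfl
  · simp [shiftDown]
  · simp [shiftDown]
  · simp [shiftDown]

/-- The shape of a traversal of the fragment of a tree with at least two levels. -/
theorem go_frag_succ (n : ℕ) (E E' : Type) (fE : Fintype E) (fE' : Fintype E') (r : Fin 3)
    (θ : E × G.H → Fin k → Option (E' × G.H))
    (hs : ∀ (E E' : Type) (fE : Fintype E) (fE' : Fintype E') (r : Fin 3)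
      (θ : E × G.H → Fin k → Option (E' × G.H)), G.Spec r θ (G.frag n E E' fE fE' r θ))
    (I : TVar k (n + 1) → Fin k) (a : E × G.Mem) :
    (∀ l b, (G.frag (n + 1) E E' fE fE' r θ).Go I a l b → G.eff r θ a (val (n + 1) I) = some b ∧
      ∀ q ∈ l, IsThrifty (n + 1) I ((G.frag (n + 1) E E' fE fE' r θ).var q)) ∧
    (∀ b, G.eff r θ a (val (n + 1) I) = some b →
      ∃ l, (G.frag (n + 1) E E' fE fE' r θ).Go I a l b) ∧
    (∀ l l' b b', (G.frag (n + 1) E E' fE fE' r θ).Go I a l b →
      (G.frag (n + 1) E E' fE fE' r θ).Go I a l' b' → l = l') := by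
  -- the true values
  set vL := val n (sub I false) with hvL
  set vR := val n (sub I true) with hvR
  have key : ∀ l b, (G.frag (n + 1) E E' fE fE' r θ).Go I a l b →
      ∃ (b1 : (E × G.C) × G.Mem) (b2 : ((E × G.C) × G.C) × G.Mem)
        (b3 : ((E' × G.C) × G.C) × G.Mem) (b4 : (E' × G.C) × G.Mem),
      ∃ l1 l2 l4 l5,
        (G.frag n E (E × G.C) fE inferInstance (r + 1) G.θ₁).Go (sub I false) a l1 b1 ∧
        (G.frag n (E × G.C) ((E × G.C) × G.C) inferInstance inferInstance (r + 2) G.θ₁).Go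
          (sub I true) b1 l2 b2 ∧
        (G.frag n ((E' × G.C) × G.C) (E' × G.C) inferInstance inferInstance (r + 2) G.θ₂).Go
          (sub I true) b3 l4 b4 ∧
        (G.frag n (E' × G.C) E' inferInstance fE' (r + 1) G.θ₂).Go (sub I false) b4 l5 b ∧
        G.eff r θ a (val (n + 1) I) = some b ∧
        b1 = ((a.1, G.col vL (a.2 (r + 1))),
          Function.update a.2 (r + 1) (a.2 (r + 1) + G.enc vL)) ∧
        (∃ t', θ (a.1, a.2 r) (val (n + 1) I) = some (b.1, t') ∧
          b3 = (((b.1, G.col vL (a.2 (r + 1))), G.col vR (a.2 (r + 2))),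
            G.shiftDown r (Function.update a.2 r t') vL vR)) ∧
        l = l1.map Sum.inl ++ (l2.map Sum.inl ++
          ([(((a.1, G.col vL (a.2 (r + 1))), G.col vR (a.2 (r + 2))), a.2, (vL, vR))].map Sum.inl
            ++ (l4.map Sum.inl ++ l5.map Sum.inr).map Sum.inr).map Sum.inr).map Sum.inr := by
    intro l b h
    obtain ⟨b1, l1, m1, rfl, h1, h⟩ := (Frag.go_comp _ _ I a l b).1 h
    obtain ⟨b2, l2, m2, rfl, h2, h⟩ := (Frag.go_comp _ _ I b1 m1 b).1 h
    obtain ⟨b3, l3, m3, rfl, h3, h⟩ := (Frag.go_comp _ _ I b2 m2 b).1 h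
    obtain ⟨b4, l4, l5, rfl, h4, h5⟩ := (Frag.go_comp _ _ I b3 m3 b).1 h
    replace h1 : (G.frag n E (E × G.C) fE inferInstance (r + 1) G.θ₁).Go (sub I false) a l1 b1 :=
      (Frag.go_mapVar (emb false) _ I a l1 b1).1 h1
    replace h2 : (G.frag n (E × G.C) ((E × G.C) × G.C) inferInstance inferInstance
          (r + 2) G.θ₁).Go (sub I true) b1 l2 b2 :=
      (Frag.go_mapVar (emb true) _ I b1 l2 b2).1 h2
    replace h4 : (G.frag n ((E' × G.C) × G.C) (E' × G.C) inferInstance inferInstance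
          (r + 2) G.θ₂).Go (sub I true) b3 l4 b4 :=
      (Frag.go_mapVar (emb true) _ I b3 l4 b4).1 h4
    replace h5 : (G.frag n (E' × G.C) E' inferInstance fE' (r + 1) G.θ₂).Go
          (sub I false) b4 l5 b :=
      (Frag.go_mapVar (emb false) _ I b4 l5 b).1 h5
    obtain ⟨m', x, y, rfl, k1, k2, k3, e', t', k4, k5⟩ := (G.go_mid I b2 l3 b3).1 h3
    have c1 := G.eff_θ₁.1 (((hs _ _ _ _ _ _ (sub I false) a).1 l1 b1 h1).1)
    have c2 := G.eff_θ₁.1 (((hs _ _ _ _ _ _ (sub I true) b1).1 l2 b2 h2).1)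
    have c4 := G.eff_θ₂.1 (((hs _ _ _ _ _ _ (sub I true) b3).1 l4 b4 h4).1)
    have c5 := G.eff_θ₂.1 (((hs _ _ _ _ _ _ (sub I false) b4).1 l5 b h5).1)
    rw [← hvL] at c1 c5
    rw [← hvR] at c2 c4
    obtain ⟨c4, c4'⟩ := c4
    obtain ⟨c5, c5'⟩ := c5
    have d2 : b2 = (((a.1, G.col vL (a.2 (r + 1))), G.col vR (a.2 (r + 2))),
        Function.update (Function.update a.2 (r + 1) (a.2 (r + 1) + G.enc vL)) (r + 2)
          (a.2 (r + 2) + G.enc vR)) := by
      rw [c2, c1]
      simp only [Function.update_of_ne (r21 r)]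
    subst d2
    subst k5
    subst c4'
    simp only [Function.update_of_ne (r12 r)] at c4 c5 c5'
    obtain ⟨rfl, rfl, rfl⟩ := G.registers k1 k2 k3 c4 c5
    have hb : b = (e', Function.update a.2 r t') := by
      rw [c5']
      exact Prod.ext rfl (G.registers_final (x := vL) (y := vR))
    have h6 : θ (a.1, a.2 r) (val (n + 1) I) = some (b.1, t') := by
      rw [hb]
      exact k4
    refine ⟨_, _, _, _, l1, l2, l4, l5, h1, h2, h4, h5, ?_, c1, ⟨t', h6, ?_⟩, rfl⟩
    · rw [eff_eq_some]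
      exact ⟨t', h6, by rw [hb]⟩
    · rw [hb]
  refine ⟨?_, ?_, ?_⟩
  · intro l b h
    obtain ⟨b1, b2, b3, b4, l1, l2, l4, l5, h1, h2, h4, h5, h6, h7, ⟨t', h8, h9⟩, rfl⟩ := key l b h
    refine ⟨h6, ?_⟩
    intro q hq
    have t1 := ((hs _ _ _ _ _ _ (sub I false) a).1 l1 b1 h1).2
    have t2 := ((hs _ _ _ _ _ _ (sub I true) b1).1 l2 b2 h2).2
    have t4 := ((hs _ _ _ _ _ _ (sub I true) b3).1 l4 b4 h4).2
    have t5 := ((hs _ _ _ _ _ _ (sub I false) b4).1 l5 b h5).2
    rcases List.mem_append.1 hq with hq | hq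
    · obtain ⟨p, hp, rfl⟩ := List.mem_map.1 hq
      exact t1 p hp
    obtain ⟨q, hq', rfl⟩ := List.mem_map.1 hq
    rcases List.mem_append.1 hq' with hq' | hq'
    · obtain ⟨p, hp, rfl⟩ := List.mem_map.1 hq'
      exact t2 p hp
    obtain ⟨q, hq'', rfl⟩ := List.mem_map.1 hq'
    rcases List.mem_append.1 hq'' with hq'' | hq''
    · obtain ⟨p, hp, rfl⟩ := List.mem_map.1 hq''
      obtain rfl := List.mem_singleton.1 hp
      exact ⟨rfl, rfl⟩
    obtain ⟨q, hq3, rfl⟩ := List.mem_map.1 hq''
    rcases List.mem_append.1 hq3 with hq3 | hq3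
    · obtain ⟨p, hp, rfl⟩ := List.mem_map.1 hq3
      exact t4 p hp
    · obtain ⟨p, hp, rfl⟩ := List.mem_map.1 hq3
      exact t5 p hp
  · intro b hb
    obtain ⟨t', h1, h2⟩ := G.eff_eq_some.1 hb
    obtain ⟨l1, g1⟩ := (hs E (E × G.C) fE inferInstance (r + 1) G.θ₁ (sub I false) a).2.1 _
      (G.eff_θ₁.2 rfl)
    rw [← hvL] at g1
    obtain ⟨l2, g2⟩ := (hs (E × G.C) ((E × G.C) × G.C) inferInstance inferInstance (r + 2) G.θ₁
      (sub I true) ((a.1, G.col vL (a.2 (r + 1))),
        Function.update a.2 (r + 1) (a.2 (r + 1) + G.enc vL))).2.1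
      (((a.1, G.col vL (a.2 (r + 1))), G.col vR (a.2 (r + 2))),
        Function.update (Function.update a.2 (r + 1) (a.2 (r + 1) + G.enc vL)) (r + 2)
          (a.2 (r + 2) + G.enc vR)) (G.eff_θ₁.2 (by
        rw [← hvR]
        simp only [Function.update_of_ne (r21 r)]))
    have g3 := (G.go_mid (fE := fE) (r := r) (θ := θ) I
      (((a.1, G.col vL (a.2 (r + 1))), G.col vR (a.2 (r + 2))),
        Function.update (Function.update a.2 (r + 1) (a.2 (r + 1) + G.enc vL)) (r + 2)
          (a.2 (r + 2) + G.enc vR)) _ _).2 ⟨a.2, vL, vR, rfl, rfl, rfl, rfl, b.1, t', h1, rfl⟩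
    have c4 : G.col vR (G.shiftDown r (Function.update a.2 r t') vL vR (r + 2) + G.enc vR) =
        G.col vR (a.2 (r + 2)) := by
      simp [shiftDown]
    have c5 : G.col vL (G.shiftDown r (Function.update a.2 r t') vL vR (r + 1) + G.enc vL) =
        G.col vL (a.2 (r + 1)) := by
      simp [shiftDown]
    obtain ⟨l4, g4⟩ := (hs ((E' × G.C) × G.C) (E' × G.C) inferInstance inferInstance (r + 2) G.θ₂
      (sub I true) (((b.1, G.col vL (a.2 (r + 1))), G.col vR (a.2 (r + 2))),
        G.shiftDown r (Function.update a.2 r t') vL vR)).2.1 _ (G.eff_θ₂.2 ⟨c4, rfl⟩)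
    rw [← hvR] at g4
    obtain ⟨l5, g5⟩ := (hs (E' × G.C) E' inferInstance fE' (r + 1) G.θ₂
      (sub I false) ((b.1, G.col vL (a.2 (r + 1))),
        Function.update (G.shiftDown r (Function.update a.2 r t') vL vR) (r + 2)
          (G.shiftDown r (Function.update a.2 r t') vL vR (r + 2) + G.enc vR))).2.1 b
      (G.eff_θ₂.2 ⟨by rw [← hvL]; simpa only [Function.update_of_ne (r12 r)] using c5, by
        rw [← hvL]
        simp only [Function.update_of_ne (r12 r)]
        rw [G.registers_final]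
        exact Prod.ext rfl h2⟩)
    have k5 := (Frag.go_comp _ _ I _ _ b).2 ⟨_, l4, l5, rfl, (Frag.go_mapVar
      (emb true) _ I _ _ _).2 g4, (Frag.go_mapVar
      (emb false) _ I _ _ _).2 g5⟩
    have k4 := (Frag.go_comp _ _ I _ _ b).2 ⟨_, _, _, rfl, g3, k5⟩
    have k3 := (Frag.go_comp _ _ I _ _ b).2 ⟨_, _, _, rfl, (Frag.go_mapVar
      (emb true) _ I _ _ _).2 g2, k4⟩
    exact ⟨_, (Frag.go_comp _ _ I _ _ b).2 ⟨_, _, _, rfl, (Frag.go_mapVar
      (emb false) _ I _ _ _).2 g1, k3⟩⟩
  · intro l l' b b' h h'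
    obtain ⟨b1, b2, b3, b4, l1, l2, l4, l5, h1, h2, h4, h5, h6, h7, ⟨t', h8, h9⟩, rfl⟩ := key l b h
    obtain ⟨b1', b2', b3', b4', l1', l2', l4', l5', h1', h2', h4', h5', h6', h7', ⟨t'', h8', h9'⟩,
      rfl⟩ := key l' b' h'
    rw [h6, Option.some.injEq] at h6'
    subst h6'
    rw [h8] at h8'
    simp only [Option.some.injEq, Prod.mk.injEq, true_and] at h8'
    subst h8'
    rw [← h7] at h7'
    subst h7'
    rw [← h9] at h9'
    subst h9'
    obtain rfl := (hs _ _ _ _ _ _ (sub I false) a).2.2 l1 l1' _ _ h1 h1'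
    obtain rfl := (hs _ _ _ _ _ _ (sub I true) b1').2.2 l2 l2' _ _ h2 h2'
    obtain rfl := (hs _ _ _ _ _ _ (sub I true) b3').2.2 l4 l4' _ _ h4 h4'
    have e4 := ((hs _ _ _ _ _ _ (sub I true) b3').1 l4 b4 h4).1
    have e4' := ((hs _ _ _ _ _ _ (sub I true) b3').1 l4 b4' h4').1
    rw [e4, Option.some.injEq] at e4'
    subst e4'
    obtain rfl := (hs _ _ _ _ _ _ (sub I false) b4).2.2 l5 l5' _ _ h5 h5'
    rfl

theorem spec (n : ℕ) : ∀ (E E' : Type) (fE : Fintype E) (fE' : Fintype E') (r : Fin 3)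
    (θ : E × G.H → Fin k → Option (E' × G.H)), G.Spec r θ (G.frag n E E' fE fE' r θ) := by
  induction n with
  | zero =>
    intro E E' fE fE' r θ
    exact G.spec_leaf E E' fE r θ
  | succ n ih =>
    intro E E' fE fE' r θ I a
    exact G.go_frag_succ n E E' fE fE' r θ ih I a

/-- Bound on the number of states. -/
theorem card_frag (hk : 0 < k) (n : ℕ) : ∀ (E E' : Type) (fE : Fintype E) (fE' : Fintype E')
    (r : Fin 3) (θ : E × G.H → Fin k → Option (E' × G.H)) (e : ℕ), Fintype.card E ≤ e →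
    Fintype.card E' ≤ e →
    (G.frag n E E' fE fE' r θ).card ≤
      (5 * Fintype.card G.C ^ 2) ^ n * (e * (Fintype.card G.H ^ 3 * k ^ 2)) := by
  have hC : 0 < Fintype.card G.C :=
    Fintype.card_pos_iff.2 ⟨G.col ⟨0, hk⟩ 0⟩
  induction n with
  | zero =>
    intro E E' fE fE' r θ e he he'
    have h1 : (G.frag 0 E E' fE fE' r θ).card = Fintype.card E * Fintype.card G.H ^ 3 := by
      change Fintype.card (E × (Fin 3 → G.H)) = _
      rw [Fintype.card_prod, Fintype.card_fun, Fintype.card_fin]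
    rw [h1, pow_zero, one_mul]
    refine Nat.mul_le_mul he ?_
    exact Nat.le_mul_of_pos_right _ (by positivity)
  | succ n ih =>
    intro E E' fE fE' r θ e he he'
    have h1 : (G.frag (n + 1) E E' fE fE' r θ).card =
        (G.frag n E (E × G.C) fE inferInstance (r + 1) G.θ₁).card +
        ((G.frag n (E × G.C) ((E × G.C) × G.C) inferInstance inferInstance (r + 2) G.θ₁).card +
        ((G.mid n E E' fE r θ).card +
        ((G.frag n ((E' × G.C) × G.C) (E' × G.C) inferInstance inferInstance (r + 2) G.θ₂).card +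
        (G.frag n (E' × G.C) E' inferInstance fE' (r + 1) G.θ₂).card))) := by
      rw [frag, Frag.card_comp, Frag.card_comp, Frag.card_comp, Frag.card_comp]
      rfl
    have h2 : (G.mid n E E' fE r θ).card =
        Fintype.card E * Fintype.card G.C ^ 2 * (Fintype.card G.H ^ 3 * k ^ 2) := by
      change Fintype.card (((E × G.C) × G.C) × (Fin 3 → G.H) × (Fin k × Fin k)) = _
      simp only [Fintype.card_prod, Fintype.card_fun, Fintype.card_fin]
      ring
    set c := Fintype.card G.C with hc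
    set N := Fintype.card G.H ^ 3 * k ^ 2 with hN
    have ha : e ≤ e * c ^ 2 := Nat.le_mul_of_pos_right _ (by positivity)
    have hb : e * c ≤ e * c ^ 2 := by
      rw [pow_two, ← mul_assoc]
      exact Nat.le_mul_of_pos_right _ hC
    have e1 : Fintype.card (E × G.C) ≤ e * c ^ 2 := by
      rw [Fintype.card_prod]
      exact (Nat.mul_le_mul_right c he).trans hb
    have e1' : Fintype.card (E' × G.C) ≤ e * c ^ 2 := by
      rw [Fintype.card_prod]
      exact (Nat.mul_le_mul_right c he').trans hb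
    have e2 : Fintype.card ((E × G.C) × G.C) ≤ e * c ^ 2 := by
      rw [Fintype.card_prod, Fintype.card_prod, mul_assoc, ← pow_two]
      exact Nat.mul_le_mul_right _ he
    have e2' : Fintype.card ((E' × G.C) × G.C) ≤ e * c ^ 2 := by
      rw [Fintype.card_prod, Fintype.card_prod, mul_assoc, ← pow_two]
      exact Nat.mul_le_mul_right _ he'
    have q1 := ih E (E × G.C) fE inferInstance (r + 1) G.θ₁ (e * c ^ 2) (he.trans ha) e1
    have q2 := ih (E × G.C) ((E × G.C) × G.C) inferInstance inferInstance (r + 2) G.θ₁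
      (e * c ^ 2) e1 e2
    have q4 := ih ((E' × G.C) × G.C) (E' × G.C) inferInstance inferInstance (r + 2) G.θ₂
      (e * c ^ 2) e2' e1'
    have q5 := ih (E' × G.C) E' inferInstance fE' (r + 1) G.θ₂ (e * c ^ 2) e1' (he'.trans ha)
    have q3 : Fintype.card E * c ^ 2 * N ≤ (5 * c ^ 2) ^ n * (e * c ^ 2 * N) := by
      refine le_trans (Nat.mul_le_mul_right N (Nat.mul_le_mul_right _ he)) ?_
      exact Nat.le_mul_of_pos_left _ (by positivity)
    rw [h1, h2]
    calc _ ≤ (5 * c ^ 2) ^ n * (e * c ^ 2 * N) + ((5 * c ^ 2) ^ n * (e * c ^ 2 * N) +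
        ((5 * c ^ 2) ^ n * (e * c ^ 2 * N) + ((5 * c ^ 2) ^ n * (e * c ^ 2 * N) +
          (5 * c ^ 2) ^ n * (e * c ^ 2 * N)))) := by gcongr
      _ = (5 * c ^ 2) ^ (n + 1) * (e * N) := by ring

/-- A leaf variable, which is thrifty for every input. -/
def leafVar : (n : ℕ) → TVar k n
  | 0 => ()
  | n + 1 => Sum.inr (false, leafVar n)

theorem isThrifty_leafVar (n : ℕ) (I : TVar k n → Fin k) : IsThrifty n I (leafVar n) := by
  induction n with
  | zero => trivial
  | succ n ih => exact ih (sub I false)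

/-- The top level instruction: add the value to the target register. -/
def θ₀ (p : Unit × G.H) (x : Fin k) : Option (Unit × G.H) := some ((), p.2 + G.enc x)

/-- The exit that stands for the output `z`. -/
def out (z : Fin k) : Unit × G.Mem := ((), Function.update (fun _ => 0) 0 (G.enc z))

theorem out_injective : Function.Injective G.out := by
  intro z z' h
  have h1 := congrFun (congrArg Prod.snd h) 0
  simp only [out, Function.update_self] at h1
  exact G.inj h1

/-- The whole fragment. -/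
noncomputable def body (n : ℕ) : Frag (TVar k n) (Fin k) (Unit × G.Mem) (Unit × G.Mem) :=
  G.frag n Unit Unit inferInstance inferInstance 0 G.θ₀

/-- The branching program: a start state that queries some leaf, then the fragment, started with
empty registers. -/
noncomputable def prog (n : ℕ) : NBP (TVar k n) (Fin k) (Fin k) where
  Q := Unit ⊕ (G.body n).Q
  finQ :=
    letI := (G.body n).finQ
    inferInstance
  var := Sum.elim (fun _ => leafVar n) (G.body n).var
  start := Sum.inl (Sum.inl ())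
  edge q v s :=
    (q = Sum.inl () ∧ ∃ t, (G.body n).entry ((), fun _ => 0) t ∧
      ((∃ q', t = Sum.inl q' ∧ s = Sum.inl (Sum.inr q')) ∨
        ∃ z, t = Sum.inr (G.out z) ∧ s = Sum.inr z)) ∨
    (∃ q₀, q = Sum.inr q₀ ∧ ∃ t, (G.body n).edge q₀ v t ∧
      ((∃ q', t = Sum.inl q' ∧ s = Sum.inl (Sum.inr q')) ∨
        ∃ z, t = Sum.inr (G.out z) ∧ s = Sum.inr z))

theorem path_prog (n : ℕ) (I : TVar k n → Fin k) (t : (G.body n).Q ⊕ (Unit × G.Mem))
    (s : (Unit ⊕ (G.body n).Q) ⊕ Fin k)
    (hts : (∃ q', t = Sum.inl q' ∧ s = Sum.inl (Sum.inr q')) ∨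
        ∃ z, t = Sum.inr (G.out z) ∧ s = Sum.inr z) (l : List (Unit ⊕ (G.body n).Q)) (z : Fin k) :
    (G.prog n).Path I s l z ↔ ∃ l', l = l'.map Sum.inr ∧ (G.body n).Path I t l' (G.out z) := by
  constructor
  · intro h
    induction l generalizing t s with
    | nil =>
      have h' : s = Sum.inr z := NBP.path_nil.1 h
      refine ⟨[], rfl, ?_⟩
      rcases hts with ⟨q', rfl, h1⟩ | ⟨z', rfl, h1⟩
      · rw [h'] at h1
        exact nomatch h1
      · rw [h'] at h1
        obtain rfl : z = z' := Sum.inr.inj h1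
        rfl
    | cons q l ih =>
      obtain ⟨h0, s', h1, h2⟩ := NBP.path_cons.1 h
      have h0' : s = Sum.inl q := h0
      subst h0'
      rcases hts with ⟨q', rfl, h3⟩ | ⟨z', rfl, h3⟩
      · obtain rfl : q = Sum.inr q' := Sum.inl.inj h3
        rcases h1 with ⟨h4, _⟩ | ⟨q₀, h4, t', h5, h6⟩
        · exact nomatch h4
        · obtain rfl : q' = q₀ := Sum.inr.inj h4
          obtain ⟨l', rfl, h7⟩ := ih t' _ h6 h2
          exact ⟨q' :: l', rfl, rfl, t', h5, h7⟩
      · exact nomatch h3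
  · rintro ⟨l', rfl, h⟩
    induction l' generalizing t s with
    | nil =>
      have h' : t = Sum.inr (G.out z) := h
      subst h'
      rcases hts with ⟨q', h1, rfl⟩ | ⟨z', h1, rfl⟩
      · exact nomatch h1
      · obtain rfl : z = z' := G.out_injective (Sum.inr.inj h1)
        exact NBP.path_nil.2 rfl
    | cons q l ih =>
      obtain ⟨rfl, t', h1, h2⟩ := h
      rcases hts with ⟨q', h3, rfl⟩ | ⟨z', h3, rfl⟩
      · obtain rfl : q = q' := Sum.inl.inj h3
        have h4 : ∃ s' : (Unit ⊕ (G.body n).Q) ⊕ Fin k, ((∃ q', t' = Sum.inl q' ∧ s' = Sum.inl (Sum.inr q')) ∨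
            ∃ z, t' = Sum.inr (G.out z) ∧ s' = Sum.inr z) := by
          rcases t' with q' | b
          · exact ⟨_, Or.inl ⟨q', rfl, rfl⟩⟩
          · cases l with
            | nil =>
              have h2' : (Sum.inr b : (G.body n).Q ⊕ (Unit × G.Mem)) = Sum.inr (G.out z) := h2
              obtain rfl := Sum.inr.inj h2'
              exact ⟨_, Or.inr ⟨z, rfl, rfl⟩⟩
            | cons q' l => exact nomatch h2.1
        obtain ⟨s', h4⟩ := h4
        exact NBP.path_cons.2 ⟨rfl, s', Or.inr ⟨q, rfl, t', h1, h4⟩, ih t' s' h4 h2⟩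
      · exact nomatch h3

theorem path_prog_start (n : ℕ) (I : TVar k n → Fin k) (l : List (Unit ⊕ (G.body n).Q))
    (z : Fin k) :
    (G.prog n).Path I (G.prog n).start l z ↔
      ∃ l', l = Sum.inl () :: l'.map Sum.inr ∧
        (G.body n).Go I ((), fun _ => 0) l' (G.out z) := by
  constructor
  · intro h
    cases l with
    | nil =>
      have := NBP.path_nil.1 h
      exact nomatch this
    | cons q l =>
      obtain ⟨h0, s', h1, h2⟩ := NBP.path_cons.1 h
      obtain rfl : Sum.inl () = q := Sum.inl.inj h0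
      rcases h1 with ⟨_, t, h3, h4⟩ | ⟨q₀, h3, _⟩
      · obtain ⟨l', rfl, h5⟩ := (G.path_prog n I t s' h4 l z).1 h2
        exact ⟨l', rfl, t, h3, h5⟩
      · exact nomatch h3
  · rintro ⟨l', rfl, t, h1, h2⟩
    have h4 : ∃ s' : (Unit ⊕ (G.body n).Q) ⊕ Fin k, ((∃ q', t = Sum.inl q' ∧ s' = Sum.inl (Sum.inr q')) ∨
        ∃ z, t = Sum.inr (G.out z) ∧ s' = Sum.inr z) := by
      rcases t with q' | b
      · exact ⟨_, Or.inl ⟨q', rfl, rfl⟩⟩
      · cases l' with
        | nil =>
          have h2' : (Sum.inr b : (G.body n).Q ⊕ (Unit × G.Mem)) = Sum.inr (G.out z) := h2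
          obtain rfl := Sum.inr.inj h2'
          exact ⟨_, Or.inr ⟨z, rfl, rfl⟩⟩
        | cons q' l => exact nomatch h2.1
    obtain ⟨s', h4⟩ := h4
    exact NBP.path_cons.2 ⟨rfl, s', Or.inl ⟨rfl, t, h1, h4⟩,
      (G.path_prog n I t s' h4 _ z).2 ⟨l', rfl, h2⟩⟩

theorem eff_θ₀ (z z' : Fin k) :
    G.eff 0 G.θ₀ ((), fun _ => 0) z = some (G.out z') ↔ z = z' := by
  unfold eff θ₀
  simp only [Option.map_some, Option.some.injEq, zero_add]
  constructor
  · intro h
    exact G.out_injective h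
  · rintro rfl
    rfl

theorem computes_prog (n : ℕ) : (G.prog n).Computes (val n) := by
  intro I
  constructor
  · obtain ⟨l, hl⟩ := (G.spec n Unit Unit inferInstance inferInstance 0 G.θ₀ I
      ((), fun _ => 0)).2.1 (G.out (val n I)) ((G.eff_θ₀ _ _).2 rfl)
    exact ⟨_, (G.path_prog_start n I _ _).2 ⟨l, rfl, hl⟩⟩
  · intro l r h
    obtain ⟨l', rfl, h'⟩ := (G.path_prog_start n I _ _).1 h
    have := ((G.spec n Unit Unit inferInstance inferInstance 0 G.θ₀ I
      ((), fun _ => 0)).1 l' _ h').1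
    exact ((G.eff_θ₀ _ _).1 this).symm

theorem thrifty_prog (n : ℕ) : Thrifty (G.prog n) := by
  intro I l r h q hq
  obtain ⟨l', rfl, h'⟩ := (G.path_prog_start n I _ _).1 h
  have := ((G.spec n Unit Unit inferInstance inferInstance 0 G.θ₀ I
    ((), fun _ => 0)).1 l' _ h').2
  rcases List.mem_cons.1 hq with rfl | hq
  · exact isThrifty_leafVar n I
  · obtain ⟨p, hp, rfl⟩ := List.mem_map.1 hq
    exact this p hp

theorem unambiguous_prog (n : ℕ) : (G.prog n).Unambiguous := by
  intro I l l' r r' h h'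
  obtain ⟨l₁, rfl, h₁⟩ := (G.path_prog_start n I _ _).1 h
  obtain ⟨l₂, rfl, h₂⟩ := (G.path_prog_start n I _ _).1 h'
  rw [(G.spec n Unit Unit inferInstance inferInstance 0 G.θ₀ I
    ((), fun _ => 0)).2.2 l₁ l₂ _ _ h₁ h₂]

theorem size_prog (hk : 0 < k) (n : ℕ) : (G.prog n).size ≤
    (5 * Fintype.card G.C ^ 2) ^ n * (Fintype.card G.H ^ 3 * k ^ 2) + k + 1 := by
  have h1 : (G.prog n).size = 1 + (G.body n).card + k := by
    let _ := (G.body n).finQ
    change Fintype.card (Unit ⊕ (G.body n).Q) + Fintype.card (Fin k) = _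
    rw [Fintype.card_sum, Fintype.card_unit, Fintype.card_fin]
    rfl
  have h2 := G.card_frag hk n Unit Unit inferInstance inferInstance 0 G.θ₀ 1 (by simp) (by simp)
  rw [one_mul] at h2
  have h3 : (G.body n).card ≤
      (5 * Fintype.card G.C ^ 2) ^ n * (Fintype.card G.H ^ 3 * k ^ 2) := h2
  omega

end Gadget

end Pool.Agent.ThriftyBP
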