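import Pool.Agent.ThriftyBP.Behrend

/-!
# The upper bound `k ^ (5 + ε)`
-/

namespace Pool.Agent.ThriftyBP

open Real

theorem size_bound (n d k : ℕ) (hd : 1 ≤ d) (hk : 1 ≤ k) :
    ∃ B : NBP (TVar k n) (Fin k) (Fin k), B.Computes (val n) ∧ Thrifty B ∧ B.Unambiguous ∧
      (B.size : ℝ) ≤ ((5 * (2 ^ d * (4 * d + 1)) ^ 2) ^ n * (4 ^ d) ^ 3 + 2) *
        (k : ℝ) ^ (5 + 4 * (n : ℝ) / d) := by
  have hk' : (1 : ℝ) ≤ k := by exact_mod_cast hk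
  have hk0 : (0 : ℝ) < k := by linarith
  have hd' : (1 : ℝ) ≤ d := by exact_mod_cast hd
  have hd0 : (0 : ℝ) < d := by linarith
  set t : ℝ := (k : ℝ) ^ (1 / (d : ℝ)) with ht
  have ht1 : 1 ≤ t := Real.one_le_rpow hk' (by positivity)
  set M : ℕ := ⌈t⌉₊ with hM
  have hM1 : t ≤ M := Nat.le_ceil t
  have hM2 : (M : ℝ) ≤ 2 * t := by
    have := (Nat.ceil_lt_add_one (by linarith : 0 ≤ t)).le
    linarith
  have hM3 : 1 ≤ M := by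
    have : (1 : ℝ) ≤ M := ht1.trans hM1
    exact_mod_cast this
  have htd : t ^ d = k := by
    rw [ht, ← Real.rpow_natCast, ← Real.rpow_mul hk0.le]
    rw [one_div, inv_mul_cancel₀ hd0.ne', Real.rpow_one]
  have hkM : k ≤ (2 * M) ^ d := by
    have : (k : ℝ) ≤ ((2 * M : ℕ) : ℝ) ^ d := by
      rw [← htd]
      apply pow_le_pow_left₀ (by linarith)
      push_cast
      linarith
    exact_mod_cast this
  obtain ⟨G, hG1, hG2⟩ := exists_gadget k d M hM3 hkM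
  refine ⟨G.prog n, G.computes_prog n, G.thrifty_prog n, G.unambiguous_prog n, ?_⟩
  have hs : ((G.prog n).size : ℝ) ≤
      (5 * ((2 : ℝ) ^ d * (d * M ^ 2 + 1)) ^ 2) ^ n * ((((2 * M : ℝ)) ^ d) ^ 3 * k ^ 2) + k + 1 := by
    have := G.size_prog hk n
    rw [hG1, hG2] at this
    exact_mod_cast this
  have hH : ((2 * M : ℝ)) ^ d ≤ 4 ^ d * k := by
    rw [← htd, ← mul_pow]
    apply pow_le_pow_left₀ (by positivity)
    linarith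
  have hC : (2 : ℝ) ^ d * (d * M ^ 2 + 1) ≤ (2 ^ d * (4 * d + 1)) * t ^ 2 := by
    have h1 : (M : ℝ) ^ 2 ≤ 4 * t ^ 2 := by
      have := pow_le_pow_left₀ (by positivity) hM2 2
      linarith [mul_pow 2 t 2]
    have h2 : (1 : ℝ) ≤ t ^ 2 := one_le_pow₀ ht1
    have h3 : (d : ℝ) * M ^ 2 + 1 ≤ (4 * d + 1) * t ^ 2 := by nlinarith
    calc (2 : ℝ) ^ d * (d * M ^ 2 + 1) ≤ 2 ^ d * ((4 * d + 1) * t ^ 2) := by gcongr
      _ = _ := by ring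
  have hpow : (t ^ 4) ^ n = (k : ℝ) ^ (4 * (n : ℝ) / d) := by
    rw [ht, ← pow_mul, ← Real.rpow_natCast, ← Real.rpow_mul hk0.le]
    congr 1
    push_cast
    ring
  have hk5 : (k : ℝ) ^ 5 * (k : ℝ) ^ (4 * (n : ℝ) / d) = (k : ℝ) ^ (5 + 4 * (n : ℝ) / d) := by
    rw [Real.rpow_add hk0]
    norm_num
  have hk1 : (k : ℝ) ≤ (k : ℝ) ^ (5 + 4 * (n : ℝ) / d) := by
    have h5 : (1 : ℝ) ≤ 5 + 4 * (n : ℝ) / d := by
      have : 0 ≤ 4 * (n : ℝ) / d := by positivity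
      linarith
    calc (k : ℝ) = (k : ℝ) ^ (1 : ℝ) := (Real.rpow_one _).symm
      _ ≤ _ := Real.rpow_le_rpow_of_exponent_le hk' h5
  calc ((G.prog n).size : ℝ) ≤
      (5 * ((2 : ℝ) ^ d * (d * M ^ 2 + 1)) ^ 2) ^ n * ((((2 * M : ℝ)) ^ d) ^ 3 * k ^ 2) + k + 1 := hs
    _ ≤ (5 * ((2 ^ d * (4 * d + 1)) * t ^ 2) ^ 2) ^ n * ((4 ^ d * k) ^ 3 * k ^ 2) + k + 1 := by
        gcongr
    _ = (5 * (2 ^ d * (4 * d + 1)) ^ 2) ^ n * (4 ^ d) ^ 3 * ((k : ℝ) ^ 5 * (t ^ 4) ^ n) + k + 1 := by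
        rw [mul_pow (2 ^ d * (4 * (d : ℝ) + 1)) (t ^ 2) 2, ← mul_assoc 5, mul_pow _ ((t ^ 2) ^ 2) n,
          ← pow_mul t 2 2]
        ring
    _ = (5 * (2 ^ d * (4 * d + 1)) ^ 2) ^ n * (4 ^ d) ^ 3 * (k : ℝ) ^ (5 + 4 * (n : ℝ) / d)
          + k + 1 := by
        rw [hpow, hk5]
    _ ≤ (5 * (2 ^ d * (4 * d + 1)) ^ 2) ^ n * (4 ^ d) ^ 3 * (k : ℝ) ^ (5 + 4 * (n : ℝ) / d)
          + (k : ℝ) ^ (5 + 4 * (n : ℝ) / d) + (k : ℝ) ^ (5 + 4 * (n : ℝ) / d) := by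
        linarith
    _ = _ := by ring

theorem exists_small (n : ℕ) (ε : ℝ) (hε : 0 < ε) : ∃ k₀ : ℕ, ∀ k : ℕ, k₀ ≤ k →
    ∃ B : NBP (TVar k n) (Fin k) (Fin k), B.Computes (val n) ∧ Thrifty B ∧ B.Unambiguous ∧
      (B.size : ℝ) ≤ (k : ℝ) ^ (5 + ε) := by
  obtain ⟨d, hd⟩ := exists_nat_ge (8 * (n : ℝ) / ε + 1)
  have hd1 : 1 ≤ d := by
    have : (1 : ℝ) ≤ d := by
      have : 0 ≤ 8 * (n : ℝ) / ε := by positivity
      linarith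
    exact_mod_cast this
  have hd0 : (0 : ℝ) < d := by exact_mod_cast hd1
  have he : 4 * (n : ℝ) / d ≤ ε / 2 := by
    rw [div_le_iff₀ hd0]
    have h1 : 8 * (n : ℝ) / ε ≤ d := by linarith
    rw [div_le_iff₀ hε] at h1
    nlinarith
  set K : ℝ := (5 * (2 ^ d * (4 * d + 1)) ^ 2) ^ n * (4 ^ d) ^ 3 + 2 with hK
  have hK0 : 0 < K := by positivity
  obtain ⟨k₀, hk₀⟩ := exists_nat_ge (K ^ (2 / ε) + 1)
  refine ⟨k₀, fun k hk => ?_⟩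
  have hkR : K ^ (2 / ε) + 1 ≤ k := hk₀.trans (by exact_mod_cast hk)
  have hKp : 0 < K ^ (2 / ε) := Real.rpow_pos_of_pos hK0 _
  have hk1 : (1 : ℝ) ≤ k := by linarith
  have hk1' : 1 ≤ k := by exact_mod_cast hk1
  obtain ⟨B, h1, h2, h3, h4⟩ := size_bound n d k hd1 hk1'
  refine ⟨B, h1, h2, h3, h4.trans ?_⟩
  have hk0 : (0 : ℝ) < k := by linarith
  have hKk : K ≤ (k : ℝ) ^ (ε / 2) := by
    calc K = (K ^ (2 / ε)) ^ (ε / 2) := by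
          rw [← Real.rpow_mul hK0.le]
          have : 2 / ε * (ε / 2) = 1 := by field_simp
          rw [this, Real.rpow_one]
      _ ≤ (k : ℝ) ^ (ε / 2) := by
          apply Real.rpow_le_rpow hKp.le (by linarith) (by positivity)
  calc K * (k : ℝ) ^ (5 + 4 * (n : ℝ) / d)
      ≤ (k : ℝ) ^ (ε / 2) * (k : ℝ) ^ (5 + ε / 2) := by
        apply mul_le_mul hKk _ (by positivity) (by positivity)
        apply Real.rpow_le_rpow_of_exponent_le hk1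
        linarith
    _ = (k : ℝ) ^ (5 + ε) := by
        rw [← Real.rpow_add hk0]
        congr 1
        ring

end Pool.Agent.ThriftyBP
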