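import Mathlib

/-!
# Words over the nodes of a binary tree

Nodes are lists of bits; the children of `p` are `p ++ [b]`.  A word is a list of nodes.  If each
infix of a word that contains all nodes of a deep tree has few violations (nodes outside the infix
whose parent is in the infix), then some node occurs often.
-/

namespace Pool.Agent.ThriftyBP.Words

/-- All nodes of depth at most `n` below `u` occur in `V`. -/
def Full (n : ℕ) (u : List Bool) (V : List (List Bool)) : Prop :=
  ∀ v : List Bool, (u ++ v).length ≤ n → u ++ v ∈ V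

/-- The nodes outside `V` with a parent in `V` that lies below `u`. -/
def viol (n : ℕ) (u : List Bool) (V : List (List Bool)) : Set (List Bool) :=
  {j | j.length ≤ n ∧ j ∉ V ∧ ∃ p b v, j = p ++ [b] ∧ p ∈ V ∧ p = u ++ v}

theorem finite_viol (n : ℕ) (u : List Bool) (V : List (List Bool)) : (viol n u V).Finite :=
  (List.finite_length_le Bool n).subset fun _ hj => hj.1

theorem viol_append_subset (n : ℕ) (u w : List Bool) (V : List (List Bool)) :
    viol n (u ++ w) V ⊆ viol n u V := by
  rintro j ⟨h1, h2, p, b, v, h3, h4, h5⟩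
  exact ⟨h1, h2, p, b, w ++ v, h3, h4, by rw [h5, List.append_assoc]⟩

theorem ncard_viol_append (n : ℕ) (u w : List Bool) (V : List (List Bool)) :
    (viol n (u ++ w) V).ncard ≤ (viol n u V).ncard :=
  Set.ncard_le_ncard (viol_append_subset n u w V) (finite_viol n u V)

theorem Full.append {n : ℕ} {u : List Bool} {V : List (List Bool)} (h : Full n u V)
    (w : List Bool) : Full n (u ++ w) V := by
  intro v hv
  rw [List.append_assoc] at hv ⊢
  exact h _ hv

theorem Full.mono {n : ℕ} {u : List Bool} {V V' : List (List Bool)} (h : Full n u V)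
    (hV : ∀ x ∈ V, x ∈ V') : Full n u V' := fun v hv => hV _ (h v hv)

/-- A critical position of `Ω` at the node `u`, of strength at least `κ`. -/
def Crit (n : ℕ) (u : List Bool) (Ω : List (List Bool)) (κ t : ℕ) : Prop :=
  ∃ V x B, Ω = V ++ x :: B ∧ V.length = t ∧ (∃ v, x = u ++ v) ∧ ¬ Full n u V ∧ ¬ Full n u B ∧
    κ ≤ (viol n u V).ncard + (viol n u B).ncard

/-- `Ω` does not split into two words that are both full at `q`. -/
def Single (n : ℕ) (Ω : List (List Bool)) (q : List Bool) : Prop :=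
  ∀ V B, Ω = V ++ B → Full n q V → ¬ Full n q B

theorem exists_first {n : ℕ} {u : List Bool} (hu : u.length ≤ n) (Ω : List (List Bool))
    (h : Full n u Ω) : ∃ V x B, Ω = V ++ x :: B ∧ ¬ Full n u V ∧ Full n u (V ++ [x]) := by
  induction Ω using List.reverseRecOn with
  | nil =>
    have := h [] (by simpa using hu)
    exact absurd this List.not_mem_nil
  | append_singleton Ω x ih =>
    by_cases h1 : Full n u Ω
    · obtain ⟨V, y, B, rfl, h2, h3⟩ := ih h1
      exact ⟨V, y, B ++ [x], by simp, h2, h3⟩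
    · exact ⟨Ω, x, [], rfl, h1, h⟩

theorem crit_of_single {n : ℕ} {u : List Bool} (hu : u.length ≤ n) {Ω : List (List Bool)}
    (h : Full n u Ω) (hs : Single n Ω u) : ∃ t, Crit n u Ω 0 t := by
  obtain ⟨V, x, B, rfl, h1, h2⟩ := exists_first hu Ω h
  refine ⟨V.length, V, x, B, rfl, rfl, ?_, h1, ?_, Nat.zero_le _⟩
  · by_contra hx
    refine h1 fun v hv => ?_
    have := h2 v hv
    rw [List.mem_append, List.mem_singleton] at this
    rcases this with h3 | h3
    · exact h3
    · exact (hx ⟨v, h3.symm⟩).elim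
  · exact hs (V ++ [x]) B (by simp) h2

theorem Crit.lift {n : ℕ} {u w : List Bool} {Ω : List (List Bool)} {κ t : ℕ}
    (h : Crit n (u ++ w) Ω κ t) : Crit n u Ω κ t := by
  obtain ⟨V, x, B, h1, h2, ⟨v, h3⟩, h4, h5, h6⟩ := h
  refine ⟨V, x, B, h1, h2, ⟨w ++ v, by rw [h3, List.append_assoc]⟩, fun h => h4 (h.append w),
    fun h => h5 (h.append w), h6.trans ?_⟩
  exact Nat.add_le_add (ncard_viol_append n u w V) (ncard_viol_append n u w B)

/-- On the way from a node in `V` to a node outside `V` there is a violation. -/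
theorem exists_edge (V : List (List Bool)) (u w : List Bool) (hu : u ∈ V) (hw : u ++ w ∉ V) :
    ∃ w₁ b w₂, w = w₁ ++ b :: w₂ ∧ u ++ w₁ ∈ V ∧ u ++ w₁ ++ [b] ∉ V := by
  induction w generalizing u with
  | nil =>
    rw [List.append_nil] at hw
    exact (hw hu).elim
  | cons b w ih =>
    by_cases h : u ++ [b] ∈ V
    · obtain ⟨w₁, b', w₂, h1, h2, h3⟩ := ih (u ++ [b]) h (by simpa using hw)
      refine ⟨b :: w₁, b', w₂, by rw [h1]; rfl, ?_, ?_⟩
      · simpa using h2
      · simpa using h3
    · exact ⟨[], b, w, rfl, by simpa using hu, by simpa using h⟩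

/-- A word that contains `u` but not the whole subtree of `u ++ c` has a violation outside the
subtree of `u ++ c'`. -/
theorem ncard_viol_lt {n : ℕ} {u c c' : List Bool} {V : List (List Bool)} (hu : u ∈ V)
    (hc : ¬ Full n (u ++ c) V) (hlen : c.length = c'.length) (hne : c ≠ c') :
    (viol n (u ++ c') V).ncard + 1 ≤ (viol n u V).ncard := by
  unfold Full at hc
  push Not at hc
  obtain ⟨v, hv1, hv2⟩ := hc
  rw [List.append_assoc] at hv1 hv2
  obtain ⟨w₁, b, w₂, h1, h2, h3⟩ := exists_edge V u (c ++ v) hu hv2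
  have hmem : u ++ w₁ ++ [b] ∈ viol n u V := by
    refine ⟨?_, h3, u ++ w₁, b, w₁, rfl, h2, rfl⟩
    rw [h1] at hv1
    simp only [List.length_append, List.length_cons, List.length_nil] at hv1 ⊢
    omega
  have hnot : u ++ w₁ ++ [b] ∉ viol n (u ++ c') V := by
    rintro ⟨-, -, p, b', v', h4, -, h6⟩
    have h7 : u ++ w₁ = p := by
      have := List.append_inj_left' h4 rfl
      exact this
    rw [h6, List.append_assoc] at h7
    have h8 : w₁ = c' ++ v' := List.append_cancel_left h7
    rw [h8, List.append_assoc] at h1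
    exact hne (List.append_inj_left h1 hlen)
  have hss : viol n (u ++ c') V ⊂ viol n u V :=
    ⟨viol_append_subset n u c' V, fun h => hnot (h hmem)⟩
  exact Set.ncard_lt_ncard hss (finite_viol n u V)

/-- The median lemma. -/
theorem crit_median {n : ℕ} {u c₁ c₂ c₃ : List Bool} {Ω : List (List Bool)} {κ t₁ t₂ t₃ : ℕ}
    (hu : u ∈ Ω) (h12 : c₁ ≠ c₂) (h32 : c₃ ≠ c₂) (hl1 : c₁.length = c₂.length)
    (hl3 : c₃.length = c₂.length) (hpos : c₂ ≠ [])
    (ht1 : t₁ ≤ t₂) (ht3 : t₂ ≤ t₃) (H₁ : Crit n (u ++ c₁) Ω κ t₁) (H₂ : Crit n (u ++ c₂) Ω κ t₂)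
    (H₃ : Crit n (u ++ c₃) Ω κ t₃) : Crit n u Ω (κ + 1) t₂ := by
  obtain ⟨V₁, x₁, B₁, e1, l1, -, -, f1, -⟩ := H₁
  obtain ⟨V₂, x₂, B₂, e2, l2, ⟨v, hx⟩, g1, g2, g3⟩ := H₂
  obtain ⟨V₃, x₃, B₃, e3, l3, -, f3, -, -⟩ := H₃
  have hV : ¬ Full n (u ++ c₃) V₂ := by
    intro h
    refine f3 (h.mono fun x hx => ?_)
    have h1 : V₂ = Ω.take t₂ := by rw [e2, ← l2, List.take_left]
    have h3 : V₃ = Ω.take t₃ := by rw [e3, ← l3, List.take_left]
    rw [h1] at hx
    rw [h3]
    exact (List.take_subset_take_left Ω ht3) hx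
  have hB : ¬ Full n (u ++ c₁) B₂ := by
    intro h
    refine f1 (h.mono fun x hx => ?_)
    have h1 : B₂ = Ω.drop (t₂ + 1) := by
      rw [e2, ← l2, ← List.drop_drop, List.drop_left]; rfl
    have h3 : B₁ = Ω.drop (t₁ + 1) := by
      rw [e1, ← l1, ← List.drop_drop, List.drop_left]; rfl
    rw [h1] at hx
    rw [h3]
    have : t₂ + 1 = (t₁ + 1) + (t₂ - t₁) := by omega
    rw [this, ← List.drop_drop] at hx
    exact List.mem_of_mem_drop hx
  refine ⟨V₂, x₂, B₂, e2, l2, ⟨c₂ ++ v, by rw [hx, List.append_assoc]⟩,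
    fun h => g1 (h.append c₂), fun h => g2 (h.append c₂), ?_⟩
  have hmem : u ∈ V₂ ∨ u ∈ B₂ := by
    rw [e2, List.mem_append, List.mem_cons] at hu
    rcases hu with h | h | h
    · exact Or.inl h
    · exfalso
      rw [hx] at h
      have := congrArg List.length h
      simp only [List.length_append] at this
      have h0 : 0 < c₂.length := List.length_pos_iff.2 hpos
      omega
    · exact Or.inr h
  have k1 := ncard_viol_append n u c₂ V₂
  have k2 := ncard_viol_append n u c₂ B₂
  rcases hmem with h | h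
  · have := ncard_viol_lt h hV hl3 h32
    omega
  · have := ncard_viol_lt h hB hl1 h12
    omega

end Pool.Agent.ThriftyBP.Words
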