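import Pool.Agent.ThriftyBP.Words

/-!
# Words over the nodes of a binary tree: counting
-/

namespace Pool.Agent.ThriftyBP.Words

open scoped Classical in
/-- No critical position of strength `j`. -/
def Q (n : ℕ) (Ω : List (List Bool)) (u : List Bool) (j : ℕ) : Prop := ∀ t, ¬ Crit n u Ω j t

/-- The sum of `f` over the `4 ^ m` descendants of `u` at distance `2 m`. -/
def desc (f : List Bool → ℕ) : ℕ → List Bool → ℕ
  | 0, u => f u
  | m + 1, u => ∑ c : Bool × Bool, desc f m (u ++ [c.1, c.2])

theorem desc_add (f g : List Bool → ℕ) (m : ℕ) (u : List Bool) :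
    desc (fun q => f q + g q) m u = desc f m u + desc g m u := by
  induction m generalizing u with
  | zero => rfl
  | succ m ih =>
    simp only [desc, ih, Finset.sum_add_distrib]

theorem desc_const (c m : ℕ) (u : List Bool) : desc (fun _ => c) m u = 4 ^ m * c := by
  induction m generalizing u with
  | zero => simp [desc]
  | succ m ih =>
    simp only [desc, ih, Finset.sum_const, Finset.card_univ, Fintype.card_prod, Fintype.card_bool,
      smul_eq_mul, pow_succ]
    ring

theorem desc_mul (c : ℕ) (f : List Bool → ℕ) (m : ℕ) (u : List Bool) :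
    desc (fun q => c * f q) m u = c * desc f m u := by
  induction m generalizing u with
  | zero => rfl
  | succ m ih =>
    simp only [desc, ih, Finset.mul_sum]

theorem desc_congr {f g : List Bool → ℕ} {m : ℕ} {u : List Bool}
    (h : ∀ w : List Bool, w.length = 2 * m → f (u ++ w) = g (u ++ w)) :
    desc f m u = desc g m u := by
  induction m generalizing u with
  | zero =>
    have := h [] rfl
    simpa [desc] using this
  | succ m ih =>
    simp only [desc]
    refine Finset.sum_congr rfl fun c _ => ih fun w hw => ?_
    have := h ([c.1, c.2] ++ w) (by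
      simp only [List.length_append, List.length_cons, List.length_nil]; omega)
    simpa using this

theorem desc_lt {f : List Bool → ℕ} {c m : ℕ} {u : List Bool} 
    (h : ∀ w : List Bool, w.length = 2 * m → f (u ++ w) < c) :
    desc f m u < 4 ^ m * c := by
  induction m generalizing u with
  | zero =>
    have := h [] rfl
    simpa [desc] using this
  | succ m ih =>
    have hlt : ∀ c' : Bool × Bool, desc f m (u ++ [c'.1, c'.2]) < 4 ^ m * c := by
      intro c'
      refine ih fun w hw => ?_
      have := h ([c'.1, c'.2] ++ w) (by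
        simp only [List.length_append, List.length_cons, List.length_nil]; omega)
      simpa using this
    calc desc f (m + 1) u = ∑ c' : Bool × Bool, desc f m (u ++ [c'.1, c'.2]) := rfl
      _ < ∑ _c' : Bool × Bool, 4 ^ m * c :=
          Finset.sum_lt_sum_of_nonempty Finset.univ_nonempty fun c' _ => hlt c'
      _ = 4 ^ (m + 1) * c := by
          simp only [Finset.sum_const, Finset.card_univ, Fintype.card_prod, Fintype.card_bool,
            smul_eq_mul, pow_succ]
          ring

open scoped Classical in
/-- The indicator of `Single`. -/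
noncomputable def sing (n : ℕ) (Ω : List (List Bool)) (q : List Bool) : ℕ :=
  if Single n Ω q then 1 else 0

theorem sing_le (n : ℕ) (Ω : List (List Bool)) (q : List Bool) : sing n Ω q ≤ 1 := by
  unfold sing
  split_ifs <;> omega

theorem Q.append {n : ℕ} {Ω : List (List Bool)} {u : List Bool} {j : ℕ} (h : Q n Ω u j)
    (w : List Bool) : Q n Ω (u ++ w) j := fun t ht => h t ht.lift

theorem desc_sing_zero {n : ℕ} {Ω : List (List Bool)} {u : List Bool} {m : ℕ}
    (hfull : Full n u Ω) (hu : u.length + 2 * m ≤ n) (h : Q n Ω u 0) :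
    desc (sing n Ω) m u = 0 := by
  induction m generalizing u with
  | zero =>
    simp only [desc, sing]
    rw [if_neg]
    intro hs
    obtain ⟨t, ht⟩ := crit_of_single (by omega) hfull hs
    exact h t ht
  | succ m ih =>
    simp only [desc]
    refine Finset.sum_eq_zero fun c _ => ih (hfull.append _) ?_ (h.append _)
    simp only [List.length_append, List.length_cons, List.length_nil]
    omega

open scoped Classical in
/-- At most two grandchildren have a critical position of strength `j`. -/
theorem card_bad_le {n : ℕ} {Ω : List (List Bool)} {u : List Bool} {j : ℕ}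
    (hu : u ∈ Ω) (h : Q n Ω u (j + 1)) :
    (Finset.univ.filter fun c : Bool × Bool => ¬ Q n Ω (u ++ [c.1, c.2]) j).card ≤ 2 := by
  by_contra hcon
  push Not at hcon
  obtain ⟨a, ha, b, hb, c, hc, hab, hac, hbc⟩ := Finset.two_lt_card.1 hcon
  simp only [Finset.mem_filter, Finset.mem_univ, true_and, Q, not_forall, not_not] at ha hb hc
  have hne : ∀ x y : Bool × Bool, x ≠ y → [x.1, x.2] ≠ [y.1, y.2] := by
    intro x y hxy he
    simp only [List.cons.injEq, and_true] at he
    exact hxy (Prod.ext he.1 he.2)
  have key : ∀ x y z : Bool × Bool, x ≠ y → z ≠ y → ∀ t₁ t₂ t₃ : ℕ, t₁ ≤ t₂ → t₂ ≤ t₃ →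
      Crit n (u ++ [x.1, x.2]) Ω j t₁ → Crit n (u ++ [y.1, y.2]) Ω j t₂ →
      Crit n (u ++ [z.1, z.2]) Ω j t₃ → False := by
    intro x y z hxy hzy t₁ t₂ t₃ h12 h23 H₁ H₂ H₃
    exact h t₂ (crit_median hu (hne x y hxy) (hne z y hzy) rfl rfl (by simp) h12 h23 H₁ H₂ H₃)
  obtain ⟨ta, ha⟩ := ha
  obtain ⟨tb, hb⟩ := hb
  obtain ⟨tc, hc⟩ := hc
  rcases le_total ta tb with h1 | h1
  · rcases le_total tb tc with h2 | h2
    · exact key a b c hab hbc.symm _ _ _ h1 h2 ha hb hc
    · rcases le_total ta tc with h3 | h3
      · exact key a c b hac hbc _ _ _ h3 h2 ha hc hb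
      · exact key c a b hac.symm hab.symm _ _ _ h3 h1 hc ha hb
  · rcases le_total ta tc with h2 | h2
    · exact key b a c hab.symm hac.symm _ _ _ h1 h2 hb ha hc
    · rcases le_total tb tc with h3 | h3
      · exact key b c a hbc hac _ _ _ h3 h2 hb hc ha
      · exact key c b a hbc.symm hab _ _ _ h3 h1 hc hb ha

open scoped Classical in
theorem desc_sing_le {n : ℕ} {Ω : List (List Bool)} (m j : ℕ) (u : List Bool)
    (hfull : Full n u Ω) (hu : u.length + 2 * m ≤ n) (h : Q n Ω u (j + 1)) :
    desc (sing n Ω) m u ≤ 2 ^ j * 3 ^ m := by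
  induction m generalizing u j with
  | zero =>
    simp only [desc, pow_zero, mul_one]
    exact (sing_le _ _ _).trans Nat.one_le_two_pow
  | succ m ih =>
    simp only [desc]
    have hmem : u ∈ Ω := by
      have := hfull [] (by simp only [List.append_nil]; omega)
      simpa using this
    have hbad := card_bad_le hmem h
    have hlen : ∀ c : Bool × Bool, (u ++ [c.1, c.2]).length + 2 * m ≤ n := by
      intro c
      simp only [List.length_append, List.length_cons, List.length_nil]
      omega
    have h1 : ∀ c : Bool × Bool, desc (sing n Ω) m (u ++ [c.1, c.2]) ≤ 2 ^ j * 3 ^ m := fun c =>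
      ih j _ (hfull.append _) (hlen c) (h.append _)
    have h2 : ∀ c : Bool × Bool, Q n Ω (u ++ [c.1, c.2]) j →
        2 * desc (sing n Ω) m (u ++ [c.1, c.2]) ≤ 2 ^ j * 3 ^ m := by
      intro c hc
      cases j with
      | zero =>
        rw [desc_sing_zero (hfull.append _) (hlen c) hc]
        exact Nat.zero_le _
      | succ j =>
        have := ih j _ (hfull.append _) (hlen c) hc
        calc 2 * desc (sing n Ω) m (u ++ [c.1, c.2]) ≤ 2 * (2 ^ j * 3 ^ m) :=
              Nat.mul_le_mul_left _ this
          _ = 2 ^ (j + 1) * 3 ^ m := by ring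
    set K := 2 ^ j * 3 ^ m with hK
    set S := Finset.univ.filter fun c : Bool × Bool => ¬ Q n Ω (u ++ [c.1, c.2]) j with hS
    have h3 : ∀ c : Bool × Bool, 2 * desc (sing n Ω) m (u ++ [c.1, c.2]) ≤
        K + if c ∈ S then K else 0 := by
      intro c
      by_cases hc : Q n Ω (u ++ [c.1, c.2]) j
      · exact (h2 c hc).trans (Nat.le_add_right _ _)
      · have : c ∈ S := by rw [hS, Finset.mem_filter]; exact ⟨Finset.mem_univ _, hc⟩
        rw [if_pos this]
        have := h1 c
        omega
    have h4 : 2 * ∑ c : Bool × Bool, desc (sing n Ω) m (u ++ [c.1, c.2]) ≤ 6 * K := by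
      rw [Finset.mul_sum]
      refine (Finset.sum_le_sum fun c _ => h3 c).trans ?_
      rw [Finset.sum_add_distrib, Finset.sum_const, Finset.card_univ, Fintype.card_prod,
        Fintype.card_bool, ← Finset.sum_filter, Finset.filter_mem_eq_inter, Finset.univ_inter,
        Finset.sum_const, smul_eq_mul, smul_eq_mul]
      have := Nat.mul_le_mul_right K hbad
      omega
    have h5 : 2 ^ j * 3 ^ (m + 1) = 3 * K := by rw [hK]; ring
    rw [h5]
    omega

/-- If all infixes have few violations, then at most a quarter of the nodes are single. -/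
theorem four_mul_desc_sing_le {n w : ℕ} (hw : 1 ≤ w) {L : List (List Bool)}
    (hL : ∀ A V C, L = A ++ V ++ C → (viol n [] V).ncard < w) {Ω : List (List Bool)}
    (hΩ : ∃ A C, L = A ++ Ω ++ C) {u : List Bool} (hfull : Full n u Ω)
    (hu : u.length + 2 * (5 * w) ≤ n) :
    4 * desc (sing n Ω) (5 * w) u ≤ 4 ^ (5 * w) := by
  obtain ⟨A, C, hAC⟩ := hΩ
  have hQ : Q n Ω u (2 * w - 2 + 1) := by
    rintro t ⟨V, x, B, h1, -, -, -, -, h2⟩
    have h3 : (viol n u V).ncard < w := by
      have := ncard_viol_append n [] u V
      refine lt_of_le_of_lt this (hL A V (x :: B ++ C) ?_)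
      rw [hAC, h1]
      simp
    have h4 : (viol n u B).ncard < w := by
      have := ncard_viol_append n [] u B
      refine lt_of_le_of_lt this (hL (A ++ V ++ [x]) B C ?_)
      rw [hAC, h1]
      simp
    omega
  have h := desc_sing_le (5 * w) (2 * w - 2) u hfull hu hQ
  obtain ⟨w, rfl⟩ : ∃ w', w = w' + 1 := ⟨w - 1, by omega⟩
  calc 4 * desc (sing n Ω) (5 * (w + 1)) u ≤ 4 * (2 ^ (2 * (w + 1) - 2) * 3 ^ (5 * (w + 1))) :=
        Nat.mul_le_mul_left _ h
    _ = 972 ^ (w + 1) := by
        have : 2 * (w + 1) - 2 = 2 * w := by omega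
        rw [this, pow_mul, pow_mul, pow_succ, pow_succ]
        norm_num
        rw [show (972 : ℕ) = 4 * 243 by norm_num, mul_pow]
        ring
    _ ≤ 1024 ^ (w + 1) := Nat.pow_le_pow_left (by norm_num) _
    _ = 4 ^ (5 * (w + 1)) := by rw [pow_mul]; norm_num

open scoped Classical in
/-- The number of words of `Ws` that are full at `u`. -/
noncomputable def num (n : ℕ) (u : List Bool) (Ws : List (List (List Bool))) : ℕ :=
  (Ws.map fun W => if Full n u W then 1 else 0).sum

open scoped Classical in
/-- The number of full pieces into which `W` can be cut (at most two). -/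
noncomputable def parts (n : ℕ) (W : List (List Bool)) (q : List Bool) : ℕ :=
  if Full n q W then 2 - sing n W q else 0

open scoped Classical in
/-- Cutting the words at `q`. -/
theorem exists_refine (n : ℕ) (q : List Bool) (Ws : List (List (List Bool))) :
    ∃ Ws' : List (List (List Bool)), Ws'.flatten = Ws.flatten ∧
      (Ws.map fun W => parts n W q).sum ≤ num n q Ws' := by
  induction Ws with
  | nil => exact ⟨[], rfl, le_rfl⟩
  | cons W Ws ih =>
    obtain ⟨Ws', h1, h2⟩ := ih
    by_cases hf : Full n q W
    · by_cases hs : Single n W q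
      · refine ⟨W :: Ws', by rw [List.flatten_cons, List.flatten_cons, h1], ?_⟩
        simp only [List.map_cons, List.sum_cons, num, parts, sing, if_pos hf, if_pos hs] at h2 ⊢
        omega
      · unfold Single at hs
        push Not at hs
        obtain ⟨V, B, h3, h4, h5⟩ := hs
        refine ⟨V :: B :: Ws', ?_, ?_⟩
        · rw [List.flatten_cons, List.flatten_cons, List.flatten_cons, h1, h3, List.append_assoc]
        · have hs' : ¬ Single n W q := fun h => h V B h3 h4 h5
          simp only [List.map_cons, List.sum_cons, num, parts, sing, if_pos hf, if_neg hs',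
            if_pos h4, if_pos h5] at h2 ⊢
          omega
    · refine ⟨W :: Ws', by rw [List.flatten_cons, List.flatten_cons, h1], ?_⟩
      simp only [List.map_cons, List.sum_cons, num, parts, if_neg hf] at h2 ⊢
      omega

open scoped Classical in
theorem desc_parts {n w : ℕ} (hw : 1 ≤ w) {L : List (List Bool)}
    (hL : ∀ A V C, L = A ++ V ++ C → (viol n [] V).ncard < w) {W : List (List Bool)}
    (hW : ∃ A C, L = A ++ W ++ C) {u : List Bool} (hu : u.length + 2 * (5 * w) ≤ n) :
    7 * 4 ^ (5 * w) * (if Full n u W then 1 else 0) ≤ 4 * desc (parts n W) (5 * w) u := by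
  by_cases hf : Full n u W
  · rw [if_pos hf, mul_one]
    have h1 := four_mul_desc_sing_le hw hL hW hf hu
    have h2 : desc (parts n W) (5 * w) u + desc (sing n W) (5 * w) u = 4 ^ (5 * w) * 2 := by
      rw [← desc_add, ← desc_const 2 (5 * w) u]
      apply desc_congr
      intro v _
      unfold parts
      rw [if_pos (hf.append v)]
      have := sing_le n W (u ++ v)
      omega
    omega
  · rw [if_neg hf, mul_zero]
    exact Nat.zero_le _

open scoped Classical in
theorem desc_sum_parts {n w : ℕ} (hw : 1 ≤ w) {L : List (List Bool)}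
    (hL : ∀ A V C, L = A ++ V ++ C → (viol n [] V).ncard < w) (Ws : List (List (List Bool)))
    (hWs : ∀ W ∈ Ws, ∃ A C, L = A ++ W ++ C) {u : List Bool} (hu : u.length + 2 * (5 * w) ≤ n) :
    4 ^ (5 * w) * (7 * num n u Ws) ≤
      desc (fun q => 4 * (Ws.map fun W => parts n W q).sum) (5 * w) u := by
  rw [desc_mul]
  induction Ws with
  | nil => simp [num]
  | cons W Ws ih =>
    have h1 := desc_parts hw hL (hWs W List.mem_cons_self) hu
    have h2 := ih fun W' hW' => hWs W' (List.mem_cons_of_mem _ hW')
    have h3 : desc (fun q => ((W :: Ws).map fun W => parts n W q).sum) (5 * w) u =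
        desc (parts n W) (5 * w) u + desc (fun q => (Ws.map fun W => parts n W q).sum) (5 * w) u := by
      rw [← desc_add]
      simp only [List.map_cons, List.sum_cons]
    have h4 : num n u (W :: Ws) = (if Full n u W then 1 else 0) + num n u Ws := by
      simp only [num, List.map_cons, List.sum_cons]
    rw [h3, h4]
    calc 4 ^ (5 * w) * (7 * ((if Full n u W then 1 else 0) + num n u Ws))
        = 7 * 4 ^ (5 * w) * (if Full n u W then 1 else 0) + 4 ^ (5 * w) * (7 * num n u Ws) := by
          ring
      _ ≤ 4 * desc (parts n W) (5 * w) u +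
          4 * desc (fun q => (Ws.map fun W => parts n W q).sum) (5 * w) u := Nat.add_le_add h1 h2
      _ = _ := by ring

theorem mem_flatten_split {Ws : List (List (List Bool))} {W : List (List Bool)} (h : W ∈ Ws) :
    ∃ A C, Ws.flatten = A ++ W ++ C := by
  obtain ⟨s, t, rfl⟩ := List.append_of_mem h
  exact ⟨s.flatten, t.flatten, by simp⟩

/-- The number of entries of `L` below `u`. -/
noncomputable def cnt (u : List Bool) (L : List (List Bool)) : ℕ :=
  open scoped Classical in L.countP fun j => decide (∃ v, j = u ++ v)

theorem cnt_append (u : List Bool) (L L' : List (List Bool)) :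
    cnt u (L ++ L') = cnt u L + cnt u L' := by
  unfold cnt
  rw [List.countP_append]

theorem cnt_le_length (u : List Bool) (L : List (List Bool)) : cnt u L ≤ L.length := by
  unfold cnt
  exact List.countP_le_length

theorem sum_cnt_le (u : List Bool) (L : List (List Bool)) :
    ∑ c : Bool × Bool, cnt (u ++ [c.1, c.2]) L ≤ cnt u L := by
  classical
  induction L with
  | nil => simp [cnt]
  | cons j L ih =>
    have h1 : ∀ u' : List Bool, cnt u' (j :: L) = cnt u' L + if (∃ v, j = u' ++ v) then 1 else 0 := by
      intro u'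
      unfold cnt
      rw [List.countP_cons]
      simp only [decide_eq_true_eq]
    simp only [h1, Finset.sum_add_distrib]
    refine Nat.add_le_add ih ?_
    by_cases hj : ∃ v, j = u ++ v
    · rw [if_pos hj, ← Finset.card_filter]
      refine Finset.card_le_one.2 ?_
      intro c hc c' hc'
      simp only [Finset.mem_filter, Finset.mem_univ, true_and] at hc hc'
      obtain ⟨v, hv⟩ := hc
      obtain ⟨v', hv'⟩ := hc'
      have h2 : u ++ [c.1, c.2] = u ++ [c'.1, c'.2] :=
        List.append_inj_left (hv.symm.trans hv') (by simp)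
      have h3 := List.append_cancel_left h2
      simp only [List.cons.injEq, and_true] at h3
      exact Prod.ext h3.1 h3.2
    · rw [if_neg hj]
      refine (Finset.sum_eq_zero fun c _ => ?_).le
      rw [if_neg]
      rintro ⟨v, rfl⟩
      exact hj ⟨_, List.append_assoc _ _ _⟩

theorem desc_cnt_le (m : ℕ) (u : List Bool) (L : List (List Bool)) :
    desc (fun q => cnt q L) m u ≤ cnt u L := by
  induction m generalizing u with
  | zero => exact le_rfl
  | succ m ih => exact (Finset.sum_le_sum fun c _ => ih _).trans (sum_cnt_le u L)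

theorem desc_mono {f g : List Bool → ℕ} {m : ℕ} {u : List Bool}
    (h : ∀ w : List Bool, w.length = 2 * m → f (u ++ w) ≤ g (u ++ w)) :
    desc f m u ≤ desc g m u := by
  induction m generalizing u with
  | zero =>
    have := h [] rfl
    simpa [desc] using this
  | succ m ih =>
    simp only [desc]
    refine Finset.sum_le_sum fun c _ => ih fun w hw => ?_
    have := h ([c.1, c.2] ++ w) (by
      simp only [List.length_append, List.length_cons, List.length_nil]; omega)
    simpa using this

/-- A word that is full at `u` has many entries below `u`. -/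
theorem le_cnt_of_full {n : ℕ} {u : List Bool} {W : List (List Bool)}
    (hu : u.length ≤ n) (h : Full n u W) : 2 ^ (n - u.length) ≤ cnt u W := by
  classical
  let f : List.Vector Bool (n - u.length) → List Bool := fun v => u ++ v.1
  have hf : Function.Injective f := by
    intro v v' he
    exact Subtype.ext (List.append_cancel_left he)
  have h1 : (Finset.univ.image f).card = 2 ^ (n - u.length) := by
    rw [Finset.card_image_of_injective _ hf, Finset.card_univ, card_vector, Fintype.card_bool]
  rw [← h1]
  have h2 : Finset.univ.image f ⊆ (W.filter fun j => decide (∃ v, j = u ++ v)).toFinset := by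
    intro j hj
    obtain ⟨v, _, rfl⟩ := Finset.mem_image.1 hj
    rw [List.mem_toFinset, List.mem_filter]
    refine ⟨h _ ?_, by simp [f]⟩
    rw [List.length_append, v.2]
    omega
  refine (Finset.card_le_card h2).trans ((List.toFinset_card_le _).trans ?_)
  unfold cnt
  rw [List.countP_eq_length_filter]

theorem num_le_cnt {n : ℕ} {u : List Bool} (hu : u.length ≤ n) (Ws : List (List (List Bool))) :
    2 ^ (n - u.length) * num n u Ws ≤ cnt u Ws.flatten := by
  induction Ws with
  | nil => simp [num]
  | cons W Ws ih =>
    have h1 : num n u (W :: Ws) = (open scoped Classical in if Full n u W then 1 else 0) +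
        num n u Ws := by
      simp only [num, List.map_cons, List.sum_cons]
    rw [h1, List.flatten_cons, cnt_append, mul_add]
    refine Nat.add_le_add ?_ ih
    split_ifs with h
    · rw [mul_one]
      exact le_cnt_of_full hu h
    · rw [mul_zero]
      exact Nat.zero_le _

/-- The iteration. -/
theorem many {n w : ℕ} (hw : 1 ≤ w) {L : List (List Bool)}
    (hL : ∀ A V C, L = A ++ V ++ C → (viol n [] V).ncard < w) (t : ℕ)
    (Ws : List (List (List Bool))) (hWs : Ws.flatten = L) (u : List Bool)
    (hu : u.length + 10 * w * t ≤ n) :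
    7 ^ t * 2 ^ (n - u.length) * num n u Ws ≤ 4 ^ t * cnt u L := by
  induction t generalizing Ws u with
  | zero =>
    rw [pow_zero, pow_zero, one_mul, one_mul, ← hWs]
    exact num_le_cnt (by omega) Ws
  | succ t ih =>
    have h0 : 10 * w * (t + 1) = 10 * w * t + 10 * w := by ring
    have h1 := desc_sum_parts hw hL Ws (fun W hW => by
      rw [← hWs]
      exact mem_flatten_split hW) (u := u) (by omega)
    have h2 : 7 ^ t * 2 ^ (n - u.length - 10 * w) *
        desc (fun q => 4 * (Ws.map fun W => parts n W q).sum) (5 * w) u ≤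
        4 ^ (t + 1) * desc (fun q => cnt q L) (5 * w) u := by
      rw [← desc_mul, ← desc_mul]
      apply desc_mono
      intro v hv
      obtain ⟨Ws', h5, h6⟩ := exists_refine n (u ++ v) Ws
      have h7 := ih Ws' (h5.trans hWs) (u ++ v) (by rw [List.length_append]; omega)
      have h8 : n - (u ++ v).length = n - u.length - 10 * w := by
        rw [List.length_append]; omega
      rw [h8] at h7
      calc 7 ^ t * 2 ^ (n - u.length - 10 * w) * (4 * (Ws.map fun W => parts n W (u ++ v)).sum)
          = 4 * (7 ^ t * 2 ^ (n - u.length - 10 * w) *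
              (Ws.map fun W => parts n W (u ++ v)).sum) := by ring
        _ ≤ 4 * (7 ^ t * 2 ^ (n - u.length - 10 * w) * num n (u ++ v) Ws') :=
            Nat.mul_le_mul_left _ (Nat.mul_le_mul_left _ h6)
        _ ≤ 4 * (4 ^ t * cnt (u ++ v) L) := Nat.mul_le_mul_left _ h7
        _ = 4 ^ (t + 1) * cnt (u ++ v) L := by ring
    have h3 := desc_cnt_le (5 * w) u L
    have h4 : 2 ^ (n - u.length) = 2 ^ (n - u.length - 10 * w) * 4 ^ (5 * w) := by
      rw [show (4 : ℕ) = 2 ^ 2 by norm_num, ← pow_mul, ← pow_add]
      congr 1
      omega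
    calc 7 ^ (t + 1) * 2 ^ (n - u.length) * num n u Ws
        = 7 ^ t * 2 ^ (n - u.length - 10 * w) * (4 ^ (5 * w) * (7 * num n u Ws)) := by
          rw [h4]; ring
      _ ≤ 7 ^ t * 2 ^ (n - u.length - 10 * w) *
          desc (fun q => 4 * (Ws.map fun W => parts n W q).sum) (5 * w) u :=
          Nat.mul_le_mul_left _ h1
      _ ≤ 4 ^ (t + 1) * desc (fun q => cnt q L) (5 * w) u := h2
      _ ≤ 4 ^ (t + 1) * cnt u L := Nat.mul_le_mul_left _ h3

/-- If a word contains all nodes and each of its infixes has fewer than `w` violations, then the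
word has length at least `(7 / 4) ^ t * 2 ^ n`. -/
theorem long_word {n w : ℕ} (hw : 1 ≤ w) {L : List (List Bool)} (hfull : Full n [] L)
    (hL : ∀ A V C, L = A ++ V ++ C → (viol n [] V).ncard < w) (t : ℕ) (ht : 10 * w * t ≤ n) :
    7 ^ t * 2 ^ n ≤ 4 ^ t * L.length := by
  have h1 := many hw hL t [L] (by simp) [] (by simpa using ht)
  have h2 : num n [] [L] = 1 := by simp [num, hfull]
  rw [h2, mul_one] at h1
  exact h1.trans (Nat.mul_le_mul_left _ (cnt_le_length _ _))

end Pool.Agent.ThriftyBP.Words
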